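import Pool.Agent.L0h83.BR.Stm3

/-! The comparison estimate. -/

set_option autoImplicit false

namespace Pool.Agent.L0h83.BR

open Complex Metric Set Filter Topology MeasureTheory ComplexConjugate
open scoped ENNReal NNReal

theorem m_CMP (h1 : P1) (h3 : P3) : CMP := by
  intro p q hpq η hη
  have hp := hpq.lt
  obtain ⟨c, hc, hP1⟩ := h1 p hp
  set η' : ℝ := min (c / 2) (c * η / 2) with hη'd
  have hη' : 0 < η' := lt_min (by positivity) (by positivity)
  obtain ⟨C3, hC3, hP3⟩ := h3 p q hpq η' hη'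
  refine ⟨2 * C3 / c, by positivity, ?_⟩
  intro κ κ₂ F F₂ hF hF2 z₀ R hoff hon
  have mF := meas_an hF.sol.an
  have mF2 := meas_an hF2.sol.an
  have hsub : IntegrableOn (fun z => ‖F z - F₂ z‖ ^ p) (ball (0:ℂ) 1) :=
    int_sub' hpq.nonneg mF mF2 hF.sol.int hF2.sol.int
  have han : DifferentiableOn ℂ (fun z => F z - F₂ z) (ball (0:ℂ) 1) := hF.sol.an.sub hF2.sol.an
  have mκ : AEStronglyMeasurable κ (volume.restrict (ball (0:ℂ) 1)) := hF.km.aestronglyMeasurable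
  have mκ2 : AEStronglyMeasurable κ₂ (volume.restrict (ball (0:ℂ) 1)) := hF2.km.aestronglyMeasurable
  have a1 : ∫ z in (ball (0:ℂ) 1), conj (A p (F z)) * (F z - F₂ z) = ∫ z in (ball (0:ℂ) 1), conj (κ z) * (F z - F₂ z) :=
    hF.sol.el' hpq mκ hF.ki han hsub
  have a2 : ∫ z in (ball (0:ℂ) 1), conj (A p (F₂ z)) * (F z - F₂ z) = ∫ z in (ball (0:ℂ) 1), conj (κ₂ z) * (F z - F₂ z) :=
    hF2.sol.el' hpq mκ2 hF2.ki han hsub
  have j1 : IntegrableOn (fun z => conj (A p (F z)) * (F z - F₂ z)) (ball (0:ℂ) 1) :=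
    int_Ah hpq mF (mF.sub mF2) hF.sol.int hsub
  have j2 : IntegrableOn (fun z => conj (A p (F₂ z)) * (F z - F₂ z)) (ball (0:ℂ) 1) :=
    int_Ah hpq mF2 (mF.sub mF2) hF2.sol.int hsub
  have j3 : IntegrableOn (fun z => conj (κ z) * (F z - F₂ z)) (ball (0:ℂ) 1) :=
    int_kh hpq mκ (mF.sub mF2) hF.ki hsub
  have j4 : IntegrableOn (fun z => conj (κ₂ z) * (F z - F₂ z)) (ball (0:ℂ) 1) :=
    int_kh hpq mκ2 (mF.sub mF2) hF2.ki hsub
  have i0 : IntegrableOn (fun z => conj (A p (F z) - A p (F₂ z)) * (F z - F₂ z)) (ball (0:ℂ) 1) := by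
    refine (j1.sub j2).congr (Eventually.of_forall fun z => ?_)
    simp only [Pi.sub_apply, map_sub]; ring
  have i1 : IntegrableOn (fun z => conj (κ z - κ₂ z) * (F z - F₂ z)) (ball (0:ℂ) 1) := by
    refine (j3.sub j4).congr (Eventually.of_forall fun z => ?_)
    simp only [Pi.sub_apply, map_sub]; ring
  have e1 : ∫ z in (ball (0:ℂ) 1), conj (A p (F z) - A p (F₂ z)) * (F z - F₂ z) =
      ∫ z in (ball (0:ℂ) 1), conj (κ z - κ₂ z) * (F z - F₂ z) := by
    have b1 : ∫ z in (ball (0:ℂ) 1), conj (A p (F z) - A p (F₂ z)) * (F z - F₂ z) =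
        (∫ z in (ball (0:ℂ) 1), conj (A p (F z)) * (F z - F₂ z)) -
          ∫ z in (ball (0:ℂ) 1), conj (A p (F₂ z)) * (F z - F₂ z) := by
      rw [← integral_sub j1 j2]
      congr 1; ext z; rw [map_sub]; ring
    have b2 : ∫ z in (ball (0:ℂ) 1), conj (κ z - κ₂ z) * (F z - F₂ z) =
        (∫ z in (ball (0:ℂ) 1), conj (κ z) * (F z - F₂ z)) -
          ∫ z in (ball (0:ℂ) 1), conj (κ₂ z) * (F z - F₂ z) := by
      rw [← integral_sub j3 j4]
      congr 1; ext z; rw [map_sub]; ring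
    rw [b1, b2, a1, a2]
  have iD : IntegrableOn (fun z => dens p (F z) (F₂ z)) (ball (0:ℂ) 1) :=
    dens_int hp mF mF2 hF.sol.int hF2.sol.int
  have e2 : c * ∫ z in (ball (0:ℂ) 1), dens p (F z) (F₂ z) ≤
      (∫ z in (ball (0:ℂ) 1), conj (A p (F z) - A p (F₂ z)) * (F z - F₂ z)).re := by
    rw [← integral_const_mul]
    have : (∫ z in (ball (0:ℂ) 1), conj (A p (F z) - A p (F₂ z)) * (F z - F₂ z)).re =
        ∫ z in (ball (0:ℂ) 1), (conj (A p (F z) - A p (F₂ z)) * (F z - F₂ z)).re := (integral_re i0).symm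
    rw [this]
    exact integral_mono (iD.const_mul c) i0.re fun z => hP1 (F z) (F₂ z)
  have hSD : S z₀ R ⊆ (ball (0:ℂ) 1) := inter_subset_right
  have hSm : MeasurableSet (S z₀ R) := measurableSet_ball.inter measurableSet_ball
  have iDS : IntegrableOn (fun z => dens p (F z) (F₂ z)) (S z₀ R) := iD.mono_set hSD
  have iκS : IntegrableOn (fun z => ‖κ z‖ ^ q) (S z₀ R) := hF.ki.mono_set hSD
  have iFS : IntegrableOn (fun z => ‖F z‖ ^ p) (S z₀ R) := hF.sol.int.mono_set hSD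
  have e3 : ‖∫ z in (ball (0:ℂ) 1), conj (κ z - κ₂ z) * (F z - F₂ z)‖ ≤
      ∫ z in S z₀ R, (η' * dens p (F z) (F₂ z) + C3 * ‖κ z‖ ^ q + η' * ‖F z‖ ^ p) := by
    have hs : ∫ z in S z₀ R, conj (κ z - κ₂ z) * (F z - F₂ z) =
        ∫ z in (ball (0:ℂ) 1), conj (κ z - κ₂ z) * (F z - F₂ z) := by
      symm
      apply setIntegral_eq_of_subset_of_forall_sdiff_eq_zero measurableSet_ball hSD
      intro z hz
      rw [hoff z hz.1 hz.2, sub_self, map_zero, zero_mul]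
    rw [← hs]
    refine (norm_integral_le_integral_norm _).trans ?_
    apply setIntegral_mono_on (i1.mono_set hSD).norm
      (((iDS.const_mul η').add (iκS.const_mul C3)).add (iFS.const_mul η')) hSm
    intro z hz
    rw [hon z hz, sub_zero, norm_mul, RCLike.norm_conj]
    exact hP3 (F z) (F₂ z) ‖κ z‖ (norm_nonneg _)
  have e4 : ∫ z in S z₀ R, (η' * dens p (F z) (F₂ z) + C3 * ‖κ z‖ ^ q + η' * ‖F z‖ ^ p) =
      η' * (∫ z in S z₀ R, dens p (F z) (F₂ z)) + C3 * (∫ z in S z₀ R, ‖κ z‖ ^ q) +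
        η' * (∫ z in S z₀ R, ‖F z‖ ^ p) := by
    have b1 : ∫ z in S z₀ R, (η' * dens p (F z) (F₂ z) + C3 * ‖κ z‖ ^ q + η' * ‖F z‖ ^ p) =
        (∫ z in S z₀ R, (η' * dens p (F z) (F₂ z) + C3 * ‖κ z‖ ^ q)) +
          ∫ z in S z₀ R, η' * ‖F z‖ ^ p :=
      integral_add ((iDS.const_mul η').add (iκS.const_mul C3)) (iFS.const_mul η')
    have b2 : ∫ z in S z₀ R, (η' * dens p (F z) (F₂ z) + C3 * ‖κ z‖ ^ q) =
        (∫ z in S z₀ R, η' * dens p (F z) (F₂ z)) + ∫ z in S z₀ R, C3 * ‖κ z‖ ^ q :=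
      integral_add (iDS.const_mul η') (iκS.const_mul C3)
    rw [b1, b2, integral_const_mul, integral_const_mul, integral_const_mul]
  have e5 : ∫ z in S z₀ R, dens p (F z) (F₂ z) ≤ ∫ z in (ball (0:ℂ) 1), dens p (F z) (F₂ z) :=
    setIntegral_mono_set iD (Eventually.of_forall fun z => dens_nonneg _ _ _)
      (Eventually.of_forall hSD)
  have hX0 : 0 ≤ ∫ z in S z₀ R, dens p (F z) (F₂ z) :=
    integral_nonneg fun z => dens_nonneg _ _ _
  have hK0 : 0 ≤ ∫ z in S z₀ R, ‖κ z‖ ^ q := integral_nonneg fun z => by positivity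
  have hF0 : 0 ≤ ∫ z in S z₀ R, ‖F z‖ ^ p := integral_nonneg fun z => by positivity
  have e6 := (Complex.re_le_norm _).trans e3
  rw [← e1, e4] at e6
  have e7 := e2.trans e6
  set X := ∫ z in (ball (0:ℂ) 1), dens p (F z) (F₂ z)
  set XS := ∫ z in S z₀ R, dens p (F z) (F₂ z)
  set KS := ∫ z in S z₀ R, ‖κ z‖ ^ q
  set FS := ∫ z in S z₀ R, ‖F z‖ ^ p
  have g1 : η' * XS ≤ c / 2 * X := mul_le_mul (min_le_left _ _) e5 hX0 (by positivity)
  have g2 : η' * FS ≤ c * η / 2 * FS := mul_le_mul_of_nonneg_right (min_le_right _ _) hF0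
  have e8 : X ≤ 2 * C3 / c * KS + η * FS := by
    have : c / 2 * X ≤ C3 * KS + c * η / 2 * FS := by linarith
    have h2 : c / 2 * (2 * C3 / c * KS + η * FS) = C3 * KS + c * η / 2 * FS := by
      field_simp
    rw [← h2] at this
    exact le_of_mul_le_mul_left this (by positivity)
  -- back to lintegrals
  have l1 : ∫⁻ z in (ball (0:ℂ) 1), ENNReal.ofReal (dens p (F z) (F₂ z)) = ENNReal.ofReal X :=
    (ofReal_integral_eq_lintegral_ofReal iD
      (Eventually.of_forall fun z => dens_nonneg _ _ _)).symm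
  have l2 : ∫⁻ z in S z₀ R, ‖κ z‖ₑ ^ q = ENNReal.ofReal KS := by
    simp_rw [enorm_rpow_eq hpq.symm.nonneg]
    exact (ofReal_integral_eq_lintegral_ofReal iκS
      (Eventually.of_forall fun z => by positivity)).symm
  have l3 : ∫⁻ z in S z₀ R, ‖F z‖ₑ ^ p = ENNReal.ofReal FS := by
    simp_rw [enorm_rpow_eq hpq.nonneg]
    exact (ofReal_integral_eq_lintegral_ofReal iFS
      (Eventually.of_forall fun z => by positivity)).symm
  rw [l1, l2, l3, ← ENNReal.ofReal_mul (by positivity), ← ENNReal.ofReal_mul hη.le,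
    ← ENNReal.ofReal_add (by positivity) (by positivity)]
  exact ENNReal.ofReal_le_ofReal e8

end Pool.Agent.L0h83.BR
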