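import Pool.Agent.L0h83.BR.Stm3

/-! The decomposition in every box. -/

set_option autoImplicit false

namespace Pool.Agent.L0h83.BR

open Complex Metric Set Filter Topology MeasureTheory ComplexConjugate
open scoped ENNReal NNReal

namespace C2

lemma add_pow' {q : ℝ} (hq : 1 ≤ q) (a b : ℝ≥0∞) : (a + b) ^ q ≤ 2 ^ q * (a ^ q + b ^ q) := by
  refine (ENNReal.rpow_add_le_mul_rpow_add_rpow a b hq).trans ?_
  gcongr
  · norm_num
  · linarith

lemma two_rpow (q : ℝ) : (2:ℝ≥0∞) ^ q = ENNReal.ofReal (2 ^ q) := by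
  rw [← ENNReal.ofReal_rpow_of_pos (by norm_num : (0:ℝ) < 2)]
  norm_num

lemma ker_sq (z w : ℂ) : ‖1 - z * conj w‖ ^ 2 = ‖z - w‖ ^ 2 + Y z * Y w := by
  unfold Y
  rw [← Complex.normSq_eq_norm_sq, ← Complex.normSq_eq_norm_sq, ← Complex.normSq_eq_norm_sq,
    ← Complex.normSq_eq_norm_sq]
  simp only [Complex.normSq_apply, Complex.sub_re, Complex.sub_im, Complex.mul_re, Complex.mul_im,
    Complex.conj_re, Complex.conj_im, Complex.one_re, Complex.one_im]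
  ring

lemma ker_le {z w : ℂ} (hz : z ∈ (ball (0:ℂ) 1)) (hw : w ∈ (ball (0:ℂ) 1)) : ‖z - w‖ ≤ ‖1 - z * conj w‖ := by
  have h := ker_sq z w
  have h1 := Y_pos hz
  have h2 := Y_pos hw
  have h3 : 0 < Y z * Y w := mul_pos h1 h2
  exact (sq_le_sq₀ (norm_nonneg _) (norm_nonneg _)).1 (by linarith)

lemma K_far {z w z₀ : ℂ} (hz : z ∈ (ball (0:ℂ) 1)) (hw : w ∈ (ball (0:ℂ) 1)) {r : ℝ} (hr : 0 < r) (h : 2 * r ≤ ‖w - z₀‖)
    (h' : ‖z - z₀‖ ≤ r) : K z w ≤ 4 / ‖w - z₀‖ ^ 2 := by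
  have h1 : ‖w - z₀‖ / 2 ≤ ‖z - w‖ := by
    have : ‖w - z₀‖ ≤ ‖z - w‖ + ‖z - z₀‖ := by
      calc ‖w - z₀‖ = ‖(z - z₀) - (z - w)‖ := by congr 1; ring
        _ ≤ ‖z - z₀‖ + ‖z - w‖ := norm_sub_le _ _
        _ = _ := by ring
    linarith
  have h2 := h1.trans (ker_le hz hw)
  have h0 : 0 < ‖w - z₀‖ / 2 := by linarith
  unfold K
  calc 1 / (‖z - w‖ * ‖1 - z * conj w‖) ≤ 1 / (‖w - z₀‖ / 2 * (‖w - z₀‖ / 2)) := by
        apply one_div_le_one_div_of_le (by positivity)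
        exact mul_le_mul h1 h2 h0.le (h0.le.trans h1)
    _ = 4 / ‖w - z₀‖ ^ 2 := by field_simp; ring

lemma vol_S (z₀ : ℂ) {ρ : ℝ} (hρ : 0 < ρ) : volume (S z₀ ρ) ≤ ENNReal.ofReal (Real.pi * ρ ^ 2) := by
  refine (measure_mono (inter_subset_left)).trans ?_
  rw [Complex.volume_ball, mul_comm, ENNReal.ofReal_mul Real.pi_pos.le, ENNReal.ofReal_pow hρ.le]
  gcongr
  rw [← NNReal.coe_real_pi, ENNReal.ofReal_coe_nnreal]

lemma far_bound {q : ℝ} (hq : 1 < q) {Φ : ℂ → ℝ≥0∞} (hΦ : Measurable Φ) {z₀ : ℂ}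
    {R lam θ y : ℝ} (hR : 0 < R) (hlam : 0 < lam) (hθ : 0 ≤ θ) (hy0 : 0 < y) (hy1 : y < 1)
    (hI : ∀ j : ℕ, ∫⁻ w in S z₀ (12 * R * 2 ^ j), Φ w ^ q ≤
      ENNReal.ofReal (lam * θ * y ^ j * (12 * R * 2 ^ j) ^ 2))
    {z : ℂ} (hz : z ∈ S z₀ (3 * R)) :
    ∫⁻ w in (ball (0:ℂ) 1) \ ball z₀ (6 * R), ENNReal.ofReal (K z w) * Φ w ≤
      ENNReal.ofReal (16 * (Real.pi ^ (q - 1) * (lam * θ)) ^ (1 / q) / (1 - y ^ (1 / q))) := by
  have hq0 : 0 < q := by linarith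
  set x : ℝ := y ^ (1 / q) with hx
  have hx0 : 0 < x := Real.rpow_pos_of_pos hy0 _
  have hx1 : x < 1 := Real.rpow_lt_one hy0.le hy1 (by positivity)
  set B : ℝ := 16 * (Real.pi ^ (q - 1) * (lam * θ)) ^ (1 / q) with hB
  have hB0 : 0 ≤ B := by have := Real.pi_pos; positivity
  set ρ : ℕ → ℝ := fun j => 12 * R * 2 ^ j with hρ
  have hρ0 : ∀ j, 0 < ρ j := fun j => by simp only [hρ]; positivity
  have hzD := S_sub _ _ hz
  have hzr : ‖z - z₀‖ ≤ 3 * R := by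
    have : dist z z₀ < 3 * R := hz.1
    rw [dist_eq_norm] at this
    exact this.le
  have hpt : ∀ w ∈ (ball (0:ℂ) 1) \ ball z₀ (6 * R), ENNReal.ofReal (K z w) * Φ w ≤
      ∑' j, ENNReal.ofReal (16 / ρ j ^ 2) * (S z₀ (ρ j)).indicator Φ w := by
    intro w hw
    have hwD : w ∈ (ball (0:ℂ) 1) := hw.1
    have hwr : 6 * R ≤ ‖w - z₀‖ := by
      have := hw.2
      rw [mem_ball, dist_eq_norm, not_lt] at this
      exact this
    obtain ⟨j, hj1, hj2⟩ := exists_nat_pow_near (x := ‖w - z₀‖ / (6 * R)) (y := (2:ℝ))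
      (by rw [le_div_iff₀ (by positivity)]; linarith) (by norm_num)
    rw [le_div_iff₀ (by positivity)] at hj1
    rw [div_lt_iff₀ (by positivity), pow_succ] at hj2
    have hKK := K_far hzD hwD (r := 3 * R) (by positivity) (by linarith) hzr
    have hmem : w ∈ S z₀ (ρ j) := by
      refine ⟨?_, hwD⟩
      rw [mem_ball, dist_eq_norm]
      simp only [hρ]
      linarith
    refine le_trans ?_ (ENNReal.le_tsum j)
    rw [indicator_of_mem hmem]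
    gcongr
    refine hKK.trans ?_
    have h5 : ρ j / 2 ≤ ‖w - z₀‖ := by simp only [hρ]; linarith
    calc 4 / ‖w - z₀‖ ^ 2 ≤ 4 / (ρ j / 2) ^ 2 := by
          have := hρ0 j
          gcongr
      _ = 16 / ρ j ^ 2 := by
          have := (hρ0 j).ne'
          field_simp; ring
  have hterm : ∀ j, ENNReal.ofReal (16 / ρ j ^ 2) * ∫⁻ w in S z₀ (ρ j), Φ w ≤
      ENNReal.ofReal (B * x ^ j) := by
    intro j
    have hρj := hρ0 j
    set J := ∫⁻ w in S z₀ (ρ j), Φ w with hJ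
    have h1 : J ^ q ≤ ENNReal.ofReal ((Real.pi * ρ j ^ 2) ^ (q - 1) *
        (lam * θ * y ^ j * ρ j ^ 2)) := by
      refine (jensen_lint hq hΦ.aemeasurable).trans ?_
      rw [Measure.restrict_apply_univ, ENNReal.ofReal_mul (by have := Real.pi_pos; positivity),
        ← ENNReal.ofReal_rpow_of_nonneg (by have := Real.pi_pos; positivity) (by linarith)]
      gcongr
      · exact vol_S z₀ hρj
      · exact hI j
    have h2 : J ≤ ENNReal.ofReal (((Real.pi * ρ j ^ 2) ^ (q - 1) *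
        (lam * θ * y ^ j * ρ j ^ 2)) ^ (1 / q)) := by
      rw [← ENNReal.ofReal_rpow_of_nonneg (by have := Real.pi_pos; positivity) (by positivity)]
      calc J = (J ^ q) ^ (1 / q) := by
            rw [← ENNReal.rpow_mul, mul_one_div_cancel hq0.ne', ENNReal.rpow_one]
        _ ≤ _ := ENNReal.rpow_le_rpow h1 (by positivity)
    calc ENNReal.ofReal (16 / ρ j ^ 2) * J ≤ ENNReal.ofReal (16 / ρ j ^ 2) *
          ENNReal.ofReal (((Real.pi * ρ j ^ 2) ^ (q - 1) *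
        (lam * θ * y ^ j * ρ j ^ 2)) ^ (1 / q)) := by gcongr
      _ = ENNReal.ofReal (B * x ^ j) := by
          rw [← ENNReal.ofReal_mul (by positivity)]
          congr 1
          have hpi := Real.pi_pos
          have e1 : (Real.pi * ρ j ^ 2) ^ (q - 1) * (lam * θ * y ^ j * ρ j ^ 2) =
              (Real.pi ^ (q - 1) * (lam * θ)) * y ^ j * (ρ j ^ 2) ^ q := by
            rw [Real.mul_rpow hpi.le (by positivity), Real.rpow_sub_one (x := ρ j ^ 2) (by positivity)]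
            field_simp
          rw [e1, Real.mul_rpow (by positivity) (by positivity),
            Real.mul_rpow (by positivity) (by positivity), ← Real.rpow_mul (by positivity) q,
            mul_one_div_cancel hq0.ne', Real.rpow_one, ← Real.rpow_natCast y j,
            ← Real.rpow_mul hy0.le, mul_comm (j:ℝ), Real.rpow_mul hy0.le, Real.rpow_natCast]
          field_simp
          rw [hB, hx, ← mul_assoc (Real.pi ^ (q - 1))]
  calc ∫⁻ w in (ball (0:ℂ) 1) \ ball z₀ (6 * R), ENNReal.ofReal (K z w) * Φ w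
      ≤ ∫⁻ w in (ball (0:ℂ) 1) \ ball z₀ (6 * R),
        ∑' j, ENNReal.ofReal (16 / ρ j ^ 2) * (S z₀ (ρ j)).indicator Φ w :=
        setLIntegral_mono' (measurableSet_ball.diff measurableSet_ball) hpt
    _ ≤ ∫⁻ w, ∑' j, ENNReal.ofReal (16 / ρ j ^ 2) * (S z₀ (ρ j)).indicator Φ w :=
        setLIntegral_le_lintegral _ _
    _ = ∑' j, ∫⁻ w, ENNReal.ofReal (16 / ρ j ^ 2) * (S z₀ (ρ j)).indicator Φ w := by
        apply lintegral_tsum
        intro j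
        exact ((hΦ.indicator (S_meas _ _)).const_mul _).aemeasurable
    _ = ∑' j, ENNReal.ofReal (16 / ρ j ^ 2) * ∫⁻ w in S z₀ (ρ j), Φ w := by
        congr 1; ext j
        rw [lintegral_const_mul _ (hΦ.indicator (S_meas _ _)), lintegral_indicator (S_meas _ _)]
    _ ≤ ∑' j, ENNReal.ofReal (B * x ^ j) := ENNReal.tsum_le_tsum hterm
    _ = ENNReal.ofReal (∑' j, B * x ^ j) := by
        rw [ENNReal.ofReal_tsum_of_nonneg]
        · intro j; positivity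
        · exact (summable_geometric_of_lt_one hx0.le hx1).mul_left _
    _ = _ := by
        rw [tsum_mul_left, tsum_geometric_of_lt_one hx0.le hx1, div_eq_mul_inv]

/-- `|g - g₂|` -/
noncomputable def Ph (p : ℝ) (F F₂ : ℂ → ℂ) (w : ℂ) : ℝ≥0∞ := ‖A p (F w) - A p (F₂ w)‖ₑ

/-- `|φ - φ₂|` -/
noncomputable def dph (p : ℝ) (κ F κ₂ F₂ : ℂ → ℂ) (w : ℂ) : ℝ≥0∞ :=
  ‖ph p κ F w - ph p κ₂ F₂ w‖ₑ

variable {p q : ℝ} {κ F κ₂ F₂ : ℂ → ℂ}

lemma Ph_meas (hF : Measurable F) (hF₂ : Measurable F₂) : Measurable (Ph p F F₂) :=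
  (((A_meas p).comp hF).sub ((A_meas p).comp hF₂)).enorm

lemma dph_meas (h : Dat p q κ F) (h₂ : Dat p q κ₂ F₂) : Measurable (dph p κ F κ₂ F₂) :=
  (h.phm.sub h₂.phm).enorm

lemma dph_le (w : ℂ) : dph p κ F κ₂ F₂ w ≤ Ph p F F₂ w + ‖κ w - κ₂ w‖ₑ := by
  unfold dph Ph ph
  rw [← map_sub, ← ofReal_norm, RCLike.norm_conj, ofReal_norm]
  have e : A p (F w) - κ w - (A p (F₂ w) - κ₂ w) =
      (A p (F w) - A p (F₂ w)) + -(κ w - κ₂ w) := by ring
  rw [e]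
  refine (enorm_add_le _ _).trans ?_
  rw [enorm_neg]

lemma dph_comm (w : ℂ) : dph p κ F κ₂ F₂ w = ‖ph p κ₂ F₂ w - ph p κ F w‖ₑ := by
  unfold dph
  rw [← ofReal_norm, norm_sub_rev, ofReal_norm]

lemma Ph_int {m C₂ η : ℝ} (hpq : p.HolderConjugate q) (hC₂ : 0 < C₂) (hη : 0 < η)
    (hP2 : ∀ a b : ℂ, ‖A p a - A p b‖ ^ q ≤ C₂ * η ^ (-m) * dens p a b + η * ‖a‖ ^ p)
    (hF : Measurable F) (hF₂ : Measurable F₂) {T : Set ℂ} (hT : MeasurableSet T) (hTD : T ⊆ (ball (0:ℂ) 1)) :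
    ∫⁻ w in T, Ph p F F₂ w ^ q ≤
      ENNReal.ofReal (C₂ * η ^ (-m)) * (∫⁻ z in (ball (0:ℂ) 1), ENNReal.ofReal (dens p (F z) (F₂ z))) +
        ENNReal.ofReal η * ∫⁻ z in T, ‖F z‖ₑ ^ p := by
  have hdm : Measurable fun z => ENNReal.ofReal (dens p (F z) (F₂ z)) :=
    ((dens_meas p).comp (hF.prodMk hF₂)).ennreal_ofReal
  calc ∫⁻ w in T, Ph p F F₂ w ^ q ≤ ∫⁻ w in T, (ENNReal.ofReal (C₂ * η ^ (-m)) *
        ENNReal.ofReal (dens p (F w) (F₂ w)) + ENNReal.ofReal η * ‖F w‖ₑ ^ p) := by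
        apply setLIntegral_mono' hT
        intro w _
        unfold Ph
        rw [enorm_rpow_eq hpq.symm.nonneg, enorm_rpow_eq hpq.nonneg,
          ← ENNReal.ofReal_mul (by positivity), ← ENNReal.ofReal_mul hη.le,
          ← ENNReal.ofReal_add (mul_nonneg (by positivity) (dens_nonneg _ _ _)) (by positivity)]
        exact ENNReal.ofReal_le_ofReal (hP2 _ _)
    _ = ENNReal.ofReal (C₂ * η ^ (-m)) * (∫⁻ z in T, ENNReal.ofReal (dens p (F z) (F₂ z))) +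
        ENNReal.ofReal η * ∫⁻ z in T, ‖F z‖ₑ ^ p := by
        rw [lintegral_add_left (hdm.const_mul _), lintegral_const_mul _ hdm,
          lintegral_const_mul _ (hF.enorm.pow_const p)]
    _ ≤ _ := by
        gcongr

lemma near_int (hpq : p.HolderConjugate q) {C₄ : ℝ≥0}
    (hC₄ : ∀ f : ℂ → ℝ≥0∞, Measurable f → ∫⁻ z in (ball (0:ℂ) 1), (∫⁻ w in (ball (0:ℂ) 1), ENNReal.ofReal (K z w) * f w) ^ q ≤
      C₄ * ∫⁻ w in (ball (0:ℂ) 1), f w ^ q) (h : Dat p q κ F) (h₂ : Dat p q κ₂ F₂) {z₀ : ℂ} {R : ℝ}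
    (hκ1 : ∀ z ∈ (ball (0:ℂ) 1), z ∉ S z₀ R → κ₂ z = κ z) (hκ2 : ∀ z ∈ S z₀ R, κ₂ z = 0) :
    ∫⁻ z in (ball (0:ℂ) 1), KP ((S z₀ (6 * R)).indicator (dph p κ F κ₂ F₂)) z ^ q ≤
      C₄ * (2 ^ q * ((∫⁻ w in S z₀ (6 * R), Ph p F F₂ w ^ q) + ∫⁻ w in S z₀ R, ‖κ w‖ₑ ^ q)) := by
  have hq := hpq.symm.lt
  refine (hC₄ _ ((dph_meas h h₂).indicator (S_meas _ _))).trans ?_
  gcongr
  calc ∫⁻ w in (ball (0:ℂ) 1), (S z₀ (6 * R)).indicator (dph p κ F κ₂ F₂) w ^ q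
      ≤ ∫⁻ w in (ball (0:ℂ) 1), 2 ^ q * ((S z₀ (6 * R)).indicator (fun w => Ph p F F₂ w ^ q) w +
          (S z₀ R).indicator (fun w => ‖κ w‖ₑ ^ q) w) := by
        apply setLIntegral_mono' measurableSet_ball
        intro w hw
        by_cases h1 : w ∈ S z₀ (6 * R)
        · rw [indicator_of_mem h1, indicator_of_mem h1]
          refine (ENNReal.rpow_le_rpow (dph_le w) hpq.symm.nonneg).trans ?_
          refine (add_pow' hq.le _ _).trans ?_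
          gcongr
          by_cases h2 : w ∈ S z₀ R
          · rw [indicator_of_mem h2, hκ2 w h2, sub_zero]
          · rw [hκ1 w hw h2, sub_self, enorm_zero, ENNReal.zero_rpow_of_pos (by linarith)]
            exact zero_le
        · rw [indicator_of_notMem h1, ENNReal.zero_rpow_of_pos (by linarith)]
          exact zero_le
    _ = 2 ^ q * ((∫⁻ w in (ball (0:ℂ) 1), (S z₀ (6 * R)).indicator (fun w => Ph p F F₂ w ^ q) w) +
          ∫⁻ w in (ball (0:ℂ) 1), (S z₀ R).indicator (fun w => ‖κ w‖ₑ ^ q) w) := by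
        have hm1 : Measurable ((S z₀ (6 * R)).indicator (fun w => Ph p F F₂ w ^ q)) :=
          ((Ph_meas h.Fm h₂.Fm).pow_const q).indicator (S_meas _ _)
        have hm2 : Measurable ((S z₀ R).indicator (fun w => ‖κ w‖ₑ ^ q)) :=
          (h.km.enorm.pow_const q).indicator (S_meas _ _)
        rw [lintegral_const_mul]
        · rw [lintegral_add_left hm1]
        · exact hm1.add hm2
    _ ≤ _ := by
        gcongr 2 ^ q * (?_ + ?_)
        · refine (setLIntegral_le_lintegral _ _).trans ?_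
          rw [lintegral_indicator (S_meas _ _)]
        · refine (setLIntegral_le_lintegral _ _).trans ?_
          rw [lintegral_indicator (S_meas _ _)]

lemma far_le {z₀ : ℂ} {R : ℝ} (hR : 0 < R)
    (hκ1 : ∀ z ∈ (ball (0:ℂ) 1), z ∉ S z₀ R → κ₂ z = κ z) (z : ℂ) :
    KP ((S z₀ (6 * R))ᶜ.indicator (dph p κ F κ₂ F₂)) z ≤
      ∫⁻ w in (ball (0:ℂ) 1) \ ball z₀ (6 * R), ENNReal.ofReal (K z w) * Ph p F F₂ w := by
  unfold KP
  calc ∫⁻ w in (ball (0:ℂ) 1), ENNReal.ofReal (K z w) * (S z₀ (6 * R))ᶜ.indicator (dph p κ F κ₂ F₂) w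
      ≤ ∫⁻ w in (ball (0:ℂ) 1), ((ball (0:ℂ) 1) \ ball z₀ (6 * R)).indicator
          (fun w => ENNReal.ofReal (K z w) * Ph p F F₂ w) w := by
        apply setLIntegral_mono' measurableSet_ball
        intro w hw
        by_cases h1 : w ∈ ball z₀ (6 * R)
        · have h2 : w ∉ (S z₀ (6 * R))ᶜ := by
            simp only [mem_compl_iff, not_not]
            exact ⟨h1, hw⟩
          rw [indicator_of_notMem h2, mul_zero]
          exact zero_le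
        · have h2 : w ∈ (S z₀ (6 * R))ᶜ := fun h3 => h1 h3.1
          have h3 : w ∈ (ball (0:ℂ) 1) \ ball z₀ (6 * R) := ⟨hw, h1⟩
          rw [indicator_of_mem h2, indicator_of_mem h3]
          gcongr
          have h4 : w ∉ S z₀ R := by
            intro h4
            exact h1 (ball_subset_ball (by linarith) h4.1)
          refine (dph_le w).trans ?_
          rw [hκ1 w hw h4, sub_self, enorm_zero, add_zero]
    _ ≤ _ := by
        refine (setLIntegral_le_lintegral _ _).trans ?_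
        rw [lintegral_indicator (measurableSet_ball.diff measurableSet_ball)]

lemma comb {C₂ e2 m δ lam R ρ y : ℝ} {j : ℕ} (hC₂ : 0 < C₂) (he2 : 0 < e2) (hδ : 0 < δ)
    (hlam : 0 < lam) (hy0 : 0 < y) (hym : y ^ (1 + m) = 1 / 2) (hρ : ρ = 12 * R * 2 ^ j) :
    C₂ * (e2 * y ^ j) ^ (-m) * (δ * lam * R ^ 2) + e2 * y ^ j * (lam * ρ ^ 2) ≤
      lam * (C₂ * e2 ^ (-m) * δ + e2) * y ^ j * ρ ^ 2 := by
  have hyj : 0 < y ^ j := by positivity
  have h2j : (1:ℝ) ≤ 2 ^ j := one_le_pow₀ (by norm_num)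
  have e : (e2 * y ^ j) ^ (-m) = e2 ^ (-m) * (y ^ j * 2 ^ j) := by
    rw [Real.mul_rpow he2.le hyj.le]
    congr 1
    have h1 : (y ^ j) ^ (-m) = y ^ j * ((y ^ (1 + m)) ^ j)⁻¹ := by
      rw [← Real.rpow_natCast (y ^ (1 + m)) j, ← Real.rpow_mul hy0.le, ← Real.rpow_natCast y j,
        ← Real.rpow_mul hy0.le, ← Real.rpow_neg hy0.le, ← Real.rpow_add hy0]
      congr 1; ring
    rw [h1, hym, one_div, inv_pow, inv_inv]
  rw [e]
  have hX : 0 < C₂ * e2 ^ (-m) * δ := by positivity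
  have h3 : 2 ^ j * R ^ 2 ≤ ρ ^ 2 := by
    rw [hρ]
    have h4 : (2:ℝ) ^ j * R ^ 2 ≤ 2 ^ j * (2 ^ j * (144 * R ^ 2)) := by
      have : R ^ 2 ≤ 2 ^ j * (144 * R ^ 2) := by nlinarith [sq_nonneg R]
      gcongr
    calc (2:ℝ) ^ j * R ^ 2 ≤ 2 ^ j * (2 ^ j * (144 * R ^ 2)) := h4
      _ = _ := by ring
  have h5 : (C₂ * e2 ^ (-m) * δ) * lam * y ^ j * (2 ^ j * R ^ 2) ≤
      (C₂ * e2 ^ (-m) * δ) * lam * y ^ j * ρ ^ 2 := by gcongr
  calc C₂ * (e2 ^ (-m) * (y ^ j * 2 ^ j)) * (δ * lam * R ^ 2) + e2 * y ^ j * (lam * ρ ^ 2)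
      = (C₂ * e2 ^ (-m) * δ) * lam * y ^ j * (2 ^ j * R ^ 2) + e2 * y ^ j * (lam * ρ ^ 2) := by
        ring
    _ ≤ (C₂ * e2 ^ (-m) * δ) * lam * y ^ j * ρ ^ 2 + e2 * y ^ j * (lam * ρ ^ 2) := by gcongr
    _ = _ := by ring

/-- smallness of the error -/
lemma small (hpq : p.HolderConjugate q) (hC : CMP) (h2 : P2) (h4 : G4) {η : ℝ} (hη : 0 < η) :
    ∃ γ : ℝ, 0 < γ ∧ ∀ κ F κ₂ F₂ : ℂ → ℂ, Dat p q κ F → Dat p q κ₂ F₂ →
      ∀ (z₀ : ℂ) (R lam : ℝ), 0 < R → 0 < lam →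
      (∀ z ∈ (ball (0:ℂ) 1), z ∉ S z₀ R → κ₂ z = κ z) → (∀ z ∈ S z₀ R, κ₂ z = 0) →
      (∀ ρ, R ≤ ρ → ∫⁻ w in S z₀ ρ, Gf p q κ F w ≤ ENNReal.ofReal (lam * ρ ^ 2)) →
      (∫⁻ w in S z₀ R, ‖κ w‖ₑ ^ q ≤ ENNReal.ofReal (γ * lam * R ^ 2)) →
      ∫⁻ w in S z₀ (3 * R), (Ph p F F₂ w ^ q + KP (dph p κ F κ₂ F₂) w ^ q) ≤
        ENNReal.ofReal (η * lam * R ^ 2) := by
  have hq := hpq.symm.lt
  have hq0 : 0 < q := by linarith
  have hpi := Real.pi_pos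
  obtain ⟨m, C₂, hm, hC₂, hP2⟩ := h2 p q hpq
  obtain ⟨C₄, hC₄⟩ := h4 q hq
  obtain ⟨y, hy0, hy1, hym⟩ : ∃ y : ℝ, 0 < y ∧ y < 1 ∧ y ^ (1 + m) = 1 / 2 := by
    refine ⟨(1 / 2 : ℝ) ^ (1 / (1 + m)), by positivity,
      Real.rpow_lt_one (by norm_num) (by norm_num) (by positivity), ?_⟩
    rw [← Real.rpow_mul (by norm_num), one_div_mul_cancel (by positivity), Real.rpow_one]
  set x : ℝ := y ^ (1 / q) with hx
  have hx0 : 0 < x := Real.rpow_pos_of_pos hy0 _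
  have hx1 : x < 1 := Real.rpow_lt_one hy0.le hy1 (by positivity)
  have h1x : 0 < 1 - x := by linarith
  set Cf : ℝ := 16 ^ q * Real.pi ^ (q - 1) * (9 * Real.pi) / (1 - x) ^ q with hCf
  have hCf0 : 0 < Cf := by positivity
  set Ct : ℝ := 9 + 2 ^ q * ((C₄:ℝ) * (2 ^ q * 36) + Cf) with hCt
  have hCt0 : 9 ≤ Ct := by
    have : 0 ≤ 2 ^ q * ((C₄:ℝ) * (2 ^ q * 36) + Cf) := by positivity
    linarith
  obtain ⟨e2, he2⟩ : ∃ e2 : ℝ, e2 = min 1 (η / (3 * Ct)) := ⟨_, rfl⟩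
  have he20 : 0 < e2 := by rw [he2]; positivity
  have he21 : e2 ≤ 1 := by rw [he2]; exact min_le_left _ _
  have he22 : e2 ≤ η / (3 * Ct) := by rw [he2]; exact min_le_right _ _
  obtain ⟨δ, hδ⟩ : ∃ δ : ℝ, δ = η / (3 * Ct * (C₂ * e2 ^ (-m))) := ⟨_, rfl⟩
  have hδ0 : 0 < δ := by rw [hδ]; positivity
  obtain ⟨C1, hC1, hCMP⟩ := hC p q hpq (δ / 2) (by positivity)
  obtain ⟨γ, hγ⟩ : ∃ γ : ℝ, γ = min (δ / (2 * C1)) (η / (3 * Ct)) := ⟨_, rfl⟩
  have hγ0 : 0 < γ := by rw [hγ]; positivity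
  have hγ1 : C1 * γ ≤ δ / 2 := by
    have : γ ≤ δ / (2 * C1) := by rw [hγ]; exact min_le_left _ _
    rw [le_div_iff₀ (by positivity)] at this
    linarith
  have hγ2 : γ ≤ η / (3 * Ct) := by rw [hγ]; exact min_le_right _ _
  refine ⟨γ, hγ0, ?_⟩
  intro κ F κ₂ F₂ h h₂ z₀ R lam hR hlam hκ1 hκ2 hG hf
  obtain ⟨θ, hθ⟩ : ∃ θ : ℝ, θ = C₂ * e2 ^ (-m) * δ + e2 := ⟨_, rfl⟩
  have hθ0 : 0 < θ := by rw [hθ]; positivity
  have hfin : Ct * (θ + γ) ≤ η := by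
    have h1 : C₂ * e2 ^ (-m) * δ = η / (3 * Ct) := by
      rw [hδ]; field_simp
    have h3 : θ + γ ≤ 3 * (η / (3 * Ct)) := by rw [hθ, h1]; linarith
    calc Ct * (θ + γ) ≤ Ct * (3 * (η / (3 * Ct))) := by gcongr
      _ = η := by field_simp
  have hFp : ∀ ρ, R ≤ ρ → ∫⁻ w in S z₀ ρ, ‖F w‖ₑ ^ p ≤ ENNReal.ofReal (lam * ρ ^ 2) := by
    intro ρ hρ
    refine (lintegral_mono fun w => ?_).trans (hG ρ hρ)
    exact le_self_add
  have hE : ∫⁻ z in (ball (0:ℂ) 1), ENNReal.ofReal (dens p (F z) (F₂ z)) ≤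
      ENNReal.ofReal (δ * lam * R ^ 2) := by
    refine (hCMP κ κ₂ F F₂ h h₂ z₀ R hκ1 hκ2).trans ?_
    calc ENNReal.ofReal C1 * (∫⁻ z in S z₀ R, ‖κ z‖ₑ ^ q) +
          ENNReal.ofReal (δ / 2) * (∫⁻ z in S z₀ R, ‖F z‖ₑ ^ p)
        ≤ ENNReal.ofReal C1 * ENNReal.ofReal (γ * lam * R ^ 2) +
          ENNReal.ofReal (δ / 2) * ENNReal.ofReal (lam * R ^ 2) := by
          gcongr
          exact hFp R le_rfl
      _ = ENNReal.ofReal (C1 * (γ * lam * R ^ 2) + δ / 2 * (lam * R ^ 2)) := by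
          rw [← ENNReal.ofReal_mul hC1.le, ← ENNReal.ofReal_mul (by positivity),
            ← ENNReal.ofReal_add (by positivity) (by positivity)]
      _ ≤ _ := by
          apply ENNReal.ofReal_le_ofReal
          have h5 : C1 * γ * (lam * R ^ 2) ≤ δ / 2 * (lam * R ^ 2) := by gcongr
          linarith
  have hI : ∀ η' : ℝ, 0 < η' → η' ≤ 1 → ∀ ρ, R ≤ ρ → ∫⁻ w in S z₀ ρ, Ph p F F₂ w ^ q ≤
      ENNReal.ofReal (C₂ * η' ^ (-m) * (δ * lam * R ^ 2) + η' * (lam * ρ ^ 2)) := by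
    intro η' h1 h2' ρ hρ
    calc ∫⁻ w in S z₀ ρ, Ph p F F₂ w ^ q ≤ ENNReal.ofReal (C₂ * η' ^ (-m)) *
          (∫⁻ z in (ball (0:ℂ) 1), ENNReal.ofReal (dens p (F z) (F₂ z))) +
          ENNReal.ofReal η' * ∫⁻ z in S z₀ ρ, ‖F z‖ₑ ^ p :=
          Ph_int hpq hC₂ h1 (hP2 η' h1 h2') h.Fm h₂.Fm (S_meas _ _) (S_sub _ _)
      _ ≤ ENNReal.ofReal (C₂ * η' ^ (-m)) * ENNReal.ofReal (δ * lam * R ^ 2) +
          ENNReal.ofReal η' * ENNReal.ofReal (lam * ρ ^ 2) := by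
          gcongr
          exact hFp ρ hρ
      _ = _ := by
          rw [← ENNReal.ofReal_mul (by positivity), ← ENNReal.ofReal_mul h1.le,
            ← ENNReal.ofReal_add (by positivity) (by positivity)]
  have hIj : ∀ j : ℕ, ∫⁻ w in S z₀ (12 * R * 2 ^ j), Ph p F F₂ w ^ q ≤
      ENNReal.ofReal (lam * θ * y ^ j * (12 * R * 2 ^ j) ^ 2) := by
    intro j
    have hyj : 0 < y ^ j := by positivity
    have hyj1 : y ^ j ≤ 1 := pow_le_one₀ hy0.le hy1.le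
    have h2j : (1:ℝ) ≤ 2 ^ j := one_le_pow₀ (by norm_num)
    refine (hI (e2 * y ^ j) (by positivity) (mul_le_one₀ he21 hyj.le hyj1) _ ?_).trans ?_
    · nlinarith
    · apply ENNReal.ofReal_le_ofReal
      rw [hθ]
      exact comb hC₂ he20 hδ0 hlam hy0 hym rfl
  have hI0 : ∀ c : ℝ, 1 ≤ c → ∫⁻ w in S z₀ (c * R), Ph p F F₂ w ^ q ≤
      ENNReal.ofReal (c ^ 2 * θ * lam * R ^ 2) := by
    intro c hc
    refine (hI e2 he20 he21 (c * R) (by nlinarith)).trans ?_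
    apply ENNReal.ofReal_le_ofReal
    rw [hθ]
    have h5 : 0 < C₂ * e2 ^ (-m) * δ * lam * R ^ 2 := by positivity
    have h6 : 1 * (C₂ * e2 ^ (-m) * δ * lam * R ^ 2) ≤
        c ^ 2 * (C₂ * e2 ^ (-m) * δ * lam * R ^ 2) := by
      gcongr
      nlinarith
    linarith
  -- near
  set T := S z₀ (6 * R) with hT
  have hnear : ∫⁻ z in (ball (0:ℂ) 1), KP (T.indicator (dph p κ F κ₂ F₂)) z ^ q ≤
      ENNReal.ofReal ((C₄:ℝ) * (2 ^ q * (36 * (θ + γ))) * lam * R ^ 2) := by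
    refine (near_int hpq hC₄ h h₂ hκ1 hκ2).trans ?_
    rw [two_rpow]
    calc (C₄:ℝ≥0∞) * (ENNReal.ofReal (2 ^ q) * ((∫⁻ w in S z₀ (6 * R), Ph p F F₂ w ^ q) +
          ∫⁻ w in S z₀ R, ‖κ w‖ₑ ^ q))
        ≤ ENNReal.ofReal (C₄:ℝ) * (ENNReal.ofReal (2 ^ q) *
          (ENNReal.ofReal (6 ^ 2 * θ * lam * R ^ 2) + ENNReal.ofReal (γ * lam * R ^ 2))) := by
          rw [ENNReal.ofReal_coe_nnreal]
          gcongr
          exact hI0 6 (by norm_num)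
      _ = ENNReal.ofReal ((C₄:ℝ) * (2 ^ q * (6 ^ 2 * θ * lam * R ^ 2 + γ * lam * R ^ 2))) := by
          rw [← ENNReal.ofReal_add (by positivity) (by positivity),
            ← ENNReal.ofReal_mul (by positivity), ← ENNReal.ofReal_mul (by positivity)]
      _ ≤ _ := by
          apply ENNReal.ofReal_le_ofReal
          have h6 : 6 ^ 2 * θ * lam * R ^ 2 + γ * lam * R ^ 2 ≤ 36 * (θ + γ) * (lam * R ^ 2) := by
            have : 0 < γ * (lam * R ^ 2) := by positivity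
            linarith
          calc (C₄:ℝ) * (2 ^ q * (6 ^ 2 * θ * lam * R ^ 2 + γ * lam * R ^ 2)) ≤
                (C₄:ℝ) * (2 ^ q * (36 * (θ + γ) * (lam * R ^ 2))) := by gcongr
            _ = _ := by ring
  -- far
  obtain ⟨BB, hBB⟩ : ∃ BB : ℝ, BB = 16 * (Real.pi ^ (q - 1) * (lam * θ)) ^ (1 / q) / (1 - x) :=
    ⟨_, rfl⟩
  have hBB0 : 0 ≤ BB := by rw [hBB]; positivity
  have hBBq : BB ^ q * (Real.pi * (3 * R) ^ 2) = Cf * θ * lam * R ^ 2 := by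
    rw [hBB, Real.div_rpow (by positivity) h1x.le, Real.mul_rpow (by norm_num) (by positivity),
      ← Real.rpow_mul (by positivity), one_div_mul_cancel hq0.ne', Real.rpow_one, hCf]
    have : (1 - x) ^ q ≠ 0 := (Real.rpow_pos_of_pos h1x q).ne'
    field_simp
    ring
  have hfar : ∀ z ∈ S z₀ (3 * R), KP (Tᶜ.indicator (dph p κ F κ₂ F₂)) z ≤ ENNReal.ofReal BB := by
    intro z hz
    refine (far_le hR hκ1 z).trans ?_
    rw [hBB]
    exact far_bound hq (Ph_meas h.Fm h₂.Fm) hR hlam hθ0.le hy0 hy1 hIj hz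
  have hdm := dph_meas h h₂
  have hTm : MeasurableSet T := S_meas _ _
  have hkp : ∀ z ∈ S z₀ (3 * R), KP (dph p κ F κ₂ F₂) z ^ q ≤
      2 ^ q * (KP (T.indicator (dph p κ F κ₂ F₂)) z ^ q + ENNReal.ofReal (BB ^ q)) := by
    intro z hz
    have e1 : KP (dph p κ F κ₂ F₂) z = KP (T.indicator (dph p κ F κ₂ F₂)) z +
        KP (Tᶜ.indicator (dph p κ F κ₂ F₂)) z := by
      rw [← KP_add (hdm.indicator hTm)]
      congr 1
      ext w
      rw [← Pi.add_apply, indicator_self_add_compl]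
    rw [e1, ← ENNReal.ofReal_rpow_of_nonneg hBB0 hq0.le]
    refine (ENNReal.rpow_le_rpow (add_le_add le_rfl (hfar z hz)) hq0.le).trans ?_
    exact add_pow' hq.le _ _
  have hm1 : Measurable fun w => Ph p F F₂ w ^ q := (Ph_meas h.Fm h₂.Fm).pow_const q
  have hm2 : Measurable fun z => KP (T.indicator (dph p κ F κ₂ F₂)) z ^ q :=
    (KP_meas (hdm.indicator hTm)).pow_const q
  calc ∫⁻ w in S z₀ (3 * R), (Ph p F F₂ w ^ q + KP (dph p κ F κ₂ F₂) w ^ q)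
      ≤ ∫⁻ w in S z₀ (3 * R), (Ph p F F₂ w ^ q +
        2 ^ q * (KP (T.indicator (dph p κ F κ₂ F₂)) w ^ q + ENNReal.ofReal (BB ^ q))) := by
        apply setLIntegral_mono' (S_meas _ _)
        intro w hw
        gcongr
        exact hkp w hw
    _ = (∫⁻ w in S z₀ (3 * R), Ph p F F₂ w ^ q) + 2 ^ q *
        ((∫⁻ w in S z₀ (3 * R), KP (T.indicator (dph p κ F κ₂ F₂)) w ^ q) +
          ENNReal.ofReal (BB ^ q) * volume (S z₀ (3 * R))) := by
        rw [lintegral_add_left hm1, lintegral_const_mul _ (hm2.add_const _),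
          lintegral_add_left hm2, setLIntegral_const]
    _ ≤ ENNReal.ofReal (3 ^ 2 * θ * lam * R ^ 2) + ENNReal.ofReal (2 ^ q) *
        (ENNReal.ofReal ((C₄:ℝ) * (2 ^ q * (36 * (θ + γ))) * lam * R ^ 2) +
          ENNReal.ofReal (BB ^ q) * ENNReal.ofReal (Real.pi * (3 * R) ^ 2)) := by
        rw [two_rpow]
        gcongr
        · exact hI0 3 (by norm_num)
        · exact (lintegral_mono_set (S_sub _ _)).trans hnear
        · exact vol_S z₀ (by positivity)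
    _ = ENNReal.ofReal (3 ^ 2 * θ * lam * R ^ 2 + 2 ^ q *
        ((C₄:ℝ) * (2 ^ q * (36 * (θ + γ))) * lam * R ^ 2 + Cf * θ * lam * R ^ 2)) := by
        rw [← ENNReal.ofReal_mul (by positivity), hBBq,
          ← ENNReal.ofReal_add (by positivity) (by positivity),
          ← ENNReal.ofReal_mul (by positivity), ← ENNReal.ofReal_add (by positivity) (by positivity)]
    _ ≤ _ := by
        apply ENNReal.ofReal_le_ofReal
        have h7 : Ct * (θ + γ) * (lam * R ^ 2) ≤ η * (lam * R ^ 2) := by gcongr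
        have h8 : 0 < γ * (lam * R ^ 2) := by positivity
        have h9 : 0 < 2 ^ q * (Cf * γ * (lam * R ^ 2)) := by positivity
        have h10 : Ct * (θ + γ) * (lam * R ^ 2) = 3 ^ 2 * θ * lam * R ^ 2 + 2 ^ q *
          ((C₄:ℝ) * (2 ^ q * (36 * (θ + γ))) * lam * R ^ 2 + Cf * θ * lam * R ^ 2) +
          9 * (γ * (lam * R ^ 2)) + 2 ^ q * (Cf * γ * (lam * R ^ 2)) := by
          rw [hCt]; ring
        linarith

end C2

open C2 in
theorem m_DecT (hLE : LE) (hC : CMP) (h2 : P2) (h4 : G4) (hN : N1) : DecT := by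
  intro p q ε hpq hε hε1
  have hq := hpq.symm.lt
  have hq0 : 0 < q := by linarith
  obtain ⟨CL, hCL, hLE'⟩ := hLE p q ε hpq hε hε1
  refine ⟨1 / 32, 2 ^ q * (1 + 40 * CL), by norm_num, by norm_num, by positivity, ?_⟩
  intro η hη
  obtain ⟨γ, hγ, hsm⟩ := small hpq hC h2 h4 (η := min η 1) (by positivity)
  refine ⟨γ, hγ, ?_⟩
  intro κ F h z₀ hz₀ R hYR hR2 lam hlam hG hf
  have hR : 0 < R := (Y_pos hz₀).trans_le hYR
  obtain ⟨M, hM⟩ := h.bd
  obtain ⟨r₀, hr₀, hsp⟩ := h.sp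
  obtain ⟨κ₂, hκ₂⟩ : ∃ κ₂ : ℂ → ℂ, κ₂ = (S z₀ R)ᶜ.indicator κ := ⟨_, rfl⟩
  have hκm : Measurable κ₂ := by rw [hκ₂]; exact h.km.indicator (S_meas _ _).compl
  have hM0 : 0 ≤ M := (norm_nonneg _).trans (hM 0)
  have hκM : ∀ z, ‖κ₂ z‖ ≤ M := by
    intro z
    rw [hκ₂]
    by_cases h1 : z ∈ (S z₀ R)ᶜ
    · rw [indicator_of_mem h1]; exact hM z
    · rw [indicator_of_notMem h1, norm_zero]; exact hM0
  have hκs : ∀ z, r₀ < ‖z‖ → κ₂ z = 0 := by
    intro z hz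
    rw [hκ₂]
    by_cases h1 : z ∈ (S z₀ R)ᶜ
    · rw [indicator_of_mem h1]; exact hsp z hz
    · rw [indicator_of_notMem h1]
  have hκ1 : ∀ z ∈ (ball (0:ℂ) 1), z ∉ S z₀ R → κ₂ z = κ z := by
    intro z _ hz
    rw [hκ₂, indicator_of_mem (show z ∈ (S z₀ R)ᶜ from hz)]
  have hκ2 : ∀ z ∈ S z₀ R, κ₂ z = 0 := by
    intro z hz
    rw [hκ₂, indicator_of_notMem (by simpa using hz)]
  obtain ⟨F₂, hF₂m, hF₂⟩ := hN p q hpq κ₂ M r₀ hκm hκM hr₀ hκs
  have hsol : Sol p κ₂ F₂ :=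
    hF₂.sol hpq hκm.aestronglyMeasurable (bdd_int hq0.le hκm hκM)
  have hd₂ : Dat p q κ₂ F₂ := ⟨hpq, hsol, hF₂m, hκm, ⟨M, hκM⟩, ⟨r₀, hr₀, hκs⟩⟩
  have hG' : ∀ ρ, R ≤ ρ → ∫⁻ w in S z₀ ρ, Gf p q κ F w ≤ ENNReal.ofReal (lam * ρ ^ 2) := by
    intro ρ hρ
    rcases le_or_gt ρ 2 with h1 | h1
    · exact hG ρ ⟨hρ, h1⟩
    · have h3 : S z₀ ρ ⊆ S z₀ 2 := by
        intro z hz
        refine ⟨?_, hz.2⟩
        have h4 : ‖z‖ < 1 := by simpa using hz.2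
        have h5 : ‖z₀‖ < 1 := by simpa using hz₀
        rw [mem_ball, dist_eq_norm]
        have := norm_sub_le z z₀
        linarith
      refine (lintegral_mono_set h3).trans ((hG 2 ⟨hR2, le_rfl⟩).trans ?_)
      apply ENNReal.ofReal_le_ofReal
      gcongr
  have hfR := hf R ⟨le_rfl, hR2⟩
  have hsmall := hsm κ F κ₂ F₂ h hd₂ z₀ R lam hR hlam hκ1 hκ2 hG' hfR
  set G₂ := Gf p q κ₂ F₂ with hG₂
  set D' : ℂ → ℝ≥0∞ := fun w => Ph p F F₂ w ^ q + KP (dph p κ F κ₂ F₂) w ^ q with hD'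
  have hD'm : Measurable D' :=
    ((Ph_meas h.Fm hd₂.Fm).pow_const q).add ((KP_meas (dph_meas h hd₂)).pow_const q)
  have hnA : ∀ a : ℂ, ‖A p a‖ₑ ^ q = ‖a‖ₑ ^ p := by
    intro a
    rw [enorm_rpow_eq hq0.le, norm_A_rpow hpq, enorm_rpow_eq hpq.nonneg]
  have hcmp : ∀ z ∈ (ball (0:ℂ) 1), Gf p q κ F z ≤ 2 ^ q * (G₂ z + D' z) := by
    intro z hz
    have h1 : ‖F z‖ₑ ^ p ≤ 2 ^ q * (‖F₂ z‖ₑ ^ p + Ph p F F₂ z ^ q) := by
      rw [← hnA, ← hnA (F₂ z)]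
      refine (ENNReal.rpow_le_rpow (z := q) ?_ hq0.le).trans (add_pow' hq.le _ _)
      have : A p (F z) = A p (F₂ z) + (A p (F z) - A p (F₂ z)) := by ring
      calc ‖A p (F z)‖ₑ = ‖A p (F₂ z) + (A p (F z) - A p (F₂ z))‖ₑ := by rw [← this]
        _ ≤ _ := enorm_add_le _ _
    have h3 : Vf (ph p κ F) z ^ q ≤ 2 ^ q * (Vf (ph p κ₂ F₂) z ^ q +
        KP (dph p κ F κ₂ F₂) z ^ q) :=
      (ENNReal.rpow_le_rpow (Vf_sub h.phm hd₂.phm hz) hq0.le).trans (add_pow' hq.le _ _)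
    calc Gf p q κ F z ≤ 2 ^ q * (‖F₂ z‖ₑ ^ p + Ph p F F₂ z ^ q) +
          2 ^ q * (Vf (ph p κ₂ F₂) z ^ q + KP (dph p κ F κ₂ F₂) z ^ q) := add_le_add h1 h3
      _ = _ := by simp only [hG₂, hD', Gf]; ring
  have hcmp' : ∀ z ∈ (ball (0:ℂ) 1), G₂ z ≤ 2 ^ q * (Gf p q κ F z + D' z) := by
    intro z hz
    have h1 : ‖F₂ z‖ₑ ^ p ≤ 2 ^ q * (‖F z‖ₑ ^ p + Ph p F F₂ z ^ q) := by
      rw [← hnA, ← hnA (F z)]
      refine (ENNReal.rpow_le_rpow (z := q) ?_ hq0.le).trans (add_pow' hq.le _ _)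
      have : A p (F₂ z) = A p (F z) + -(A p (F z) - A p (F₂ z)) := by ring
      calc ‖A p (F₂ z)‖ₑ = ‖A p (F z) + -(A p (F z) - A p (F₂ z))‖ₑ := by rw [← this]
        _ ≤ ‖A p (F z)‖ₑ + ‖-(A p (F z) - A p (F₂ z))‖ₑ := enorm_add_le _ _
        _ = _ := by rw [enorm_neg]; rfl
    have h3 : Vf (ph p κ₂ F₂) z ^ q ≤ 2 ^ q * (Vf (ph p κ F) z ^ q +
        KP (dph p κ F κ₂ F₂) z ^ q) := by
      refine (ENNReal.rpow_le_rpow (Vf_sub hd₂.phm h.phm hz) hq0.le).trans ?_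
      refine (add_pow' hq.le _ _).trans (le_of_eq ?_)
      have : (fun w => ‖ph p κ₂ F₂ w - ph p κ F w‖ₑ) = dph p κ F κ₂ F₂ := by
        ext w; exact (dph_comm w).symm
      rw [this]
    calc G₂ z ≤ 2 ^ q * (‖F z‖ₑ ^ p + Ph p F F₂ z ^ q) +
          2 ^ q * (Vf (ph p κ F) z ^ q + KP (dph p κ F κ₂ F₂) z ^ q) := add_le_add h1 h3
      _ = _ := by simp only [hD', Gf]; ring
  have hsub : S z₀ (1 / 32 * R) ⊆ S z₀ (3 * R) := S_mono z₀ (by linarith)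
  refine ⟨G₂, D', hd₂.Gm, hD'm, ?_, ?_, ?_⟩
  · intro z hz
    refine (hcmp z (S_sub _ _ hz)).trans ?_
    rw [two_rpow]
    gcongr
    have : (0:ℝ) < 2 ^ q * (40 * CL) := by positivity
    linarith
  · intro z hz
    have hzD := S_sub _ _ hz
    have hY := Y_pos hzD
    have hz' : z ∈ S z₀ (R / 2 / 8) := S_mono z₀ (by linarith) hz
    have h1 := hLE' κ₂ F₂ hd₂ z₀ hz₀ (R / 2) (by positivity) (by linarith) (by linarith)
      (by rw [show 2 * (R / 2) = R by ring]; exact hκ2) z hz'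
    rw [show 6 * (R / 2) = 3 * R by ring] at h1
    have h3 : ∫⁻ w in S z₀ (3 * R), G₂ w ≤ ENNReal.ofReal (2 ^ q * (10 * lam * R ^ 2)) := by
      calc ∫⁻ w in S z₀ (3 * R), G₂ w ≤ ∫⁻ w in S z₀ (3 * R), 2 ^ q * (Gf p q κ F w + D' w) :=
            setLIntegral_mono' (S_meas _ _) fun w hw => hcmp' w (S_sub _ _ hw)
        _ = 2 ^ q * ((∫⁻ w in S z₀ (3 * R), Gf p q κ F w) + ∫⁻ w in S z₀ (3 * R), D' w) := by
            rw [lintegral_const_mul]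
            · rw [lintegral_add_left h.Gm]
            · exact h.Gm.add hD'm
        _ ≤ ENNReal.ofReal (2 ^ q) * (ENNReal.ofReal (lam * (3 * R) ^ 2) +
            ENNReal.ofReal (min η 1 * lam * R ^ 2)) := by
            rw [two_rpow]
            gcongr
            exact hG' _ (by linarith)
        _ = ENNReal.ofReal (2 ^ q * (lam * (3 * R) ^ 2 + min η 1 * lam * R ^ 2)) := by
            rw [← ENNReal.ofReal_add (by positivity) (by positivity),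
              ← ENNReal.ofReal_mul (by positivity)]
        _ ≤ _ := by
            apply ENNReal.ofReal_le_ofReal
            have h5 : min η 1 * (lam * R ^ 2) ≤ 1 * (lam * R ^ 2) := by
              gcongr
              exact min_le_right _ _
            gcongr
            linarith
    calc G₂ z ≤ ENNReal.ofReal (CL * (R / 2 / Y z) ^ ε / (R / 2) ^ 2) *
          ENNReal.ofReal (2 ^ q * (10 * lam * R ^ 2)) := by
          refine h1.trans ?_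
          gcongr
      _ = ENNReal.ofReal (CL * (R / 2 / Y z) ^ ε / (R / 2) ^ 2 * (2 ^ q * (10 * lam * R ^ 2))) := by
          rw [← ENNReal.ofReal_mul (by positivity)]
      _ ≤ _ := by
          apply ENNReal.ofReal_le_ofReal
          have h6 : (R / 2 / Y z) ^ ε ≤ (R / Y z) ^ ε := by
            apply Real.rpow_le_rpow (by positivity) _ hε.le
            gcongr
            linarith
          calc CL * (R / 2 / Y z) ^ ε / (R / 2) ^ 2 * (2 ^ q * (10 * lam * R ^ 2))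
              = 2 ^ q * (40 * CL) * lam * (R / 2 / Y z) ^ ε := by field_simp; ring
            _ ≤ 2 ^ q * (1 + 40 * CL) * lam * (R / Y z) ^ ε := by
                gcongr
                linarith
  · refine (lintegral_mono_set hsub).trans (hsmall.trans ?_)
    apply ENNReal.ofReal_le_ofReal
    gcongr
    exact min_le_left _ _

end Pool.Agent.L0h83.BR
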