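import Mathlib

/-!
Regularity of extremal functions of Bergman spaces: definitions.
-/

set_option autoImplicit false

namespace Pool.Agent.L0h83.BR

open Complex Metric Set Filter Topology MeasureTheory ComplexConjugate
open scoped ENNReal NNReal

/-- the depth `1 - |z|²` -/
noncomputable def Y (z : ℂ) : ℝ := 1 - ‖z‖ ^ 2

/-- the positive kernel `1 / (|z - w| |1 - z w̄|)` -/
noncomputable def K (z w : ℂ) : ℝ := 1 / (‖z - w‖ * ‖1 - z * conj w‖)

/-- the box -/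
def S (z : ℂ) (ρ : ℝ) : Set ℂ := ball z ρ ∩ ball 0 1

/-- `|a|^(p-2) a` -/
noncomputable def A (p : ℝ) (a : ℂ) : ℂ := ((‖a‖ ^ (p - 2) : ℝ) : ℂ) * a

/-- the density `(|a|+|b|)^(p-2) |a-b|²` -/
noncomputable def dens (p : ℝ) (a b : ℂ) : ℝ := (‖a‖ + ‖b‖) ^ (p - 2) * ‖a - b‖ ^ 2

end Pool.Agent.L0h83.BR
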