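import Pool.Agent.L0h83.BR.Defs

/-! Minimisers of `(1/p)∫|f|^p - Re ∫ f κ̄` and the Euler-Lagrange equation. -/

set_option autoImplicit false

namespace Pool.Agent.L0h83.BR

open Complex Metric Set Filter Topology MeasureTheory ComplexConjugate
open scoped ENNReal NNReal

lemma add_rpow_le {a b e : ℝ} (ha : 0 ≤ a) (hb : 0 ≤ b) (he : 0 ≤ e) :
    (a + b) ^ e ≤ 2 ^ e * (a ^ e + b ^ e) := by
  have h1 : a + b ≤ 2 * max a b := by
    have := le_max_left a b
    have := le_max_right a b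
    linarith
  have h2 : (a + b) ^ e ≤ (2 * max a b) ^ e := Real.rpow_le_rpow (by positivity) h1 he
  rw [Real.mul_rpow (by norm_num) (by positivity)] at h2
  refine h2.trans ?_
  apply mul_le_mul_of_nonneg_left _ (by positivity)
  rcases le_total a b with h | h
  · rw [max_eq_right h]
    have := Real.rpow_nonneg ha e
    linarith
  · rw [max_eq_left h]
    have := Real.rpow_nonneg hb e
    linarith

lemma norm_A {p : ℝ} (hp : 1 < p) (a : ℂ) : ‖A p a‖ = ‖a‖ ^ (p - 1) := by
  unfold A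
  rcases eq_or_ne a 0 with h | h
  · rw [h, mul_zero, norm_zero, Real.zero_rpow (by linarith)]
  · have h0 : 0 < ‖a‖ := norm_pos_iff.2 h
    rw [norm_mul, Complex.norm_real, Real.norm_eq_abs, abs_of_nonneg (by positivity),
      ← Real.rpow_add_one h0.ne']
    congr 1; ring

lemma norm_A_rpow {p q : ℝ} (hpq : p.HolderConjugate q) (a : ℂ) : ‖A p a‖ ^ q = ‖a‖ ^ p := by
  have hp := hpq.lt
  rw [norm_A hp, ← Real.rpow_mul (norm_nonneg _)]
  congr 1
  have := hpq.mul_eq_add
  linarith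

lemma A_mul_conj {p : ℝ} (hp : 1 < p) (a : ℂ) : conj (A p a) * a = ((‖a‖ ^ p : ℝ) : ℂ) := by
  unfold A
  rcases eq_or_ne a 0 with h | h
  · rw [h, mul_zero, norm_zero, Real.zero_rpow (by linarith)]
    simp
  · have h0 : 0 < ‖a‖ := norm_pos_iff.2 h
    rw [map_mul, Complex.conj_ofReal, mul_assoc, mul_comm (conj a), Complex.mul_conj,
      Complex.normSq_eq_norm_sq, ← Complex.ofReal_mul]
    congr 1
    rw [← Real.rpow_natCast ‖a‖ 2, ← Real.rpow_add h0]
    congr 1
    push_cast; ring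

section

variable {μ : Measure ℂ} {p q : ℝ} {F h k : ℂ → ℂ}

lemma int_young (hpq : p.HolderConjugate q) (hhm : AEStronglyMeasurable h μ)
    (hkm : AEStronglyMeasurable k μ) (hh : Integrable (fun z => ‖h z‖ ^ p) μ)
    (hk : Integrable (fun z => ‖k z‖ ^ q) μ) : Integrable (fun z => k z * h z) μ := by
  apply Integrable.mono' (g := fun z => ‖h z‖ ^ p / p + ‖k z‖ ^ q / q)
  · exact (hh.div_const _).add (hk.div_const _)
  · exact hkm.mul hhm
  · refine Eventually.of_forall fun z => ?_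
    rw [norm_mul, mul_comm]
    exact Real.young_inequality_of_nonneg (norm_nonneg _) (norm_nonneg _) hpq

lemma int_add' (hp : 0 ≤ p) (hFm : AEStronglyMeasurable F μ) (hhm : AEStronglyMeasurable h μ)
    (hF : Integrable (fun z => ‖F z‖ ^ p) μ) (hh : Integrable (fun z => ‖h z‖ ^ p) μ) (c : ℂ) :
    Integrable (fun z => ‖F z + c * h z‖ ^ p) μ := by
  apply Integrable.mono' (g := fun z => 2 ^ p * (‖F z‖ ^ p + ‖c‖ ^ p * ‖h z‖ ^ p))
  · exact (hF.add (hh.const_mul _)).const_mul _
  · exact (Real.continuous_rpow_const hp).comp_aestronglyMeasurable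
      (hFm.add (hhm.const_mul c)).norm
  · refine Eventually.of_forall fun z => ?_
    rw [Real.norm_eq_abs, abs_of_nonneg (by positivity)]
    have h1 : ‖F z + c * h z‖ ≤ ‖F z‖ + ‖c‖ * ‖h z‖ := by
      refine (norm_add_le _ _).trans ?_
      rw [norm_mul]
    calc ‖F z + c * h z‖ ^ p ≤ (‖F z‖ + ‖c‖ * ‖h z‖) ^ p :=
          Real.rpow_le_rpow (norm_nonneg _) h1 hp
      _ ≤ 2 ^ p * (‖F z‖ ^ p + (‖c‖ * ‖h z‖) ^ p) :=
          add_rpow_le (norm_nonneg _) (by positivity) hp
      _ = _ := by rw [Real.mul_rpow (norm_nonneg _) (norm_nonneg _)]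

lemma hasDerivAt_norm_add (hp : 1 < p) (a b : ℂ) (t : ℝ) :
    HasDerivAt (fun t : ℝ => ‖a + t * b‖ ^ p) (p * (conj (A p (a + t * b)) * b).re) t := by
  have h1 : HasDerivAt (fun t : ℝ => a + t * b) b t := by
    have := ((Complex.ofRealCLM.hasDerivAt (x := t)).mul_const b).const_add a
    simpa using this
  have h2 := (hasFDerivAt_norm_rpow (a + t * b) hp).comp_hasDerivAt t h1
  have e : p * (conj (A p (a + t * b)) * b).re =
      ((p * ‖a + t * b‖ ^ (p - 2)) • innerSL ℝ (a + t * b)) b := by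
    unfold A
    rw [smul_apply, innerSL_apply_apply, Complex.inner, smul_eq_mul, map_mul,
      Complex.conj_ofReal, mul_assoc, Complex.re_ofReal_mul, mul_comm b]
    ring
  rw [e]
  exact h2

lemma deriv_int (hp : 1 < p) (hFm : AEStronglyMeasurable F μ) (hhm : AEStronglyMeasurable h μ)
    (hF : Integrable (fun z => ‖F z‖ ^ p) μ) (hh : Integrable (fun z => ‖h z‖ ^ p) μ) :
    HasDerivAt (fun t : ℝ => ∫ z, ‖F z + t * h z‖ ^ p ∂μ)
      (∫ z, p * (conj (A p (F z)) * h z).re ∂μ) 0 := by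
  have hp0 : 0 < p := by linarith
  have key := hasDerivAt_integral_of_dominated_loc_of_deriv_le (μ := μ) (x₀ := (0:ℝ))
    (s := ball (0:ℝ) 1) (F := fun (t : ℝ) z => ‖F z + t * h z‖ ^ p)
    (F' := fun (t : ℝ) z => p * (conj (A p (F z + t * h z)) * h z).re)
    (bound := fun z => p * (2 ^ p * (‖F z‖ ^ p + ‖h z‖ ^ p))) (ball_mem_nhds _ one_pos)
    ?_ ?_ ?_ ?_ ?_ ?_
  · have h := key.2
    simpa using h
  · refine Eventually.of_forall fun t => ?_
    exact (Real.continuous_rpow_const hp0.le).comp_aestronglyMeasurable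
      (hFm.add (hhm.const_mul (t:ℂ))).norm
  · simpa using hF
  · have h1 : AEStronglyMeasurable (fun z => A p (F z)) μ := by
      have h2 : AEMeasurable (fun z => ‖F z‖) μ := hFm.norm.aemeasurable
      exact (Complex.continuous_ofReal.comp_aestronglyMeasurable
        (h2.pow_const (p - 2)).aestronglyMeasurable).mul hFm
    have h3 : AEStronglyMeasurable (fun z => p * (conj (A p (F z)) * h z).re) μ :=
      (Complex.continuous_re.comp_aestronglyMeasurable
        ((Complex.continuous_conj.comp_aestronglyMeasurable h1).mul hhm)).const_mul p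
    simpa using h3
  · refine Eventually.of_forall fun z t ht => ?_
    have ht1 : |t| < 1 := by simpa using ht
    set x := F z + t * h z with hx
    have hxle : ‖x‖ ≤ ‖F z‖ + ‖h z‖ := by
      refine (norm_add_le _ _).trans ?_
      rw [norm_mul, Complex.norm_real, Real.norm_eq_abs]
      have := mul_le_of_le_one_left (norm_nonneg (h z)) ht1.le
      linarith
    rw [norm_mul, Real.norm_eq_abs, abs_of_pos hp0]
    apply mul_le_mul_of_nonneg_left _ hp0.le
    rw [Real.norm_eq_abs]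
    calc |(conj (A p x) * h z).re| ≤ ‖conj (A p x) * h z‖ := Complex.abs_re_le_norm _
      _ = ‖x‖ ^ (p - 1) * ‖h z‖ := by rw [norm_mul, RCLike.norm_conj, norm_A hp]
      _ ≤ (‖F z‖ + ‖h z‖) ^ (p - 1) * (‖F z‖ + ‖h z‖) := by
          apply mul_le_mul (Real.rpow_le_rpow (norm_nonneg _) hxle (by linarith)) _
            (norm_nonneg _) (by positivity)
          have := norm_nonneg (F z)
          linarith
      _ = (‖F z‖ + ‖h z‖) ^ p := by
          rcases eq_or_lt_of_le (show 0 ≤ ‖F z‖ + ‖h z‖ by positivity) with h0 | h0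
          · rw [← h0, mul_zero, Real.zero_rpow (by linarith)]
          · rw [← Real.rpow_add_one h0.ne']
            congr 1; ring
      _ ≤ _ := add_rpow_le (norm_nonneg _) (norm_nonneg _) hp0.le
  · exact (hF.add hh).const_mul _ |>.const_mul _
  · exact Eventually.of_forall fun z t _ => hasDerivAt_norm_add hp _ _ t

lemma int_A (hpq : p.HolderConjugate q) (hFm : AEStronglyMeasurable F μ)
    (hF : Integrable (fun z => ‖F z‖ ^ p) μ) :
    AEStronglyMeasurable (fun z => A p (F z)) μ ∧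
      Integrable (fun z => ‖A p (F z)‖ ^ q) μ := by
  have h1 : AEStronglyMeasurable (fun z => A p (F z)) μ := by
    have h2 : AEMeasurable (fun z => ‖F z‖) μ := hFm.norm.aemeasurable
    exact (Complex.continuous_ofReal.comp_aestronglyMeasurable
      (h2.pow_const (p - 2)).aestronglyMeasurable).mul hFm
  refine ⟨h1, ?_⟩
  simp_rw [norm_A_rpow hpq]
  exact hF

/-- real form of the Euler-Lagrange equation -/
lemma el_re (hpq : p.HolderConjugate q) (hFm : AEStronglyMeasurable F μ)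
    (hhm : AEStronglyMeasurable h μ) (hkm : AEStronglyMeasurable k μ)
    (hF : Integrable (fun z => ‖F z‖ ^ p) μ) (hh : Integrable (fun z => ‖h z‖ ^ p) μ)
    (hk : Integrable (fun z => ‖k z‖ ^ q) μ)
    (hmin : ∀ t : ℝ, 1 / p * ∫ z, ‖F z‖ ^ p ∂μ - (∫ z, conj (k z) * F z ∂μ).re ≤
      1 / p * ∫ z, ‖F z + t * h z‖ ^ p ∂μ - (∫ z, conj (k z) * (F z + t * h z) ∂μ).re) :
    ∫ z, (conj (A p (F z)) * h z).re ∂μ = (∫ z, conj (k z) * h z ∂μ).re := by
  have hp := hpq.lt
  have hp0 := hpq.pos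
  have hckm : AEStronglyMeasurable (fun z => conj (k z)) μ :=
    Complex.continuous_conj.comp_aestronglyMeasurable hkm
  have hck : Integrable (fun z => ‖conj (k z)‖ ^ q) μ := by
    simpa only [RCLike.norm_conj] using hk
  have i1 := int_young hpq hFm hckm hF hck
  have i2 := int_young hpq hhm hckm hh hck
  have e1 : ∀ t : ℝ, (∫ z, conj (k z) * (F z + t * h z) ∂μ).re =
      (∫ z, conj (k z) * F z ∂μ).re + t * (∫ z, conj (k z) * h z ∂μ).re := by
    intro t
    have : ∫ z, conj (k z) * (F z + t * h z) ∂μ =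
        ∫ z, conj (k z) * F z ∂μ + t * ∫ z, conj (k z) * h z ∂μ := by
      rw [← integral_const_mul, ← integral_add i1 (i2.const_mul _)]
      congr 1; ext z; ring
    rw [this, Complex.add_re, Complex.re_ofReal_mul]
  have hd := deriv_int hp hFm hhm hF hh
  have hd2 : HasDerivAt (fun t : ℝ => 1 / p * ∫ z, ‖F z + t * h z‖ ^ p ∂μ -
      (∫ z, conj (k z) * (F z + t * h z) ∂μ).re)
      (1 / p * (∫ z, p * (conj (A p (F z)) * h z).re ∂μ) - (∫ z, conj (k z) * h z ∂μ).re) 0 := by
    simp_rw [e1]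
    have h2 : HasDerivAt (fun t : ℝ => (∫ z, conj (k z) * F z ∂μ).re +
        t * (∫ z, conj (k z) * h z ∂μ).re) (1 * (∫ z, conj (k z) * h z ∂μ).re) 0 :=
      ((hasDerivAt_id (0:ℝ)).mul_const _).const_add _
    rw [one_mul] at h2
    exact (hd.const_mul _).sub h2
  have hm : IsLocalMin (fun t : ℝ => 1 / p * ∫ z, ‖F z + t * h z‖ ^ p ∂μ -
      (∫ z, conj (k z) * (F z + t * h z) ∂μ).re) 0 := by
    refine Eventually.of_forall fun t => ?_
    have := hmin t
    simpa using this
  have h0 := hm.hasDerivAt_eq_zero hd2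
  rw [integral_const_mul] at h0
  have : 1 / p * (p * ∫ z, (conj (A p (F z)) * h z).re ∂μ) =
      ∫ z, (conj (A p (F z)) * h z).re ∂μ := by field_simp
  rw [this] at h0
  linarith

end

/-- `F` solves the extremal problem with data `k` -/
structure Sol (p : ℝ) (k F : ℂ → ℂ) : Prop where
  an : DifferentiableOn ℂ F (ball (0:ℂ) 1)
  int : IntegrableOn (fun z => ‖F z‖ ^ p) (ball (0:ℂ) 1)
  el : ∀ h : ℂ → ℂ, DifferentiableOn ℂ h (ball (0:ℂ) 1) → IntegrableOn (fun z => ‖h z‖ ^ p) (ball (0:ℂ) 1) →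
    ∫ z in (ball (0:ℂ) 1), conj (A p (F z) - k z) * h z = 0

/-- `F` minimises `(1/p)∫|f|^p - Re ∫ f k̄` -/
def Mini (p : ℝ) (k F : ℂ → ℂ) : Prop :=
  DifferentiableOn ℂ F (ball (0:ℂ) 1) ∧ IntegrableOn (fun z => ‖F z‖ ^ p) (ball (0:ℂ) 1) ∧
    ∀ f : ℂ → ℂ, DifferentiableOn ℂ f (ball (0:ℂ) 1) → IntegrableOn (fun z => ‖f z‖ ^ p) (ball (0:ℂ) 1) →
      1 / p * (∫ z in (ball (0:ℂ) 1), ‖F z‖ ^ p) - (∫ z in (ball (0:ℂ) 1), conj (k z) * F z).re ≤
      1 / p * (∫ z in (ball (0:ℂ) 1), ‖f z‖ ^ p) - (∫ z in (ball (0:ℂ) 1), conj (k z) * f z).re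

lemma meas_an {f : ℂ → ℂ} (hf : DifferentiableOn ℂ f (ball (0:ℂ) 1)) :
    AEStronglyMeasurable f (volume.restrict (ball (0:ℂ) 1)) :=
  hf.continuousOn.aestronglyMeasurable measurableSet_ball

theorem Mini.sol {p q : ℝ} (hpq : p.HolderConjugate q) {k F : ℂ → ℂ}
    (hkm : AEStronglyMeasurable k (volume.restrict (ball (0:ℂ) 1)))
    (hk : IntegrableOn (fun z => ‖k z‖ ^ q) (ball (0:ℂ) 1)) (h : Mini p k F) : Sol p k F := by
  obtain ⟨h1, h2, h3⟩ := h
  refine ⟨h1, h2, fun g hg hgi => ?_⟩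
  have hp0 := hpq.pos
  have key : ∀ g : ℂ → ℂ, DifferentiableOn ℂ g (ball (0:ℂ) 1) → IntegrableOn (fun z => ‖g z‖ ^ p) (ball (0:ℂ) 1) →
      ∫ z in (ball (0:ℂ) 1), (conj (A p (F z)) * g z).re = (∫ z in (ball (0:ℂ) 1), conj (k z) * g z).re := by
    intro g hg hgi
    apply el_re hpq (meas_an h1) (meas_an hg) hkm h2 hgi hk
    intro t
    exact h3 _ (h1.add (hg.const_mul _)) (int_add' hp0.le (meas_an h1) (meas_an hg) h2 hgi _)
  have hckm : AEStronglyMeasurable (fun z => conj (k z)) (volume.restrict (ball (0:ℂ) 1)) :=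
    Complex.continuous_conj.comp_aestronglyMeasurable hkm
  have hck : IntegrableOn (fun z => ‖conj (k z)‖ ^ q) (ball (0:ℂ) 1) := by
    simpa only [RCLike.norm_conj] using hk
  have i2 : Integrable (fun z => conj (k z) * g z) (volume.restrict (ball (0:ℂ) 1)) :=
    int_young hpq (meas_an hg) hckm hgi hck
  obtain ⟨hAm, hAi⟩ := int_A (μ := volume.restrict (ball (0:ℂ) 1)) hpq (meas_an h1) h2
  have hcAm : AEStronglyMeasurable (fun z => conj (A p (F z))) (volume.restrict (ball (0:ℂ) 1)) :=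
    Complex.continuous_conj.comp_aestronglyMeasurable hAm
  have hcA : Integrable (fun z => ‖conj (A p (F z))‖ ^ q) (volume.restrict (ball (0:ℂ) 1)) := by
    simpa only [RCLike.norm_conj] using hAi
  have i1 : Integrable (fun z => conj (A p (F z)) * g z) (volume.restrict (ball (0:ℂ) 1)) :=
    int_young hpq (meas_an hg) hcAm hgi hcA
  have e0 : ∫ z in (ball (0:ℂ) 1), conj (A p (F z) - k z) * g z =
      (∫ z in (ball (0:ℂ) 1), conj (A p (F z)) * g z) - ∫ z in (ball (0:ℂ) 1), conj (k z) * g z := by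
    rw [← integral_sub i1 i2]
    congr 1; ext z; rw [map_sub]; ring
  have r1 := key g hg hgi
  have r2 := key (fun z => -I * g z) (hg.const_mul _) (by
    refine hgi.congr (Eventually.of_forall fun z => ?_)
    simp)
  have e1 : (∫ z in (ball (0:ℂ) 1), conj (k z) * (-I * g z)).re = (∫ z in (ball (0:ℂ) 1), conj (k z) * g z).im := by
    have : ∫ z in (ball (0:ℂ) 1), conj (k z) * (-I * g z) = -I * ∫ z in (ball (0:ℂ) 1), conj (k z) * g z := by
      rw [← integral_const_mul]; congr 1; ext z; ring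
    rw [this]; simp
  have e2 : ∫ z in (ball (0:ℂ) 1), (conj (A p (F z)) * (-I * g z)).re =
      (∫ z in (ball (0:ℂ) 1), conj (A p (F z)) * g z).im := by
    have h4 : (∫ z in (ball (0:ℂ) 1), conj (A p (F z)) * (-I * g z)) =
        -I * ∫ z in (ball (0:ℂ) 1), conj (A p (F z)) * g z := by
      rw [← integral_const_mul]; congr 1; ext z; ring
    have h5 : Integrable (fun z => conj (A p (F z)) * (-I * g z)) (volume.restrict (ball (0:ℂ) 1)) := by
      refine (i1.const_mul (-I)).congr (Eventually.of_forall fun z => ?_)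
      simp only; ring
    have h6 : (∫ z in (ball (0:ℂ) 1), conj (A p (F z)) * (-I * g z)).re =
        ∫ z in (ball (0:ℂ) 1), (conj (A p (F z)) * (-I * g z)).re := (integral_re h5).symm
    rw [← h6, h4]; simp
  have e3 : ∫ z in (ball (0:ℂ) 1), (conj (A p (F z)) * g z).re = (∫ z in (ball (0:ℂ) 1), conj (A p (F z)) * g z).re :=
    integral_re i1
  rw [e0]
  apply Complex.ext
  · rw [Complex.sub_re, Complex.zero_re, ← e3, r1, sub_self]
  · rw [Complex.sub_im, Complex.zero_im, ← e2, r2, e1, sub_self]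

end Pool.Agent.L0h83.BR
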