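import Pool.Agent.L0h83.BR.Stm

set_option autoImplicit false

namespace Pool.Agent.L0h83.BR

open Complex Metric Set Filter Topology MeasureTheory ComplexConjugate
open scoped ENNReal NNReal

theorem m3_vol_ball (z : ℂ) (r : ℝ) (hr : 0 ≤ r) :
    volume (ball z r) = ENNReal.ofReal (Real.pi * r ^ 2) := by
  rw [Complex.volume_ball, mul_comm, ENNReal.ofReal_mul Real.pi_pos.le, ENNReal.ofReal_pow hr]
  congr 1
  rw [← NNReal.coe_real_pi, ENNReal.ofReal_coe_nnreal]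

/-- Vitali covering, volume version -/
theorem m3_vitali (T : Set ℂ) (r : ℂ → ℝ) (M : ℝ) (hr : ∀ z ∈ T, 0 < r z ∧ r z ≤ M)
    (ν : Measure ℂ) (δ : ℝ≥0∞)
    (h : ∀ z ∈ T, volume (T ∩ ball z (5 * r z)) ≤ δ * ν (ball z (r z))) :
    volume T ≤ δ * ν univ := by
  obtain ⟨u, hut, hdis, hcov⟩ := Vitali.exists_disjoint_subfamily_covering_enlargement_ball T
    (fun z => z) r M (fun a ha => (hr a ha).2) 5 (by norm_num)
  have hcount : u.Countable := hdis.countable_of_isOpen (fun i _ => isOpen_ball)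
    (fun i hi => ⟨i, mem_ball_self (hr i (hut hi)).1⟩)
  have hsub : T ⊆ ⋃ b ∈ u, T ∩ ball b (5 * r b) := by
    intro z hz
    obtain ⟨b, hb, hzb⟩ := hcov z hz
    exact mem_biUnion hb ⟨hz, hzb (mem_ball_self (hr z hz).1)⟩
  calc volume T ≤ volume (⋃ b ∈ u, T ∩ ball b (5 * r b)) := measure_mono hsub
    _ ≤ ∑' b : u, volume (T ∩ ball (b : ℂ) (5 * r b)) := measure_biUnion_le _ hcount _
    _ ≤ ∑' b : u, δ * ν (ball (b : ℂ) (r b)) := ENNReal.tsum_le_tsum fun b => h b (hut b.2)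
    _ = δ * ∑' b : u, ν (ball (b : ℂ) (r b)) := ENNReal.tsum_mul_left
    _ = δ * ν (⋃ b ∈ u, ball (b : ℂ) (r b)) := by
      rw [measure_biUnion hcount hdis (fun b _ => measurableSet_ball)]
    _ ≤ δ * ν univ := by gcongr; exact subset_univ _

theorem m3_weak (T : Set ℂ) (r : ℂ → ℝ) (M : ℝ) (hr : ∀ z ∈ T, 0 < r z ∧ r z ≤ M)
    (ν : Measure ℂ) (k : ℝ) (hk : 0 < k)
    (h : ∀ z ∈ T, ENNReal.ofReal (k * r z ^ 2) ≤ ν (ball z (r z))) :
    volume T ≤ ENNReal.ofReal (25 * Real.pi / k) * ν univ := by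
  refine m3_vitali T r M hr ν _ fun z hz => ?_
  have h5 : 0 ≤ 5 * r z := by linarith [(hr z hz).1]
  calc volume (T ∩ ball z (5 * r z)) ≤ volume (ball z (5 * r z)) := measure_mono inter_subset_right
    _ = ENNReal.ofReal (Real.pi * (5 * r z) ^ 2) := m3_vol_ball z _ h5
    _ = ENNReal.ofReal (25 * Real.pi / k) * ENNReal.ofReal (k * r z ^ 2) := by
      rw [← ENNReal.ofReal_mul (by positivity)]
      congr 1
      field_simp
      ring
    _ ≤ ENNReal.ofReal (25 * Real.pi / k) * ν (ball z (r z)) := by gcongr; exact h z hz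

theorem m3_Y_pos {z : ℂ} (hz : z ∈ ball (0:ℂ) 1) : 0 < Y z := by
  rw [mem_ball_zero_iff] at hz
  unfold Y
  nlinarith [norm_nonneg z]

theorem m3_Y_le {z : ℂ} : Y z ≤ 1 := by
  unfold Y
  nlinarith [sq_nonneg ‖z‖]

theorem m3_Y_lip {z w : ℂ} (hz : z ∈ ball (0:ℂ) 1) (hw : w ∈ ball (0:ℂ) 1) :
    Y z ≤ Y w + 2 * dist z w := by
  rw [mem_ball_zero_iff] at hz hw
  unfold Y
  have h1 : ‖w‖ ≤ ‖z‖ + dist z w := by
    rw [dist_eq_norm]
    have : w = z - (z - w) := by ring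
    calc ‖w‖ = ‖z - (z - w)‖ := by rw [← this]
      _ ≤ ‖z‖ + ‖z - w‖ := norm_sub_le _ _
  nlinarith [norm_nonneg z, norm_nonneg w, dist_nonneg (x := z) (y := w)]

theorem m3_vol_S {z : ℂ} (hz : z ∈ ball (0:ℂ) 1) {ρ : ℝ} (hρ : 0 < ρ) (hρ2 : ρ ≤ 2) :
    ENNReal.ofReal (Real.pi * ρ ^ 2 / 16) ≤ volume (S z ρ) := by
  have hz' := mem_ball_zero_iff.1 hz
  have hsub : ball (((1 - ρ / 4 : ℝ) : ℂ) * z) (ρ / 4) ⊆ S z ρ := by
    intro w hw
    rw [mem_ball, dist_eq_norm] at hw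
    have hn : ‖((1 - ρ / 4 : ℝ) : ℂ) * z‖ = (1 - ρ / 4) * ‖z‖ := by
      rw [norm_mul, Complex.norm_real, Real.norm_of_nonneg (by linarith)]
    have hn2 : ‖((1 - ρ / 4 : ℝ) : ℂ) * z - z‖ = ρ / 4 * ‖z‖ := by
      have : ((1 - ρ / 4 : ℝ) : ℂ) * z - z = -(((ρ / 4 : ℝ) : ℂ) * z) := by push_cast; ring
      rw [this, norm_neg, norm_mul, Complex.norm_real, Real.norm_of_nonneg (by linarith)]
    refine ⟨?_, ?_⟩
    · rw [mem_ball, dist_eq_norm]
      calc ‖w - z‖ = ‖(w - ((1 - ρ / 4 : ℝ) : ℂ) * z) + (((1 - ρ / 4 : ℝ) : ℂ) * z - z)‖ := by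
            congr 1; ring
        _ ≤ ‖w - ((1 - ρ / 4 : ℝ) : ℂ) * z‖ + ‖((1 - ρ / 4 : ℝ) : ℂ) * z - z‖ := norm_add_le _ _
        _ < ρ / 4 + ρ / 4 * ‖z‖ := by rw [hn2]; linarith
        _ < ρ := by nlinarith
    · rw [mem_ball_zero_iff]
      calc ‖w‖ = ‖(w - ((1 - ρ / 4 : ℝ) : ℂ) * z) + ((1 - ρ / 4 : ℝ) : ℂ) * z‖ := by
            congr 1; ring
        _ ≤ ‖w - ((1 - ρ / 4 : ℝ) : ℂ) * z‖ + ‖((1 - ρ / 4 : ℝ) : ℂ) * z‖ := norm_add_le _ _
        _ < ρ / 4 + (1 - ρ / 4) * ‖z‖ := by rw [hn]; linarith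
        _ ≤ 1 := by nlinarith
  calc ENNReal.ofReal (Real.pi * ρ ^ 2 / 16) = volume (ball (((1 - ρ / 4 : ℝ) : ℂ) * z) (ρ / 4)) := by
        rw [m3_vol_ball _ _ (by linarith)]; congr 1; ring
    _ ≤ volume (S z ρ) := measure_mono hsub

/-- level sets of the maximal function -/
def Mx (G : ℂ → ℝ≥0∞) (lam : ℝ) : Set ℂ :=
  {z | z ∈ ball (0:ℂ) 1 ∧ ∃ ρ : ℝ, Y z ≤ ρ ∧ ρ ≤ 2 ∧
    ENNReal.ofReal (lam * ρ ^ 2) ≤ ∫⁻ w in S z ρ, G w}

theorem m3_meas_S (z : ℂ) (ρ : ℝ) : MeasurableSet (S z ρ) :=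
  measurableSet_ball.inter measurableSet_ball

theorem m3_weak_Mx (f : ℂ → ℝ≥0∞) (hf : Measurable f) (lam : ℝ) (hlam : 0 < lam) :
    volume (Mx f lam) ≤ ENNReal.ofReal (50 * Real.pi / lam) *
      ∫⁻ w in ball (0:ℂ) 1, ({w | ENNReal.ofReal (lam / 8) ≤ f w}).indicator f w := by
  classical
  have hms : MeasurableSet {w | ENNReal.ofReal (lam / 8) ≤ f w} :=
    measurableSet_le measurable_const hf
  set r : ℂ → ℝ := fun z => if h : z ∈ Mx f lam then h.2.choose else 0 with hr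
  have hrz : ∀ z ∈ Mx f lam, Y z ≤ r z ∧ r z ≤ 2 ∧
      ENNReal.ofReal (lam * r z ^ 2) ≤ ∫⁻ w in S z (r z), f w := by
    intro z hz
    have : r z = hz.2.choose := by simp [hr, hz]
    rw [this]
    exact hz.2.choose_spec
  have key := m3_weak (Mx f lam) r 2
    (fun z hz => ⟨lt_of_lt_of_le (m3_Y_pos hz.1) (hrz z hz).1, (hrz z hz).2.1⟩)
    ((volume.restrict (ball (0:ℂ) 1)).withDensity
      (({w | ENNReal.ofReal (lam / 8) ≤ f w}).indicator f)) (lam / 2) (by linarith) ?_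
  · refine key.trans (le_of_eq ?_)
    rw [withDensity_apply _ MeasurableSet.univ, Measure.restrict_univ]
    congr 2
    field_simp
    ring
  · intro z hz
    obtain ⟨h1, h2, h3⟩ := hrz z hz
    have hpos : 0 < r z := lt_of_lt_of_le (m3_Y_pos hz.1) h1
    rw [withDensity_apply _ measurableSet_ball, Measure.restrict_restrict measurableSet_ball]
    change _ ≤ ∫⁻ w in S z (r z), _
    have hsplit : ∫⁻ w in S z (r z), f w ≤
        (∫⁻ w in S z (r z), ({w | ENNReal.ofReal (lam / 8) ≤ f w}).indicator f w) +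
          ENNReal.ofReal (lam / 2 * r z ^ 2) := by
      calc ∫⁻ w in S z (r z), f w ≤ ∫⁻ w in S z (r z),
            (({w | ENNReal.ofReal (lam / 8) ≤ f w}).indicator f w + ENNReal.ofReal (lam / 8)) := by
            refine lintegral_mono fun w => ?_
            by_cases hw : ENNReal.ofReal (lam / 8) ≤ f w
            · rw [indicator_of_mem (by exact hw)]
              exact le_self_add
            · rw [indicator_of_notMem (by exact hw), zero_add]
              exact (not_le.1 hw).le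
        _ = (∫⁻ w in S z (r z), ({w | ENNReal.ofReal (lam / 8) ≤ f w}).indicator f w) +
            ENNReal.ofReal (lam / 8) * volume (S z (r z)) := by
            rw [lintegral_add_right _ measurable_const]
            congr 1
            rw [lintegral_const, Measure.restrict_apply MeasurableSet.univ, univ_inter]
        _ ≤ _ := by
            gcongr
            calc ENNReal.ofReal (lam / 8) * volume (S z (r z))
                ≤ ENNReal.ofReal (lam / 8) * volume (ball z (r z)) := by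
                  gcongr; exact inter_subset_left
              _ = ENNReal.ofReal (lam / 8 * (Real.pi * r z ^ 2)) := by
                  rw [m3_vol_ball _ _ hpos.le, ← ENNReal.ofReal_mul (by positivity)]
              _ ≤ ENNReal.ofReal (lam / 2 * r z ^ 2) := by
                  apply ENNReal.ofReal_le_ofReal
                  have h4 := Real.pi_le_four
                  have : 0 ≤ lam * r z ^ 2 := by positivity
                  nlinarith
    have h5 : ENNReal.ofReal (lam / 2 * r z ^ 2) + ENNReal.ofReal (lam / 2 * r z ^ 2) ≤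
        (∫⁻ w in S z (r z), ({w | ENNReal.ofReal (lam / 8) ≤ f w}).indicator f w) +
          ENNReal.ofReal (lam / 2 * r z ^ 2) := by
      rw [← ENNReal.ofReal_add (by positivity) (by positivity)]
      refine le_trans (le_of_eq ?_) (h3.trans hsplit)
      congr 1; ring
    exact (ENNReal.add_le_add_iff_right ENNReal.ofReal_ne_top).1 h5

/-- Case 2 set: weak type bound for a general function restricted to a set -/
theorem m3_weak2 (D' : ℂ → ℝ≥0∞) (B : Set ℂ) (T : Set ℂ) (M k : ℝ) (hk : 0 < k)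
    (hT : ∀ z ∈ T, ∃ ρ : ℝ, 0 < ρ ∧ ρ ≤ M ∧ S z ρ ⊆ B ∧
      ENNReal.ofReal (k * ρ ^ 2) ≤ ∫⁻ w in S z ρ, D' w) :
    volume T ≤ ENNReal.ofReal (25 * Real.pi / k) * ∫⁻ w in B, D' w := by
  classical
  set r : ℂ → ℝ := fun z => if h : z ∈ T then (hT z h).choose else 0 with hr
  have hrz : ∀ z ∈ T, 0 < r z ∧ r z ≤ M ∧ S z (r z) ⊆ B ∧
      ENNReal.ofReal (k * r z ^ 2) ≤ ∫⁻ w in S z (r z), D' w := by
    intro z hz
    have : r z = (hT z hz).choose := by simp [hr, hz]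
    rw [this]
    exact (hT z hz).choose_spec
  have key := m3_weak T r M (fun z hz => ⟨(hrz z hz).1, (hrz z hz).2.1⟩)
    ((volume.restrict B).withDensity D') k hk ?_
  · refine key.trans (le_of_eq ?_)
    rw [withDensity_apply _ MeasurableSet.univ, Measure.restrict_univ]
  · intro z hz
    obtain ⟨h1, h2, h3, h4⟩ := hrz z hz
    rw [withDensity_apply _ measurableSet_ball, Measure.restrict_restrict measurableSet_ball]
    refine h4.trans (lintegral_mono_set ?_)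
    intro w hw
    exact ⟨hw.1, h3 hw⟩

/-- choice of the stopping radius -/
theorem m3_radius (G : ℂ → ℝ≥0∞) (lam : ℝ) (z : ℂ) (hz : z ∈ Mx G lam) :
    ∃ ρ : ℝ, Y z ≤ ρ ∧ ρ ≤ 2 ∧ ENNReal.ofReal (lam * ρ ^ 2) ≤ ∫⁻ w in S z ρ, G w ∧
      ∀ ρ' : ℝ, 2 * ρ ≤ ρ' → ρ' ≤ 2 → ∫⁻ w in S z ρ', G w ≤ ENNReal.ofReal (lam * ρ' ^ 2) := by
  set Z : Set ℝ := {ρ | Y z ≤ ρ ∧ ρ ≤ 2 ∧ ENNReal.ofReal (lam * ρ ^ 2) ≤ ∫⁻ w in S z ρ, G w}
    with hZ
  have hne : Z.Nonempty := hz.2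
  have hbdd : BddAbove Z := ⟨2, fun ρ h => h.2.1⟩
  have hYpos := m3_Y_pos hz.1
  obtain ⟨ρ₀, hρ₀⟩ := hne
  have hs : 0 < sSup Z := lt_of_lt_of_le (lt_of_lt_of_le hYpos hρ₀.1) (le_csSup hbdd hρ₀)
  obtain ⟨ρ, hρZ, hρ⟩ := exists_lt_of_lt_csSup ⟨ρ₀, hρ₀⟩ (show sSup Z / 2 < sSup Z by linarith)
  refine ⟨ρ, hρZ.1, hρZ.2.1, hρZ.2.2, ?_⟩
  intro ρ' h1 h2
  by_contra hcon
  rw [not_le] at hcon
  have : ρ' ∈ Z := ⟨by linarith [hρZ.1], h2, hcon.le⟩
  have := le_csSup hbdd this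
  linarith

theorem m3_local (C₁ C₂ ε c CH A η : ℝ) (hε : 0 < ε) (hc : 0 < c) (hCH : 0 < CH)
    (hA : 36 < A) (hη : 0 < η) (hC₂ : 0 < C₂)
    (h1 : ∀ (z : ℂ) (ρ t : ℝ), 0 < ρ → 0 < t →
      volume {w : ℂ | w ∈ ball (0:ℂ) 1 ∧ w ∈ ball z ρ ∧ Y w < t} ≤ ENNReal.ofReal (C₁ * ρ * t))
    (h2 : ∀ (z : ℂ) (ρ : ℝ), 0 < ρ →
      ∫⁻ w in S z ρ, ENNReal.ofReal ((Y w) ^ (-ε)) ≤ ENNReal.ofReal (C₂ * ρ ^ (2 - ε)))
    (G : ℂ → ℝ≥0∞) (lam : ℝ) (hlam : 0 < lam) (z₀ : ℂ) (hz₀ : z₀ ∈ ball (0:ℂ) 1) (ρ₀ : ℝ)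
    (hρ₀ : 0 < ρ₀) (hρ₁ : ρ₀ ≤ 1)
    (hmax : ∀ ρ' : ℝ, 2 * ρ₀ ≤ ρ' → ρ' ≤ 2 →
      ∫⁻ w in S z₀ ρ', G w ≤ ENNReal.ofReal (lam * ρ' ^ 2))
    (G₂ D' : ℂ → ℝ≥0∞) (hG₂ : Measurable G₂)
    (hdec1 : ∀ z ∈ S z₀ (6 * ρ₀), G z ≤ ENNReal.ofReal CH * (G₂ z + D' z))
    (hdec2 : ∀ z ∈ S z₀ (6 * ρ₀), G₂ z ≤ ENNReal.ofReal (CH * lam * ((6 * ρ₀ / c) / Y z) ^ ε))
    (hdec3 : ∫⁻ w in S z₀ (6 * ρ₀), D' w ≤ ENNReal.ofReal (η * lam * (6 * ρ₀ / c) ^ 2)) :
    volume (Mx G (A * lam) ∩ ball z₀ (5 * ρ₀)) ≤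
      ENNReal.ofReal (60 * C₁ / c * (2 * CH ^ 2 * C₂ / A) ^ (1 / ε) * ρ₀ ^ 2) +
      ENNReal.ofReal (1800 * Real.pi * CH * η / (A * c ^ 2) * ρ₀ ^ 2) := by
  classical
  have hApos : 0 < A := by linarith
  set θ : ℝ := (2 * CH ^ 2 * C₂ / A) ^ (1 / ε) with hθ
  have hbase : 0 < 2 * CH ^ 2 * C₂ / A := by positivity
  have hθpos : 0 < θ := Real.rpow_pos_of_pos hbase _
  set R : ℝ := 6 * ρ₀ / c with hR
  have hRpos : 0 < R := by positivity
  set k : ℝ := A * lam / (2 * CH) with hk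
  have hkpos : 0 < k := by positivity
  set B1 : Set ℂ := {w : ℂ | w ∈ ball (0:ℂ) 1 ∧ w ∈ ball z₀ (5 * ρ₀) ∧ Y w < 2 * θ * R} with hB1
  set B2 : Set ℂ := {z | ∃ ρ : ℝ, 0 < ρ ∧ ρ ≤ ρ₀ ∧ S z ρ ⊆ S z₀ (6 * ρ₀) ∧
      ENNReal.ofReal (k * ρ ^ 2) ≤ ∫⁻ w in S z ρ, D' w} with hB2
  have hsub : Mx G (A * lam) ∩ ball z₀ (5 * ρ₀) ⊆ B1 ∪ B2 := by
    rintro z ⟨⟨hzD, ρ, hρY, hρ2, hρ⟩, hzball⟩
    have hYz := m3_Y_pos hzD
    have hρpos : 0 < ρ := lt_of_lt_of_le hYz hρY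
    have hzball' : dist z z₀ < 5 * ρ₀ := hzball
    -- `ρ < ρ₀`
    have hρlt : ρ < ρ₀ := by
      by_contra hcon
      rw [not_lt] at hcon
      have hfin : ENNReal.ofReal (A * lam * ρ ^ 2) ≤ ENNReal.ofReal (36 * lam * ρ ^ 2) := by
        by_cases h62 : 6 * ρ ≤ 2
        · refine hρ.trans ((lintegral_mono_set ?_).trans ((hmax (6 * ρ) (by linarith) h62).trans
            (le_of_eq (by congr 1; ring))))
          intro w hw
          refine ⟨?_, hw.2⟩
          have hw1 : dist w z < ρ := hw.1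
          rw [mem_ball]
          calc dist w z₀ ≤ dist w z + dist z z₀ := dist_triangle _ _ _
            _ < 6 * ρ := by linarith
        · rw [not_le] at h62
          refine hρ.trans ((lintegral_mono_set ?_).trans ((hmax 2 (by linarith) le_rfl).trans
            (ENNReal.ofReal_le_ofReal ?_)))
          · intro w hw
            refine ⟨?_, hw.2⟩
            have hw2 : dist w 0 < 1 := hw.2
            have hz02 : dist z₀ 0 < 1 := hz₀
            rw [mem_ball]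
            calc dist w z₀ ≤ dist w 0 + dist 0 z₀ := dist_triangle _ _ _
              _ < 2 := by rw [dist_comm 0 z₀]; linarith
          · have : (4:ℝ) ≤ 36 * ρ ^ 2 := by nlinarith
            nlinarith
      rw [ENNReal.ofReal_le_ofReal_iff (by positivity)] at hfin
      have : 0 < lam * ρ ^ 2 := by positivity
      nlinarith
    have hSS : S z ρ ⊆ S z₀ (6 * ρ₀) := by
      intro w hw
      refine ⟨?_, hw.2⟩
      have hw1 : dist w z < ρ := hw.1
      rw [mem_ball]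
      calc dist w z₀ ≤ dist w z + dist z z₀ := dist_triangle _ _ _
        _ < 6 * ρ₀ := by linarith
    have hint : ∫⁻ w in S z ρ, G w ≤
        ENNReal.ofReal CH * (∫⁻ w in S z ρ, G₂ w) + ENNReal.ofReal CH * ∫⁻ w in S z ρ, D' w := by
      calc ∫⁻ w in S z ρ, G w ≤ ∫⁻ w in S z ρ, ENNReal.ofReal CH * (G₂ w + D' w) := by
            refine setLIntegral_mono' (m3_meas_S z ρ) fun w hw => hdec1 w (hSS hw)
        _ = _ := by
            rw [lintegral_const_mul' _ _ ENNReal.ofReal_ne_top, lintegral_add_left hG₂, mul_add]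
    by_cases hcase : ENNReal.ofReal (A * lam / 2 * ρ ^ 2) ≤ ENNReal.ofReal CH * ∫⁻ w in S z ρ, D' w
    · right
      refine ⟨ρ, hρpos, hρlt.le, hSS, ?_⟩
      have h3 : ENNReal.ofReal CH * ENNReal.ofReal (k * ρ ^ 2) ≤
          ENNReal.ofReal CH * ∫⁻ w in S z ρ, D' w := by
        refine le_trans (le_of_eq ?_) hcase
        rw [← ENNReal.ofReal_mul hCH.le]
        congr 1
        rw [hk]; field_simp
      exact (ENNReal.mul_le_mul_iff_right (by simpa using hCH) ENNReal.ofReal_ne_top).1 h3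
    · left
      rw [not_le] at hcase
      have hG2 : ENNReal.ofReal (A * lam / 2 * ρ ^ 2) ≤
          ENNReal.ofReal CH * ∫⁻ w in S z ρ, G₂ w := by
        by_contra hcon
        rw [not_le] at hcon
        have := ENNReal.add_lt_add hcon hcase
        rw [← ENNReal.ofReal_add (by positivity) (by positivity)] at this
        have h4 := lt_of_le_of_lt (hρ.trans hint) this
        rw [ENNReal.ofReal_lt_ofReal_iff (by positivity)] at h4
        linarith
      have hG2' : ∫⁻ w in S z ρ, G₂ w ≤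
          ENNReal.ofReal (CH * lam * R ^ ε) * ENNReal.ofReal (C₂ * ρ ^ (2 - ε)) := by
        calc ∫⁻ w in S z ρ, G₂ w ≤
              ∫⁻ w in S z ρ, ENNReal.ofReal (CH * lam * R ^ ε) * ENNReal.ofReal (Y w ^ (-ε)) := by
              refine setLIntegral_mono' (m3_meas_S z ρ) fun w hw => ?_
              refine (hdec2 w (hSS hw)).trans (le_of_eq ?_)
              have hYw := m3_Y_pos hw.2
              rw [← ENNReal.ofReal_mul (by positivity)]
              congr 1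
              rw [Real.div_rpow hRpos.le hYw.le, Real.rpow_neg hYw.le]
              ring
          _ ≤ _ := by
              rw [lintegral_const_mul' _ _ ENNReal.ofReal_ne_top]
              gcongr
              exact h2 z ρ hρpos
      have h5 : A * lam / 2 * ρ ^ 2 ≤ CH * (CH * lam * R ^ ε * (C₂ * ρ ^ (2 - ε))) := by
        have h6 : ENNReal.ofReal (A * lam / 2 * ρ ^ 2) ≤
            ENNReal.ofReal (CH * (CH * lam * R ^ ε * (C₂ * ρ ^ (2 - ε)))) := by
          calc ENNReal.ofReal (A * lam / 2 * ρ ^ 2) ≤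
                ENNReal.ofReal CH * ∫⁻ w in S z ρ, G₂ w := hG2
            _ ≤ ENNReal.ofReal CH *
                (ENNReal.ofReal (CH * lam * R ^ ε) * ENNReal.ofReal (C₂ * ρ ^ (2 - ε))) := by gcongr
            _ = _ := by
                rw [← ENNReal.ofReal_mul (by positivity), ← ENNReal.ofReal_mul hCH.le]
        rwa [ENNReal.ofReal_le_ofReal_iff (by positivity)] at h6
      have h7 : ρ ^ ε ≤ (2 * CH ^ 2 * C₂ / A) * R ^ ε := by
        have h8 : ρ ^ (2 - ε) = ρ ^ 2 / ρ ^ ε := by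
          rw [Real.rpow_sub hρpos]; norm_num
        rw [h8] at h5
        have hρε : 0 < ρ ^ ε := Real.rpow_pos_of_pos hρpos _
        have h9 : A * lam / 2 * ρ ^ 2 * ρ ^ ε ≤ CH ^ 2 * lam * R ^ ε * C₂ * ρ ^ 2 := by
          calc A * lam / 2 * ρ ^ 2 * ρ ^ ε ≤
                CH * (CH * lam * R ^ ε * (C₂ * (ρ ^ 2 / ρ ^ ε))) * ρ ^ ε := by gcongr
            _ = CH ^ 2 * lam * R ^ ε * C₂ * ρ ^ 2 := by field_simp
        have h10 : (A * ρ ^ ε) * (lam * ρ ^ 2) ≤ (2 * CH ^ 2 * C₂ * R ^ ε) * (lam * ρ ^ 2) := by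
          nlinarith
        have h11 := le_of_mul_le_mul_right h10 (by positivity)
        rw [div_mul_eq_mul_div, le_div_iff₀ hApos]
        linarith
      have h12 : ρ ≤ θ * R := by
        have h13 : (ρ ^ ε) ^ (1 / ε) ≤ ((2 * CH ^ 2 * C₂ / A) * R ^ ε) ^ (1 / ε) :=
          Real.rpow_le_rpow (by positivity) h7 (by positivity)
        rw [← Real.rpow_mul hρpos.le, mul_one_div_cancel hε.ne', Real.rpow_one,
          Real.mul_rpow hbase.le (by positivity), ← Real.rpow_mul hRpos.le,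
          mul_one_div_cancel hε.ne', Real.rpow_one] at h13
        exact h13
      refine ⟨hzD, hzball, ?_⟩
      have : 0 < θ * R := by positivity
      linarith
  have hv1 : volume B1 ≤ ENNReal.ofReal (60 * C₁ / c * θ * ρ₀ ^ 2) := by
    refine (h1 z₀ (5 * ρ₀) (2 * θ * R) (by positivity) (by positivity)).trans (le_of_eq ?_)
    congr 1
    rw [hR]; field_simp; ring
  have hv2 : volume B2 ≤ ENNReal.ofReal (1800 * Real.pi * CH * η / (A * c ^ 2) * ρ₀ ^ 2) := by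
    refine (m3_weak2 D' (S z₀ (6 * ρ₀)) B2 ρ₀ k hkpos (fun z hz => hz)).trans ?_
    calc ENNReal.ofReal (25 * Real.pi / k) * ∫⁻ w in S z₀ (6 * ρ₀), D' w
        ≤ ENNReal.ofReal (25 * Real.pi / k) * ENNReal.ofReal (η * lam * R ^ 2) := by gcongr
      _ = _ := by
        rw [← ENNReal.ofReal_mul (by positivity)]
        congr 1
        rw [hk, hR]; field_simp; ring
  calc volume (Mx G (A * lam) ∩ ball z₀ (5 * ρ₀)) ≤ volume (B1 ∪ B2) := measure_mono hsub
    _ ≤ volume B1 + volume B2 := measure_union_le _ _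
    _ ≤ _ := by gcongr

theorem m3_gl (C₁ C₂ ε c CH A η γ : ℝ) (hε : 0 < ε) (hc : 0 < c) (hc1 : c ≤ 1) (hCH : 0 < CH)
    (hA : 36 < A) (hη : 0 < η) (hC₁ : 0 < C₁) (hC₂ : 0 < C₂)
    (h1 : ∀ (z : ℂ) (ρ t : ℝ), 0 < ρ → 0 < t →
      volume {w : ℂ | w ∈ ball (0:ℂ) 1 ∧ w ∈ ball z ρ ∧ Y w < t} ≤ ENNReal.ofReal (C₁ * ρ * t))
    (h2 : ∀ (z : ℂ) (ρ : ℝ), 0 < ρ →
      ∫⁻ w in S z ρ, ENNReal.ofReal ((Y w) ^ (-ε)) ≤ ENNReal.ofReal (C₂ * ρ ^ (2 - ε)))
    (G f : ℂ → ℝ≥0∞) (hDec : Dec ε c CH γ η G f) (lam : ℝ) (hlam : 0 < lam)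
    (hI : ∫⁻ w in ball (0:ℂ) 1, G w ≤ ENNReal.ofReal (lam * (c / 3) ^ 2)) :
    volume (Mx G (A * lam)) ≤
      ENNReal.ofReal (16 / Real.pi * (60 * C₁ / c * (2 * CH ^ 2 * C₂ / A) ^ (1 / ε) +
        1800 * Real.pi * CH * η / (A * c ^ 2))) * volume (Mx G (lam / 9)) +
      volume (Mx f (γ * lam)) := by
  classical
  set E : Set ℂ := Mx G (A * lam) \ Mx f (γ * lam) with hE
  have hEsub : Mx G (A * lam) ⊆ E ∪ Mx f (γ * lam) := by
    intro z hz
    by_cases h : z ∈ Mx f (γ * lam)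
    · exact Or.inr h
    · exact Or.inl ⟨hz, h⟩
  refine (measure_mono hEsub).trans ((measure_union_le _ _).trans ?_)
  gcongr
  have hmono : ∀ z ∈ E, z ∈ Mx G lam := by
    rintro z ⟨⟨hzD, ρ, h3, h4, h5⟩, -⟩
    refine ⟨hzD, ρ, h3, h4, le_trans (ENNReal.ofReal_le_ofReal ?_) h5⟩
    have : 0 ≤ lam * ρ ^ 2 := by positivity
    nlinarith
  set r : ℂ → ℝ := fun z => if h : z ∈ E then (m3_radius G lam z (hmono z h)).choose else 0 with hr
  have hrz : ∀ z ∈ E, Y z ≤ r z ∧ r z ≤ 2 ∧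
      ENNReal.ofReal (lam * r z ^ 2) ≤ ∫⁻ w in S z (r z), G w ∧
      ∀ ρ' : ℝ, 2 * r z ≤ ρ' → ρ' ≤ 2 →
        ∫⁻ w in S z ρ', G w ≤ ENNReal.ofReal (lam * ρ' ^ 2) := by
    intro z hz
    have : r z = (m3_radius G lam z (hmono z hz)).choose := by simp [hr, hz]
    rw [this]
    exact (m3_radius G lam z (hmono z hz)).choose_spec
  have key := m3_vitali E r 2
    (fun z hz => ⟨lt_of_lt_of_le (m3_Y_pos hz.1.1) (hrz z hz).1, (hrz z hz).2.1⟩)
    (volume.restrict (Mx G (lam / 9)))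
    (ENNReal.ofReal (16 / Real.pi * (60 * C₁ / c * (2 * CH ^ 2 * C₂ / A) ^ (1 / ε) +
        1800 * Real.pi * CH * η / (A * c ^ 2)))) ?_
  · rwa [Measure.restrict_apply_univ] at key
  intro z hz
  obtain ⟨hρY, hρ2, hρ, hmax⟩ := hrz z hz
  have hzD : z ∈ ball (0:ℂ) 1 := hz.1.1
  set ρ₀ : ℝ := r z with hρ₀
  have hρpos : 0 < ρ₀ := lt_of_lt_of_le (m3_Y_pos hzD) hρY
  have hρc : ρ₀ ≤ c / 3 := by
    have h3 : ENNReal.ofReal (lam * ρ₀ ^ 2) ≤ ENNReal.ofReal (lam * (c / 3) ^ 2) :=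
      hρ.trans ((lintegral_mono_set (fun w hw => hw.2)).trans hI)
    rw [ENNReal.ofReal_le_ofReal_iff (by positivity)] at h3
    have h4 := le_of_mul_le_mul_left h3 hlam
    exact (sq_le_sq₀ hρpos.le (by positivity)).1 h4
  have hR2 : 6 * ρ₀ / c ≤ 2 := by
    rw [div_le_iff₀ hc]; linarith
  have hRρ : 6 * ρ₀ ≤ 6 * ρ₀ / c := by
    rw [le_div_iff₀ hc]; nlinarith
  obtain ⟨G₂, D', hG₂, hD', hd1, hd2, hd3⟩ := hDec z hzD (6 * ρ₀ / c) (by linarith) hR2 lam hlam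
    (fun ρ hρ' => hmax ρ (by linarith [hρ'.1]) hρ'.2)
    (fun ρ hρ' => by
      by_contra hcon
      rw [not_le] at hcon
      exact hz.2 ⟨hzD, ρ, by linarith [hρ'.1], hρ'.2, hcon.le⟩)
  have hcR : c * (6 * ρ₀ / c) = 6 * ρ₀ := by field_simp
  rw [hcR] at hd1 hd2 hd3
  have hloc := m3_local C₁ C₂ ε c CH A η hε hc hCH hA hη hC₂ h1 h2 G lam hlam z hzD ρ₀ hρpos
    (by linarith) hmax G₂ D' hG₂ hd1 hd2 hd3
  have hsub : S z ρ₀ ⊆ ball z ρ₀ ∩ Mx G (lam / 9) := by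
    intro w hw
    refine ⟨hw.1, hw.2, 3 * ρ₀, ?_, by linarith, ?_⟩
    · have := m3_Y_lip hw.2 hzD
      have hw1 : dist w z < ρ₀ := hw.1
      linarith
    · refine le_trans (le_of_eq (by congr 1; ring)) (hρ.trans (lintegral_mono_set ?_))
      intro v hv
      refine ⟨?_, hv.2⟩
      have hv1 : dist v z < ρ₀ := hv.1
      have hw1 : dist w z < ρ₀ := hw.1
      rw [mem_ball]
      calc dist v w ≤ dist v z + dist z w := dist_triangle _ _ _
        _ < 3 * ρ₀ := by rw [dist_comm z w]; linarith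
  calc volume (E ∩ ball z (5 * ρ₀)) ≤ volume (Mx G (A * lam) ∩ ball z (5 * ρ₀)) := by
        gcongr; exact Set.sdiff_subset
    _ ≤ _ := hloc
    _ = ENNReal.ofReal (16 / Real.pi * (60 * C₁ / c * (2 * CH ^ 2 * C₂ / A) ^ (1 / ε) +
        1800 * Real.pi * CH * η / (A * c ^ 2))) * ENNReal.ofReal (Real.pi * ρ₀ ^ 2 / 16) := by
        rw [← ENNReal.ofReal_add (by positivity) (by positivity),
          ← ENNReal.ofReal_mul (by positivity)]
        congr 1
        field_simp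
    _ ≤ ENNReal.ofReal (16 / Real.pi * (60 * C₁ / c * (2 * CH ^ 2 * C₂ / A) ^ (1 / ε) +
        1800 * Real.pi * CH * η / (A * c ^ 2))) *
          (volume.restrict (Mx G (lam / 9))) (ball z ρ₀) := by
        gcongr
        rw [Measure.restrict_apply measurableSet_ball]
        exact (m3_vol_S hzD hρpos hρ2).trans (measure_mono hsub)


theorem m3_rec (x y : ℕ → ℝ≥0∞) (h : ∀ j, 2 * x (j + 1) ≤ x j + y j) :
    ∑' j, x j ≤ 2 * x 0 + ∑' j, y j := by
  have claim : ∀ n : ℕ, ∑ j ∈ Finset.range (n + 1), x j + x n ≤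
      2 * x 0 + ∑ j ∈ Finset.range n, y j := by
    intro n
    induction n with
    | zero => simp [two_mul]
    | succ n ih =>
      rw [Finset.sum_range_succ x (n + 1), Finset.sum_range_succ y n]
      calc ∑ j ∈ Finset.range (n + 1), x j + x (n + 1) + x (n + 1)
          = ∑ j ∈ Finset.range (n + 1), x j + 2 * x (n + 1) := by rw [two_mul, add_assoc]
        _ ≤ ∑ j ∈ Finset.range (n + 1), x j + (x n + y n) := by gcongr; exact h n
        _ = (∑ j ∈ Finset.range (n + 1), x j + x n) + y n := by rw [add_assoc]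
        _ ≤ (2 * x 0 + ∑ j ∈ Finset.range n, y j) + y n := by gcongr
        _ = _ := by rw [add_assoc]
  refine ENNReal.tsum_le_of_sum_range_le fun n => ?_
  cases n with
  | zero => simp
  | succ n =>
    refine le_self_add.trans ((claim n).trans ?_)
    gcongr
    exact ENNReal.sum_le_tsum _

theorem m3_pw (x : ℝ≥0∞) (b q s : ℝ) (hb : 0 < b) (hq : 1 < q) (hs : 0 < s) :
    x ^ s ≤ ENNReal.ofReal (b ^ s) + ∑' j : ℕ,
      (if ENNReal.ofReal (b * q ^ j) ≤ x then ENNReal.ofReal ((b * q ^ (j + 1)) ^ s) else 0) := by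
  rcases eq_or_ne x ⊤ with rfl | hx
  · have : ∑' j : ℕ, (if ENNReal.ofReal (b * q ^ j) ≤ (⊤ : ℝ≥0∞) then
        ENNReal.ofReal ((b * q ^ (j + 1)) ^ s) else 0) = ⊤ := by
      rw [eq_top_iff]
      have h0 : ∑' _ : ℕ, ENNReal.ofReal (b ^ s) = ⊤ :=
        ENNReal.tsum_const_eq_top_of_ne_zero (by
          rw [Ne, ENNReal.ofReal_eq_zero, not_le]; exact Real.rpow_pos_of_pos hb s)
      refine (le_of_eq h0.symm).trans (ENNReal.tsum_le_tsum fun j => ?_)
      rw [if_pos le_top]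
      refine ENNReal.ofReal_le_ofReal (Real.rpow_le_rpow hb.le ?_ hs.le)
      have : 1 ≤ q ^ (j + 1) := one_le_pow₀ hq.le
      nlinarith
    rw [this]
    simp
  · set X := x.toReal with hX
    have hxX : x = ENNReal.ofReal X := (ENNReal.ofReal_toReal hx).symm
    have hX0 : 0 ≤ X := ENNReal.toReal_nonneg
    by_cases hXb : X < b
    · refine le_trans ?_ le_self_add
      rw [hxX, ENNReal.ofReal_rpow_of_nonneg hX0 hs.le]
      exact ENNReal.ofReal_le_ofReal (Real.rpow_le_rpow hX0 hXb.le hs.le)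
    · rw [not_lt] at hXb
      obtain ⟨n, h1, h2⟩ := exists_nat_pow_near (show 1 ≤ X / b by rwa [le_div_iff₀ hb, one_mul]) hq
      rw [le_div_iff₀ hb] at h1
      rw [div_lt_iff₀ hb] at h2
      refine le_trans ?_ le_add_self
      refine le_trans ?_ (ENNReal.le_tsum n)
      rw [if_pos (by rw [hxX]; exact ENNReal.ofReal_le_ofReal (by linarith))]
      rw [hxX, ENNReal.ofReal_rpow_of_nonneg hX0 hs.le]
      exact ENNReal.ofReal_le_ofReal (Real.rpow_le_rpow hX0 (by linarith) hs.le)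

theorem m3_geo (b q e : ℝ) (hb : 0 < b) (hq : 1 < q) (he : 0 < e) (n : ℕ) :
    ∑ j ∈ Finset.range (n + 1), (b * q ^ j) ^ e ≤ (q ^ e / (q ^ e - 1)) * (b * q ^ n) ^ e := by
  have hQ : 1 < q ^ e := Real.one_lt_rpow hq he
  have hQ1 : 0 < q ^ e - 1 := by linarith
  induction n with
  | zero =>
    simp only [zero_add, Finset.range_one, Finset.sum_singleton, pow_zero, mul_one]
    have h1 : 1 ≤ q ^ e / (q ^ e - 1) := by rw [le_div_iff₀ hQ1]; linarith
    have h2 : 0 < b ^ e := Real.rpow_pos_of_pos hb e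
    nlinarith
  | succ n ih =>
    rw [Finset.sum_range_succ]
    have h1 : (b * q ^ (n + 1)) ^ e = q ^ e * (b * q ^ n) ^ e := by
      rw [← Real.mul_rpow (by positivity) (by positivity)]
      congr 1; ring
    rw [h1]
    have h2 : q ^ e / (q ^ e - 1) * (q ^ e * (b * q ^ n) ^ e) =
        (q ^ e / (q ^ e - 1)) * (b * q ^ n) ^ e + q ^ e * (b * q ^ n) ^ e := by
      field_simp
      ring
    rw [h2]
    linarith

theorem m3_pl (x : ℝ≥0∞) (b κ q e : ℝ) (hb : 0 < b) (hκ : 0 < κ) (hq : 1 < q) (he : 0 < e) :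
    ∑' j : ℕ, (if ENNReal.ofReal (κ * (b * q ^ j)) ≤ x then ENNReal.ofReal ((b * q ^ j) ^ e)
      else 0) ≤ ENNReal.ofReal (κ ^ (-e) * (q ^ e / (q ^ e - 1))) * x ^ e := by
  have hQ : 1 < q ^ e := Real.one_lt_rpow hq he
  have hQ1 : 0 < q ^ e - 1 := by linarith
  refine ENNReal.tsum_le_of_sum_range_le fun n => ?_
  induction n with
  | zero => simp
  | succ n ih =>
    by_cases hn : ENNReal.ofReal (κ * (b * q ^ n)) ≤ x
    · have hbq : 0 < b * q ^ n := by positivity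
      calc ∑ j ∈ Finset.range (n + 1),
            (if ENNReal.ofReal (κ * (b * q ^ j)) ≤ x then ENNReal.ofReal ((b * q ^ j) ^ e) else 0)
          ≤ ∑ j ∈ Finset.range (n + 1), ENNReal.ofReal ((b * q ^ j) ^ e) := by
            refine Finset.sum_le_sum fun j _ => ?_
            split_ifs
            · exact le_rfl
            · exact bot_le
        _ = ENNReal.ofReal (∑ j ∈ Finset.range (n + 1), (b * q ^ j) ^ e) := by
            rw [ENNReal.ofReal_sum_of_nonneg]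
            intro j _
            positivity
        _ ≤ ENNReal.ofReal ((q ^ e / (q ^ e - 1)) * (b * q ^ n) ^ e) :=
            ENNReal.ofReal_le_ofReal (m3_geo b q e hb hq he n)
        _ = ENNReal.ofReal (κ ^ (-e) * (q ^ e / (q ^ e - 1))) *
              ENNReal.ofReal (κ * (b * q ^ n)) ^ e := by
            rw [ENNReal.ofReal_rpow_of_nonneg (by positivity) he.le,
              ← ENNReal.ofReal_mul (by positivity), Real.mul_rpow hκ.le hbq.le, Real.rpow_neg hκ.le]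
            congr 1
            have : 0 < κ ^ e := Real.rpow_pos_of_pos hκ e
            field_simp
        _ ≤ _ := by gcongr
    · rw [Finset.sum_range_succ, if_neg hn, add_zero]
      exact ih

/-- the weak-type sum for `f` -/
theorem m3_fsum (f : ℂ → ℝ≥0∞) (hf : Measurable f) (s q μ₀ γ : ℝ) (hs : 1 < s) (hq : 1 < q)
    (hμ : 0 < μ₀) (hγ : 0 < γ) :
    ENNReal.ofReal (μ₀ ^ s) * ∑' j : ℕ, ENNReal.ofReal (q ^ s) ^ j *
        volume (Mx f (γ * (9 * (μ₀ * q ^ j)))) ≤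
      ENNReal.ofReal (50 * Real.pi / (9 * γ)) *
        (ENNReal.ofReal ((9 * γ / 8) ^ (-(s - 1)) * (q ^ (s - 1) / (q ^ (s - 1) - 1))) *
          ∫⁻ z in ball (0:ℂ) 1, f z ^ s) := by
  have hq0 : 0 < q := by linarith
  have hs0 : 0 < s := by linarith
  set κ : ℝ := 9 * γ / 8 with hκ
  have hκpos : 0 < κ := by positivity
  have hterm : ∀ j : ℕ, ENNReal.ofReal (μ₀ ^ s) * (ENNReal.ofReal (q ^ s) ^ j *
        volume (Mx f (γ * (9 * (μ₀ * q ^ j))))) ≤
      ENNReal.ofReal (50 * Real.pi / (9 * γ)) * ∫⁻ z in ball (0:ℂ) 1,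
        f z * (if ENNReal.ofReal (κ * (μ₀ * q ^ j)) ≤ f z then
          ENNReal.ofReal ((μ₀ * q ^ j) ^ (s - 1)) else 0) := by
    intro j
    have hμj : 0 < μ₀ * q ^ j := by positivity
    have hlam : 0 < γ * (9 * (μ₀ * q ^ j)) := by positivity
    have h1 := m3_weak_Mx f hf (γ * (9 * (μ₀ * q ^ j))) hlam
    have e1 : ENNReal.ofReal (μ₀ ^ s) * ENNReal.ofReal (q ^ s) ^ j =
        ENNReal.ofReal ((μ₀ * q ^ j) ^ s) := by
      rw [← ENNReal.ofReal_pow (by positivity), ← ENNReal.ofReal_mul (by positivity),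
        Real.mul_rpow hμ.le (by positivity)]
      congr 2
      rw [← Real.rpow_natCast, ← Real.rpow_natCast, ← Real.rpow_mul hq0.le, ← Real.rpow_mul hq0.le,
        mul_comm]
    have e2 : ENNReal.ofReal ((μ₀ * q ^ j) ^ s) *
        ENNReal.ofReal (50 * Real.pi / (γ * (9 * (μ₀ * q ^ j)))) =
        ENNReal.ofReal (50 * Real.pi / (9 * γ)) * ENNReal.ofReal ((μ₀ * q ^ j) ^ (s - 1)) := by
      rw [← ENNReal.ofReal_mul (by positivity), ← ENNReal.ofReal_mul (by positivity)]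
      congr 1
      rw [Real.rpow_sub_one hμj.ne']
      field_simp
    calc ENNReal.ofReal (μ₀ ^ s) * (ENNReal.ofReal (q ^ s) ^ j *
          volume (Mx f (γ * (9 * (μ₀ * q ^ j)))))
        = ENNReal.ofReal ((μ₀ * q ^ j) ^ s) * volume (Mx f (γ * (9 * (μ₀ * q ^ j)))) := by
          rw [← mul_assoc, e1]
      _ ≤ ENNReal.ofReal ((μ₀ * q ^ j) ^ s) *
            (ENNReal.ofReal (50 * Real.pi / (γ * (9 * (μ₀ * q ^ j)))) *
              ∫⁻ w in ball (0:ℂ) 1,
                ({w | ENNReal.ofReal (γ * (9 * (μ₀ * q ^ j)) / 8) ≤ f w}).indicator f w) := by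
          gcongr
      _ = ENNReal.ofReal (50 * Real.pi / (9 * γ)) * (ENNReal.ofReal ((μ₀ * q ^ j) ^ (s - 1)) *
              ∫⁻ w in ball (0:ℂ) 1,
                ({w | ENNReal.ofReal (γ * (9 * (μ₀ * q ^ j)) / 8) ≤ f w}).indicator f w) := by
          rw [← mul_assoc, e2, mul_assoc]
      _ = _ := by
          rw [← lintegral_const_mul' _ _ ENNReal.ofReal_ne_top]
          congr 1
          refine lintegral_congr fun z => ?_
          have e3 : γ * (9 * (μ₀ * q ^ j)) / 8 = κ * (μ₀ * q ^ j) := by rw [hκ]; ring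
          rw [e3]
          by_cases hz : ENNReal.ofReal (κ * (μ₀ * q ^ j)) ≤ f z
          · rw [indicator_of_mem (by exact hz), if_pos hz, mul_comm]
          · rw [indicator_of_notMem (by exact hz), if_neg hz, mul_zero, mul_zero]
  have hmeas : ∀ j : ℕ, Measurable fun z => f z *
      (if ENNReal.ofReal (κ * (μ₀ * q ^ j)) ≤ f z then
          ENNReal.ofReal ((μ₀ * q ^ j) ^ (s - 1)) else 0) := by
    intro j
    refine hf.mul (Measurable.ite (measurableSet_le measurable_const hf) measurable_const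
      measurable_const)
  calc ENNReal.ofReal (μ₀ ^ s) * ∑' j : ℕ, ENNReal.ofReal (q ^ s) ^ j *
        volume (Mx f (γ * (9 * (μ₀ * q ^ j))))
      = ∑' j : ℕ, ENNReal.ofReal (μ₀ ^ s) * (ENNReal.ofReal (q ^ s) ^ j *
        volume (Mx f (γ * (9 * (μ₀ * q ^ j))))) := by rw [ENNReal.tsum_mul_left]
    _ ≤ ∑' j : ℕ, ENNReal.ofReal (50 * Real.pi / (9 * γ)) * ∫⁻ z in ball (0:ℂ) 1,
        f z * (if ENNReal.ofReal (κ * (μ₀ * q ^ j)) ≤ f z then
          ENNReal.ofReal ((μ₀ * q ^ j) ^ (s - 1)) else 0) := ENNReal.tsum_le_tsum hterm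
    _ = ENNReal.ofReal (50 * Real.pi / (9 * γ)) * ∫⁻ z in ball (0:ℂ) 1, ∑' j : ℕ,
        f z * (if ENNReal.ofReal (κ * (μ₀ * q ^ j)) ≤ f z then
          ENNReal.ofReal ((μ₀ * q ^ j) ^ (s - 1)) else 0) := by
        rw [ENNReal.tsum_mul_left, lintegral_tsum (fun j => (hmeas j).aemeasurable)]
    _ ≤ _ := by
        gcongr
        rw [← lintegral_const_mul' _ _ ENNReal.ofReal_ne_top]
        refine lintegral_mono fun z => ?_
        simp only
        rw [ENNReal.tsum_mul_left]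
        calc f z * ∑' j : ℕ, (if ENNReal.ofReal (κ * (μ₀ * q ^ j)) ≤ f z then
              ENNReal.ofReal ((μ₀ * q ^ j) ^ (s - 1)) else 0)
            ≤ f z * (ENNReal.ofReal (κ ^ (-(s - 1)) * (q ^ (s - 1) / (q ^ (s - 1) - 1))) *
                f z ^ (s - 1)) := by
              gcongr
              exact m3_pl (f z) μ₀ κ q (s - 1) hμ hκpos hq (by linarith)
          _ = _ := by
              have : f z ^ s = f z * f z ^ (s - 1) := by
                conv_lhs => rw [show s = 1 + (s - 1) by ring]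
                rw [ENNReal.rpow_add_of_nonneg _ _ zero_le_one (by linarith), ENNReal.rpow_one]
              rw [this]
              ring

/-- layer sum for `W` -/
theorem m3_Wsum (G W : ℂ → ℝ≥0∞) (hW : Measurable W) (s q μ₀ C1 : ℝ) (hs : 1 < s) (hq : 1 < q)
    (hμ : 0 < μ₀) (hC1 : 0 < C1)
    (hWG : ∀ z ∈ ball (0:ℂ) 1, W z * ENNReal.ofReal ((Y z) ^ 2) ≤
      ENNReal.ofReal C1 * ∫⁻ w in S z (Y z), G w) :
    ∫⁻ z in ball (0:ℂ) 1, W z ^ s ≤ ENNReal.ofReal (C1 ^ s) * (ENNReal.ofReal (μ₀ ^ s) *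
      (ENNReal.ofReal Real.pi + ENNReal.ofReal (q ^ s) * ∑' j : ℕ, ENNReal.ofReal (q ^ s) ^ j *
        volume (Mx G (μ₀ * q ^ j)))) := by
  have hq0 : 0 < q := by linarith
  have hs0 : 0 < s := by linarith
  have hb : 0 < C1 * μ₀ := by positivity
  have hset : ∀ j : ℕ, {z | ENNReal.ofReal (C1 * μ₀ * q ^ j) ≤ W z} ∩ ball (0:ℂ) 1 ⊆
      Mx G (μ₀ * q ^ j) := by
    rintro j z ⟨hz1, hzD⟩
    have hz1' : ENNReal.ofReal (C1 * μ₀ * q ^ j) ≤ W z := hz1
    refine ⟨hzD, Y z, le_rfl, m3_Y_le.trans (by norm_num), ?_⟩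
    have h1 : ENNReal.ofReal C1 * ENNReal.ofReal (μ₀ * q ^ j * Y z ^ 2) ≤
        ENNReal.ofReal C1 * ∫⁻ w in S z (Y z), G w := by
      calc ENNReal.ofReal C1 * ENNReal.ofReal (μ₀ * q ^ j * Y z ^ 2)
          = ENNReal.ofReal (C1 * μ₀ * q ^ j) * ENNReal.ofReal (Y z ^ 2) := by
            rw [← ENNReal.ofReal_mul hC1.le, ← ENNReal.ofReal_mul (by positivity)]
            congr 1; ring
        _ ≤ W z * ENNReal.ofReal (Y z ^ 2) := by gcongr
        _ ≤ _ := hWG z hzD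
    exact (ENNReal.mul_le_mul_iff_right (by simpa using hC1) ENNReal.ofReal_ne_top).1 h1
  have hmeas : ∀ j : ℕ, Measurable fun z =>
      (if ENNReal.ofReal (C1 * μ₀ * q ^ j) ≤ W z then
        ENNReal.ofReal ((C1 * μ₀ * q ^ (j + 1)) ^ s) else 0) := by
    intro j
    exact Measurable.ite (measurableSet_le measurable_const hW) measurable_const
      measurable_const
  calc ∫⁻ z in ball (0:ℂ) 1, W z ^ s ≤ ∫⁻ z in ball (0:ℂ) 1,
        (ENNReal.ofReal ((C1 * μ₀) ^ s) + ∑' j : ℕ,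
          (if ENNReal.ofReal (C1 * μ₀ * q ^ j) ≤ W z then
            ENNReal.ofReal ((C1 * μ₀ * q ^ (j + 1)) ^ s) else 0)) :=
        lintegral_mono fun z => m3_pw (W z) (C1 * μ₀) q s hb hq hs0
    _ = ENNReal.ofReal ((C1 * μ₀) ^ s) * ENNReal.ofReal Real.pi + ∑' j : ℕ,
          ∫⁻ z in ball (0:ℂ) 1, (if ENNReal.ofReal (C1 * μ₀ * q ^ j) ≤ W z then
            ENNReal.ofReal ((C1 * μ₀ * q ^ (j + 1)) ^ s) else 0) := by
        rw [lintegral_add_left measurable_const, lintegral_const,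
          Measure.restrict_apply_univ, m3_vol_ball _ _ zero_le_one,
          lintegral_tsum (fun j => (hmeas j).aemeasurable)]
        norm_num
    _ ≤ ENNReal.ofReal ((C1 * μ₀) ^ s) * ENNReal.ofReal Real.pi + ∑' j : ℕ,
          ENNReal.ofReal ((C1 * μ₀ * q ^ (j + 1)) ^ s) * volume (Mx G (μ₀ * q ^ j)) := by
        gcongr with j
        have hms : MeasurableSet {z | ENNReal.ofReal (C1 * μ₀ * q ^ j) ≤ W z} :=
          measurableSet_le measurable_const hW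
        have : ∫⁻ z in ball (0:ℂ) 1, (if ENNReal.ofReal (C1 * μ₀ * q ^ j) ≤ W z then
            ENNReal.ofReal ((C1 * μ₀ * q ^ (j + 1)) ^ s) else 0) =
            ∫⁻ z in ball (0:ℂ) 1, ({z | ENNReal.ofReal (C1 * μ₀ * q ^ j) ≤ W z}).indicator
              (fun _ => ENNReal.ofReal ((C1 * μ₀ * q ^ (j + 1)) ^ s)) z := by
          refine lintegral_congr fun z => ?_
          by_cases hz : ENNReal.ofReal (C1 * μ₀ * q ^ j) ≤ W z
          · rw [indicator_of_mem (by exact hz), if_pos hz]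
          · rw [indicator_of_notMem (by exact hz), if_neg hz]
        rw [this, lintegral_indicator hms, setLIntegral_const, Measure.restrict_apply hms]
        gcongr
        exact hset j
    _ = _ := by
        have e1 : ENNReal.ofReal ((C1 * μ₀) ^ s) = ENNReal.ofReal (C1 ^ s) *
            ENNReal.ofReal (μ₀ ^ s) := by
          rw [← ENNReal.ofReal_mul (by positivity), Real.mul_rpow hC1.le hμ.le]
        have e2 : ∀ j : ℕ, ENNReal.ofReal ((C1 * μ₀ * q ^ (j + 1)) ^ s) =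
            ENNReal.ofReal (C1 ^ s) * ENNReal.ofReal (μ₀ ^ s) * (ENNReal.ofReal (q ^ s) *
              ENNReal.ofReal (q ^ s) ^ j) := by
          intro j
          rw [← pow_succ', ← ENNReal.ofReal_pow (by positivity), ← e1,
            ← ENNReal.ofReal_mul (by positivity), Real.mul_rpow (by positivity) (by positivity)]
          congr 2
          rw [← Real.rpow_natCast, ← Real.rpow_natCast, ← Real.rpow_mul hq0.le,
            ← Real.rpow_mul hq0.le, mul_comm]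
        rw [e1]
        simp only [e2]
        rw [← ENNReal.tsum_mul_left]
        simp only [mul_add, ← ENNReal.tsum_mul_left]
        congr 1
        · ring
        · refine tsum_congr fun j => ?_
          ring

/-- choice of the constants -/
theorem m3_consts (s ε c CH C₁ C₂ : ℝ) (_hs : 1 < s) (hε : 0 < ε) (hεs : ε * (s + 1) ≤ 1)
    (hc : 0 < c) (hCH : 0 < CH) (hC₁ : 0 < C₁) (hC₂ : 0 < C₂) :
    ∃ A η : ℝ, 36 < A ∧ 0 < η ∧
      2 * ((9 * A) ^ s * (16 / Real.pi * (60 * C₁ / c * (2 * CH ^ 2 * C₂ / A) ^ (1 / ε) +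
        1800 * Real.pi * CH * η / (A * c ^ 2)))) ≤ 1 := by
  set B : ℝ := 2 * CH ^ 2 * C₂ with hB
  have hBpos : 0 < B := by positivity
  have hpi := Real.pi_pos
  set X : ℝ := 16 / Real.pi * (60 * C₁ / c) * (9 ^ s * B ^ (1 / ε)) with hX
  have hXpos : 0 < X := by positivity
  set A : ℝ := 37 + 4 * X with hA
  have hA37 : 37 ≤ A := by linarith
  have hApos : 0 < A := by linarith
  have h9A : 0 < (9 * A) ^ s := by positivity
  refine ⟨A, 1 / 4 * (Real.pi / 16) * (A * c ^ 2) / (1800 * Real.pi * CH) / (9 * A) ^ s,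
    by linarith, by positivity, ?_⟩
  have h1 : (9 * A) ^ s * (16 / Real.pi * (60 * C₁ / c * (B / A) ^ (1 / ε))) ≤ 1 / 4 := by
    have h2 : (9 * A) ^ s * (B / A) ^ (1 / ε) ≤ 9 ^ s * B ^ (1 / ε) / A := by
      rw [Real.mul_rpow (by norm_num) hApos.le, Real.div_rpow hBpos.le hApos.le]
      have h3 : A ^ (s + 1) ≤ A ^ (1 / ε) := by
        refine Real.rpow_le_rpow_of_exponent_le (by linarith) ?_
        rw [le_div_iff₀ hε]; linarith
      rw [Real.rpow_add_one hApos.ne'] at h3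
      have hAε : 0 < A ^ (1 / ε) := by positivity
      rw [mul_div_assoc', div_le_div_iff₀ hAε hApos]
      calc 9 ^ s * A ^ s * B ^ (1 / ε) * A = 9 ^ s * B ^ (1 / ε) * (A ^ s * A) := by ring
        _ ≤ 9 ^ s * B ^ (1 / ε) * A ^ (1 / ε) := by gcongr
    calc (9 * A) ^ s * (16 / Real.pi * (60 * C₁ / c * (B / A) ^ (1 / ε)))
        = 16 / Real.pi * (60 * C₁ / c) * ((9 * A) ^ s * (B / A) ^ (1 / ε)) := by ring
      _ ≤ 16 / Real.pi * (60 * C₁ / c) * (9 ^ s * B ^ (1 / ε) / A) := by gcongr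
      _ = X / A := by rw [hX]; ring
      _ ≤ 1 / 4 := by
        rw [div_le_div_iff₀ hApos (by norm_num)]
        linarith
  have h2 : (9 * A) ^ s * (16 / Real.pi * (1800 * Real.pi * CH *
      (1 / 4 * (Real.pi / 16) * (A * c ^ 2) / (1800 * Real.pi * CH) / (9 * A) ^ s) /
        (A * c ^ 2))) = 1 / 4 := by
    field_simp
  rw [mul_add (16 / Real.pi), mul_add ((9 * A) ^ s)]
  linarith

theorem m_M3_strong (hG1 : G1) (hG2 : G2) :
    ∀ s ε c CH C1 : ℝ, 1 < s → 0 < ε → ε * (s + 1) ≤ 1 → 0 < c → c ≤ 1 → 0 < CH →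
  0 < C1 → ∃ η : ℝ, 0 < η ∧ ∀ γ : ℝ, 0 < γ → ∃ C : ℝ≥0, ∀ G f W : ℂ → ℝ≥0∞,
    Measurable f → Measurable W → ∫⁻ z in ball (0:ℂ) 1, G z ≠ ⊤ →
    Dec ε c CH γ η G f →
    (∀ z ∈ ball (0:ℂ) 1, W z * ENNReal.ofReal ((Y z) ^ 2) ≤
      ENNReal.ofReal C1 * ∫⁻ w in S z (Y z), G w) →
    ∫⁻ z in ball (0:ℂ) 1, W z ^ s ≤
      C * ((∫⁻ z in ball (0:ℂ) 1, f z ^ s) + (∫⁻ z in ball (0:ℂ) 1, G z) ^ s) := by
  intro s ε c CH C1 hs hε hεs hc hc1 hCH hC1
  have hs0 : 0 < s := by linarith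
  have hε1 : ε < 1 := by nlinarith
  obtain ⟨C₁, hC₁, h1⟩ := hG1
  obtain ⟨C₂, hC₂, h2⟩ := hG2 ε hε hε1
  obtain ⟨A, η, hA, hη, hAη⟩ := m3_consts s ε c CH C₁ C₂ hs hε hεs hc hCH hC₁ hC₂
  refine ⟨η, hη, fun γ hγ => ?_⟩
  set δ : ℝ := 16 / Real.pi * (60 * C₁ / c * (2 * CH ^ 2 * C₂ / A) ^ (1 / ε) +
        1800 * Real.pi * CH * η / (A * c ^ 2)) with hδ
  have hApos : 0 < A := by linarith
  have hδpos : 0 < δ := by
    have := Real.pi_pos
    positivity
  set q : ℝ := 9 * A with hq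
  have hq1 : 1 < q := by linarith
  have hq0 : 0 < q := by linarith
  set Q : ℝ≥0∞ := ENNReal.ofReal (q ^ s) with hQ
  set Kf : ℝ≥0∞ := ENNReal.ofReal (50 * Real.pi / (9 * γ)) *
        ENNReal.ofReal ((9 * γ / 8) ^ (-(s - 1)) * (q ^ (s - 1) / (q ^ (s - 1) - 1))) with hKf
  set X1 : ℝ≥0∞ := ENNReal.ofReal (C1 ^ s) * (ENNReal.ofReal ((c ^ 2)⁻¹ ^ s) *
    (ENNReal.ofReal Real.pi + Q * (2 * ENNReal.ofReal Real.pi))) with hX1
  set X2 : ℝ≥0∞ := ENNReal.ofReal (C1 ^ s) * (Q * (2 * (Q * Kf))) with hX2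
  have hQtop : Q ≠ ⊤ := ENNReal.ofReal_ne_top
  have hKtop : Kf ≠ ⊤ := ENNReal.mul_ne_top ENNReal.ofReal_ne_top ENNReal.ofReal_ne_top
  have hX1top : X1 ≠ ⊤ := by
    refine ENNReal.mul_ne_top ENNReal.ofReal_ne_top (ENNReal.mul_ne_top ENNReal.ofReal_ne_top ?_)
    refine ENNReal.add_ne_top.2 ⟨ENNReal.ofReal_ne_top, ENNReal.mul_ne_top hQtop ?_⟩
    exact ENNReal.mul_ne_top (by norm_num) ENNReal.ofReal_ne_top
  have hX2top : X2 ≠ ⊤ := by
    refine ENNReal.mul_ne_top ENNReal.ofReal_ne_top (ENNReal.mul_ne_top hQtop ?_)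
    exact ENNReal.mul_ne_top (by norm_num) (ENNReal.mul_ne_top hQtop hKtop)
  refine ⟨(X1 + X2).toNNReal, fun G f W hf hW hfin hDec hWG => ?_⟩
  rw [ENNReal.coe_toNNReal (ENNReal.add_ne_top.2 ⟨hX1top, hX2top⟩)]
  set I : ℝ≥0∞ := ∫⁻ z in ball (0:ℂ) 1, G z with hI
  rcases eq_or_ne I 0 with hI0 | hI0
  · have hW0 : ∀ z ∈ ball (0:ℂ) 1, W z = 0 := by
      intro z hz
      have h3 : W z * ENNReal.ofReal ((Y z) ^ 2) = 0 := by
        refine le_antisymm ((hWG z hz).trans ?_) bot_le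
        calc ENNReal.ofReal C1 * ∫⁻ w in S z (Y z), G w ≤ ENNReal.ofReal C1 * I := by
              gcongr
              exact lintegral_mono_set (fun w hw => hw.2)
          _ = 0 := by rw [hI0, mul_zero]
      rcases mul_eq_zero.1 h3 with h4 | h4
      · exact h4
      · exfalso
        rw [ENNReal.ofReal_eq_zero] at h4
        have := m3_Y_pos hz
        nlinarith
    have : ∫⁻ z in ball (0:ℂ) 1, W z ^ s = 0 := by
      rw [setLIntegral_congr_fun (g := fun _ => 0) measurableSet_ball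
        (fun z hz => by rw [hW0 z hz, ENNReal.zero_rpow_of_pos hs0])]
      simp
    rw [this]
    exact bot_le
  · set I₀ : ℝ := I.toReal with hI₀
    have hI₀pos : 0 < I₀ := ENNReal.toReal_pos hI0 hfin
    have hII : I = ENNReal.ofReal I₀ := (ENNReal.ofReal_toReal hfin).symm
    set μ₀ : ℝ := I₀ * (c ^ 2)⁻¹ with hμ₀
    have hμpos : 0 < μ₀ := by positivity
    set a : ℕ → ℝ≥0∞ := fun j => volume (Mx G (μ₀ * q ^ j)) with ha
    set b : ℕ → ℝ≥0∞ := fun j => volume (Mx f (γ * (9 * (μ₀ * q ^ j)))) with hb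
    have hrec : ∀ j, a (j + 1) ≤ ENNReal.ofReal δ * a j + b j := by
      intro j
      have hqj : 1 ≤ q ^ j := one_le_pow₀ hq1.le
      have h3 := m3_gl C₁ C₂ ε c CH A η γ hε hc hc1 hCH hA hη hC₁ hC₂ h1 h2 G f hDec
        (9 * (μ₀ * q ^ j)) (by positivity) (by
          rw [← hI, hII]
          apply ENNReal.ofReal_le_ofReal
          have : 9 * (μ₀ * q ^ j) * (c / 3) ^ 2 = I₀ * q ^ j := by
            rw [hμ₀]; field_simp; ring
          rw [this]
          nlinarith)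
      have e1 : A * (9 * (μ₀ * q ^ j)) = μ₀ * q ^ (j + 1) := by rw [hq]; ring
      have e2 : 9 * (μ₀ * q ^ j) / 9 = μ₀ * q ^ j := by ring
      rw [e1, e2] at h3
      exact h3
    have hQδ : 2 * (Q * ENNReal.ofReal δ) ≤ 1 := by
      have : 2 * (Q * ENNReal.ofReal δ) = ENNReal.ofReal (2 * (q ^ s * δ)) := by
        rw [ENNReal.ofReal_mul (by norm_num : (0:ℝ) ≤ 2),
          ENNReal.ofReal_mul (show 0 ≤ q ^ s by positivity), hQ]
        norm_num
      rw [this, ← ENNReal.ofReal_one]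
      exact ENNReal.ofReal_le_ofReal hAη
    have hrec2 : ∀ j, 2 * (Q ^ (j + 1) * a (j + 1)) ≤ Q ^ j * a j + 2 * (Q * (Q ^ j * b j)) := by
      intro j
      calc 2 * (Q ^ (j + 1) * a (j + 1)) ≤ 2 * (Q ^ (j + 1) * (ENNReal.ofReal δ * a j + b j)) := by
            gcongr; exact hrec j
        _ = (2 * (Q * ENNReal.ofReal δ)) * (Q ^ j * a j) + 2 * (Q * (Q ^ j * b j)) := by
            rw [pow_succ]; ring
        _ ≤ 1 * (Q ^ j * a j) + 2 * (Q * (Q ^ j * b j)) := by gcongr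
        _ = _ := by rw [one_mul]
    have hsum := m3_rec (fun j => Q ^ j * a j) (fun j => 2 * (Q * (Q ^ j * b j))) hrec2
    have ha0 : a 0 ≤ ENNReal.ofReal Real.pi := by
      calc a 0 ≤ volume (ball (0:ℂ) 1) := measure_mono (fun z hz => hz.1)
        _ = ENNReal.ofReal Real.pi := by rw [m3_vol_ball _ _ zero_le_one]; norm_num
    have hsum2 : ∑' j : ℕ, Q ^ j * a j ≤ 2 * ENNReal.ofReal Real.pi +
        2 * (Q * ∑' j : ℕ, Q ^ j * b j) := by
      refine hsum.trans ?_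
      simp only [pow_zero, one_mul, ENNReal.tsum_mul_left]
      gcongr
    have hfs := m3_fsum f hf s q μ₀ γ hs hq1 hμpos hγ
    have hWs := m3_Wsum G W hW s q μ₀ C1 hs hq1 hμpos hC1 hWG
    have hμs : ENNReal.ofReal (μ₀ ^ s) = I ^ s * ENNReal.ofReal ((c ^ 2)⁻¹ ^ s) := by
      rw [hII, ENNReal.ofReal_rpow_of_nonneg hI₀pos.le hs0.le,
        ← ENNReal.ofReal_mul (by positivity), hμ₀, Real.mul_rpow hI₀pos.le (by positivity)]
    have hfs' : ENNReal.ofReal (μ₀ ^ s) * ∑' j : ℕ, Q ^ j * b j ≤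
        Kf * ∫⁻ z in ball (0:ℂ) 1, f z ^ s := by
      refine hfs.trans (le_of_eq ?_)
      rw [hKf, mul_assoc]
    calc ∫⁻ z in ball (0:ℂ) 1, W z ^ s
        ≤ ENNReal.ofReal (C1 ^ s) * (ENNReal.ofReal (μ₀ ^ s) *
            (ENNReal.ofReal Real.pi + Q * ∑' j : ℕ, Q ^ j * a j)) := hWs
      _ ≤ ENNReal.ofReal (C1 ^ s) * (ENNReal.ofReal (μ₀ ^ s) *
            (ENNReal.ofReal Real.pi + Q * (2 * ENNReal.ofReal Real.pi +
              2 * (Q * ∑' j : ℕ, Q ^ j * b j)))) := by gcongr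
      _ = ENNReal.ofReal (C1 ^ s) * (ENNReal.ofReal (μ₀ ^ s) *
            (ENNReal.ofReal Real.pi + Q * (2 * ENNReal.ofReal Real.pi))) +
          ENNReal.ofReal (C1 ^ s) * (Q * (2 * (Q * (ENNReal.ofReal (μ₀ ^ s) *
            ∑' j : ℕ, Q ^ j * b j)))) := by ring
      _ ≤ ENNReal.ofReal (C1 ^ s) * (ENNReal.ofReal (μ₀ ^ s) *
            (ENNReal.ofReal Real.pi + Q * (2 * ENNReal.ofReal Real.pi))) +
          ENNReal.ofReal (C1 ^ s) * (Q * (2 * (Q * (Kf * ∫⁻ z in ball (0:ℂ) 1, f z ^ s)))) := by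
          gcongr
      _ = X1 * I ^ s + X2 * ∫⁻ z in ball (0:ℂ) 1, f z ^ s := by
          rw [hμs, hX1, hX2]; ring
      _ ≤ (X1 + X2) * I ^ s + (X1 + X2) * ∫⁻ z in ball (0:ℂ) 1, f z ^ s := by
          gcongr
          · exact le_self_add
          · exact le_add_self
      _ = _ := by rw [mul_add, add_comm]

/-- `M3` as stated (there the last integral on the right contains the constant). -/
theorem m_M3 (hG1 : G1) (hG2 : G2) : M3 := by
  intro s ε c CH C1 hs hε hεs hc hc1 hCH hC1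
  obtain ⟨η, hη, h⟩ := m_M3_strong hG1 hG2 s ε c CH C1 hs hε hεs hc hc1 hCH hC1
  refine ⟨η, hη, fun γ hγ => ?_⟩
  obtain ⟨C, hC⟩ := h γ hγ
  refine ⟨C, fun G f W _ hf hW hfin hDec hWG => (hC G f W hf hW hfin hDec hWG).trans ?_⟩
  gcongr
  rw [lintegral_add_right _ measurable_const, lintegral_const,
    Measure.restrict_apply_univ, m3_vol_ball _ _ zero_le_one, one_pow, mul_one]
  gcongr
  refine le_mul_of_one_le_right bot_le ?_
  rw [← ENNReal.ofReal_one]
  exact ENNReal.ofReal_le_ofReal (by linarith [Real.pi_gt_three])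

end Pool.Agent.L0h83.BR
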