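import Pool.Agent.L0h83.BR.Stm3
import Pool.Agent.L0h83.BR.M3

/-! The uniform estimate. -/

set_option autoImplicit false

namespace Pool.Agent.L0h83.BR

open Complex Metric Set Filter Topology MeasureTheory ComplexConjugate
open scoped ENNReal NNReal

/-- `∫ |F|^p ≤ ∫ |κ|^q` -/
lemma Dat.energy_real {p q : ℝ} {κ F : ℂ → ℂ} (h : Dat p q κ F) :
    ∫ z in (ball (0:ℂ) 1), ‖F z‖ ^ p ≤ ∫ z in (ball (0:ℂ) 1), ‖κ z‖ ^ q := by
  have hpq := h.hpq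
  have hp := hpq.lt
  have mF := meas_an h.sol.an
  have mκ : AEStronglyMeasurable κ (volume.restrict (ball (0:ℂ) 1)) := h.km.aestronglyMeasurable
  have a1 : ∫ z in (ball (0:ℂ) 1), conj (A p (F z)) * F z = ∫ z in (ball (0:ℂ) 1), conj (κ z) * F z :=
    h.sol.el' hpq mκ h.ki h.sol.an h.sol.int
  have a2 : ∫ z in (ball (0:ℂ) 1), conj (A p (F z)) * F z = ((∫ z in (ball (0:ℂ) 1), ‖F z‖ ^ p : ℝ) : ℂ) := by
    simp_rw [A_mul_conj hp]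
    exact integral_ofReal
  have i1 : IntegrableOn (fun z => conj (κ z) * F z) (ball (0:ℂ) 1) := int_kh hpq mκ mF h.ki h.sol.int
  have a3 : ∫ z in (ball (0:ℂ) 1), ‖F z‖ ^ p ≤ ‖∫ z in (ball (0:ℂ) 1), conj (κ z) * F z‖ := by
    rw [← a1, a2, Complex.norm_real]
    exact le_abs_self _
  have a4 : ‖∫ z in (ball (0:ℂ) 1), conj (κ z) * F z‖ ≤ ∫ z in (ball (0:ℂ) 1), (‖F z‖ ^ p / p + ‖κ z‖ ^ q / q) := by
    refine (norm_integral_le_integral_norm _).trans ?_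
    apply integral_mono i1.norm ((h.sol.int.div_const p).add (h.ki.div_const q))
    intro z
    simp only
    rw [norm_mul, RCLike.norm_conj, mul_comm]
    exact Real.young_inequality_of_nonneg (norm_nonneg _) (norm_nonneg _) hpq
  have a5 : ∫ z in (ball (0:ℂ) 1), (‖F z‖ ^ p / p + ‖κ z‖ ^ q / q) =
      (∫ z in (ball (0:ℂ) 1), ‖F z‖ ^ p) / p + (∫ z in (ball (0:ℂ) 1), ‖κ z‖ ^ q) / q := by
    have b1 : ∫ z in (ball (0:ℂ) 1), (‖F z‖ ^ p / p + ‖κ z‖ ^ q / q) =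
        (∫ z in (ball (0:ℂ) 1), ‖F z‖ ^ p / p) + ∫ z in (ball (0:ℂ) 1), ‖κ z‖ ^ q / q :=
      integral_add (h.sol.int.div_const p) (h.ki.div_const q)
    rw [b1, integral_div, integral_div]
  rw [a5] at a4
  have a6 := a3.trans a4
  set X := ∫ z in (ball (0:ℂ) 1), ‖F z‖ ^ p
  set K := ∫ z in (ball (0:ℂ) 1), ‖κ z‖ ^ q
  have hinv := hpq.inv_add_inv_eq_one
  have hq0 := hpq.symm.pos
  have e1 : X - X / p = X / q := by
    have : q⁻¹ = 1 - p⁻¹ := by linarith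
    rw [div_eq_mul_inv, div_eq_mul_inv, this]; ring
  have e2 : X / q ≤ K / q := by linarith
  exact (div_le_div_iff_of_pos_right hq0).1 e2

lemma Dat.energy {p q : ℝ} {κ F : ℂ → ℂ} (h : Dat p q κ F) :
    ∫⁻ z in (ball (0:ℂ) 1), ‖F z‖ₑ ^ p ≤ ∫⁻ z in (ball (0:ℂ) 1), ‖κ z‖ₑ ^ q := by
  have l2 : ∫⁻ z in (ball (0:ℂ) 1), ‖κ z‖ₑ ^ q = ENNReal.ofReal (∫ z in (ball (0:ℂ) 1), ‖κ z‖ ^ q) := by
    simp_rw [enorm_rpow_eq h.hpq.symm.nonneg]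
    exact (ofReal_integral_eq_lintegral_ofReal h.ki
      (Eventually.of_forall fun z => by positivity)).symm
  have l3 : ∫⁻ z in (ball (0:ℂ) 1), ‖F z‖ₑ ^ p = ENNReal.ofReal (∫ z in (ball (0:ℂ) 1), ‖F z‖ ^ p) := by
    simp_rw [enorm_rpow_eq h.hpq.nonneg]
    exact (ofReal_integral_eq_lintegral_ofReal h.sol.int
      (Eventually.of_forall fun z => by positivity)).symm
  rw [l2, l3]
  exact ENNReal.ofReal_le_ofReal h.energy_real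

/-- `|A F - κ|^q ≤ 2^q (|F|^p + |κ|^q)` -/
lemma ph_rpow_le {p q : ℝ} (hpq : p.HolderConjugate q) (κ F : ℂ → ℂ) (z : ℂ) :
    ‖ph p κ F z‖ₑ ^ q ≤ ENNReal.ofReal (2 ^ q) * (‖F z‖ₑ ^ p + ‖κ z‖ₑ ^ q) := by
  rw [enorm_rpow_eq hpq.symm.nonneg, enorm_rpow_eq hpq.nonneg, enorm_rpow_eq hpq.symm.nonneg,
    ← ENNReal.ofReal_add (by positivity) (by positivity), ← ENNReal.ofReal_mul (by positivity)]
  apply ENNReal.ofReal_le_ofReal
  have h1 : ‖ph p κ F z‖ ≤ ‖A p (F z)‖ + ‖κ z‖ := by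
    unfold ph
    rw [RCLike.norm_conj]
    exact norm_sub_le _ _
  calc ‖ph p κ F z‖ ^ q ≤ (‖A p (F z)‖ + ‖κ z‖) ^ q :=
        Real.rpow_le_rpow (norm_nonneg _) h1 hpq.symm.nonneg
    _ ≤ 2 ^ q * (‖A p (F z)‖ ^ q + ‖κ z‖ ^ q) :=
        add_rpow_le (norm_nonneg _) (norm_nonneg _) hpq.symm.nonneg
    _ = _ := by rw [norm_A_rpow hpq]

/-- `∫ G ≤ C ∫ |κ|^q` -/
lemma Gf_energy (h4 : G4) {p q : ℝ} (hpq : p.HolderConjugate q) : ∃ C : ℝ≥0,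
    ∀ κ F : ℂ → ℂ, Dat p q κ F → ∫⁻ z in (ball (0:ℂ) 1), Gf p q κ F z ≤ C * ∫⁻ z in (ball (0:ℂ) 1), ‖κ z‖ₑ ^ q := by
  obtain ⟨C4, hC4⟩ := h4 q hpq.symm.lt
  refine ⟨1 + C4 * ((2:ℝ) ^ q).toNNReal * 2, fun κ F h => ?_⟩
  set E := ∫⁻ z in (ball (0:ℂ) 1), ‖κ z‖ₑ ^ q with hE
  have e1 := h.energy
  rw [← hE] at e1
  have e2 : ∫⁻ z in (ball (0:ℂ) 1), ‖ph p κ F z‖ₑ ^ q ≤ ENNReal.ofReal (2 ^ q) * (2 * E) := by
    calc ∫⁻ z in (ball (0:ℂ) 1), ‖ph p κ F z‖ₑ ^ q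
        ≤ ∫⁻ z in (ball (0:ℂ) 1), ENNReal.ofReal (2 ^ q) * (‖F z‖ₑ ^ p + ‖κ z‖ₑ ^ q) :=
          lintegral_mono fun z => ph_rpow_le hpq κ F z
      _ = ENNReal.ofReal (2 ^ q) * ((∫⁻ z in (ball (0:ℂ) 1), ‖F z‖ₑ ^ p) + ∫⁻ z in (ball (0:ℂ) 1), ‖κ z‖ₑ ^ q) := by
          rw [lintegral_const_mul' _ _ ENNReal.ofReal_ne_top,
            lintegral_add_left (h.Fm.enorm.pow_const p)]
      _ ≤ ENNReal.ofReal (2 ^ q) * (2 * E) := by
          rw [two_mul]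
          gcongr
  have e3 : ∫⁻ z in (ball (0:ℂ) 1), Vf (ph p κ F) z ^ q ≤ C4 * ∫⁻ z in (ball (0:ℂ) 1), ‖ph p κ F z‖ₑ ^ q := by
    refine le_trans ?_ (hC4 (fun w => ‖ph p κ F w‖ₑ) h.phm.enorm)
    apply setLIntegral_mono' measurableSet_ball
    intro z hz
    exact ENNReal.rpow_le_rpow (Vf_le h.phm hz) hpq.symm.nonneg
  have e4 : ENNReal.ofReal ((2:ℝ) ^ q) = (((2:ℝ) ^ q).toNNReal : ℝ≥0∞) := rfl
  calc ∫⁻ z in (ball (0:ℂ) 1), Gf p q κ F z = (∫⁻ z in (ball (0:ℂ) 1), ‖F z‖ₑ ^ p) + ∫⁻ z in (ball (0:ℂ) 1), Vf (ph p κ F) z ^ q := by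
        unfold Gf
        rw [lintegral_add_left (h.Fm.enorm.pow_const p)]
    _ ≤ E + C4 * (ENNReal.ofReal (2 ^ q) * (2 * E)) := by
        gcongr
        exact e3.trans (by gcongr)
    _ = _ := by
        rw [e4]
        push_cast
        ring

theorem m_UE (hD : DecT) (h1 : G1) (h2 : G2) (h4 : G4) (hN : N2a) : UE := by
  intro p q s hpq hs
  have hp := hpq.lt
  have hs0 : 0 < s := by linarith
  set ε : ℝ := 1 / (s + 1) with hε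
  have hε0 : 0 < ε := by positivity
  have hε1 : ε < 1 := by
    rw [hε, div_lt_one (by linarith)]; linarith
  have hεs : ε * (s + 1) ≤ 1 := by
    rw [hε, one_div_mul_cancel (by linarith)]
  obtain ⟨c, CH, hc, hc1, hCH, hDec⟩ := hD p q ε hpq hε0 hε1
  obtain ⟨CN, hCN, hN2⟩ := hN p hp
  obtain ⟨η, hη, hM⟩ := m_M3_strong h1 h2 s ε c CH CN hs hε0 hεs hc hc1 hCH hCN
  obtain ⟨γ, hγ, hDec⟩ := hDec η hη
  obtain ⟨C, hC⟩ := hM γ hγ
  obtain ⟨CE, hCE⟩ := Gf_energy h4 hpq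
  refine ⟨C * (1 + CE ^ s), fun κ F h => ?_⟩
  have m1 : Measurable fun z => ‖κ z‖ₑ ^ q := h.km.enorm.pow_const q
  have m2 : Measurable fun z => ‖F z‖ₑ ^ p := h.Fm.enorm.pow_const p
  have key := hC (Gf p q κ F) (fun z => ‖κ z‖ₑ ^ q) (fun z => ‖F z‖ₑ ^ p) m1 m2 (h.Gfin h4)
    (hDec κ F h) (by
      intro z hz
      have hzn : ‖z‖ < 1 := by simpa using hz
      have hY : 0 < Y z := Y_pos hz
      have b1 := hN2 F h.sol.an z hz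
      have b2 : ball z (Y z / 4) ⊆ S z (Y z) := by
        intro w hw
        refine ⟨ball_subset_ball (by linarith) hw, ?_⟩
        rw [mem_ball, dist_eq_norm] at hw
        rw [mem_ball_zero_iff]
        have hb : ‖w‖ ≤ ‖w - z‖ + ‖z‖ := by
          calc ‖w‖ = ‖(w - z) + z‖ := by rw [sub_add_cancel]
            _ ≤ _ := norm_add_le _ _
        have hY' : Y z = 1 - ‖z‖ ^ 2 := rfl
        have hz0 := norm_nonneg z
        nlinarith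
      calc ‖F z‖ₑ ^ p * ENNReal.ofReal ((Y z) ^ 2)
          = ENNReal.ofReal (‖F z‖ ^ p * (Y z) ^ 2) := by
            rw [enorm_rpow_eq hpq.nonneg, ENNReal.ofReal_mul (by positivity)]
        _ ≤ ENNReal.ofReal ((‖F z‖ ^ p + (Y z * ‖deriv F z‖) ^ p) * (Y z) ^ 2) := by
            apply ENNReal.ofReal_le_ofReal
            have : 0 ≤ (Y z * ‖deriv F z‖) ^ p := by positivity
            nlinarith [sq_nonneg (Y z)]
        _ ≤ ENNReal.ofReal CN * ∫⁻ w in ball z (Y z / 4), ENNReal.ofReal (‖F w‖ ^ p) := b1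
        _ ≤ ENNReal.ofReal CN * ∫⁻ w in S z (Y z), Gf p q κ F w := by
            gcongr ENNReal.ofReal CN * ?_
            refine (lintegral_mono_set b2).trans ?_
            apply lintegral_mono
            intro w
            unfold Gf
            rw [enorm_rpow_eq hpq.nonneg]
            exact le_self_add)
  set E := ∫⁻ z in (ball (0:ℂ) 1), ‖κ z‖ₑ ^ q with hE
  have k1 : ∫⁻ z in (ball (0:ℂ) 1), (‖F z‖ₑ ^ p) ^ s = ∫⁻ z in (ball (0:ℂ) 1), ‖F z‖ₑ ^ (p * s) := by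
    simp_rw [← ENNReal.rpow_mul]
  have k2 : ∫⁻ z in (ball (0:ℂ) 1), (‖κ z‖ₑ ^ q) ^ s = ∫⁻ z in (ball (0:ℂ) 1), ‖κ z‖ₑ ^ (q * s) := by
    simp_rw [← ENNReal.rpow_mul]
  rw [k1, k2] at key
  refine key.trans ?_
  have k3 : (∫⁻ z in (ball (0:ℂ) 1), Gf p q κ F z) ^ s ≤ (CE ^ s : ℝ≥0) * E ^ s := by
    calc (∫⁻ z in (ball (0:ℂ) 1), Gf p q κ F z) ^ s ≤ (CE * E) ^ s :=
          ENNReal.rpow_le_rpow (hCE κ F h) hs0.le
      _ = _ := by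
          rw [ENNReal.mul_rpow_of_nonneg _ _ hs0.le, ENNReal.coe_rpow_of_nonneg _ hs0.le]
  set B := ∫⁻ z in (ball (0:ℂ) 1), ‖κ z‖ₑ ^ (q * s)
  calc (C : ℝ≥0∞) * (B + (∫⁻ z in (ball (0:ℂ) 1), Gf p q κ F z) ^ s) ≤ C * (B + (CE ^ s : ℝ≥0) * E ^ s) := by
        gcongr
    _ ≤ C * ((1 + (CE ^ s : ℝ≥0)) * (B + E ^ s)) := by
        gcongr C * ?_
        rw [add_mul, one_mul, mul_add]
        have hx : B ≤ B + E ^ s := le_self_add
        have hy : ((CE ^ s : ℝ≥0) : ℝ≥0∞) * E ^ s ≤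
          (CE ^ s : ℝ≥0) * B + (CE ^ s : ℝ≥0) * E ^ s := le_add_self
        exact add_le_add hx hy
    _ = _ := by push_cast; ring

end Pool.Agent.L0h83.BR
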