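import Pool.Agent.L0h83.BR.Stm3

/-! Removal of the regularisation. -/

set_option autoImplicit false

namespace Pool.Agent.L0h83.BR

open Complex Metric Set Filter Topology MeasureTheory ComplexConjugate
open scoped ENNReal NNReal

namespace F2h

lemma dens_est {p q c : ℝ} (hpq : p.HolderConjugate q) 
    (hc : ∀ a b : ℂ, c * dens p a b ≤ (conj (A p a - A p b) * (a - b)).re)
    {κ κ₂ F F₂ : ℂ → ℂ} (hF : Sol p κ F) (hF₂ : Sol p κ₂ F₂)
    (hm : AEStronglyMeasurable κ (volume.restrict (ball (0:ℂ) 1)))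
    (hm₂ : AEStronglyMeasurable κ₂ (volume.restrict (ball (0:ℂ) 1)))
    (hk : IntegrableOn (fun z => ‖κ z‖ ^ q) (ball (0:ℂ) 1))
    (hk₂ : IntegrableOn (fun z => ‖κ₂ z‖ ^ q) (ball (0:ℂ) 1)) :
    c * ∫ z in ball (0:ℂ) 1, dens p (F z) (F₂ z) ≤
      ∫ z in ball (0:ℂ) 1, ‖κ z - κ₂ z‖ * ‖F z - F₂ z‖ := by
  have hp := hpq.lt
  have hp0 : 0 ≤ p := by linarith
  have m1 := meas_an hF.an
  have m2 := meas_an hF₂.an
  have hsi : Integrable (fun z => ‖F z - F₂ z‖ ^ p) (volume.restrict (ball (0:ℂ) 1)) :=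
    int_sub' hp0 m1 m2 hF.int hF₂.int
  have a1 := hF.el' hpq hm hk (hF.an.sub hF₂.an) hsi
  have a2 := hF₂.el' hpq hm₂ hk₂ (hF.an.sub hF₂.an) hsi
  simp only [Pi.sub_apply] at a1 a2
  have j1 := int_Ah hpq m1 (m1.sub m2) hF.int hsi
  have j2 := int_Ah hpq m2 (m1.sub m2) hF₂.int hsi
  have j3 := int_kh hpq hm (m1.sub m2) hk hsi
  have j4 := int_kh hpq hm₂ (m1.sub m2) hk₂ hsi
  simp only [Pi.sub_apply] at j1 j2 j3 j4
  have e1 : ∫ z in ball (0:ℂ) 1, conj (A p (F z) - A p (F₂ z)) * (F z - F₂ z) =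
      ∫ z in ball (0:ℂ) 1, conj (κ z - κ₂ z) * (F z - F₂ z) := by
    have b1 : ∫ z in ball (0:ℂ) 1, conj (A p (F z) - A p (F₂ z)) * (F z - F₂ z) =
        (∫ z in ball (0:ℂ) 1, conj (A p (F z)) * (F z - F₂ z)) -
          ∫ z in ball (0:ℂ) 1, conj (A p (F₂ z)) * (F z - F₂ z) := by
      rw [← integral_sub j1 j2]
      congr 1; ext z; rw [map_sub]; ring
    have b2 : ∫ z in ball (0:ℂ) 1, conj (κ z - κ₂ z) * (F z - F₂ z) =
        (∫ z in ball (0:ℂ) 1, conj (κ z) * (F z - F₂ z)) -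
          ∫ z in ball (0:ℂ) 1, conj (κ₂ z) * (F z - F₂ z) := by
      rw [← integral_sub j3 j4]
      congr 1; ext z; rw [map_sub]; ring
    rw [b1, b2, a1, a2]
  have i0 : IntegrableOn (fun z => conj (A p (F z) - A p (F₂ z)) * (F z - F₂ z))
      (ball (0:ℂ) 1) := by
    refine (j1.sub j2).congr (Eventually.of_forall fun z => ?_)
    simp only [Pi.sub_apply, map_sub]; ring
  have i1 : IntegrableOn (fun z => conj (κ z - κ₂ z) * (F z - F₂ z)) (ball (0:ℂ) 1) := by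
    refine (j3.sub j4).congr (Eventually.of_forall fun z => ?_)
    simp only [Pi.sub_apply, map_sub]; ring
  have hdi := dens_int hp m1 m2 hF.int hF₂.int
  calc c * ∫ z in ball (0:ℂ) 1, dens p (F z) (F₂ z)
      = ∫ z in ball (0:ℂ) 1, c * dens p (F z) (F₂ z) := (integral_const_mul _ _).symm
    _ ≤ ∫ z in ball (0:ℂ) 1, (conj (A p (F z) - A p (F₂ z)) * (F z - F₂ z)).re :=
        integral_mono (hdi.const_mul _) i0.re fun z => hc _ _
    _ = (∫ z in ball (0:ℂ) 1, conj (A p (F z) - A p (F₂ z)) * (F z - F₂ z)).re :=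
        integral_re i0
    _ = (∫ z in ball (0:ℂ) 1, conj (κ z - κ₂ z) * (F z - F₂ z)).re := by rw [e1]
    _ ≤ ‖∫ z in ball (0:ℂ) 1, conj (κ z - κ₂ z) * (F z - F₂ z)‖ := Complex.re_le_norm _
    _ ≤ ∫ z in ball (0:ℂ) 1, ‖conj (κ z - κ₂ z) * (F z - F₂ z)‖ := norm_integral_le_integral_norm _
    _ = _ := by
        congr 1; ext z
        rw [norm_mul, RCLike.norm_conj]

lemma young_ptw {p q t x y : ℝ} (hpq : p.HolderConjugate q) (ht : 0 < t) (hx : 0 ≤ x)
    (hy : 0 ≤ y) : x * y ≤ t⁻¹ ^ q * x ^ q + t ^ p * y ^ p := by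
  have hp := hpq.lt
  have hq := hpq.symm.lt
  have h := Real.young_inequality_of_nonneg (a := t * y) (b := t⁻¹ * x) (by positivity)
    (by positivity) hpq
  have e : t * y * (t⁻¹ * x) = x * y := by field_simp
  rw [e, Real.mul_rpow ht.le hy, Real.mul_rpow (by positivity) hx] at h
  have h1 : t ^ p * y ^ p / p ≤ t ^ p * y ^ p := div_le_self (by positivity) hp.le
  have h2 : t⁻¹ ^ q * x ^ q / q ≤ t⁻¹ ^ q * x ^ q := div_le_self (by positivity) hq.le
  linarith

/-- the difference of the solutions is controlled by the difference of the data -/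
lemma diff_est {p q : ℝ} (hpq : p.HolderConjugate q) (h1 : P1) (h4 : P4) {κ F : ℂ → ℂ}
    (hF : Sol p κ F)
    (hm : AEStronglyMeasurable κ (volume.restrict (ball (0:ℂ) 1)))
    (hk : IntegrableOn (fun z => ‖κ z‖ ^ q) (ball (0:ℂ) 1)) {η : ℝ} (hη : 0 < η) :
    ∃ C : ℝ, 0 < C ∧ ∀ κ₂ F₂ : ℂ → ℂ, Sol p κ₂ F₂ →
      AEStronglyMeasurable κ₂ (volume.restrict (ball (0:ℂ) 1)) →
      IntegrableOn (fun z => ‖κ₂ z‖ ^ q) (ball (0:ℂ) 1) →
      ∫ z in ball (0:ℂ) 1, ‖F z - F₂ z‖ ^ p ≤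
        C * (∫ z in ball (0:ℂ) 1, ‖κ z - κ₂ z‖ ^ q) + η := by
  have hp := hpq.lt
  have hp0 : 0 < p := by linarith
  have hq0 : 0 < q := hpq.symm.pos
  obtain ⟨c, hc, hP1⟩ := h1 p hp
  set M : ℝ := ∫ z in ball (0:ℂ) 1, ‖F z‖ ^ p with hM
  have hM0 : 0 ≤ M := integral_nonneg fun z => by positivity
  set η' : ℝ := η / (2 * (M + 1)) with hη'
  have hη'0 : 0 < η' := by positivity
  obtain ⟨C, hC, hP4⟩ := h4 p hp η' hη'0
  set t : ℝ := (c / (2 * C)) ^ (1 / p) with ht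
  have ht0 : 0 < t := by positivity
  have htp : t ^ p = c / (2 * C) := by
    rw [ht, ← Real.rpow_mul (by positivity), one_div_mul_cancel hp0.ne', Real.rpow_one]
  refine ⟨2 * C / c * t⁻¹ ^ q, by positivity, fun κ₂ F₂ hF₂ hm₂ hk₂ => ?_⟩
  have m1 := meas_an hF.an
  have m2 := meas_an hF₂.an
  have hsi : Integrable (fun z => ‖F z - F₂ z‖ ^ p) (volume.restrict (ball (0:ℂ) 1)) :=
    int_sub' hp0.le m1 m2 hF.int hF₂.int
  have hki : Integrable (fun z => ‖κ z - κ₂ z‖ ^ q) (volume.restrict (ball (0:ℂ) 1)) :=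
    int_sub' hq0.le hm hm₂ hk hk₂
  have hdi := dens_int hp m1 m2 hF.int hF₂.int
  have hd := dens_est hpq hP1 hF hF₂ hm hm₂ hk hk₂
  set X : ℝ := ∫ z in ball (0:ℂ) 1, ‖F z - F₂ z‖ ^ p with hX
  set Z : ℝ := ∫ z in ball (0:ℂ) 1, ‖κ z - κ₂ z‖ ^ q with hZ
  have hy : ∫ z in ball (0:ℂ) 1, ‖κ z - κ₂ z‖ * ‖F z - F₂ z‖ ≤ t⁻¹ ^ q * Z + t ^ p * X := by
    calc ∫ z in ball (0:ℂ) 1, ‖κ z - κ₂ z‖ * ‖F z - F₂ z‖
        ≤ ∫ z in ball (0:ℂ) 1, (t⁻¹ ^ q * ‖κ z - κ₂ z‖ ^ q + t ^ p * ‖F z - F₂ z‖ ^ p) := by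
          refine integral_mono_of_nonneg (Eventually.of_forall fun z => by positivity)
            ((hki.const_mul _).add (hsi.const_mul _)) (Eventually.of_forall fun z => ?_)
          exact young_ptw hpq ht0 (norm_nonneg _) (norm_nonneg _)
      _ = _ := by
          rw [integral_add (hki.const_mul _) (hsi.const_mul _), integral_const_mul,
            integral_const_mul]
  have hx : X ≤ C * (∫ z in ball (0:ℂ) 1, dens p (F z) (F₂ z)) + η' * M := by
    calc X ≤ ∫ z in ball (0:ℂ) 1, (C * dens p (F z) (F₂ z) + η' * ‖F z‖ ^ p) :=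
          integral_mono hsi ((hdi.const_mul _).add (hF.int.const_mul _)) fun z => hP4 _ _
      _ = _ := by
          rw [integral_add (hdi.const_mul _) (hF.int.const_mul _), integral_const_mul,
            integral_const_mul]
  set E : ℝ := ∫ z in ball (0:ℂ) 1, dens p (F z) (F₂ z) with hE
  have h5 : c * E ≤ t⁻¹ ^ q * Z + c / (2 * C) * X := by
    rw [← htp]
    exact hd.trans hy
  have h6 : C * E ≤ C / c * (t⁻¹ ^ q * Z) + X / 2 := by
    have : C / c * (c * E) ≤ C / c * (t⁻¹ ^ q * Z + c / (2 * C) * X) := by gcongr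
    have e1 : C / c * (c * E) = C * E := by field_simp
    have e2 : C / c * (t⁻¹ ^ q * Z + c / (2 * C) * X) = C / c * (t⁻¹ ^ q * Z) + X / 2 := by
      field_simp
    rw [e1, e2] at this
    exact this
  have h7 : η' * M ≤ η / 2 := by
    rw [hη', div_mul_eq_mul_div, div_le_div_iff₀ (by positivity) (by norm_num)]
    nlinarith
  have h8 : 2 * C / c * t⁻¹ ^ q * Z = 2 * (C / c * (t⁻¹ ^ q * Z)) := by ring
  rw [h8]
  linarith

lemma int_of_lint {r : ℝ} (hr : 0 ≤ r) {f : ℂ → ℂ} (hf : DifferentiableOn ℂ f (ball 0 1))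
    (h : ∫⁻ z in ball (0:ℂ) 1, ‖f z‖ₑ ^ r ≠ ⊤) :
    IntegrableOn (fun z => ‖f z‖ ^ r) (ball (0:ℂ) 1) := by
  refine ⟨((meas_an hf).norm.aemeasurable.pow_const r).aestronglyMeasurable, ?_⟩
  unfold HasFiniteIntegral
  refine lt_of_le_of_lt (le_of_eq ?_) (lt_top_iff_ne_top.2 h)
  refine lintegral_congr fun z => ?_
  rw [enorm_rpow_eq hr, ← ofReal_norm (‖f z‖ ^ r), Real.norm_eq_abs, abs_of_nonneg (by positivity)]

lemma lint_of_int {r : ℝ} (hr : 0 ≤ r) {f : ℂ → ℂ}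
    (h : IntegrableOn (fun z => ‖f z‖ ^ r) (ball (0:ℂ) 1)) :
    ∫⁻ z in ball (0:ℂ) 1, ‖f z‖ₑ ^ r = ENNReal.ofReal (∫ z in ball (0:ℂ) 1, ‖f z‖ ^ r) := by
  simp_rw [enorm_rpow_eq hr]
  rw [← ofReal_integral_eq_lintegral_ofReal h (Eventually.of_forall fun z => by positivity)]

lemma ball_sub' {z : ℂ} (hz : z ∈ ball (0:ℂ) 1) : ball z (Y z / 4) ⊆ ball (0:ℂ) 1 := by
  intro w hw
  have hz' := mem_ball_zero_iff.1 hz
  rw [mem_ball, dist_eq_norm] at hw
  rw [mem_ball_zero_iff]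
  have h1 : ‖w‖ ≤ ‖w - z‖ + ‖z‖ := by
    calc ‖w‖ = ‖(w - z) + z‖ := by congr 1; ring
      _ ≤ _ := norm_add_le _ _
  have h2 : Y z / 4 ≤ (1 - ‖z‖) / 2 := by
    unfold Y
    nlinarith [norm_nonneg z]
  linarith

/-- `L^p` convergence implies pointwise convergence -/
lemma ptw {p : ℝ} (hp : 1 < p) (hN2 : N2a) {F : ℂ → ℂ} {Fn : ℕ → ℂ → ℂ}
    (hF : DifferentiableOn ℂ F (ball 0 1)) (hFn : ∀ n, DifferentiableOn ℂ (Fn n) (ball 0 1))
    (hi : ∀ n, IntegrableOn (fun z => ‖F z - Fn n z‖ ^ p) (ball (0:ℂ) 1))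
    (hX : Tendsto (fun n => ∫ z in ball (0:ℂ) 1, ‖F z - Fn n z‖ ^ p) atTop (𝓝 0))
    {z : ℂ} (hz : z ∈ ball (0:ℂ) 1) : Tendsto (fun n => Fn n z) atTop (𝓝 (F z)) := by
  have hp0 : 0 < p := by linarith
  obtain ⟨C, hC, hN⟩ := hN2 p hp
  have hY := Y_pos hz
  have h1 : ∀ n, ‖F z - Fn n z‖ ^ p ≤ C / Y z ^ 2 * ∫ w in ball (0:ℂ) 1, ‖F w - Fn n w‖ ^ p := by
    intro n
    have h2 := hN (fun w => F w - Fn n w) (hF.sub (hFn n)) z hz
    have h3 : ENNReal.ofReal (‖F z - Fn n z‖ ^ p * Y z ^ 2) ≤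
        ENNReal.ofReal (C * ∫ w in ball (0:ℂ) 1, ‖F w - Fn n w‖ ^ p) := by
      calc ENNReal.ofReal (‖F z - Fn n z‖ ^ p * Y z ^ 2)
          ≤ ENNReal.ofReal ((‖F z - Fn n z‖ ^ p +
              (Y z * ‖deriv (fun w => F w - Fn n w) z‖) ^ p) * (Y z) ^ 2) := by
            apply ENNReal.ofReal_le_ofReal
            have : 0 ≤ (Y z * ‖deriv (fun w => F w - Fn n w) z‖) ^ p := by positivity
            gcongr
            linarith
        _ ≤ ENNReal.ofReal C * ∫⁻ w in ball z (Y z / 4), ENNReal.ofReal (‖F w - Fn n w‖ ^ p) := h2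
        _ ≤ ENNReal.ofReal C * ∫⁻ w in ball (0:ℂ) 1, ENNReal.ofReal (‖F w - Fn n w‖ ^ p) := by
            gcongr
            exact ball_sub' hz
        _ = _ := by
            rw [← ofReal_integral_eq_lintegral_ofReal (hi n)
              (Eventually.of_forall fun z => by positivity), ENNReal.ofReal_mul hC.le]
    have hX0 : 0 ≤ ∫ w in ball (0:ℂ) 1, ‖F w - Fn n w‖ ^ p :=
      integral_nonneg fun z => by positivity
    rw [ENNReal.ofReal_le_ofReal_iff (by positivity)] at h3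
    rw [div_mul_eq_mul_div, le_div_iff₀ (by positivity)]
    exact h3
  have h2 : Tendsto (fun n => ‖F z - Fn n z‖ ^ p) atTop (𝓝 0) := by
    refine squeeze_zero (fun n => by positivity) h1 ?_
    have := hX.const_mul (C / Y z ^ 2)
    rwa [mul_zero] at this
  have h3 : Tendsto (fun n => ‖F z - Fn n z‖) atTop (𝓝 0) := by
    have h4 := h2.rpow_const (p := 1 / p) (Or.inr (by positivity))
    rw [Real.zero_rpow (by positivity)] at h4
    refine h4.congr fun n => ?_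
    rw [← Real.rpow_mul (norm_nonneg _), mul_one_div_cancel hp0.ne', Real.rpow_one]
  have h4 : Tendsto (fun n => F z - Fn n z) atTop (𝓝 0) := tendsto_zero_iff_norm_tendsto_zero.2 h3
  have h5 := (tendsto_const_nhds (x := F z)).sub h4
  simpa using h5

end F2h

open F2h in
theorem m_GE (hU : UE) (hN1 : N1) (hN2 : N2a) (h1 : P1) (h4 : P4) : GE := by
  intro p q s hpq hs κ F hκd hκi hmini
  have hp := hpq.lt
  have hp0 : 0 < p := by linarith
  have hq : 1 < q := hpq.symm.lt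
  have hq0 : 0 < q := by linarith
  have hs0 : 0 < s := by linarith
  have hqs : 0 < q * s := by positivity
  have hκq : IntegrableOn (fun z => ‖κ z‖ ^ q) (ball (0:ℂ) 1) := by
    have hc : IntegrableOn (fun _ : ℂ => (1:ℝ)) (ball (0:ℂ) 1) :=
      integrableOn_const measure_ball_lt_top.ne
    refine Integrable.mono' (hc.add (int_of_lint hqs.le hκd hκi))
      ((meas_an hκd).norm.aemeasurable.pow_const _).aestronglyMeasurable
      (Eventually.of_forall fun z => ?_)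
    simp only [Pi.add_apply]
    rw [Real.norm_eq_abs, abs_of_nonneg (by positivity)]
    rcases le_or_gt ‖κ z‖ 1 with h5 | h5
    · have h6 : ‖κ z‖ ^ q ≤ 1 := Real.rpow_le_one (norm_nonneg _) h5 hq0.le
      have : 0 ≤ ‖κ z‖ ^ (q * s) := by positivity
      linarith
    · have h6 : ‖κ z‖ ^ q ≤ ‖κ z‖ ^ (q * s) := by
        apply Real.rpow_le_rpow_of_exponent_le h5.le
        nlinarith
      linarith
  have hsol : Sol p κ F := hmini.sol hpq (meas_an hκd) hκq
  -- the truncated data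
  set r : ℕ → ℝ := fun n => 1 - 1 / ((n : ℝ) + 2) with hr
  have hr1 : ∀ n, r n < 1 := by
    intro n
    have : 0 < 1 / ((n : ℝ) + 2) := by positivity
    simp only [hr]
    linarith
  set κn : ℕ → ℂ → ℂ := fun n => (closedBall (0:ℂ) (r n)).indicator κ with hκn
  have hκc : ∀ n, ContinuousOn κ (closedBall (0:ℂ) (r n)) := fun n =>
    hκd.continuousOn.mono (closedBall_subset_ball (hr1 n))
  have hκm : ∀ n, Measurable (κn n) := by
    intro n
    classical
    simp only [hκn]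
    rw [← Set.piecewise_eq_indicator]
    exact (hκc n).measurable_piecewise continuousOn_const measurableSet_closedBall
  have hκb : ∀ n, ∃ M : ℝ, ∀ z, ‖κn n z‖ ≤ M := by
    intro n
    obtain ⟨M, hM⟩ := (isCompact_closedBall (0:ℂ) (r n)).exists_bound_of_continuousOn (hκc n)
    refine ⟨|M|, fun z => ?_⟩
    by_cases hz : z ∈ closedBall (0:ℂ) (r n)
    · simp only [hκn]
      rw [indicator_of_mem hz]
      exact (hM z hz).trans (le_abs_self M)
    · simp only [hκn]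
      rw [indicator_of_notMem hz, norm_zero]
      exact abs_nonneg M
  have hκ0 : ∀ n z, r n < ‖z‖ → κn n z = 0 := by
    intro n z hz
    simp only [hκn]
    rw [indicator_of_notMem]
    rw [mem_closedBall_zero_iff, not_le]
    exact hz
  have hκle : ∀ n z, ‖κn n z‖ ≤ ‖κ z‖ := fun n z => norm_indicator_le_norm_self κ z
  choose M hM using hκb
  have hex : ∀ n, ∃ Fn : ℂ → ℂ, Measurable Fn ∧ Mini p (κn n) Fn := fun n =>
    hN1 p q hpq (κn n) (M n) (r n) (hκm n) (hM n) (hr1 n) (hκ0 n)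
  choose Fn hFnm hFn using hex
  have hκnq : ∀ n, IntegrableOn (fun z => ‖κn n z‖ ^ q) (ball (0:ℂ) 1) := fun n =>
    bdd_int hq0.le (hκm n) (hM n)
  have hsoln : ∀ n, Sol p (κn n) (Fn n) := fun n =>
    (hFn n).sol hpq (hκm n).aestronglyMeasurable (hκnq n)
  have hdat : ∀ n, Dat p q (κn n) (Fn n) := fun n =>
    ⟨hpq, hsoln n, hFnm n, hκm n, ⟨M n, hM n⟩, ⟨r n, hr1 n, hκ0 n⟩⟩
  obtain ⟨C, hC⟩ := hU p q s hpq hs
  set B : ℝ≥0∞ := C * ((∫⁻ z in ball (0:ℂ) 1, ‖κ z‖ₑ ^ (q * s)) +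
    (∫⁻ z in ball (0:ℂ) 1, ‖κ z‖ₑ ^ q) ^ s) with hB
  have hBtop : B ≠ ⊤ := by
    refine ENNReal.mul_ne_top ENNReal.coe_ne_top (ENNReal.add_ne_top.2 ⟨hκi, ?_⟩)
    refine ENNReal.rpow_ne_top_of_nonneg hs0.le ?_
    rw [lint_of_int hq0.le hκq]
    exact ENNReal.ofReal_ne_top
  have hUn : ∀ n, ∫⁻ z in ball (0:ℂ) 1, ‖Fn n z‖ₑ ^ (p * s) ≤ B := by
    intro n
    refine (hC (κn n) (Fn n) (hdat n)).trans ?_
    have hle : ∀ z, ‖κn n z‖ₑ ≤ ‖κ z‖ₑ := fun z => by
      rw [← ofReal_norm, ← ofReal_norm]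
      exact ENNReal.ofReal_le_ofReal (hκle n z)
    rw [hB]
    gcongr with z z
    · exact hle z
    · exact hle z
  -- convergence of the data
  have hZ : Tendsto (fun n => ∫ z in ball (0:ℂ) 1, ‖κ z - κn n z‖ ^ q) atTop (𝓝 0) := by
    have h5 : Tendsto (fun n => ∫ z in ball (0:ℂ) 1, ‖κ z - κn n z‖ ^ q) atTop
        (𝓝 (∫ _z in ball (0:ℂ) 1, (0:ℝ))) := by
      refine tendsto_integral_of_dominated_convergence (fun z => ‖κ z‖ ^ q) ?_ hκq ?_ ?_
      · intro n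
        exact (((meas_an hκd).sub (hκm n).aestronglyMeasurable).norm.aemeasurable.pow_const
          q).aestronglyMeasurable
      · intro n
        refine Eventually.of_forall fun z => ?_
        rw [Real.norm_eq_abs, abs_of_nonneg (by positivity)]
        refine Real.rpow_le_rpow (norm_nonneg _) ?_ hq0.le
        by_cases hz : z ∈ closedBall (0:ℂ) (r n)
        · simp only [hκn]
          rw [indicator_of_mem hz, sub_self, norm_zero]
          exact norm_nonneg _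
        · simp only [hκn]
          rw [indicator_of_notMem hz, sub_zero]
      · refine (ae_restrict_iff' measurableSet_ball).2 (Eventually.of_forall fun z hz => ?_)
        refine tendsto_const_nhds.congr' ?_
        have hz1 : ‖z‖ < 1 := mem_ball_zero_iff.1 hz
        have hlim : Tendsto r atTop (𝓝 1) := by
          have h6 : Tendsto (fun n : ℕ => 1 / ((n : ℝ) + 2)) atTop (𝓝 0) := by
            have h7 : Tendsto (fun n : ℕ => ((n : ℝ) + 2)) atTop atTop :=
              tendsto_atTop_add_const_right _ _ tendsto_natCast_atTop_atTop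
            exact tendsto_const_nhds.div_atTop h7
          have h8 := (tendsto_const_nhds (x := (1:ℝ))).sub h6
          simpa [hr] using h8
        filter_upwards [hlim.eventually (lt_mem_nhds hz1)] with n hn
        have hmem : z ∈ closedBall (0:ℂ) (r n) := by
          rw [mem_closedBall_zero_iff]; exact hn.le
        simp only [hκn]
        rw [indicator_of_mem hmem, sub_self, norm_zero, Real.zero_rpow hq0.ne']
    simpa using h5
  have hi : ∀ n, IntegrableOn (fun z => ‖F z - Fn n z‖ ^ p) (ball (0:ℂ) 1) := fun n =>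
    int_sub' hp0.le (meas_an hsol.an) (meas_an (hsoln n).an) hsol.int (hsoln n).int
  have hX : Tendsto (fun n => ∫ z in ball (0:ℂ) 1, ‖F z - Fn n z‖ ^ p) atTop (𝓝 0) := by
    rw [tendsto_order]
    refine ⟨fun a ha => Eventually.of_forall fun n =>
      lt_of_lt_of_le ha (integral_nonneg fun z => by positivity), fun η hη => ?_⟩
    obtain ⟨C', hC', hD⟩ := diff_est hpq h1 h4 hsol (meas_an hκd) hκq (η := η / 2) (by positivity)
    have h5 : Tendsto (fun n => C' * (∫ z in ball (0:ℂ) 1, ‖κ z - κn n z‖ ^ q) + η / 2) atTop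
        (𝓝 (C' * 0 + η / 2)) := (hZ.const_mul C').add_const _
    have h6 : C' * 0 + η / 2 < η := by linarith
    filter_upwards [h5.eventually (gt_mem_nhds h6)] with n hn
    exact (hD (κn n) (Fn n) (hsoln n) (hκm n).aestronglyMeasurable (hκnq n)).trans_lt hn
  have hpt : ∀ z ∈ ball (0:ℂ) 1, Tendsto (fun n => Fn n z) atTop (𝓝 (F z)) := fun z hz =>
    ptw hp hN2 hsol.an (fun n => (hsoln n).an) hi hX hz
  have hfatou : ∫⁻ z in ball (0:ℂ) 1, ‖F z‖ₑ ^ (p * s) ≤ B := by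
    calc ∫⁻ z in ball (0:ℂ) 1, ‖F z‖ₑ ^ (p * s)
        = ∫⁻ z in ball (0:ℂ) 1, liminf (fun n => ‖Fn n z‖ₑ ^ (p * s)) atTop := by
          refine setLIntegral_congr_fun measurableSet_ball fun z hz => ?_
          have h5 : Tendsto (fun n => ‖Fn n z‖ₑ ^ (p * s)) atTop (𝓝 (‖F z‖ₑ ^ (p * s))) :=
            (ENNReal.continuous_rpow_const.tendsto _).comp
              ((continuous_enorm.tendsto _).comp (hpt z hz))
          exact h5.liminf_eq.symm
      _ ≤ liminf (fun n => ∫⁻ z in ball (0:ℂ) 1, ‖Fn n z‖ₑ ^ (p * s)) atTop :=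
          lintegral_liminf_le fun n => (hFnm n).enorm.pow_const _
      _ ≤ liminf (fun _ : ℕ => B) atTop := liminf_le_liminf (Eventually.of_forall hUn)
      _ = B := liminf_const B
  exact ne_top_of_le_ne_top hBtop hfatou

end Pool.Agent.L0h83.BR
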