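import Pool.Agent.L0h83.BR.Stm2

/-! From the extremal problem to the minimisation problem. -/

set_option autoImplicit false

namespace Pool.Agent.L0h83.BR

open Complex Metric Set Filter Topology MeasureTheory ComplexConjugate
open scoped ENNReal NNReal

namespace N3h

/-- averaging over a one-parameter family of measure preserving maps -/
theorem avg {X : Type*} [MeasurableSpace X] (μ : Measure X) [SFinite μ] (T : ℝ → X → X)
    (hT : Measurable (Function.uncurry T)) (hmp : ∀ a, MeasurePreserving (T a) μ μ) (F : X → ℂ)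
    (hF : Integrable F μ) :
    (2 * Real.pi : ℂ) * ∫ x, F x ∂μ = ∫ x, (∫ a in (0:ℝ)..2 * Real.pi, F (T a x)) ∂μ := by
  set ν : Measure ℝ := volume.restrict (Ioc 0 (2 * Real.pi)) with hν
  have hpi := Real.pi_pos
  have h2pi : (0:ℝ) ≤ 2 * Real.pi := by linarith
  have hsk : MeasurePreserving (fun p : ℝ × X => (p.1, T p.1 p.2)) (ν.prod μ) (ν.prod μ) :=
    (MeasurePreserving.id ν).skew_product hT (Eventually.of_forall fun a => (hmp a).map_eq)
  have h1 : Integrable (fun p : ℝ × X => F p.2) (ν.prod μ) := hF.comp_snd ν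
  have h2 : Integrable (fun p : ℝ × X => F (T p.1 p.2)) (ν.prod μ) :=
    hsk.integrable_comp_of_integrable h1
  have h3 : Integrable (Function.uncurry fun (x : X) (a : ℝ) => F (T a x)) (μ.prod ν) := h2.swap
  have e : ∀ x, (∫ a in (0:ℝ)..2 * Real.pi, F (T a x)) = ∫ a, F (T a x) ∂ν := by
    intro x
    rw [intervalIntegral.integral_of_le h2pi]
  simp_rw [e]
  rw [integral_integral_swap h3]
  have h4 : ∀ a, ∫ x, F (T a x) ∂μ = ∫ x, F x ∂μ := by
    intro a
    have h5 := (hmp a).map_eq
    have h6 : AEStronglyMeasurable F (Measure.map (T a) μ) := by rw [h5]; exact hF.1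
    calc ∫ x, F (T a x) ∂μ = ∫ y, F y ∂(Measure.map (T a) μ) :=
          (integral_map (hmp a).measurable.aemeasurable h6).symm
      _ = _ := by rw [h5]
  simp_rw [h4]
  rw [integral_const]
  have h7 : ν.real univ = 2 * Real.pi := by
    rw [hν, measureReal_restrict_apply_univ, Measure.real, Real.volume_Ioc, sub_zero,
      ENNReal.toReal_ofReal h2pi]
  rw [h7]
  simp

/-- mean value property on a disc, in the form used here -/
theorem mean_value {h : ℂ → ℂ} {S : Set ℂ} (hh : DifferentiableOn ℂ h S) {z : ℂ}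
    (hz : ∀ z', ‖z'‖ ≤ ‖z‖ → z' ∈ S) :
    ∫ a in (0:ℝ)..2 * Real.pi, h (exp (a * I) * z) = 2 * Real.pi * h 0 := by
  have hsub : closedBall (0:ℂ) |‖z‖| ⊆ S := by
    intro z' hz'
    rw [mem_closedBall_zero_iff, abs_of_nonneg (norm_nonneg _)] at hz'
    exact hz z' hz'
  have h1 : DiffContOnCl ℂ h (ball 0 |‖z‖|) := by
    apply DifferentiableOn.diffContOnCl
    exact hh.mono ((closure_ball_subset_closedBall).trans hsub)
  have h2 := h1.circleAverage
  rw [Real.circleAverage_def] at h2
  have hpi : (2 * Real.pi : ℝ) ≠ 0 := by have := Real.pi_pos; positivity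
  have h3 : ∫ a in (0:ℝ)..2 * Real.pi, h (circleMap 0 ‖z‖ a) = 2 * Real.pi * h 0 := by
    rw [← h2, Complex.real_smul]
    push_cast
    field_simp
  rcases eq_or_ne z 0 with h0 | h0
  · subst h0
    simp
  have hzz : z = ‖z‖ * exp (arg z * I) := (norm_mul_exp_arg_mul_I z).symm
  have h5 : ∀ a : ℝ, h (exp (a * I) * z) = h (circleMap 0 ‖z‖ (a + arg z)) := by
    intro a
    congr 1
    rw [circleMap, zero_add]
    conv_lhs => rw [hzz]
    push_cast
    rw [add_mul, exp_add]
    ring
  simp_rw [h5]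
  have h6 : Function.Periodic (fun a : ℝ => h (circleMap 0 ‖z‖ a)) (2 * Real.pi) := by
    intro a
    simp only
    rw [periodic_circleMap]
  have h7 : ∫ a in (0:ℝ)..2 * Real.pi, h (circleMap 0 ‖z‖ (a + arg z)) =
      ∫ a in (0:ℝ) + arg z..2 * Real.pi + arg z, h (circleMap 0 ‖z‖ a) :=
    intervalIntegral.integral_comp_add_right (fun a => h (circleMap 0 ‖z‖ a)) (arg z)
  rw [h7, zero_add, add_comm (2 * Real.pi) (arg z), ← h3]
  have h8 := h6.intervalIntegral_add_eq (arg z) 0
  rw [zero_add] at h8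
  exact h8

theorem rot_mp (a : ℝ) : MeasurePreserving (fun z : ℂ => exp (a * I) * z)
    (volume.restrict (ball (0:ℂ) 1)) (volume.restrict (ball (0:ℂ) 1)) := by
  have h1 := (rotation (Circle.exp a)).measurePreserving
  have h2 : ⇑(rotation (Circle.exp a)) = fun z : ℂ => exp (a * I) * z := by
    ext z
    rw [rotation_apply, Circle.coe_exp]
  rw [h2] at h1
  have h3 := h1.restrict_preimage (s := ball (0:ℂ) 1) measurableSet_ball
  have h4 : (fun z : ℂ => exp (a * I) * z) ⁻¹' ball (0:ℂ) 1 = ball (0:ℂ) 1 := by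
    ext z
    rw [mem_preimage, mem_ball_zero_iff, mem_ball_zero_iff, norm_mul,
      Complex.norm_exp_ofReal_mul_I, one_mul]
  rw [h4] at h3
  exact h3

theorem factor {k : ℂ → ℂ} (hk : DifferentiableOn ℂ k (ball 0 1))
    (hk0 : ∃ z ∈ ball (0:ℂ) 1, k z ≠ 0) :
    ∃ (N : ℕ) (h : ℂ → ℂ), DifferentiableOn ℂ h (ball 0 1) ∧ h 0 ≠ 0 ∧
      ∀ z ∈ ball (0:ℂ) 1, k z = z ^ N * h z := by
  have han : AnalyticOnNhd ℂ k (ball 0 1) := hk.analyticOnNhd isOpen_ball
  have h00 : (0:ℂ) ∈ ball (0:ℂ) 1 := mem_ball_self one_pos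
  have hne : ¬∀ᶠ z in 𝓝 (0:ℂ), k z = 0 := by
    intro hz
    obtain ⟨z, hz1, hz2⟩ := hk0
    exact hz2 (han.eqOn_zero_of_preconnected_of_eventuallyEq_zero
      (convex_ball (0:ℂ) 1).isPreconnected h00 hz hz1)
  obtain ⟨N, g, hg, hg0, heq⟩ := ((han 0 h00).exists_eventuallyEq_pow_smul_nonzero_iff).2 hne
  classical
  set h : ℂ → ℂ := fun z => if z = 0 then g 0 else k z / z ^ N with hh
  have heq0 : ∀ᶠ z in 𝓝 (0:ℂ), h z = g z := by
    filter_upwards [heq] with z hz
    by_cases h0 : z = 0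
    · simp [hh, h0]
    · simp only [hh, h0, if_false]
      rw [hz, sub_zero, smul_eq_mul]
      field_simp
  refine ⟨N, h, ?_, by simp [hh, hg0], ?_⟩
  · intro z hz
    by_cases h0 : z = 0
    · subst h0
      exact (hg.differentiableAt.congr_of_eventuallyEq heq0).differentiableWithinAt
    · have h1 : ∀ᶠ w in 𝓝 z, h w = k w / w ^ N := by
        filter_upwards [isOpen_ne.mem_nhds h0] with w hw
        have hw' : w ≠ 0 := hw
        simp only [hh, hw', if_false]
      have h2 : DifferentiableAt ℂ (fun w => k w / w ^ N) z :=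
        (hk.differentiableAt (isOpen_ball.mem_nhds hz)).div (by fun_prop) (pow_ne_zero _ h0)
      exact (h2.congr_of_eventuallyEq h1).differentiableWithinAt
  · intro z hz
    by_cases h0 : z = 0
    · subst h0
      have h1 := heq.self_of_nhds
      rw [h1, sub_zero, smul_eq_mul]
      simp [hh]
    · simp only [hh, h0, if_false]
      field_simp

theorem test {k : ℂ → ℂ} (hk : DifferentiableOn ℂ k (ball 0 1))
    (hki : IntegrableOn k (ball 0 1)) (hk0 : ∃ z ∈ ball (0:ℂ) 1, k z ≠ 0) :
    ∃ N : ℕ, ∫ z in ball (0:ℂ) 1, z ^ N * conj (k z) ≠ 0 := by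
  obtain ⟨N, h, hh, hh0, hkh⟩ := factor hk hk0
  refine ⟨N, fun hcon => ?_⟩
  set Fn : ℂ → ℂ := fun z => ((‖z‖ ^ (2 * N) : ℝ) : ℂ) * h z with hFn
  have hFnk : ∀ z ∈ ball (0:ℂ) 1, Fn z = conj (z ^ N * conj (k z)) := by
    intro z hz
    rw [map_mul, Complex.conj_conj, hkh z hz, map_pow, ← mul_assoc, ← mul_pow, mul_comm (conj z),
      Complex.mul_conj, Complex.normSq_eq_norm_sq, ← Complex.ofReal_pow, ← pow_mul]
  have hint : ∫ z in ball (0:ℂ) 1, Fn z = 0 := by
    rw [setIntegral_congr_fun measurableSet_ball hFnk, integral_conj, hcon, map_zero]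
  have hFi : IntegrableOn Fn (ball 0 1) := by
    refine Integrable.mono' hki.norm ?_ ?_
    · refine ContinuousOn.aestronglyMeasurable ?_ measurableSet_ball
      exact ContinuousOn.mul (by fun_prop) hh.continuousOn
    · rw [ae_restrict_iff' measurableSet_ball]
      refine Eventually.of_forall fun z hz => ?_
      rw [hFnk z hz, RCLike.norm_conj, norm_mul, RCLike.norm_conj, norm_pow]
      have : ‖z‖ ≤ 1 := (mem_ball_zero_iff.1 hz).le
      exact mul_le_of_le_one_left (norm_nonneg _) (pow_le_one₀ (norm_nonneg _) this)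
  have hav := avg (volume.restrict (ball (0:ℂ) 1)) (fun (a : ℝ) (z : ℂ) => exp (a * I) * z)
    (by
      apply Continuous.measurable
      unfold Function.uncurry
      fun_prop) rot_mp Fn hFi
  rw [hint, mul_zero] at hav
  have hin : ∀ z ∈ ball (0:ℂ) 1, (∫ a in (0:ℝ)..2 * Real.pi, Fn (exp (a * I) * z)) =
      ((‖z‖ ^ (2 * N) : ℝ) : ℂ) * (2 * Real.pi * h 0) := by
    intro z hz
    have : ∀ a : ℝ, Fn (exp (a * I) * z) = ((‖z‖ ^ (2 * N) : ℝ) : ℂ) * h (exp (a * I) * z) := by
      intro a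
      simp only [hFn]
      rw [norm_mul, Complex.norm_exp_ofReal_mul_I, one_mul]
    simp_rw [this]
    rw [intervalIntegral.integral_const_mul, mean_value hh]
    intro z' hz'
    rw [mem_ball_zero_iff] at hz ⊢
    linarith
  rw [setIntegral_congr_fun measurableSet_ball hin, integral_mul_const, integral_complex_ofReal] at hav
  have hpos : 0 < ∫ z in ball (0:ℂ) 1, ‖z‖ ^ (2 * N) := by
    rw [setIntegral_pos_iff_support_of_nonneg_ae (Eventually.of_forall fun z => by positivity)]
    · have hsub : ball (1/2:ℂ) (1/2) ⊆ Function.support (fun z : ℂ => ‖z‖ ^ (2 * N)) ∩ ball 0 1 := by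
        intro z hz
        rw [mem_ball, dist_eq_norm] at hz
        have h12 : ‖(1/2:ℂ)‖ = 1 / 2 := by
          rw [norm_div, norm_one]; norm_num
        refine ⟨?_, ?_⟩
        · rw [Function.mem_support]
          refine pow_ne_zero _ ?_
          intro h0
          rw [norm_eq_zero] at h0
          subst h0
          rw [zero_sub, norm_neg, h12] at hz
          exact lt_irrefl _ hz
        · rw [mem_ball_zero_iff]
          calc ‖z‖ = ‖(z - 1/2) + 1/2‖ := by congr 1; ring
            _ ≤ ‖z - 1/2‖ + ‖(1/2:ℂ)‖ := norm_add_le _ _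
            _ < 1 := by rw [h12]; linarith
      exact lt_of_lt_of_le (measure_ball_pos _ _ (by norm_num)) (measure_mono hsub)
    · exact ((by fun_prop : Continuous fun z : ℂ => ‖z‖ ^ (2 * N)).continuousOn.integrableOn_compact
        (isCompact_closedBall (0:ℂ) 1)).mono_set ball_subset_closedBall
  have hpi : (2 * Real.pi : ℂ) ≠ 0 := by
    have := Real.pi_pos
    exact_mod_cast (by positivity : (2 * Real.pi : ℝ) ≠ 0)
  have := mul_ne_zero (Complex.ofReal_ne_zero.2 hpos.ne') (mul_ne_zero hpi hh0)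
  exact this hav.symm

theorem sig_int {E : Type*} [NormedAddCommGroup E] {f : ℂ → E} :
    Integrable f σ ↔ IntegrableOn f (ball 0 1) := by
  have hpi := Real.pi_pos
  unfold σ
  rw [integrable_smul_measure]
  · rfl
  · rw [Ne, ENNReal.ofReal_eq_zero, not_le]; positivity
  · exact ENNReal.ofReal_ne_top

theorem sig_integral (f : ℂ → ℝ) : ∫ z, f z ∂σ = 1 / Real.pi * ∫ z in ball (0:ℂ) 1, f z := by
  have hpi := Real.pi_pos
  unfold σ
  rw [integral_smul_measure, ENNReal.toReal_ofReal (by positivity), smul_eq_mul]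

theorem sig_integralC (f : ℂ → ℂ) :
    ∫ z, f z ∂σ = ((1 / Real.pi : ℝ) : ℂ) * ∫ z in ball (0:ℂ) 1, f z := by
  have hpi := Real.pi_pos
  unfold σ
  rw [integral_smul_measure, ENNReal.toReal_ofReal (by positivity), Complex.real_smul]

theorem pow_eq {p : ℝ} (hp : 0 < p) (f : ℂ → ℂ) :
    bergmanNorm p f ^ p = ∫ z, ‖f z‖ ^ p ∂σ := by
  unfold bergmanNorm
  rw [← Real.rpow_mul (integral_nonneg fun z => by positivity), one_div_mul_cancel hp.ne',
    Real.rpow_one]

theorem norm_nonneg' (p : ℝ) (f : ℂ → ℂ) : 0 ≤ bergmanNorm p f := by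
  unfold bergmanNorm
  exact Real.rpow_nonneg (integral_nonneg fun z => by positivity) _

theorem norm_smul' {p : ℝ} (hp : 0 < p) (c : ℂ) (f : ℂ → ℂ) :
    bergmanNorm p (fun z => c * f z) = ‖c‖ * bergmanNorm p f := by
  unfold bergmanNorm
  have : ∀ z, ‖c * f z‖ ^ p = ‖c‖ ^ p * ‖f z‖ ^ p := by
    intro z
    rw [norm_mul, Real.mul_rpow (norm_nonneg _) (norm_nonneg _)]
  simp_rw [this]
  rw [integral_const_mul, Real.mul_rpow (by positivity) (integral_nonneg fun z => by positivity),
    ← Real.rpow_mul (norm_nonneg _), mul_one_div_cancel hp.ne', Real.rpow_one]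

theorem berg_smul {p : ℝ} {f : ℂ → ℂ} (hf : InBergman p f) (c : ℂ) :
    InBergman p (fun z => c * f z) := by
  refine ⟨hf.1.const_mul c, ?_⟩
  have : ∀ z, ‖c * f z‖ ^ p = ‖c‖ ^ p * ‖f z‖ ^ p := by
    intro z
    rw [norm_mul, Real.mul_rpow (norm_nonneg _) (norm_nonneg _)]
  simp_rw [this]
  exact hf.2.const_mul _

theorem func_smul (k f : ℂ → ℂ) (c : ℂ) : functional k (fun z => c * f z) = c * functional k f := by
  unfold functional
  rw [← integral_const_mul]
  congr 1; ext z; ring

/-- `Re φ(f) ≤ m ‖f‖` -/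
theorem ineq {p : ℝ} (hp : 0 < p) {k F : ℂ → ℂ} (hext : IsExtremal p k F) {f : ℂ → ℂ}
    (hf : InBergman p f) : (functional k f).re ≤ (functional k F).re * bergmanNorm p f := by
  rcases eq_or_lt_of_le (norm_nonneg' p f) with h0 | h0
  · have h1 : ∫ z, ‖f z‖ ^ p ∂σ = 0 := by
      rw [← pow_eq hp, ← h0, Real.zero_rpow hp.ne']
    rw [integral_eq_zero_iff_of_nonneg (fun z => by positivity) hf.2] at h1
    have h2 : functional k f = 0 := by
      unfold functional
      refine integral_eq_zero_of_ae ?_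
      filter_upwards [h1] with z hz
      have hz' : ‖f z‖ ^ p = 0 := hz
      rw [Real.rpow_eq_zero (norm_nonneg _) hp.ne', norm_eq_zero] at hz'
      simp [hz']
    rw [h2, ← h0]
    simp
  · have h1 := hext.2.2 (fun z => ((bergmanNorm p f)⁻¹ : ℝ) * f z) (berg_smul hf _) (by
      rw [norm_smul' hp, Complex.norm_real, Real.norm_of_nonneg (by positivity)]
      field_simp)
    rw [func_smul, Complex.re_ofReal_mul, inv_mul_le_iff₀ h0] at h1
    linarith

theorem int_of_rpow {q : ℝ} (hq : 1 ≤ q) {k : ℂ → ℂ} (hk : DifferentiableOn ℂ k (ball 0 1))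
    (hki : IntegrableOn (fun z => ‖k z‖ ^ q) (ball 0 1)) : IntegrableOn k (ball 0 1) := by
  have h1 : IntegrableOn (fun _ : ℂ => (1:ℝ)) (ball (0:ℂ) 1) :=
    integrableOn_const (by exact measure_ball_lt_top.ne)
  refine Integrable.mono' (h1.add hki) (meas_an hk) ?_
  refine Eventually.of_forall fun z => ?_
  simp only [Pi.add_apply]
  rcases le_total ‖k z‖ 1 with h | h
  · have : 0 ≤ ‖k z‖ ^ q := by positivity
    linarith
  · have := Real.self_le_rpow_of_one_le h hq
    linarith

end N3h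

open N3h in
theorem m_N3 : N3 := by
  intro p q hpq k F hk hk0 hext
  have hp := hpq.lt
  have hp0 := hpq.pos
  have hpi := Real.pi_pos
  have hq : 1 < q := hpq.symm.lt
  set m : ℝ := (functional k F).re with hm
  have hki : IntegrableOn k (ball 0 1) := int_of_rpow hq.le hk.1 (sig_int.1 hk.2)
  -- positivity of `m`
  have hmpos : 0 < m := by
    obtain ⟨N, hN⟩ := test hk.1 hki hk0
    have hg : InBergman p (fun z : ℂ => z ^ N) := by
      refine ⟨by fun_prop, sig_int.2 ?_⟩
      have hc : Continuous fun z : ℂ => ‖z ^ N‖ ^ p :=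
        (Real.continuous_rpow_const hp0.le).comp (by fun_prop)
      exact (hc.continuousOn.integrableOn_compact
        (isCompact_closedBall (0:ℂ) 1)).mono_set ball_subset_closedBall
    have hφ : functional k (fun z : ℂ => z ^ N) ≠ 0 := by
      unfold functional
      rw [sig_integralC]
      exact mul_ne_zero (Complex.ofReal_ne_zero.2 (by positivity)) hN
    have h1 := ineq hp0 hext (berg_smul hg (conj (functional k (fun z : ℂ => z ^ N))))
    rw [func_smul, mul_comm, Complex.mul_conj, Complex.ofReal_re] at h1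
    have h2 : 0 < Complex.normSq (functional k (fun z : ℂ => z ^ N)) := Complex.normSq_pos.2 hφ
    by_contra hcon
    rw [not_lt] at hcon
    have h3 := mul_nonpos_of_nonpos_of_nonneg hcon
      (norm_nonneg' p (fun z => conj (functional k (fun z : ℂ => z ^ N)) * z ^ N))
    linarith
  refine ⟨m, hmpos, hext.1.1, sig_int.1 hext.1.2, fun f hf hfi => ?_⟩
  have hfun : ∀ f : ℂ → ℂ, (∫ z in ball (0:ℂ) 1, conj (k z / (m : ℂ)) * f z).re =
      Real.pi / m * (functional k f).re := by
    intro f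
    unfold functional
    rw [sig_integralC, Complex.re_ofReal_mul]
    have : ∫ z in ball (0:ℂ) 1, conj (k z / (m : ℂ)) * f z =
        ((m⁻¹ : ℝ) : ℂ) * ∫ z in ball (0:ℂ) 1, f z * conj (k z) := by
      rw [← integral_const_mul]
      congr 1; ext z
      rw [map_div₀, Complex.conj_ofReal]
      push_cast
      ring
    rw [this, Complex.re_ofReal_mul]
    field_simp
  rw [hfun, hfun, ← hm]
  have hfB : InBergman p f := ⟨hf, sig_int.2 hfi⟩
  have h1 := ineq hp0 hext hfB
  rw [← hm] at h1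
  have hF1 : ∫ z in ball (0:ℂ) 1, ‖F z‖ ^ p = Real.pi := by
    have h2 := pow_eq hp0 F
    rw [hext.2.1, Real.one_rpow, sig_integral] at h2
    field_simp at h2
    linarith
  have hf1 : ∫ z in ball (0:ℂ) 1, ‖f z‖ ^ p = Real.pi * bergmanNorm p f ^ p := by
    rw [pow_eq hp0 f, sig_integral]
    field_simp
  rw [hF1, hf1]
  have h3 := Real.young_inequality_of_nonneg (norm_nonneg' p f) zero_le_one hpq
  rw [mul_one, Real.one_rpow] at h3
  have h4 : Real.pi / m * (functional k f).re ≤ Real.pi * bergmanNorm p f := by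
    rw [div_mul_eq_mul_div, div_le_iff₀ hmpos]
    nlinarith
  have h5 : Real.pi / m * m = Real.pi := by field_simp
  have h6 : 1 / p + 1 / q = 1 := by
    have := hpq.inv_add_inv_eq_one
    rw [one_div, one_div]; exact this
  rw [h5]
  have h7 : Real.pi * bergmanNorm p f ≤ Real.pi * (bergmanNorm p f ^ p / p + 1 / q) := by gcongr
  have h8 : 1 / q = 1 - 1 / p := by linarith
  rw [h8] at h7
  have h9 : 1 / p * (Real.pi * bergmanNorm p f ^ p) = Real.pi * (bergmanNorm p f ^ p / p) := by ring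
  have h10 : Real.pi * (bergmanNorm p f ^ p / p + (1 - 1 / p)) =
      Real.pi * (bergmanNorm p f ^ p / p) + Real.pi - 1 / p * Real.pi := by ring
  linarith

end Pool.Agent.L0h83.BR
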