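import Pool.Agent.L0h83.BR.Stm3
import Pool.Agent.L0h83.BR.N3

/-! The main theorem from `GE` and `N3`. -/

set_option autoImplicit false

namespace Pool.Agent.L0h83.BR

open Complex Metric Set Filter Topology MeasureTheory ComplexConjugate
open scoped ENNReal NNReal


namespace F3h

lemma lint_of_int {r : ℝ} (hr : 0 ≤ r) {f : ℂ → ℂ} (h : IntegrableOn (fun z => ‖f z‖ ^ r) (ball (0:ℂ) 1)) :
    ∫⁻ z in (ball (0:ℂ) 1), ‖f z‖ₑ ^ r ≠ ⊤ := by
  simp_rw [enorm_rpow_eq hr]
  rw [← ofReal_integral_eq_lintegral_ofReal h (Eventually.of_forall fun z => by positivity)]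
  exact ENNReal.ofReal_ne_top

lemma int_of_lint {r : ℝ} (hr : 0 ≤ r) {f : ℂ → ℂ} (hf : DifferentiableOn ℂ f (ball (0:ℂ) 1))
    (h : ∫⁻ z in (ball (0:ℂ) 1), ‖f z‖ₑ ^ r ≠ ⊤) : IntegrableOn (fun z => ‖f z‖ ^ r) (ball (0:ℂ) 1) := by
  refine ⟨((meas_an hf).norm.aemeasurable.pow_const r).aestronglyMeasurable, ?_⟩
  unfold HasFiniteIntegral
  refine lt_of_le_of_lt (le_of_eq ?_) (lt_top_iff_ne_top.2 h)
  refine lintegral_congr fun z => ?_
  rw [enorm_rpow_eq hr, ← ofReal_norm (‖f z‖ ^ r), Real.norm_eq_abs, abs_of_nonneg (by positivity)]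

end F3h

open N3h F3h in
theorem m_Main (hG : GE) (h3 : N3) : Main := by
  intro p q q₁ hpq hq₁ k F hk hk0 hext hk1
  have hp := hpq.lt
  have hq := hpq.symm.lt
  have hq0 : 0 < q := by linarith
  have hFan : DifferentiableOn ℂ F (ball (0:ℂ) 1) := hext.1.1
  have hFi : IntegrableOn (fun z => ‖F z‖ ^ p) (ball (0:ℂ) 1) := sig_int.1 hext.1.2
  have hr0 : 0 ≤ (p - 1) * q₁ := mul_nonneg (by linarith) (by linarith)
  have hpq1 : (p - 1) * q = p := by
    have := hpq.mul_eq_add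
    linarith
  refine ⟨hFan, sig_int.2 ?_⟩
  rcases le_or_gt q₁ q with hle | hlt
  · have hc : IntegrableOn (fun _ : ℂ => (1:ℝ)) (ball (0:ℂ) 1) := integrableOn_const measure_ball_lt_top.ne
    refine Integrable.mono' (hc.add hFi)
      ((meas_an hFan).norm.aemeasurable.pow_const _).aestronglyMeasurable
      (Eventually.of_forall fun z => ?_)
    simp only [Pi.add_apply]
    rw [Real.norm_eq_abs, abs_of_nonneg (by positivity)]
    rcases le_or_gt ‖F z‖ 1 with h1 | h1
    · have h2 : ‖F z‖ ^ ((p - 1) * q₁) ≤ 1 := Real.rpow_le_one (norm_nonneg _) h1 hr0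
      have : 0 ≤ ‖F z‖ ^ p := by positivity
      linarith
    · have h2 : ‖F z‖ ^ ((p - 1) * q₁) ≤ ‖F z‖ ^ p := by
        apply Real.rpow_le_rpow_of_exponent_le h1.le
        calc (p - 1) * q₁ ≤ (p - 1) * q := mul_le_mul_of_nonneg_left hle (by linarith)
          _ = p := hpq1
      linarith
  · obtain ⟨m, hm, hmini⟩ := h3 p q hpq k F hk hk0 hext
    set s : ℝ := q₁ / q with hs
    have hs1 : 1 < s := by rw [hs, one_lt_div hq0]; exact hlt
    have hqs : q * s = q₁ := by rw [hs]; field_simp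
    have hps : p * s = (p - 1) * q₁ := by
      calc p * s = (p - 1) * (q * s) := by rw [← mul_assoc, hpq1]
        _ = _ := by rw [hqs]
    have hκd : DifferentiableOn ℂ (fun z => k z / (m : ℂ)) (ball (0:ℂ) 1) := hk.1.div_const _
    have hκi : ∫⁻ z in (ball (0:ℂ) 1), ‖k z / (m : ℂ)‖ₑ ^ (q * s) ≠ ⊤ := by
      rw [hqs]
      apply lint_of_int (by linarith)
      have h1 : IntegrableOn (fun z => ‖k z‖ ^ q₁) (ball (0:ℂ) 1) := sig_int.1 hk1.2
      refine (h1.div_const (m ^ q₁)).congr (Eventually.of_forall fun z => ?_)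
      simp only
      rw [norm_div, Complex.norm_real, Real.norm_eq_abs, abs_of_pos hm,
        Real.div_rpow (norm_nonneg _) hm.le]
    have h4 := hG p q s hpq hs1 _ F hκd hκi hmini
    rw [hps] at h4
    exact int_of_lint hr0 hFan h4

end Pool.Agent.L0h83.BR
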