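import Pool.Agent.L0h83.BR.V1

/-! Wirtinger calculus, radial cut-offs, and the weak equation up to the boundary. -/

set_option autoImplicit false

namespace Pool.Agent.L0h83.BR

open Complex Metric Set Filter Topology MeasureTheory ComplexConjugate
open scoped ENNReal NNReal
open Pool.Agent.H761R2.SV

/-- `∂/∂z` -/
noncomputable def dz (f : ℂ → ℂ) (z : ℂ) : ℂ := (fderiv ℝ f z 1 - I * fderiv ℝ f z I) / 2

lemma dbar_mul_at {F G : ℂ → ℂ} {w : ℂ} (h1 : DifferentiableAt ℝ F w)
    (h2 : DifferentiableAt ℝ G w) :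
    dbar (fun w => F w * G w) w = dbar F w * G w + F w * dbar G w := by
  simp only [dbar]
  rw [fderiv_fun_mul h1 h2]
  simp only [add_apply, smul_apply, smul_eq_mul]
  ring

lemma dz_mul_at {F G : ℂ → ℂ} {w : ℂ} (h1 : DifferentiableAt ℝ F w)
    (h2 : DifferentiableAt ℝ G w) :
    dz (fun w => F w * G w) w = dz F w * G w + F w * dz G w := by
  simp only [dz]
  rw [fderiv_fun_mul h1 h2]
  simp only [add_apply, smul_apply, smul_eq_mul]
  ring

lemma dbar_add_at {F G : ℂ → ℂ} {w : ℂ} (h1 : DifferentiableAt ℝ F w)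
    (h2 : DifferentiableAt ℝ G w) :
    dbar (fun w => F w + G w) w = dbar F w + dbar G w := by
  simp only [dbar]
  rw [fderiv_fun_add h1 h2]
  simp only [add_apply]
  ring

lemma dz_add_at {F G : ℂ → ℂ} {w : ℂ} (h1 : DifferentiableAt ℝ F w)
    (h2 : DifferentiableAt ℝ G w) :
    dz (fun w => F w + G w) w = dz F w + dz G w := by
  simp only [dz]
  rw [fderiv_fun_add h1 h2]
  simp only [add_apply]
  ring

lemma fderiv_real_of {f : ℂ → ℂ} {z : ℂ} (h : DifferentiableAt ℂ f z) (v : ℂ) :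
    fderiv ℝ f z v = deriv f z * v := by
  have h1 : HasFDerivAt f ((fderiv ℂ f z).restrictScalars ℝ) z := h.hasFDerivAt.restrictScalars ℝ
  rw [h1.fderiv]
  simp only [ContinuousLinearMap.coe_restrictScalars']
  rw [show fderiv ℂ f z v = fderiv ℂ f z (v • (1:ℂ)) by simp, map_smul, fderiv_apply_one_eq_deriv,
    smul_eq_mul, mul_comm]

lemma dbar_holo {f : ℂ → ℂ} {z : ℂ} (h : DifferentiableAt ℂ f z) : dbar f z = 0 := by
  simp only [dbar]
  rw [fderiv_real_of h, fderiv_real_of h]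
  have : I * (deriv f z * I) = - deriv f z := by
    have := I_mul_I
    linear_combination deriv f z * this
  rw [this]; ring

lemma dz_holo {f : ℂ → ℂ} {z : ℂ} (h : DifferentiableAt ℂ f z) : dz f z = deriv f z := by
  simp only [dz]
  rw [fderiv_real_of h, fderiv_real_of h]
  have : I * (deriv f z * I) = - deriv f z := by
    have := I_mul_I
    linear_combination deriv f z * this
  rw [this]; ring

/-- derivative of a function of `|z - z₀|²` -/
lemma hasFDerivAt_rad {θ : ℝ → ℝ} {z z₀ : ℂ} {a : ℝ} (h : HasDerivAt θ a (‖z - z₀‖ ^ 2)) :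
    HasFDerivAt (fun w : ℂ => ((θ (‖w - z₀‖ ^ 2) : ℝ) : ℂ))
      (Complex.ofRealCLM.comp ((a * 2) • (innerSL ℝ (z - z₀)))) z := by
  have h1 : HasFDerivAt (fun w : ℂ => ‖w - z₀‖ ^ 2) (2 • (innerSL ℝ (z - z₀))) z := by
    have h0 : HasFDerivAt (fun w : ℂ => w - z₀) (ContinuousLinearMap.id ℝ ℂ) z :=
      (hasFDerivAt_id z).sub_const z₀
    have := h0.norm_sq
    simpa using this
  have h2 := h.comp_hasFDerivAt z h1
  have h3 := (Complex.ofRealCLM.hasFDerivAt (x := θ (‖z - z₀‖ ^ 2))).comp z h2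
  refine h3.congr_fderiv ?_
  ext v
  simp
  ring

lemma dbar_rad {θ : ℝ → ℝ} {z z₀ : ℂ} {a : ℝ} (h : HasDerivAt θ a (‖z - z₀‖ ^ 2)) :
    dbar (fun w : ℂ => ((θ (‖w - z₀‖ ^ 2) : ℝ) : ℂ)) z = a * (z - z₀) := by
  simp only [dbar]
  rw [(hasFDerivAt_rad h).fderiv]
  simp only [ContinuousLinearMap.comp_apply, smul_apply, innerSL_apply_apply,
    Complex.ofRealCLM_apply, Complex.inner, smul_eq_mul]
  apply Complex.ext
  · simp
    ring
  · simp
    ring

lemma dz_rad {θ : ℝ → ℝ} {z z₀ : ℂ} {a : ℝ} (h : HasDerivAt θ a (‖z - z₀‖ ^ 2)) :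
    dz (fun w : ℂ => ((θ (‖w - z₀‖ ^ 2) : ℝ) : ℂ)) z = a * conj (z - z₀) := by
  simp only [dz]
  rw [(hasFDerivAt_rad h).fderiv]
  simp only [ContinuousLinearMap.comp_apply, smul_apply, innerSL_apply_apply,
    Complex.ofRealCLM_apply, Complex.inner, smul_eq_mul]
  apply Complex.ext
  · simp
    ring
  · simp
    ring

/-! radial cut-offs -/

noncomputable def chiR (ε t : ℝ) : ℝ := Real.smoothTransition ((1 - t) / ε - 1)

noncomputable def chi (ε : ℝ) (z : ℂ) : ℂ := ((chiR ε (‖z - 0‖ ^ 2) : ℝ) : ℂ)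

/-- minus the derivative of the profile -/
noncomputable def ell (ε : ℝ) (z : ℂ) : ℝ := deriv Real.smoothTransition (Y z / ε - 1) / ε

lemma chiR_deriv (ε t : ℝ) :
    HasDerivAt (chiR ε) (-(deriv Real.smoothTransition ((1 - t) / ε - 1) / ε)) t := by
  have h1 : HasDerivAt (fun t : ℝ => (1 - t) / ε - 1) (-1 / ε) t := by
    have := (((hasDerivAt_id t).const_sub 1).div_const ε).sub_const 1
    simpa using this
  have h2 : DifferentiableAt ℝ Real.smoothTransition ((1 - t) / ε - 1) :=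
    (Real.smoothTransition.contDiff (n := 1)).differentiable (by simp) _
  have h3 := h2.hasDerivAt.comp t h1
  refine h3.congr_deriv ?_
  ring

lemma dbar_chi (ε : ℝ) (z : ℂ) : dbar (chi ε) z = -(ell ε z : ℂ) * z := by
  have h := dbar_rad (z := z) (z₀ := 0) (chiR_deriv ε (‖z - 0‖ ^ 2))
  have e : chi ε = fun w : ℂ => ((chiR ε (‖w - 0‖ ^ 2) : ℝ) : ℂ) := rfl
  rw [e, h]
  unfold ell Y
  rw [sub_zero]
  push_cast; ring

lemma dz_chi (ε : ℝ) (z : ℂ) : dz (chi ε) z = -(ell ε z : ℂ) * conj z := by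
  have h := dz_rad (z := z) (z₀ := 0) (chiR_deriv ε (‖z - 0‖ ^ 2))
  have e : chi ε = fun w : ℂ => ((chiR ε (‖w - 0‖ ^ 2) : ℝ) : ℂ) := rfl
  rw [e, h]
  unfold ell Y
  rw [sub_zero]
  push_cast; ring

lemma chi_contDiff (ε : ℝ) {n : ℕ∞} : ContDiff ℝ n (chi ε) := by
  unfold chi chiR
  apply Complex.ofRealCLM.contDiff.comp
  apply Real.smoothTransition.contDiff.comp
  exact ((contDiff_const.sub ((contDiff_id.sub contDiff_const).norm_sq ℝ)).div_const _).sub
    contDiff_const

lemma chi_eq_one {ε : ℝ} (hε : 0 < ε) {z : ℂ} (h : 2 * ε ≤ Y z) : chi ε z = 1 := by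
  unfold chi chiR
  rw [sub_zero]
  have h1 : 1 ≤ (1 - ‖z‖ ^ 2) / ε - 1 := by
    rw [le_sub_iff_add_le, le_div_iff₀ hε]
    unfold Y at h
    linarith
  rw [Real.smoothTransition.one_of_one_le h1]
  simp

lemma chi_eq_zero {ε : ℝ} (hε : 0 < ε) {z : ℂ} (h : Y z ≤ ε) : chi ε z = 0 := by
  unfold chi chiR
  rw [sub_zero]
  have h1 : (1 - ‖z‖ ^ 2) / ε - 1 ≤ 0 := by
    rw [sub_nonpos, div_le_one hε]
    exact h
  rw [Real.smoothTransition.zero_of_nonpos h1]
  simp

lemma norm_chi_le (ε : ℝ) (z : ℂ) : ‖chi ε z‖ ≤ 1 := by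
  unfold chi chiR
  rw [Complex.norm_real, Real.norm_eq_abs, abs_of_nonneg (Real.smoothTransition.nonneg _)]
  exact Real.smoothTransition.le_one _

lemma dst_nonneg (t : ℝ) : 0 ≤ deriv Real.smoothTransition t :=
  Real.smoothTransition.monotone.deriv_nonneg

lemma dst_zero_of_lt {t : ℝ} (h : t < 0) : deriv Real.smoothTransition t = 0 := by
  have h1 : Real.smoothTransition =ᶠ[𝓝 t] fun _ => 0 := by
    filter_upwards [gt_mem_nhds h] with s hs
    exact Real.smoothTransition.zero_of_nonpos hs.le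
  rw [h1.deriv_eq]; simp

lemma dst_zero_of_gt {t : ℝ} (h : 1 < t) : deriv Real.smoothTransition t = 0 := by
  have h1 : Real.smoothTransition =ᶠ[𝓝 t] fun _ => 1 := by
    filter_upwards [lt_mem_nhds h] with s hs
    exact Real.smoothTransition.one_of_one_le hs.le
  rw [h1.deriv_eq]; simp

lemma dst_bdd : ∃ M : ℝ, 0 < M ∧ ∀ t, deriv Real.smoothTransition t ≤ M := by
  have hc : Continuous (deriv Real.smoothTransition) :=
    (Real.smoothTransition.contDiff (n := 1)).continuous_deriv le_rfl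
  obtain ⟨M, hM⟩ := isCompact_Icc.exists_bound_of_continuousOn (s := Icc (0:ℝ) 1)
    (f := deriv Real.smoothTransition) hc.continuousOn
  refine ⟨|M| + 1, by positivity, fun t => ?_⟩
  rcases lt_or_ge t 0 with h | h
  · rw [dst_zero_of_lt h]; positivity
  rcases lt_or_ge 1 t with h' | h'
  · rw [dst_zero_of_gt h']; positivity
  have := hM t ⟨h, h'⟩
  have h2 := le_abs_self (deriv Real.smoothTransition t)
  have h3 := le_abs_self M
  rw [Real.norm_eq_abs] at this
  linarith

/-- a bound of the derivative of the smooth step -/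
noncomputable def MT : ℝ := dst_bdd.choose

lemma MT_pos : 0 < MT := dst_bdd.choose_spec.1

lemma dst_le (t : ℝ) : deriv Real.smoothTransition t ≤ MT := dst_bdd.choose_spec.2 t

lemma ell_nonneg {ε : ℝ} (hε : 0 < ε) (z : ℂ) : 0 ≤ ell ε z := div_nonneg (dst_nonneg _) hε.le

lemma ell_le {ε : ℝ} (hε : 0 < ε) (z : ℂ) : ell ε z ≤ MT / ε :=
  div_le_div_of_nonneg_right (dst_le _) hε.le

lemma ell_zero_hi {ε : ℝ} (hε : 0 < ε) {z : ℂ} (h : 2 * ε < Y z) : ell ε z = 0 := by
  unfold ell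
  rw [dst_zero_of_gt, zero_div]
  rw [lt_sub_iff_add_lt, lt_div_iff₀ hε]
  linarith

lemma ell_zero_lo {ε : ℝ} (hε : 0 < ε) {z : ℂ} (h : Y z < ε) : ell ε z = 0 := by
  unfold ell
  rw [dst_zero_of_lt, zero_div]
  rw [sub_lt_zero, div_lt_one hε]
  exact h

lemma ell_Y_le {ε : ℝ} (hε : 0 < ε) {z : ℂ} (hz : 0 ≤ Y z) : ell ε z * Y z ≤ 2 * MT := by
  rcases lt_or_ge (2 * ε) (Y z) with h | h
  · rw [ell_zero_hi hε h, zero_mul]
    have := MT_pos; positivity
  · calc ell ε z * Y z ≤ (MT / ε) * (2 * ε) :=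
        mul_le_mul (ell_le hε z) h hz (div_nonneg MT_pos.le hε.le)
      _ = 2 * MT := by field_simp

lemma continuous_Y : Continuous Y := by unfold Y; fun_prop

lemma continuous_ell (ε : ℝ) : Continuous (ell ε) := by
  have hc : Continuous (deriv Real.smoothTransition) :=
    (Real.smoothTransition.contDiff (n := 1)).continuous_deriv le_rfl
  unfold ell
  exact (hc.comp ((continuous_Y.div_const _).sub continuous_const)).div_const _

/-- the truncated function -/
lemma cut_contDiff {ε : ℝ} (hε : 0 < ε) {Φ : ℂ → ℂ} (hΦ : ContDiffOn ℝ 1 Φ (ball (0:ℂ) 1)) :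
    ContDiff ℝ 1 (fun z => chi ε z * Φ z) := by
  rw [contDiff_iff_contDiffAt]
  intro z
  by_cases hz : z ∈ (ball (0:ℂ) 1)
  · exact (chi_contDiff ε (n := 1)).contDiffAt.mul (hΦ.contDiffAt (isOpen_ball.mem_nhds hz))
  · have h1 : Y z < ε := by
      have : 1 ≤ ‖z‖ := by simpa using hz
      unfold Y; nlinarith
    have h2 : (fun z => chi ε z * Φ z) =ᶠ[𝓝 z] fun _ => 0 := by
      filter_upwards [continuous_Y.continuousAt.eventually_lt continuousAt_const h1] with w hw
      rw [chi_eq_zero hε hw.le, zero_mul]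
    exact contDiffAt_const.congr_of_eventuallyEq h2

lemma cut_support {ε : ℝ} (hε : 0 < ε) (Φ : ℂ → ℂ) :
    tsupport (fun z => chi ε z * Φ z) ⊆ {z | ε ≤ Y z} := by
  apply closure_minimal _ (isClosed_le continuous_const continuous_Y)
  intro z hz
  by_contra h
  simp only [mem_setOf_eq, not_le] at h
  apply hz
  simp only
  rw [chi_eq_zero hε h.le, zero_mul]

lemma Yset_sub {ε : ℝ} (hε : 0 < ε) : {z | ε ≤ Y z} ⊆ (ball (0:ℂ) 1) := by
  intro z hz
  simp only [mem_setOf_eq] at hz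
  unfold Y at hz
  rw [mem_ball_zero_iff]
  by_contra h
  rw [not_lt] at h
  nlinarith

lemma cut_compact {ε : ℝ} (hε : 0 < ε) (Φ : ℂ → ℂ) :
    HasCompactSupport (fun z => chi ε z * Φ z) := by
  refine HasCompactSupport.of_support_subset_isCompact (isCompact_closedBall (0:ℂ) 1) ?_
  exact (subset_tsupport _).trans ((cut_support hε Φ).trans ((Yset_sub hε).trans ball_subset_closedBall))

/-- the weak equation with test functions which do not vanish at the boundary -/
theorem weak2 {φ : ℂ → ℂ} (hφ : IntegrableOn φ (ball (0:ℂ) 1)) (ho : Orth φ) {Φ : ℂ → ℂ}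
    (hΦ : ContDiffOn ℝ 1 Φ (ball (0:ℂ) 1)) (h1 : IntegrableOn (fun w => φ w * Φ w) (ball (0:ℂ) 1))
    (h2 : IntegrableOn (fun w => cv φ w * dbar Φ w) (ball (0:ℂ) 1))
    (h3 : IntegrableOn (fun w => cv φ w / Y w * Φ w) (ball (0:ℂ) 1)) :
    ∫ w in (ball (0:ℂ) 1), φ w * Φ w = - ∫ z in (ball (0:ℂ) 1), cv φ z * dbar Φ z := by
  have hdiff : ∀ z ∈ (ball (0:ℂ) 1), DifferentiableAt ℝ Φ z := fun z hz =>
    (hΦ.contDiffAt (isOpen_ball.mem_nhds hz)).differentiableAt (by simp)
  have hid : ∀ ε : ℝ, 0 < ε → ∫ w in (ball (0:ℂ) 1), φ w * (chi ε w * Φ w) =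
      - ∫ z in (ball (0:ℂ) 1), (chi ε z * (cv φ z * dbar Φ z) -
        (ell ε z * Y z : ℝ) * z * (cv φ z / Y z * Φ z)) := by
    intro ε hε
    rw [weak hφ ho (cut_contDiff hε hΦ) (cut_compact hε Φ) ((cut_support hε Φ).trans (Yset_sub hε))]
    congr 1
    apply setIntegral_congr_fun measurableSet_ball
    intro z hz
    have hY := Y_pos hz
    have hYc : (Y z : ℂ) ≠ 0 := by exact_mod_cast hY.ne'
    simp only
    rw [dbar_mul_at ((chi_contDiff ε (n := 1)).differentiable (by simp) z) (hdiff z hz), dbar_chi]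
    push_cast
    field_simp
    ring
  have hYev : ∀ z ∈ (ball (0:ℂ) 1), ∀ᶠ ε : ℝ in 𝓝[>] 0, 0 < ε ∧ 2 * ε < Y z := by
    intro z hz
    have hY := Y_pos hz
    have : ∀ᶠ ε : ℝ in 𝓝 0, 2 * ε < Y z := by
      have hc : ContinuousAt (fun ε : ℝ => 2 * ε) 0 := by fun_prop
      exact hc.eventually_lt continuousAt_const (by simpa using hY)
    filter_upwards [self_mem_nhdsWithin, mem_nhdsWithin_of_mem_nhds this] with ε h1 h2
    exact ⟨h1, h2⟩
  have L1 : Tendsto (fun ε : ℝ => ∫ w in (ball (0:ℂ) 1), φ w * (chi ε w * Φ w)) (𝓝[>] 0)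
      (𝓝 (∫ w in (ball (0:ℂ) 1), φ w * Φ w)) := by
    apply tendsto_integral_filter_of_dominated_convergence (fun w => ‖φ w * Φ w‖)
    · refine Eventually.of_forall fun ε => ?_
      have := h1.aestronglyMeasurable.mul
        ((chi_contDiff ε (n := 1)).continuous.aestronglyMeasurable (μ := volume.restrict (ball (0:ℂ) 1)))
      refine this.congr (Eventually.of_forall fun w => ?_)
      simp only [Pi.mul_apply]; ring
    · refine Eventually.of_forall fun ε => Eventually.of_forall fun w => ?_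
      rw [show φ w * (chi ε w * Φ w) = chi ε w * (φ w * Φ w) by ring, norm_mul]
      exact mul_le_of_le_one_left (norm_nonneg _) (norm_chi_le ε w)
    · exact h1.norm
    · refine (ae_restrict_iff' measurableSet_ball).2 (Eventually.of_forall fun w hw => ?_)
      refine tendsto_const_nhds.congr' ?_
      filter_upwards [hYev w hw] with ε hε
      rw [chi_eq_one hε.1 hε.2.le, one_mul]
  have L2 : Tendsto (fun ε : ℝ => ∫ z in (ball (0:ℂ) 1), (chi ε z * (cv φ z * dbar Φ z) -
        (ell ε z * Y z : ℝ) * z * (cv φ z / Y z * Φ z))) (𝓝[>] 0)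
      (𝓝 (∫ z in (ball (0:ℂ) 1), cv φ z * dbar Φ z)) := by
    apply tendsto_integral_filter_of_dominated_convergence
      (fun z => ‖cv φ z * dbar Φ z‖ + 2 * MT * ‖cv φ z / Y z * Φ z‖)
    · refine Eventually.of_forall fun ε => ?_
      have a1 := ((chi_contDiff ε (n := 1)).continuous.aestronglyMeasurable
        (μ := volume.restrict (ball (0:ℂ) 1))).mul h2.aestronglyMeasurable
      have a2 : Continuous fun z : ℂ => ((ell ε z * Y z : ℝ) : ℂ) * z :=
        (Complex.continuous_ofReal.comp ((continuous_ell ε).mul continuous_Y)).mul continuous_id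
      have a3 := (a2.aestronglyMeasurable (μ := volume.restrict (ball (0:ℂ) 1))).mul h3.aestronglyMeasurable
      exact a1.sub a3
    · filter_upwards [self_mem_nhdsWithin] with ε hε
      refine (ae_restrict_iff' measurableSet_ball).2 (Eventually.of_forall fun z hz => ?_)
      have hY := Y_pos hz
      have hz1 : ‖z‖ ≤ 1 := by
        have : ‖z‖ < 1 := by simpa using hz
        exact this.le
      refine (norm_sub_le _ _).trans ?_
      apply add_le_add
      · rw [norm_mul]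
        exact mul_le_of_le_one_left (norm_nonneg _) (norm_chi_le ε z)
      · rw [norm_mul, norm_mul, Complex.norm_real, Real.norm_eq_abs,
          abs_of_nonneg (mul_nonneg (ell_nonneg hε z) hY.le)]
        apply mul_le_mul_of_nonneg_right _ (norm_nonneg _)
        have h4 := ell_Y_le hε hY.le
        have h5 : 0 ≤ ell ε z * Y z := mul_nonneg (ell_nonneg hε z) hY.le
        calc ell ε z * Y z * ‖z‖ ≤ ell ε z * Y z * 1 := mul_le_mul_of_nonneg_left hz1 h5
          _ ≤ 2 * MT := by linarith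
    · exact h2.norm.add (h3.norm.const_mul _)
    · refine (ae_restrict_iff' measurableSet_ball).2 (Eventually.of_forall fun w hw => ?_)
      refine tendsto_const_nhds.congr' ?_
      filter_upwards [hYev w hw] with ε hε
      rw [chi_eq_one hε.1 hε.2.le, ell_zero_hi hε.1 hε.2]
      simp
  have L3 : Tendsto (fun ε : ℝ => ∫ w in (ball (0:ℂ) 1), φ w * (chi ε w * Φ w)) (𝓝[>] 0)
      (𝓝 (-∫ z in (ball (0:ℂ) 1), cv φ z * dbar Φ z)) := by
    refine L2.neg.congr' ?_
    filter_upwards [self_mem_nhdsWithin] with ε hε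
    exact (hid ε hε).symm
  exact tendsto_nhds_unique L1 L3

end Pool.Agent.L0h83.BR
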