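import Pool.Agent.L0h83.BR.T3
import Pool.Agent.L0h83.BR.V2

/-! `L^p` bounds of the difference quotients on boxes. -/

set_option autoImplicit false

namespace Pool.Agent.L0h83.BR

open Complex Metric Set Filter Topology MeasureTheory ComplexConjugate
open scoped ENNReal NNReal

/-- Jensen / Hölder -/
lemma jensen_lint {α : Type*} [MeasurableSpace α] {μ : Measure α} {f : α → ℝ≥0∞} {p : ℝ}
    (hp : 1 < p) (hf : AEMeasurable f μ) :
    (∫⁻ x, f x ∂μ) ^ p ≤ (μ univ) ^ (p - 1) * ∫⁻ x, f x ^ p ∂μ := by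
  have hpq : p.HolderConjugate (Real.conjExponent p) := Real.HolderConjugate.conjExponent hp
  set q := Real.conjExponent p with hq
  have hp0 : 0 < p := by linarith
  have h1 := ENNReal.lintegral_mul_le_Lp_mul_Lq μ hpq hf (aemeasurable_const (b := (1:ℝ≥0∞)))
  simp only [Pi.mul_apply, mul_one, ENNReal.one_rpow, lintegral_const, one_mul] at h1
  have h2 := ENNReal.rpow_le_rpow h1 hp0.le
  rw [ENNReal.mul_rpow_of_nonneg _ _ hp0.le, ← ENNReal.rpow_mul, ← ENNReal.rpow_mul,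
    one_div, inv_mul_cancel₀ hp0.ne', ENNReal.rpow_one] at h2
  have e : 1 / q * p = p - 1 := by
    have := hpq.div_conj_eq_sub_one
    rw [← this]; ring
  rw [e, mul_comm] at h2
  exact h2

lemma S_meas (z₀ : ℂ) (ρ : ℝ) : MeasurableSet (S z₀ ρ) := measurableSet_ball.inter measurableSet_ball

lemma S_sub (z₀ : ℂ) (ρ : ℝ) : S z₀ ρ ⊆ (ball (0:ℂ) 1) := inter_subset_right

lemma S_mono (z₀ : ℂ) {ρ ρ' : ℝ} (h : ρ ≤ ρ') : S z₀ ρ ⊆ S z₀ ρ' :=
  inter_subset_inter_left _ (ball_subset_ball h)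

lemma Dq_le {F : ℂ → ℂ} (hF : DifferentiableOn ℂ F (ball (0:ℂ) 1)) {z : ℂ} (hz : z ∈ (ball (0:ℂ) 1)) {τ : ℝ} (hτ : 0 < τ) :
    ‖Dq F τ z‖ₑ ≤ ENNReal.ofReal τ⁻¹ * ∫⁻ s in Ioc 0 τ, ‖deriv F (rot s z)‖ₑ := by
  have hc : Continuous fun s : ℝ => rot s z := by unfold rot; fun_prop
  have hdc : Continuous fun s : ℝ => deriv F (rot s z) := by
    apply (hF.deriv isOpen_ball).continuousOn.comp_continuous hc
    intro s; exact rot_mem.2 hz
  have h1 : ∫ s in (0:ℝ)..τ, I * (rot s z * deriv F (rot s z)) = F (rot τ z) - F (rot 0 z) := by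
    apply intervalIntegral.integral_eq_sub_of_hasDerivAt
    · intro s _
      exact hasDerivAt_rot hF hz s
    · exact (continuous_const.mul (hc.mul hdc)).intervalIntegrable _ _
  rw [rot_zero, intervalIntegral.integral_of_le hτ.le] at h1
  have h2 : ‖F (rot τ z) - F z‖ₑ ≤ ∫⁻ s in Ioc 0 τ, ‖deriv F (rot s z)‖ₑ := by
    rw [← h1]
    refine (enorm_integral_le_lintegral_enorm _).trans ?_
    apply lintegral_mono
    intro s
    have hz1 : ‖z‖ ≤ 1 := by
      have : ‖z‖ < 1 := by simpa using hz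
      exact this.le
    beta_reduce
    rw [← ofReal_norm, ← ofReal_norm]
    apply ENNReal.ofReal_le_ofReal
    rw [norm_mul, norm_mul, Complex.norm_I, one_mul, norm_rot]
    exact mul_le_of_le_one_left (norm_nonneg _) hz1
  have h3 : ‖Dq F τ z‖ₑ = ENNReal.ofReal τ⁻¹ * ‖F (rot τ z) - F z‖ₑ := by
    rw [← ofReal_norm, ← ofReal_norm, norm_Dq F hτ, ← ENNReal.ofReal_mul (by positivity)]
    congr 1
    rw [div_eq_inv_mul]
  rw [h3]
  gcongr

theorem Dq_Lp {p : ℝ} (hp : 1 < p) {F : ℂ → ℂ} (hF : DifferentiableOn ℂ F (ball (0:ℂ) 1)) {z₀ : ℂ}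
    {ρ τ : ℝ} (hτ : 0 < τ) :
    ∫⁻ z in S z₀ ρ, ENNReal.ofReal ((Y z * ‖Dq F τ z‖) ^ p) ≤
      ∫⁻ z in S z₀ (ρ + τ), ENNReal.ofReal ((Y z * ‖deriv F z‖) ^ p) := by
  have hp0 : 0 < p := by linarith
  set g : ℂ → ℝ≥0∞ := fun w => ENNReal.ofReal ((Y w * ‖deriv F w‖) ^ p) with hg
  have hgm : Measurable g := by
    have h1 : Measurable (deriv F) := measurable_deriv F
    have h2 : Measurable Y := continuous_Y.measurable
    exact ((h2.mul h1.norm).pow_const p).ennreal_ofReal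
  have hrm : Measurable fun x : ℂ × ℝ => rot x.2 x.1 := by unfold rot; fun_prop
  have hstep : ∀ z ∈ S z₀ ρ, ENNReal.ofReal ((Y z * ‖Dq F τ z‖) ^ p) ≤
      ENNReal.ofReal τ⁻¹ * ∫⁻ s in Ioc 0 τ, g (rot s z) := by
    intro z hz
    have hzD := S_sub _ _ hz
    have hY : 0 < Y z := Y_pos hzD
    have hrm' : Measurable fun s : ℝ => rot s z := by unfold rot; fun_prop
    have h1 := Dq_le hF hzD hτ
    have hm1 : Measurable fun s : ℝ => ‖deriv F (rot s z)‖ₑ :=
      ((measurable_deriv F).comp hrm').enorm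
    have h2 := ENNReal.rpow_le_rpow h1 hp0.le
    rw [ENNReal.mul_rpow_of_nonneg _ _ hp0.le] at h2
    have h3 := jensen_lint (μ := volume.restrict (Ioc 0 τ)) hp hm1.aemeasurable
    rw [Measure.restrict_apply_univ, Real.volume_Ioc, sub_zero] at h3
    have h4 : ENNReal.ofReal ((Y z * ‖Dq F τ z‖) ^ p) =
        ENNReal.ofReal (Y z ^ p) * ‖Dq F τ z‖ₑ ^ p := by
      rw [Real.mul_rpow hY.le (norm_nonneg _), ENNReal.ofReal_mul (by positivity),
        ← ENNReal.ofReal_rpow_of_nonneg (norm_nonneg _) hp0.le, ofReal_norm]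
    have h5 : ∀ s : ℝ, g (rot s z) = ENNReal.ofReal (Y z ^ p) * ‖deriv F (rot s z)‖ₑ ^ p := by
      intro s
      simp only [hg]
      rw [Y_rot, Real.mul_rpow hY.le (norm_nonneg _), ENNReal.ofReal_mul (by positivity),
        ← ENNReal.ofReal_rpow_of_nonneg (norm_nonneg _) hp0.le, ofReal_norm]
    simp_rw [h5]
    rw [h4, lintegral_const_mul _ (hm1.pow_const p)]
    calc ENNReal.ofReal (Y z ^ p) * ‖Dq F τ z‖ₑ ^ p ≤ ENNReal.ofReal (Y z ^ p) *
          (ENNReal.ofReal τ⁻¹ ^ p * (ENNReal.ofReal τ ^ (p - 1) *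
            ∫⁻ s in Ioc 0 τ, ‖deriv F (rot s z)‖ₑ ^ p)) := by
          gcongr
          refine h2.trans ?_
          gcongr
      _ = ENNReal.ofReal (Y z ^ p) * ((ENNReal.ofReal τ⁻¹ ^ p * ENNReal.ofReal τ ^ (p - 1)) *
            ∫⁻ s in Ioc 0 τ, ‖deriv F (rot s z)‖ₑ ^ p) := by ring
      _ = _ := by
          have : ENNReal.ofReal τ⁻¹ ^ p * ENNReal.ofReal τ ^ (p - 1) = ENNReal.ofReal τ⁻¹ := by
            rw [ENNReal.ofReal_rpow_of_pos (by positivity), ENNReal.ofReal_rpow_of_pos hτ,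
              ← ENNReal.ofReal_mul (by positivity)]
            congr 1
            rw [Real.inv_rpow hτ.le, Real.rpow_sub_one hτ.ne']
            have : τ ^ p ≠ 0 := (Real.rpow_pos_of_pos hτ p).ne'
            field_simp
          rw [this]; ring
  calc ∫⁻ z in S z₀ ρ, ENNReal.ofReal ((Y z * ‖Dq F τ z‖) ^ p)
      ≤ ∫⁻ z in S z₀ ρ, ENNReal.ofReal τ⁻¹ * ∫⁻ s in Ioc 0 τ, g (rot s z) :=
        setLIntegral_mono' (S_meas _ _) hstep
    _ = ENNReal.ofReal τ⁻¹ * ∫⁻ z in S z₀ ρ, ∫⁻ s in Ioc 0 τ, g (rot s z) := by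
        rw [lintegral_const_mul]
        exact Measurable.lintegral_prod_right (hgm.comp hrm)
    _ = ENNReal.ofReal τ⁻¹ * ∫⁻ s in Ioc 0 τ, ∫⁻ z in S z₀ ρ, g (rot s z) := by
        rw [lintegral_lintegral_swap]
        exact (hgm.comp hrm).aemeasurable
    _ ≤ ENNReal.ofReal τ⁻¹ * ∫⁻ s in Ioc 0 τ, ∫⁻ z in S z₀ (ρ + τ), g z := by
        gcongr ENNReal.ofReal τ⁻¹ * ?_
        apply setLIntegral_mono' measurableSet_Ioc
        intro s hs
        have h1 : S z₀ ρ ⊆ rot s ⁻¹' (S z₀ (ρ + τ)) := by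
          intro z hz
          obtain ⟨hz1, hz2⟩ := hz
          refine ⟨?_, rot_mem.2 hz2⟩
          rw [mem_ball, dist_eq_norm] at hz1 ⊢
          have hz3 : ‖z‖ ≤ 1 := by
            have : ‖z‖ < 1 := by simpa using hz2
            exact this.le
          have h2 := norm_rot_sub s z hz3
          rw [abs_of_pos hs.1] at h2
          calc ‖rot s z - z₀‖ = ‖(rot s z - z) + (z - z₀)‖ := by congr 1; ring
            _ ≤ ‖rot s z - z‖ + ‖z - z₀‖ := norm_add_le _ _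
            _ < ρ + τ := by have := hs.2; linarith
        calc ∫⁻ z in S z₀ ρ, g (rot s z) ≤ ∫⁻ z in rot s ⁻¹' (S z₀ (ρ + τ)), g (rot s z) :=
              lintegral_mono_set h1
          _ = _ := (mp_rot s).setLIntegral_comp_preimage_emb (emb_rot s) g _
    _ = _ := by
        rw [setLIntegral_const, Real.volume_Ioc, sub_zero, mul_comm (∫⁻ z in S z₀ (ρ + τ), g z),
          ← mul_assoc, ← ENNReal.ofReal_mul (by positivity), inv_mul_cancel₀ hτ.ne',
          ENNReal.ofReal_one, one_mul]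

end Pool.Agent.L0h83.BR
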