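import Pool.Agent.L0h83.BR.R0
import Pool.Agent.L0h83.BR.T4

/-! LE1: the first local estimate (helper88). -/

set_option autoImplicit false

namespace Pool.Agent.L0h83.BR

open Complex Metric Set Filter Topology MeasureTheory ComplexConjugate
open scoped ENNReal NNReal
open Pool.Agent.H761R2.SV

namespace L1

/-- lower bound of the real part of the weight -/
lemma re_hw {α : ℝ} (h0 : 0 ≤ α) (h1 : α ≤ 1) {a z : ℂ} (ha : a ∈ (ball (0:ℂ) 1)) (hz : z ∈ (ball (0:ℂ) 1)) :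
    Real.cos (α * (Real.pi / 2)) * ‖1 - conj a * z‖ ^ (-α) ≤ (hw α a z).re := by
  set x : ℂ := 1 - conj a * z with hx
  have hre : 0 < x.re := re_pos ha hz
  have hx0 : x ≠ 0 := by
    intro h
    rw [h] at hre
    simp at hre
  have hn : 0 < ‖x‖ := norm_pos_iff.2 hx0
  have harg : |x.arg| ≤ Real.pi / 2 := Complex.abs_arg_le_pi_div_two_iff.2 hre.le
  have e1 : (Complex.log x * (-(α : ℂ))).re = Real.log ‖x‖ * (-α) := by
    simp [Complex.mul_re, Complex.log_re]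
  have e2 : (Complex.log x * (-(α : ℂ))).im = -(α * x.arg) := by
    simp [Complex.mul_im, Complex.log_im]
    ring
  have e3 : (hw α a z).re = ‖x‖ ^ (-α) * Real.cos (α * x.arg) := by
    unfold hw
    rw [← hx, Complex.cpow_def_of_ne_zero hx0, Complex.exp_re, e1, e2, Real.cos_neg,
      ← Real.rpow_def_of_pos hn]
  rw [e3, mul_comm]
  apply mul_le_mul_of_nonneg_left _ (by positivity)
  rw [← Real.cos_abs (α * x.arg), abs_mul, abs_of_nonneg h0]
  apply Real.cos_le_cos_of_nonneg_of_le_pi (by positivity)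
  · have := Real.pi_pos
    nlinarith
  · exact mul_le_mul_of_nonneg_left harg h0

lemma Y_half_le {a z : ℂ} (ha : a ∈ (ball (0:ℂ) 1)) (hz : z ∈ (ball (0:ℂ) 1)) : Y a / 2 ≤ ‖1 - conj a * z‖ := by
  have h1 : ‖a‖ < 1 := by simpa using ha
  have h2 : ‖z‖ < 1 := by simpa using hz
  have h3 := norm_sub_norm_le (1:ℂ) (conj a * z)
  rw [norm_one, norm_mul, RCLike.norm_conj] at h3
  have := norm_nonneg a
  have h4 : ‖a‖ * ‖z‖ ≤ ‖a‖ := mul_le_of_le_one_right this h2.le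
  unfold Y
  nlinarith

/-- the two distances are comparable near the circle -/
lemma dist_cmp {a z : ℂ} (ha : a ∈ (ball (0:ℂ) 1)) (hz : z ∈ (ball (0:ℂ) 1)) {e : ℝ} (he : e ≤ Y a / 16)
    (hY : Y z ≤ 2 * e) : ‖1 - conj a * z‖ ≤ 2 * ‖a - z‖ := by
  have h1 := norm_one_sub_sq a z
  have h2 := Y_half_le ha hz
  have h3 := Y_pos ha
  have h4 := Y_pos hz
  have h5 : Y a * Y z ≤ Y a * (Y a / 8) := by
    apply mul_le_mul_of_nonneg_left _ h3.le
    linarith
  have h6 : (Y a / 2) ^ 2 ≤ ‖1 - conj a * z‖ ^ 2 := by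
    apply pow_le_pow_left₀ (by positivity) h2
  have h7 : ‖1 - conj a * z‖ ^ 2 ≤ (2 * ‖a - z‖) ^ 2 := by nlinarith
  exact le_of_sq_le_sq h7 (by positivity)

/-- continuous functions on the disc which vanish near the circle are integrable -/
lemma int_cut {f : ℂ → ℂ} (hf : ContinuousOn f (ball (0:ℂ) 1)) {e : ℝ} (he : 0 < e)
    (h0 : ∀ w ∈ (ball (0:ℂ) 1), Y w < e → f w = 0) : IntegrableOn f (ball (0:ℂ) 1) := by
  have hK : IsCompact {w : ℂ | e ≤ Y w} := by
    apply IsCompact.of_isClosed_subset (isCompact_closedBall (0:ℂ) 1)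
      (isClosed_le continuous_const continuous_Y)
    exact (Yset_sub he).trans ball_subset_closedBall
  have h1 : IntegrableOn f {w : ℂ | e ≤ Y w} :=
    (hf.mono (Yset_sub he)).integrableOn_compact hK
  refine h1.of_forall_sdiff_eq_zero measurableSet_ball ?_
  intro w hw
  exact h0 w hw.1 (not_le.1 hw.2)

lemma vol_S (z₀ : ℂ) {r : ℝ} (hr : 0 ≤ r) : volume (S z₀ r) ≤ ENNReal.ofReal (Real.pi * r ^ 2) := by
  refine (measure_mono inter_subset_left).trans ?_
  rw [Complex.volume_ball, mul_comm, ENNReal.ofReal_mul Real.pi_pos.le, ENNReal.ofReal_pow hr]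
  gcongr
  rw [← NNReal.coe_real_pi, ENNReal.ofReal_coe_nnreal]

/-- the integrand of the Rellich limit -/
noncomputable def Tf (p α e : ℝ) (F : ℂ → ℂ) (z₀ : ℂ) (R : ℝ) (a z : ℂ) : ℂ :=
  ((ell e z * ‖z‖ ^ 2 * ‖F z‖ ^ p : ℝ) : ℂ) * (eta z₀ R z * hw α a z)

lemma Tf_re (p α e : ℝ) (F : ℂ → ℂ) (z₀ : ℂ) (R : ℝ) (a z : ℂ) :
    (Tf p α e F z₀ R a z).re = ell e z * ‖z‖ ^ 2 * ‖F z‖ ^ p * (‖eta z₀ R z‖ * (hw α a z).re) := by
  have h : ‖eta z₀ R z‖ = etaR R (‖z - z₀‖ ^ 2) := by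
    unfold eta
    rw [Complex.norm_real, Real.norm_eq_abs, abs_of_nonneg (etaR_nonneg _ _)]
  rw [h]
  unfold Tf eta
  rw [Complex.re_ofReal_mul, Complex.re_ofReal_mul]

lemma Tf_int {p α e : ℝ} (hp : 0 ≤ p) (he : 0 < e) {F : ℂ → ℂ} (hF : DifferentiableOn ℂ F (ball (0:ℂ) 1))
    (z₀ : ℂ) (R : ℝ) {a : ℂ} (ha : a ∈ (ball (0:ℂ) 1)) : IntegrableOn (Tf p α e F z₀ R a) (ball (0:ℂ) 1) := by
  apply int_cut _ he
  · intro w _ hY
    unfold Tf
    rw [ell_zero_lo he hY]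
    simp
  · unfold Tf
    apply ContinuousOn.mul
    · apply Complex.continuous_ofReal.comp_continuousOn
      apply ContinuousOn.mul
      · exact ((continuous_ell e).mul (continuous_norm.pow 2)).continuousOn
      · exact hF.continuousOn.norm.rpow_const fun _ _ => Or.inr hp
    · exact (eta_contDiff z₀ R).continuous.continuousOn.mul (hw_an ha).continuousOn

lemma mem_norm {z : ℂ} (h : z ∈ (ball (0:ℂ) 1)) : ‖z‖ < 1 := by simpa using h

/-- the pointwise estimate of the integrand of Pompeiu's formula -/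
lemma point {F : ℂ → ℂ} (hF : DifferentiableOn ℂ F (ball (0:ℂ) 1)) {z₀ : ℂ} {R : ℝ} (hR : 0 < R) {a : ℂ}
    (ha : a ∈ S z₀ (R / 2)) {e : ℝ} (he0 : 0 < e) (he : e ≤ Y a / 16) {w : ℂ} (hw : w ∈ (ball (0:ℂ) 1)) :
    ‖dbar (fun z => chi e z * (eta z₀ R z * F z)) w * (a - w)⁻¹‖ ≤
      2 * (ell e w * ‖eta z₀ R w‖ * ‖F w‖ * ‖1 - conj a * w‖⁻¹) +
        4 * MT / (3 * R ^ 2) * (S z₀ (2 * R)).indicator (fun w => ‖F w‖) w := by
  have haD : a ∈ (ball (0:ℂ) 1) := ha.2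
  have ha1 : ‖a - z₀‖ < R / 2 := by
    have := ha.1
    rwa [mem_ball, dist_eq_norm] at this
  have hw1 := mem_norm hw
  have hFd : DifferentiableAt ℂ F w := hF.differentiableAt (isOpen_ball.mem_nhds hw)
  have hFr : DifferentiableAt ℝ F w := hFd.restrictScalars ℝ
  have hed : DifferentiableAt ℝ (eta z₀ R) w :=
    (eta_contDiff z₀ R).differentiable (by norm_num) w
  have hdb : dbar (fun z => chi e z * (eta z₀ R z * F z)) w =
      -(ell e w : ℂ) * w * (eta z₀ R w * F w) + chi e w * (e1 z₀ R w * (w - z₀) * F w) := by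
    rw [dbar_mul_at (G := fun z => eta z₀ R z * F z)
      ((chi_contDiff e (n := 1)).differentiable (by simp) w) (hed.mul hFr), dbar_chi,
      dbar_mul_at hed hFr, dbar_holo hFd, dbar_eta hR]
    ring
  rw [hdb, add_mul]
  refine (norm_add_le _ _).trans ?_
  apply add_le_add
  · -- the first part
    rcases lt_or_ge (2 * e) (Y w) with hY | hY
    · rw [ell_zero_hi he0 hY]
      simp
    have hl := ell_nonneg he0 w
    have h1 := dist_cmp haD hw he hY
    have hpos : 0 < ‖1 - conj a * w‖ := norm_pos_iff.2 (one_sub_ne haD hw)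
    have hpos2 : 0 < ‖a - w‖ := by linarith
    have h2 : ‖a - w‖⁻¹ ≤ 2 * ‖1 - conj a * w‖⁻¹ := by
      rw [← div_eq_mul_inv, inv_eq_one_div, div_le_div_iff₀ hpos2 hpos]
      linarith
    rw [norm_mul, norm_mul, norm_mul, norm_mul, norm_neg, Complex.norm_real, Real.norm_eq_abs,
      abs_of_nonneg hl, norm_inv]
    calc ell e w * ‖w‖ * (‖eta z₀ R w‖ * ‖F w‖) * ‖a - w‖⁻¹
        ≤ ell e w * 1 * (‖eta z₀ R w‖ * ‖F w‖) * (2 * ‖1 - conj a * w‖⁻¹) := by gcongr
      _ = _ := by ring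
  · -- the second part
    rcases le_or_gt ‖w - z₀‖ R with h1 | h1
    · rw [e1_zero_le hR h1]
      simp only [zero_mul, mul_zero, norm_zero]
      have : 0 ≤ (S z₀ (2 * R)).indicator (fun w => ‖F w‖) w :=
        indicator_nonneg (fun _ _ => norm_nonneg _) _
      have := MT_pos
      positivity
    rcases le_or_gt (2 * R) ‖w - z₀‖ with h2 | h2
    · rw [e1_zero_ge hR h2]
      simp only [zero_mul, mul_zero, norm_zero]
      have : 0 ≤ (S z₀ (2 * R)).indicator (fun w => ‖F w‖) w :=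
        indicator_nonneg (fun _ _ => norm_nonneg _) _
      have := MT_pos
      positivity
    have hm : w ∈ S z₀ (2 * R) := ⟨by rw [mem_ball, dist_eq_norm]; exact h2, hw⟩
    rw [indicator_of_mem hm]
    have h3 : R / 2 ≤ ‖a - w‖ := by
      have : ‖w - z₀‖ ≤ ‖a - z₀‖ + ‖a - w‖ := by
        calc ‖w - z₀‖ = ‖(a - z₀) - (a - w)‖ := by congr 1; ring
          _ ≤ _ := norm_sub_le _ _
      linarith
    have h4 : ‖a - w‖⁻¹ ≤ 2 / R := by
      rw [inv_eq_one_div, div_le_div_iff₀ (by linarith) hR]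
      linarith
    have h5 := norm_e1_le (z₀ := z₀) hR w
    have h6 := norm_chi_le e w
    have hMT := MT_pos
    rw [norm_mul, norm_mul, norm_mul, norm_mul, norm_inv]
    calc ‖chi e w‖ * (‖e1 z₀ R w‖ * ‖w - z₀‖ * ‖F w‖) * ‖a - w‖⁻¹
        ≤ 1 * (MT / (3 * R ^ 2) * (2 * R) * ‖F w‖) * (2 / R) := by gcongr
      _ = _ := by field_simp; ring

/-- the estimate of `F a` by two integrals -/
lemma two_int {F : ℂ → ℂ} (hF : DifferentiableOn ℂ F (ball (0:ℂ) 1)) (hFm : Measurable F) {z₀ : ℂ} {R : ℝ}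
    (hR : 0 < R) {a : ℂ}
    (ha : a ∈ S z₀ (R / 2)) {e : ℝ} (he0 : 0 < e) (he : e ≤ Y a / 16) :
    ‖F a‖ₑ ≤ 2 * (∫⁻ w in (ball (0:ℂ) 1), ENNReal.ofReal
        (ell e w * ‖eta z₀ R w‖ * ‖F w‖ * ‖1 - conj a * w‖⁻¹)) +
      ENNReal.ofReal (4 * MT / (3 * R ^ 2)) * ∫⁻ w in S z₀ (2 * R), ‖F w‖ₑ := by
  have haD : a ∈ (ball (0:ℂ) 1) := ha.2
  have haY := Y_pos haD
  have ha1 : ‖a - z₀‖ < R / 2 := by
    have := ha.1
    rwa [mem_ball, dist_eq_norm] at this
  set Φ : ℂ → ℂ := fun z => eta z₀ R z * F z with hΦ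
  have hΦc : ContDiffOn ℝ 1 Φ (ball (0:ℂ) 1) := by
    have h1 : ContDiffOn ℝ 1 F (ball (0:ℂ) 1) := (hF.contDiffOn isOpen_ball).restrict_scalars ℝ
    exact ((eta_contDiff z₀ R).of_le (by norm_num)).contDiffOn.mul h1
  have hcd := cut_contDiff he0 hΦc
  have hcc := cut_compact he0 Φ
  have hsup := (cut_support he0 Φ).trans (Yset_sub he0)
  have hP := pompeiu_compact hcd hcc a
  rw [chi_eq_one he0 (by linarith), one_mul] at hP
  have hΦa : Φ a = F a := by
    rw [hΦ]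
    simp only
    rw [eta_one hR (by linarith), one_mul]
  rw [hΦa] at hP
  have hout : ∀ w ∉ (ball (0:ℂ) 1), dbar (fun z => chi e z * Φ z) w = 0 := by
    intro z hz
    have h1 : z ∉ tsupport (fun z => chi e z * Φ z) := fun h => hz (hsup h)
    have h2 : fderiv ℝ (fun z => chi e z * Φ z) z = 0 := by
      have : z ∉ tsupport (fderiv ℝ (fun z => chi e z * Φ z)) :=
        fun h => h1 (tsupport_fderiv_subset ℝ h)
      exact image_eq_zero_of_notMem_tsupport this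
    simp [dbar, h2]
  have h1 : ‖F a‖ₑ ≤ ‖(Real.pi : ℂ) * F a‖ₑ := by
    rw [← ofReal_norm, ← ofReal_norm]
    apply ENNReal.ofReal_le_ofReal
    rw [norm_mul, Complex.norm_real, Real.norm_eq_abs, abs_of_pos Real.pi_pos]
    have := Real.pi_gt_three
    have := norm_nonneg (F a)
    nlinarith
  refine h1.trans ?_
  rw [← hP]
  refine (enorm_integral_le_lintegral_enorm _).trans ?_
  have h2 : ∫⁻ w, ‖dbar (fun z => chi e z * Φ z) w * (a - w)⁻¹‖ₑ =
      ∫⁻ w in (ball (0:ℂ) 1), ‖dbar (fun z => chi e z * Φ z) w * (a - w)⁻¹‖ₑ := by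
    rw [← lintegral_indicator measurableSet_ball]
    congr 1
    funext w
    by_cases hw : w ∈ (ball (0:ℂ) 1)
    · rw [indicator_of_mem hw]
    · rw [indicator_of_notMem hw, hout w hw]
      simp
  rw [h2]
  have hm1 : Measurable fun w => ENNReal.ofReal
        (ell e w * ‖eta z₀ R w‖ * ‖F w‖ * ‖1 - conj a * w‖⁻¹) := by
    have a1 := (continuous_ell e).measurable
    have a2 := (eta_contDiff z₀ R).continuous.measurable
    have a3 : Measurable fun w : ℂ => 1 - conj a * w := by fun_prop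
    exact (((a1.mul a2.norm).mul hFm.norm).mul a3.norm.inv).ennreal_ofReal
  calc ∫⁻ w in (ball (0:ℂ) 1), ‖dbar (fun z => chi e z * Φ z) w * (a - w)⁻¹‖ₑ
      ≤ ∫⁻ w in (ball (0:ℂ) 1), (2 * ENNReal.ofReal
        (ell e w * ‖eta z₀ R w‖ * ‖F w‖ * ‖1 - conj a * w‖⁻¹) +
        ENNReal.ofReal (4 * MT / (3 * R ^ 2)) * (S z₀ (2 * R)).indicator (fun w => ‖F w‖ₑ) w) := by
        apply setLIntegral_mono' measurableSet_ball
        intro w hw
        have h3 := point hF hR ha he0 he hw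
        rw [← ofReal_norm]
        refine (ENNReal.ofReal_le_ofReal h3).trans ?_
        have hMT := MT_pos
        have hi : 0 ≤ (S z₀ (2 * R)).indicator (fun w => ‖F w‖) w :=
          indicator_nonneg (fun _ _ => norm_nonneg _) _
        refine ENNReal.ofReal_add_le.trans ?_
        apply add_le_add
        · rw [ENNReal.ofReal_mul (by norm_num)]
          simp
        · rw [ENNReal.ofReal_mul (by positivity)]
          gcongr
          by_cases hm : w ∈ S z₀ (2 * R)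
          · rw [indicator_of_mem hm, indicator_of_mem hm, ofReal_norm]
          · rw [indicator_of_notMem hm, indicator_of_notMem hm]
            simp
    _ = _ := by
        rw [lintegral_add_left (hm1.const_mul 2), lintegral_const_mul _ hm1,
          lintegral_const_mul _ (hFm.enorm.indicator (S_meas _ _)),
          lintegral_indicator (S_meas _ _), Measure.restrict_restrict (S_meas _ _),
          inter_eq_left.2 (S_sub _ _)]

/-- Hölder's inequality -/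
lemma holder {p q : ℝ} (hpq : p.HolderConjugate q) (α : ℝ) {F : ℂ → ℂ} (hFm : Measurable F)
    (z₀ : ℂ) (R : ℝ) {a : ℂ} (ha : a ∈ (ball (0:ℂ) 1)) {e : ℝ} (he : 0 < e) :
    ∫⁻ w in (ball (0:ℂ) 1), ENNReal.ofReal (ell e w * ‖eta z₀ R w‖ * ‖F w‖ * ‖1 - conj a * w‖⁻¹) ≤
      (∫⁻ w in (ball (0:ℂ) 1), ENNReal.ofReal
        (ell e w * ‖eta z₀ R w‖ * ‖F w‖ ^ p * ‖1 - conj a * w‖ ^ (-α))) ^ (1 / p) *
      (∫⁻ w in (ball (0:ℂ) 1), ENNReal.ofReal
        (ell e w * ‖eta z₀ R w‖ * ‖1 - conj a * w‖ ^ (-((1 - α / p) * q)))) ^ (1 / q) := by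
  have hp0 := hpq.pos
  have hq0 := hpq.symm.pos
  have hsum : 1 / p + 1 / q = 1 := by
    have := hpq.inv_add_inv_eq_one
    simpa [one_div] using this
  have a1 := (continuous_ell e).measurable
  have a2 := (eta_contDiff z₀ R).continuous.measurable
  have a3 : Measurable fun w : ℂ => 1 - conj a * w := by fun_prop
  have hm1 : Measurable fun w => ENNReal.ofReal
      (ell e w * ‖eta z₀ R w‖ * ‖F w‖ ^ p * ‖1 - conj a * w‖ ^ (-α)) :=
    (((a1.mul a2.norm).mul (hFm.norm.pow_const p)).mul (a3.norm.pow_const _)).ennreal_ofReal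
  have hm2 : Measurable fun w => ENNReal.ofReal
      (ell e w * ‖eta z₀ R w‖ * ‖1 - conj a * w‖ ^ (-((1 - α / p) * q))) :=
    ((a1.mul a2.norm).mul (a3.norm.pow_const _)).ennreal_ofReal
  refine le_trans (le_of_eq ?_) (ENNReal.lintegral_mul_norm_pow_le hm1.aemeasurable
    hm2.aemeasurable (by positivity) (by positivity) hsum)
  apply setLIntegral_congr_fun measurableSet_ball
  intro w hw
  have hl := ell_nonneg he w
  have ht : 0 < ‖1 - conj a * w‖ := norm_pos_iff.2 (one_sub_ne ha hw)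
  set t := ‖1 - conj a * w‖ with htd
  set s := ell e w * ‖eta z₀ R w‖ with hs
  have hs0 : 0 ≤ s := by positivity
  have hf0 := norm_nonneg (F w)
  simp only
  rw [ENNReal.ofReal_rpow_of_nonneg (by positivity) (by positivity),
    ENNReal.ofReal_rpow_of_nonneg (by positivity) (by positivity),
    ← ENNReal.ofReal_mul (by positivity)]
  congr 1
  rw [Real.mul_rpow (by positivity) (by positivity), Real.mul_rpow hs0 (by positivity),
    Real.mul_rpow hs0 (by positivity), ← Real.rpow_mul hf0, ← Real.rpow_mul ht.le,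
    ← Real.rpow_mul ht.le, mul_one_div_cancel hp0.ne', Real.rpow_one]
  have e1 : s ^ (1 / p) * s ^ (1 / q) = s := by
    rw [← Real.rpow_add_of_nonneg hs0 (by positivity) (by positivity), hsum, Real.rpow_one]
  have e2 : t ^ (-α * (1 / p)) * t ^ (-((1 - α / p) * q) * (1 / q)) = t⁻¹ := by
    rw [← Real.rpow_add ht, ← Real.rpow_neg_one]
    congr 1
    field_simp
    ring
  calc s * ‖F w‖ * t⁻¹ = (s ^ (1 / p) * s ^ (1 / q)) * ‖F w‖ *
        (t ^ (-α * (1 / p)) * t ^ (-((1 - α / p) * q) * (1 / q))) := by rw [e1, e2]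
    _ = _ := by ring

/-- the factor without `F` -/
lemma factor_two {β C : ℝ} (hC : ∀ a ∈ (ball (0:ℂ) 1), ∀ ε : ℝ, 0 < ε →
    ∫⁻ w in {w : ℂ | w ∈ ball (0:ℂ) 1 ∧ Y w < ε}, ENNReal.ofReal (‖1 - conj a * w‖ ^ (-β)) ≤
    ENNReal.ofReal (C * ε * (Y a) ^ (1 - β))) (z₀ : ℂ) (R : ℝ) {a : ℂ} (ha : a ∈ (ball (0:ℂ) 1)) {e : ℝ}
    (he : 0 < e) :
    ∫⁻ w in (ball (0:ℂ) 1), ENNReal.ofReal (ell e w * ‖eta z₀ R w‖ * ‖1 - conj a * w‖ ^ (-β)) ≤
      ENNReal.ofReal (3 * MT * C * (Y a) ^ (1 - β)) := by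
  have hMT := MT_pos
  have hms : MeasurableSet {w : ℂ | w ∈ ball (0:ℂ) 1 ∧ Y w < 3 * e} :=
    measurableSet_ball.inter (measurableSet_lt continuous_Y.measurable measurable_const)
  have a3 : Measurable fun w : ℂ => 1 - conj a * w := by fun_prop
  have hm2 : Measurable fun w => ENNReal.ofReal (‖1 - conj a * w‖ ^ (-β)) :=
    (a3.norm.pow_const _).ennreal_ofReal
  calc ∫⁻ w in (ball (0:ℂ) 1), ENNReal.ofReal (ell e w * ‖eta z₀ R w‖ * ‖1 - conj a * w‖ ^ (-β))
      ≤ ∫⁻ w in (ball (0:ℂ) 1), {w : ℂ | w ∈ ball (0:ℂ) 1 ∧ Y w < 3 * e}.indicator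
          (fun w => ENNReal.ofReal (MT / e) * ENNReal.ofReal (‖1 - conj a * w‖ ^ (-β))) w := by
        apply setLIntegral_mono' measurableSet_ball
        intro w hw
        by_cases hY : Y w < 3 * e
        · rw [indicator_of_mem (show w ∈ {w : ℂ | w ∈ ball (0:ℂ) 1 ∧ Y w < 3 * e} from ⟨hw, hY⟩),
            ← ENNReal.ofReal_mul (by positivity)]
          apply ENNReal.ofReal_le_ofReal
          apply mul_le_mul_of_nonneg_right _ (by positivity)
          have h1 := ell_le he w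
          have h2 := ell_nonneg he w
          have h3 := norm_eta_le z₀ R w
          calc ell e w * ‖eta z₀ R w‖ ≤ ell e w * 1 := mul_le_mul_of_nonneg_left h3 h2
            _ ≤ MT / e := by linarith
        · rw [ell_zero_hi he (by linarith)]
          simp
    _ = ∫⁻ w in {w : ℂ | w ∈ ball (0:ℂ) 1 ∧ Y w < 3 * e},
          ENNReal.ofReal (MT / e) * ENNReal.ofReal (‖1 - conj a * w‖ ^ (-β)) := by
        rw [lintegral_indicator hms, Measure.restrict_restrict hms]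
        congr 2
        ext w
        constructor
        · rintro ⟨h, _⟩; exact h
        · intro h; exact ⟨h, h.1⟩
    _ = ENNReal.ofReal (MT / e) * ∫⁻ w in {w : ℂ | w ∈ ball (0:ℂ) 1 ∧ Y w < 3 * e},
          ENNReal.ofReal (‖1 - conj a * w‖ ^ (-β)) := lintegral_const_mul _ hm2
    _ ≤ ENNReal.ofReal (MT / e) * ENNReal.ofReal (C * (3 * e) * (Y a) ^ (1 - β)) := by
        gcongr
        exact hC a ha (3 * e) (by linarith)
    _ = _ := by
        rw [← ENNReal.ofReal_mul (by positivity)]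
        congr 1
        field_simp

/-- the factor with `F` -/
lemma factor_one {p α : ℝ} (hp : 0 < p) (hα : 0 ≤ α) (hα1 : α < 1) {F : ℂ → ℂ}
    (hF : DifferentiableOn ℂ F (ball (0:ℂ) 1)) (z₀ : ℂ) (R : ℝ) {a : ℂ} (ha : a ∈ (ball (0:ℂ) 1)) {e : ℝ}
    (he : 0 < e) (he4 : e ≤ 1 / 8) :
    ∫⁻ w in (ball (0:ℂ) 1), ENNReal.ofReal
        (ell e w * ‖eta z₀ R w‖ * ‖F w‖ ^ p * ‖1 - conj a * w‖ ^ (-α)) ≤
      ENNReal.ofReal (2 / Real.cos (α * (Real.pi / 2)) * (∫ w in (ball (0:ℂ) 1), Tf p α e F z₀ R a w).re) := by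
  have hc : 0 < Real.cos (α * (Real.pi / 2)) := by
    apply Real.cos_pos_of_mem_Ioo
    have := Real.pi_pos
    constructor <;> nlinarith
  set c := Real.cos (α * (Real.pi / 2)) with hcd
  have hint := Tf_int (α := α) hp.le he hF z₀ R ha
  have hre : (∫ w in (ball (0:ℂ) 1), Tf p α e F z₀ R a w).re = ∫ w in (ball (0:ℂ) 1), (Tf p α e F z₀ R a w).re := by
    have := integral_re hint (𝕜 := ℂ)
    simpa using this.symm
  have hpt : ∀ w ∈ (ball (0:ℂ) 1), ell e w * ‖eta z₀ R w‖ * ‖F w‖ ^ p * ‖1 - conj a * w‖ ^ (-α) ≤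
      2 / c * (Tf p α e F z₀ R a w).re := by
    intro w hwD
    rw [Tf_re]
    rcases lt_or_ge (2 * e) (Y w) with hY | hY
    · rw [ell_zero_hi he hY]
      simp
    have h1 := re_hw hα hα1.le ha hwD
    rw [← hcd] at h1
    have hl := ell_nonneg he w
    have h2 : 1 ≤ 2 * ‖w‖ ^ 2 := by
      unfold Y at hY
      linarith
    have h3 : ‖1 - conj a * w‖ ^ (-α) ≤ (hw α a w).re / c := by
      rw [le_div_iff₀ hc, mul_comm]
      exact h1
    have h4 : 0 ≤ ‖1 - conj a * w‖ ^ (-α) := by positivity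
    calc ell e w * ‖eta z₀ R w‖ * ‖F w‖ ^ p * ‖1 - conj a * w‖ ^ (-α)
        = 1 * (ell e w * ‖eta z₀ R w‖ * ‖F w‖ ^ p * ‖1 - conj a * w‖ ^ (-α)) := by ring
      _ ≤ (2 * ‖w‖ ^ 2) * (ell e w * ‖eta z₀ R w‖ * ‖F w‖ ^ p * ((hw α a w).re / c)) := by
          gcongr
      _ = _ := by ring
  have hnn : ∀ w ∈ (ball (0:ℂ) 1), 0 ≤ (Tf p α e F z₀ R a w).re := by
    intro w hwD
    have h1 := hpt w hwD
    have hl := ell_nonneg he w
    have h0 : 0 ≤ ell e w * ‖eta z₀ R w‖ * ‖F w‖ ^ p * ‖1 - conj a * w‖ ^ (-α) := by positivity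
    have h2 : 0 ≤ 2 / c * (Tf p α e F z₀ R a w).re := h0.trans h1
    exact nonneg_of_mul_nonneg_right h2 (by positivity)
  calc ∫⁻ w in (ball (0:ℂ) 1), ENNReal.ofReal
        (ell e w * ‖eta z₀ R w‖ * ‖F w‖ ^ p * ‖1 - conj a * w‖ ^ (-α))
      ≤ ∫⁻ w in (ball (0:ℂ) 1), ENNReal.ofReal (2 / c * (Tf p α e F z₀ R a w).re) := by
        apply setLIntegral_mono' measurableSet_ball
        intro w hwD
        exact ENNReal.ofReal_le_ofReal (hpt w hwD)
    _ = ENNReal.ofReal (∫ w in (ball (0:ℂ) 1), 2 / c * (Tf p α e F z₀ R a w).re) := by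
        rw [ofReal_integral_eq_lintegral_ofReal]
        · exact (hint.re).const_mul _
        · refine (ae_restrict_iff' measurableSet_ball).2 (Eventually.of_forall fun w hwD => ?_)
          have := hnn w hwD
          simp only [Pi.zero_apply]
          positivity
    _ = _ := by rw [integral_const_mul, hre]

/-- the estimate for one `e` -/
lemma one_e {p q α β C5 : ℝ} (hpq : p.HolderConjugate q) (hα : 0 ≤ α) (hα1 : α < 1)
    (hβ : β = (1 - α / p) * q) (h5 : ∀ a ∈ (ball (0:ℂ) 1), ∀ ε : ℝ, 0 < ε →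
    ∫⁻ w in {w : ℂ | w ∈ ball (0:ℂ) 1 ∧ Y w < ε}, ENNReal.ofReal (‖1 - conj a * w‖ ^ (-β)) ≤
    ENNReal.ofReal (C5 * ε * (Y a) ^ (1 - β))) {F : ℂ → ℂ} (hF : DifferentiableOn ℂ F (ball (0:ℂ) 1))
    (hFm : Measurable F) {z₀ : ℂ} {R : ℝ} (hR : 0 < R) {a : ℂ}
    (ha : a ∈ S z₀ (R / 2)) {e : ℝ} (he0 : 0 < e) (he : e ≤ Y a / 16) (he8 : e ≤ 1 / 8) :
    ‖F a‖ₑ ^ p ≤ 2 ^ (p - 1) * (2 ^ p * (ENNReal.ofReal
        (2 / Real.cos (α * (Real.pi / 2)) * (∫ w in (ball (0:ℂ) 1), Tf p α e F z₀ R a w).re) *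
        ENNReal.ofReal (3 * MT * C5 * (Y a) ^ (1 - β)) ^ (p / q)) +
      (ENNReal.ofReal (4 * MT / (3 * R ^ 2)) * ∫⁻ w in S z₀ (2 * R), ‖F w‖ₑ) ^ p) := by
  have hp0 := hpq.pos
  have hq0 := hpq.symm.pos
  have haD : a ∈ (ball (0:ℂ) 1) := ha.2
  have h1 := two_int hF hFm hR ha he0 he
  have h2 := holder hpq α hFm z₀ R haD he0
  rw [← hβ] at h2
  have h3 := factor_two h5 z₀ R haD he0
  have h4 := factor_one hp0 hα hα1 hF z₀ R haD he0 he8
  set X := ∫⁻ w in S z₀ (2 * R), ‖F w‖ₑ with hX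
  set X1 := ∫⁻ w in (ball (0:ℂ) 1), ENNReal.ofReal
        (ell e w * ‖eta z₀ R w‖ * ‖F w‖ * ‖1 - conj a * w‖⁻¹) with hX1
  have h5' : X1 ^ p ≤ ENNReal.ofReal
        (2 / Real.cos (α * (Real.pi / 2)) * (∫ w in (ball (0:ℂ) 1), Tf p α e F z₀ R a w).re) *
        ENNReal.ofReal (3 * MT * C5 * (Y a) ^ (1 - β)) ^ (p / q) := by
    refine (ENNReal.rpow_le_rpow h2 hp0.le).trans ?_
    rw [ENNReal.mul_rpow_of_nonneg _ _ hp0.le, ← ENNReal.rpow_mul, ← ENNReal.rpow_mul,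
      one_div_mul_cancel hp0.ne', ENNReal.rpow_one, one_div_mul_eq_div]
    gcongr
  calc ‖F a‖ₑ ^ p ≤ (2 * X1 + ENNReal.ofReal (4 * MT / (3 * R ^ 2)) * X) ^ p :=
        ENNReal.rpow_le_rpow h1 hp0.le
    _ ≤ 2 ^ (p - 1) * ((2 * X1) ^ p + (ENNReal.ofReal (4 * MT / (3 * R ^ 2)) * X) ^ p) :=
        ENNReal.rpow_add_le_mul_rpow_add_rpow _ _ hpq.lt.le
    _ ≤ _ := by
        rw [ENNReal.mul_rpow_of_nonneg 2 X1 hp0.le]
        gcongr

lemma comb {x1 x2 x3 x4 x5 x6 x7 : ℝ} (h1 : 0 ≤ x1) (h2 : 0 ≤ x2) (h3 : 0 ≤ x3) (h4 : 0 ≤ x4)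
    (h5 : 0 ≤ x5) (h6 : 0 ≤ x6) (h7 : 0 ≤ x7) (B : ℝ≥0∞) :
    ENNReal.ofReal x1 * (ENNReal.ofReal x2 * ((ENNReal.ofReal x3 * (ENNReal.ofReal x4 * B)) *
      ENNReal.ofReal x5) + ENNReal.ofReal x6 * (ENNReal.ofReal x7 * B)) =
    ENNReal.ofReal (x1 * (x2 * (x3 * x4 * x5) + x6 * x7)) * B := by
  rw [ENNReal.ofReal_mul h1, ENNReal.ofReal_add (by positivity) (by positivity),
    ENNReal.ofReal_mul h2, ENNReal.ofReal_mul (mul_nonneg h3 h4), ENNReal.ofReal_mul h3,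
    ENNReal.ofReal_mul h6]
  ring

end L1

open L1 in
/-- **LE1** -/
theorem m_LE1 (hR : R1) (h5 : G5) : LE1 := by
  intro p q ε hpq hε hε1
  have hp1 := hpq.lt
  have hq1 := hpq.symm.lt
  have hp0 := hpq.pos
  have hq0 := hpq.symm.pos
  set α : ℝ := 1 - ε with hα
  have hα0 : 0 < α := by rw [hα]; linarith
  have hα1 : α < 1 := by rw [hα]; linarith
  set β : ℝ := (1 - α / p) * q with hβ
  have hqp : q / p = q - 1 := hpq.symm.div_conj_eq_sub_one
  have hβ' : β = q - α * (q - 1) := by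
    rw [hβ, ← hqp]
    field_simp
  have hβ1 : 1 < β := by rw [hβ']; nlinarith
  obtain ⟨C1, hC1, hR⟩ := hR p q α hpq hα0 hα1
  obtain ⟨C5, hC5, h5⟩ := h5 β hβ1
  have hc : 0 < Real.cos (α * (Real.pi / 2)) := by
    apply Real.cos_pos_of_mem_Ioo
    have := Real.pi_pos
    constructor <;> nlinarith
  set c := Real.cos (α * (Real.pi / 2)) with hcd
  have hMT := MT_pos
  have hpi := Real.pi_pos
  refine ⟨2 ^ (p - 1) * (2 ^ p * (2 / c) * C1 * (3 * MT * C5) ^ (p / q) +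
    (4 * MT / 3) ^ p * (4 * Real.pi) ^ (p - 1) * 3 ^ ε), by positivity, ?_⟩
  intro κ F hD z₀ hz₀ R hR0 hR2 hYz hκ a ha
  have haD : a ∈ (ball (0:ℂ) 1) := ha.2
  have haY := Y_pos haD
  obtain ⟨L, hL, hLB⟩ := hR κ F hD z₀ hz₀ R hR0 hR2 hYz hκ a ha
  set B := ∫⁻ w in S z₀ (6 * R), Gf p q κ F w with hB
  have hFm := hD.Fm
  have hF := hD.sol.an
  set X := ∫⁻ w in S z₀ (2 * R), ‖F w‖ₑ with hX
  set N := ENNReal.ofReal (3 * MT * C5 * (Y a) ^ (1 - β)) ^ (p / q) with hN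
  -- passage to the limit
  have hlim : ‖F a‖ₑ ^ p ≤ 2 ^ (p - 1) * (2 ^ p * (ENNReal.ofReal (2 / c * L.re) * N) +
      (ENNReal.ofReal (4 * MT / (3 * R ^ 2)) * X) ^ p) := by
    have t1 : Tendsto (fun e : ℝ => ENNReal.ofReal
        (2 / c * (∫ w in (ball (0:ℂ) 1), Tf p α e F z₀ R a w).re)) (𝓝[>] 0) (𝓝 (ENNReal.ofReal (2 / c * L.re))) := by
      apply (ENNReal.continuous_ofReal.tendsto _).comp
      apply Tendsto.const_mul
      exact (Complex.continuous_re.tendsto L).comp hL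
    have hNt : N ≠ ⊤ := by
      rw [hN]
      exact ENNReal.rpow_ne_top_of_nonneg (by positivity) ENNReal.ofReal_ne_top
    have t2 : Tendsto (fun e : ℝ => 2 ^ (p - 1) * (2 ^ p * (ENNReal.ofReal
        (2 / c * (∫ w in (ball (0:ℂ) 1), Tf p α e F z₀ R a w).re) * N) +
        (ENNReal.ofReal (4 * MT / (3 * R ^ 2)) * X) ^ p)) (𝓝[>] 0)
        (𝓝 (2 ^ (p - 1) * (2 ^ p * (ENNReal.ofReal (2 / c * L.re) * N) +
        (ENNReal.ofReal (4 * MT / (3 * R ^ 2)) * X) ^ p))) := by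
      apply ENNReal.Tendsto.const_mul _ (Or.inr
        (ENNReal.rpow_ne_top_of_nonneg (by linarith) (by norm_num)))
      apply Tendsto.add _ tendsto_const_nhds
      apply ENNReal.Tendsto.const_mul _ (Or.inr
        (ENNReal.rpow_ne_top_of_nonneg hp0.le (by norm_num)))
      exact ENNReal.Tendsto.mul_const t1 (Or.inr hNt)
    apply ge_of_tendsto t2
    have hev : ∀ᶠ e : ℝ in 𝓝[>] 0, e < min (Y a / 16) (1 / 8) :=
      mem_nhdsWithin_of_mem_nhds (gt_mem_nhds (by positivity))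
    filter_upwards [self_mem_nhdsWithin, hev] with e he0 he
    exact one_e hpq hα0.le hα1 hβ h5 hF hFm hR0 ha he0 (he.le.trans (min_le_left _ _))
      (he.le.trans (min_le_right _ _))
  -- the two constants
  have c1 : ENNReal.ofReal (2 / c * L.re) ≤
      ENNReal.ofReal (2 / c) * (ENNReal.ofReal (C1 * R ^ (-1 - α)) * B) := by
    calc ENNReal.ofReal (2 / c * L.re) ≤ ENNReal.ofReal (2 / c * ‖L‖) := by
          apply ENNReal.ofReal_le_ofReal
          apply mul_le_mul_of_nonneg_left (Complex.re_le_norm L) (by positivity)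
      _ = ENNReal.ofReal (2 / c) * ENNReal.ofReal ‖L‖ := ENNReal.ofReal_mul (by positivity)
      _ ≤ _ := by gcongr
  have c2 : N = ENNReal.ofReal ((3 * MT * C5) ^ (p / q) * (Y a) ^ (-ε)) := by
    rw [hN, ENNReal.ofReal_rpow_of_pos (by positivity)]
    congr 1
    rw [Real.mul_rpow (by positivity) (by positivity), ← Real.rpow_mul haY.le]
    congr 2
    have h1 : p / q = p - 1 := hpq.div_conj_eq_sub_one
    have h2 : (q - 1) * (p - 1) = 1 := by
      rw [← hqp, ← h1]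
      field_simp
    rw [hβ', h1, hα]
    linear_combination (-ε) * h2
  have c3 : X ^ p ≤ ENNReal.ofReal ((4 * Real.pi * R ^ 2) ^ (p - 1)) * B := by
    have h1 := jensen_lint (μ := volume.restrict (S z₀ (2 * R))) hp1 hFm.enorm.aemeasurable
    rw [Measure.restrict_apply_univ] at h1
    refine h1.trans ?_
    apply mul_le_mul'
    · rw [← ENNReal.ofReal_rpow_of_pos (by positivity)]
      apply ENNReal.rpow_le_rpow _ (by linarith)
      refine (vol_S z₀ (by positivity)).trans (le_of_eq ?_)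
      congr 1; ring
    · calc ∫⁻ w in S z₀ (2 * R), ‖F w‖ₑ ^ p ≤ ∫⁻ w in S z₀ (6 * R), ‖F w‖ₑ ^ p :=
            lintegral_mono_set (S_mono z₀ (by linarith))
        _ ≤ _ := by
            apply lintegral_mono
            intro w
            unfold Gf
            exact le_self_add
  -- numbers
  have n1 : (1:ℝ) ≤ 3 ^ ε * (R / Y a) ^ ε := by
    rw [← Real.mul_rpow (by norm_num) (by positivity)]
    apply Real.one_le_rpow _ hε.le
    have h1 : ‖a - z₀‖ < R / 2 := by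
      have := ha.1
      rwa [mem_ball, dist_eq_norm] at this
    have h2 := Y_le_add hz₀ haD
    rw [← mul_div_assoc, le_div_iff₀ haY]
    linarith
  have n2 : R ^ (-1 - α) * (Y a) ^ (-ε) = (R / Y a) ^ ε / R ^ 2 := by
    rw [hα, show (-1 - (1 - ε) : ℝ) = ε - (2 : ℕ) by push_cast; ring, Real.rpow_sub hR0,
      Real.rpow_natCast, Real.rpow_neg haY.le, Real.div_rpow hR0.le haY.le]
    field_simp
  have n3 : (4 * MT / (3 * R ^ 2)) ^ p * (4 * Real.pi * R ^ 2) ^ (p - 1) =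
      (4 * MT / 3) ^ p * (4 * Real.pi) ^ (p - 1) / R ^ 2 := by
    rw [show 4 * MT / (3 * R ^ 2) = (4 * MT / 3) / R ^ 2 by field_simp,
      Real.div_rpow (by positivity) (by positivity), Real.mul_rpow (by positivity) (by positivity),
      Real.rpow_sub_one (show (R ^ 2 : ℝ) ≠ 0 by positivity)]
    have : ((R ^ 2 : ℝ)) ^ p ≠ 0 := (Real.rpow_pos_of_pos (by positivity) p).ne'
    field_simp
  have n4 : (2:ℝ≥0∞) ^ (p - 1) = ENNReal.ofReal (2 ^ (p - 1)) := by
    rw [← ENNReal.ofReal_rpow_of_pos (by norm_num)]; simp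
  have n5 : (2:ℝ≥0∞) ^ p = ENNReal.ofReal (2 ^ p) := by
    rw [← ENNReal.ofReal_rpow_of_pos (by norm_num)]; simp
  calc ‖F a‖ₑ ^ p ≤ 2 ^ (p - 1) * (2 ^ p * (ENNReal.ofReal (2 / c * L.re) * N) +
      (ENNReal.ofReal (4 * MT / (3 * R ^ 2)) * X) ^ p) := hlim
    _ ≤ ENNReal.ofReal (2 ^ (p - 1)) * (ENNReal.ofReal (2 ^ p) *
          ((ENNReal.ofReal (2 / c) * (ENNReal.ofReal (C1 * R ^ (-1 - α)) * B)) *
            ENNReal.ofReal ((3 * MT * C5) ^ (p / q) * (Y a) ^ (-ε))) +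
          ENNReal.ofReal ((4 * MT / (3 * R ^ 2)) ^ p) *
            (ENNReal.ofReal ((4 * Real.pi * R ^ 2) ^ (p - 1)) * B)) := by
        rw [n4, n5, c2, ENNReal.mul_rpow_of_nonneg _ _ hp0.le,
          ENNReal.ofReal_rpow_of_pos (by positivity)]
        gcongr
    _ = ENNReal.ofReal (2 ^ (p - 1) * (2 ^ p * ((2 / c) * (C1 * R ^ (-1 - α)) *
            ((3 * MT * C5) ^ (p / q) * (Y a) ^ (-ε))) +
          (4 * MT / (3 * R ^ 2)) ^ p * (4 * Real.pi * R ^ 2) ^ (p - 1))) * B := by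
        exact comb (by positivity) (by positivity) (by positivity) (by positivity)
          (by positivity) (by positivity) (by positivity) B
    _ ≤ _ := by
        gcongr
        calc 2 ^ (p - 1) * (2 ^ p * ((2 / c) * (C1 * R ^ (-1 - α)) *
            ((3 * MT * C5) ^ (p / q) * (Y a) ^ (-ε))) +
            (4 * MT / (3 * R ^ 2)) ^ p * (4 * Real.pi * R ^ 2) ^ (p - 1))
            = 2 ^ (p - 1) * (2 ^ p * (2 / c) * C1 * (3 * MT * C5) ^ (p / q) *
              (R ^ (-1 - α) * (Y a) ^ (-ε)) +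
            (4 * MT / 3) ^ p * (4 * Real.pi) ^ (p - 1) / R ^ 2 * 1) := by rw [n3]; ring
          _ ≤ 2 ^ (p - 1) * (2 ^ p * (2 / c) * C1 * (3 * MT * C5) ^ (p / q) *
              (R ^ (-1 - α) * (Y a) ^ (-ε)) +
            (4 * MT / 3) ^ p * (4 * Real.pi) ^ (p - 1) / R ^ 2 * (3 ^ ε * (R / Y a) ^ ε)) := by
              gcongr
          _ = _ := by rw [n2]; ring

end Pool.Agent.L0h83.BR
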