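import Pool.Agent.L0h83.BR.L2

/-! The first local estimate. -/

set_option autoImplicit false

namespace Pool.Agent.L0h83.BR

open Complex Metric Set Filter Topology MeasureTheory ComplexConjugate
open scoped ENNReal NNReal
open Pool.Agent.H761R2.SV

namespace L1h

open L2h

/-- the real profile -/
noncomputable def et (z₀ : ℂ) (R : ℝ) (w : ℂ) : ℝ := etaR R (‖w - z₀‖ ^ 2)

lemma eta_et (z₀ : ℂ) (R : ℝ) (w : ℂ) : eta z₀ R w = (et z₀ R w : ℂ) := rfl

lemma et_nonneg (z₀ : ℂ) (R : ℝ) (w : ℂ) : 0 ≤ et z₀ R w := by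
  unfold et etaR
  have h2 := Real.smoothTransition.le_one ((‖w - z₀‖ ^ 2 / R ^ 2 - 1) / 3)
  linarith

lemma et_le_one (z₀ : ℂ) (R : ℝ) (w : ℂ) : et z₀ R w ≤ 1 := by
  unfold et etaR
  have h2 := Real.smoothTransition.nonneg ((‖w - z₀‖ ^ 2 / R ^ 2 - 1) / 3)
  linarith

lemma norm_eta_et (z₀ : ℂ) (R : ℝ) (w : ℂ) : ‖eta z₀ R w‖ = et z₀ R w := by
  rw [eta_et, Complex.norm_real, Real.norm_of_nonneg (et_nonneg _ _ _)]

lemma re_pos {a w : ℂ} (ha : a ∈ ball (0:ℂ) 1) (hw : w ∈ ball (0:ℂ) 1) :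
    0 < (1 - conj a * w).re := by
  rw [mem_ball_zero_iff] at ha hw
  have h1 : ‖conj a * w‖ < 1 := by
    rw [norm_mul, RCLike.norm_conj]
    nlinarith [norm_nonneg a, norm_nonneg w]
  have h2 := Complex.re_le_norm (conj a * w)
  rw [Complex.sub_re, Complex.one_re]
  linarith

lemma m_pos {a w : ℂ} (ha : a ∈ ball (0:ℂ) 1) (hw : w ∈ ball (0:ℂ) 1) :
    0 < ‖1 - conj a * w‖ := norm_pos_iff.2 (one_sub_ne ha hw)

lemma m_ge {a w : ℂ} (ha : a ∈ ball (0:ℂ) 1) (hw : w ∈ ball (0:ℂ) 1) :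
    Y a / 2 ≤ ‖1 - conj a * w‖ := by
  rw [mem_ball_zero_iff] at ha hw
  have h1 := norm_sub_norm_le (1:ℂ) (conj a * w)
  rw [norm_one, norm_mul, RCLike.norm_conj] at h1
  unfold Y
  nlinarith [norm_nonneg a, norm_nonneg w]

lemma m_le_two_dist {a w : ℂ} (ha : a ∈ ball (0:ℂ) 1) (hw : w ∈ ball (0:ℂ) 1)
    (h : Y w ≤ Y a / 8) : ‖1 - conj a * w‖ ≤ 2 * ‖a - w‖ := by
  have h1 := norm_one_sub_sq' a w
  have h2 : ‖1 - a * conj w‖ = ‖1 - conj a * w‖ := by
    rw [← RCLike.norm_conj]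
    simp
  rw [h2] at h1
  have h3 := m_ge ha hw
  have h4 := Y_pos ha
  have h5 := Y_pos hw
  have h6 : Y a * Y w ≤ Y a ^ 2 / 8 := by nlinarith
  have h7 : Y a ^ 2 / 4 ≤ ‖1 - conj a * w‖ ^ 2 := by nlinarith
  apply le_of_sq_le_sq _ (by positivity)
  nlinarith

lemma hw_re {α : ℝ} {a w : ℂ} (ha : a ∈ ball (0:ℂ) 1) (hw' : w ∈ ball (0:ℂ) 1) :
    (hw α a w).re = ‖1 - conj a * w‖ ^ (-α) * Real.cos (α * arg (1 - conj a * w)) := by
  have hne := one_sub_ne ha hw'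
  have hm := m_pos ha hw'
  unfold hw
  rw [Complex.cpow_def_of_ne_zero hne, Complex.exp_re]
  have e1 : (Complex.log (1 - conj a * w) * -(α : ℂ)).re = Real.log ‖1 - conj a * w‖ * (-α) := by
    rw [← Complex.ofReal_neg, Complex.re_mul_ofReal, Complex.log_re]
  have e2 : (Complex.log (1 - conj a * w) * -(α : ℂ)).im = -(α * arg (1 - conj a * w)) := by
    rw [← Complex.ofReal_neg, Complex.im_mul_ofReal, Complex.log_im]
    ring
  rw [e1, e2, Real.cos_neg, Real.rpow_def_of_pos hm]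

lemma hw_ge {α : ℝ} (hα : 0 < α) (hα1 : α < 1) {a w : ℂ} (ha : a ∈ ball (0:ℂ) 1)
    (hw' : w ∈ ball (0:ℂ) 1) :
    ‖1 - conj a * w‖ ^ (-α) * Real.cos (α * (Real.pi / 2)) ≤ (hw α a w).re := by
  rw [hw_re ha hw']
  have hpi := Real.pi_pos
  have hm := m_pos ha hw'
  gcongr
  have h1 : |arg (1 - conj a * w)| ≤ Real.pi / 2 :=
    Complex.abs_arg_le_pi_div_two_iff.2 (re_pos ha hw').le
  rw [← Real.cos_abs (α * arg (1 - conj a * w)), abs_mul, abs_of_pos hα]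
  apply Real.cos_le_cos_of_nonneg_of_le_pi (by positivity)
  · nlinarith
  · gcongr

lemma cos_pos {α : ℝ} (hα : 0 < α) (hα1 : α < 1) : 0 < Real.cos (α * (Real.pi / 2)) := by
  have hpi := Real.pi_pos
  apply Real.cos_pos_of_mem_Ioo
  constructor
  · nlinarith
  · nlinarith

lemma hw_cont {α : ℝ} {a : ℂ} (ha : a ∈ ball (0:ℂ) 1) :
    ContinuousOn (hw α a) (ball (0:ℂ) 1) := by
  unfold hw
  intro w hw'
  apply ContinuousAt.continuousWithinAt
  exact ContinuousAt.cpow (by fun_prop) continuousAt_const (Or.inl (re_pos ha hw'))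

/-- the integrand of `R1` -/
noncomputable def Ti (p α : ℝ) (F : ℂ → ℂ) (z₀ : ℂ) (R : ℝ) (a : ℂ) (e : ℝ) (z : ℂ) : ℂ :=
  ((ell e z * ‖z‖ ^ 2 * ‖F z‖ ^ p : ℝ) : ℂ) * (eta z₀ R z * hw α a z)

lemma Ti_re (p α : ℝ) (F : ℂ → ℂ) (z₀ : ℂ) (R : ℝ) (a : ℂ) (e : ℝ) (z : ℂ) :
    (Ti p α F z₀ R a e z).re = ell e z * ‖z‖ ^ 2 * ‖F z‖ ^ p * (et z₀ R z * (hw α a z).re) := by
  unfold Ti
  rw [Complex.re_ofReal_mul, eta_et, Complex.re_ofReal_mul]

lemma Ti_int {p α : ℝ} (hp : 0 < p) {F : ℂ → ℂ} (hF : DifferentiableOn ℂ F (ball 0 1)) (z₀ : ℂ)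
    (R : ℝ) {a : ℂ} (ha : a ∈ ball (0:ℂ) 1) {e : ℝ} (he : 0 < e) (_he1 : e < 1) :
    IntegrableOn (Ti p α F z₀ R a e) (ball (0:ℂ) 1) := by
  set r : ℝ := Real.sqrt (1 - e) with hr
  have hr1 : r < 1 := by
    rw [hr, Real.sqrt_lt' one_pos]; linarith
  have hsub : closedBall (0:ℂ) r ⊆ ball 0 1 := closedBall_subset_ball hr1
  have hc : ContinuousOn (Ti p α F z₀ R a e) (closedBall 0 r) := by
    unfold Ti
    apply ContinuousOn.mul
    · apply Complex.continuous_ofReal.comp_continuousOn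
      apply ContinuousOn.mul
      · exact ((continuous_ell e).mul (by fun_prop)).continuousOn
      · exact (Real.continuous_rpow_const hp.le).comp_continuousOn
          ((hF.continuousOn.mono hsub).norm)
    · apply ContinuousOn.mul
      · exact (eta_contDiff z₀ R (n := 1)).continuous.continuousOn
      · exact (hw_cont ha).mono hsub
  refine IntegrableOn.of_forall_sdiff_eq_zero (hc.integrableOn_compact (isCompact_closedBall _ _))
    measurableSet_ball ?_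
  intro z hz
  have h1 : r < ‖z‖ := by
    have := hz.2
    rw [mem_closedBall_zero_iff, not_le] at this
    exact this
  have h2 : Y z < e := by
    have h3 : 1 - e < ‖z‖ ^ 2 := by
      rw [hr, Real.sqrt_lt' (lt_of_le_of_lt (Real.sqrt_nonneg _) h1)] at h1
      exact h1
    unfold Y
    linarith
  unfold Ti
  rw [ell_zero_lo he h2]
  simp

lemma holder_ptw {p q α β : ℝ} (hpq : p.HolderConjugate q) (hβ : β = (1 - α / p) * q)
    {x y f m : ℝ} (hx : 0 ≤ x) (hy : 0 ≤ y) (hy1 : y ≤ 1) (hf : 0 ≤ f) (hm : 0 < m) :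
    x * y * f * m⁻¹ ≤ (x * y * f ^ p * m ^ (-α)) ^ (1 / p) * (x * m ^ (-β)) ^ (1 / q) := by
  have hp0 := hpq.pos
  have hq0 := hpq.symm.pos
  have hpq1 : 1 / p + 1 / q = 1 := by
    have := hpq.inv_add_inv_eq_one
    rw [one_div, one_div]; exact this
  rcases eq_or_lt_of_le hx with h0 | h0
  · rw [← h0]
    simp only [zero_mul]
    positivity
  rw [Real.mul_rpow (by positivity) (by positivity), Real.mul_rpow (by positivity) (by positivity),
    Real.mul_rpow hx hy, Real.mul_rpow hx (by positivity), ← Real.rpow_mul hf,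
    ← Real.rpow_mul hm.le, ← Real.rpow_mul hm.le, mul_one_div_cancel hp0.ne', Real.rpow_one]
  have e1 : x ^ (1 / p) * x ^ (1 / q) = x := by
    rw [← Real.rpow_add h0, hpq1, Real.rpow_one]
  have e2 : m ^ (-α * (1 / p)) * m ^ (-β * (1 / q)) = m⁻¹ := by
    rw [← Real.rpow_add hm, ← Real.rpow_neg_one]
    congr 1
    rw [hβ]
    field_simp
    ring
  have e3 : y ≤ y ^ (1 / p) := by
    have h1 : 1 / p ≤ 1 := by
      rw [div_le_one hp0]; exact hpq.lt.le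
    calc y = y ^ (1:ℝ) := (Real.rpow_one y).symm
      _ ≤ y ^ (1 / p) := by
        rcases eq_or_lt_of_le hy with hy0 | hy0
        · rw [← hy0, Real.zero_rpow one_ne_zero]
          positivity
        · exact Real.rpow_le_rpow_of_exponent_ge hy0 hy1 h1
  calc x * y * f * m⁻¹ ≤ x * y ^ (1 / p) * f * m⁻¹ := by gcongr
    _ = (x ^ (1 / p) * x ^ (1 / q)) * y ^ (1 / p) * f *
        (m ^ (-α * (1 / p)) * m ^ (-β * (1 / q))) := by rw [e1, e2]
    _ = _ := by ring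

end L1h

end Pool.Agent.L0h83.BR
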