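import Pool.Agent.L0h83.BR.Stm3

/-! The full local estimate. -/

set_option autoImplicit false

namespace Pool.Agent.L0h83.BR

open Complex Metric Set Filter Topology MeasureTheory ComplexConjugate
open scoped ENNReal NNReal
open Pool.Agent.H761R2.SV


namespace L2h

lemma eta_one {z₀ : ℂ} {R : ℝ} (hR : 0 < R) {w : ℂ} (h : ‖w - z₀‖ ≤ R) : eta z₀ R w = 1 := by
  unfold eta etaR
  have h1 : (‖w - z₀‖ ^ 2 / R ^ 2 - 1) / 3 ≤ 0 := by
    have : ‖w - z₀‖ ^ 2 / R ^ 2 ≤ 1 := by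
      rw [div_le_one (by positivity)]
      exact pow_le_pow_left₀ (norm_nonneg _) h 2
    linarith
  rw [Real.smoothTransition.zero_of_nonpos h1]
  simp

lemma eta_zero {z₀ : ℂ} {R : ℝ} (hR : 0 < R) {w : ℂ} (h : 2 * R ≤ ‖w - z₀‖) : eta z₀ R w = 0 := by
  unfold eta etaR
  have h1 : 1 ≤ (‖w - z₀‖ ^ 2 / R ^ 2 - 1) / 3 := by
    have : 4 ≤ ‖w - z₀‖ ^ 2 / R ^ 2 := by
      rw [le_div_iff₀ (by positivity)]
      calc 4 * R ^ 2 = (2 * R) ^ 2 := by ring
        _ ≤ _ := pow_le_pow_left₀ (by positivity) h 2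
    linarith
  rw [Real.smoothTransition.one_of_one_le h1]
  simp

lemma norm_eta_le (z₀ : ℂ) (R : ℝ) (w : ℂ) : ‖eta z₀ R w‖ ≤ 1 := by
  unfold eta etaR
  have h1 := Real.smoothTransition.nonneg ((‖w - z₀‖ ^ 2 / R ^ 2 - 1) / 3)
  have h2 := Real.smoothTransition.le_one ((‖w - z₀‖ ^ 2 / R ^ 2 - 1) / 3)
  rw [Complex.norm_real, Real.norm_eq_abs, abs_le]
  constructor <;> linarith

lemma norm_one_sub_eta_le (z₀ : ℂ) (R : ℝ) (w : ℂ) : ‖1 - eta z₀ R w‖ ≤ 1 := by
  unfold eta etaR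
  have h1 := Real.smoothTransition.nonneg ((‖w - z₀‖ ^ 2 / R ^ 2 - 1) / 3)
  have h2 := Real.smoothTransition.le_one ((‖w - z₀‖ ^ 2 / R ^ 2 - 1) / 3)
  rw [← Complex.ofReal_one, ← Complex.ofReal_sub, Complex.norm_real, Real.norm_eq_abs, abs_le]
  constructor <;> linarith

lemma eta_contDiff (z₀ : ℂ) (R : ℝ) {n : ℕ∞} : ContDiff ℝ n (eta z₀ R) := by
  unfold eta etaR
  apply Complex.ofRealCLM.contDiff.comp
  apply contDiff_const.sub
  apply Real.smoothTransition.contDiff.comp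
  exact ((((contDiff_id.sub contDiff_const).norm_sq ℝ).div_const _).sub contDiff_const).div_const _

lemma etaR_deriv (R t : ℝ) :
    HasDerivAt (etaR R) (-(deriv Real.smoothTransition ((t / R ^ 2 - 1) / 3) / (3 * R ^ 2))) t := by
  have h1 : HasDerivAt (fun t : ℝ => (t / R ^ 2 - 1) / 3) (1 / R ^ 2 / 3) t := by
    have := (((hasDerivAt_id t).div_const (R ^ 2)).sub_const 1).div_const 3
    simpa using this
  have h2 : DifferentiableAt ℝ Real.smoothTransition ((t / R ^ 2 - 1) / 3) :=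
    (Real.smoothTransition.contDiff (n := 1)).differentiable (by simp) _
  have h3 := (h2.hasDerivAt.comp t h1).const_sub 1
  refine h3.congr_deriv ?_
  ring

lemma dbar_eta (z₀ : ℂ) (R : ℝ) (w : ℂ) : dbar (eta z₀ R) w =
    ((-(deriv Real.smoothTransition ((‖w - z₀‖ ^ 2 / R ^ 2 - 1) / 3) / (3 * R ^ 2)) : ℝ) : ℂ) *
      (w - z₀) := by
  have h := dbar_rad (z := w) (z₀ := z₀) (etaR_deriv R (‖w - z₀‖ ^ 2))
  exact h

lemma dbar_eta_in {z₀ : ℂ} {R : ℝ} (hR : 0 < R) {w : ℂ} (h : ‖w - z₀‖ < R) :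
    dbar (eta z₀ R) w = 0 := by
  rw [dbar_eta, dst_zero_of_lt]
  · simp
  · have : ‖w - z₀‖ ^ 2 / R ^ 2 < 1 := by
      rw [div_lt_one (by positivity)]
      exact pow_lt_pow_left₀ h (norm_nonneg _) two_ne_zero
    linarith

lemma dbar_eta_out {z₀ : ℂ} {R : ℝ} (hR : 0 < R) {w : ℂ} (h : 2 * R < ‖w - z₀‖) :
    dbar (eta z₀ R) w = 0 := by
  rw [dbar_eta, dst_zero_of_gt]
  · simp
  · have : 4 < ‖w - z₀‖ ^ 2 / R ^ 2 := by
      rw [lt_div_iff₀ (by positivity)]
      calc 4 * R ^ 2 = (2 * R) ^ 2 := by ring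
        _ < _ := pow_lt_pow_left₀ h (by positivity) two_ne_zero
    linarith

lemma norm_dbar_eta_le {z₀ : ℂ} {R : ℝ} (hR : 0 < R) (w : ℂ) :
    ‖dbar (eta z₀ R) w‖ ≤ MT / R := by
  have hMT := MT_pos
  rcases lt_or_ge (2 * R) ‖w - z₀‖ with h | h
  · rw [dbar_eta_out hR h, norm_zero]; positivity
  · rw [dbar_eta, norm_mul, Complex.norm_real, Real.norm_eq_abs, abs_neg, abs_of_nonneg
      (div_nonneg (dst_nonneg _) (by positivity))]
    calc deriv Real.smoothTransition ((‖w - z₀‖ ^ 2 / R ^ 2 - 1) / 3) / (3 * R ^ 2) * ‖w - z₀‖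
        ≤ MT / (3 * R ^ 2) * (2 * R) := by
          gcongr
          exact dst_le _
      _ = 2 / 3 * (MT / R) := by field_simp
      _ ≤ MT / R := by
          have : 0 ≤ MT / R := by positivity
          linarith

lemma norm_one_sub_sq' (z w : ℂ) : ‖1 - z * conj w‖ ^ 2 = ‖z - w‖ ^ 2 + Y z * Y w := by
  unfold Y
  rw [← Complex.normSq_eq_norm_sq, ← Complex.normSq_eq_norm_sq, ← Complex.normSq_eq_norm_sq,
    ← Complex.normSq_eq_norm_sq]
  simp only [Complex.normSq_apply]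
  simp
  ring

lemma K_le {z w : ℂ} (hz : z ∈ (ball (0:ℂ) 1)) (hw : w ∈ (ball (0:ℂ) 1)) {s : ℝ} (hs : 0 < s) (h : s ≤ ‖z - w‖) :
    K z w ≤ 1 / s ^ 2 := by
  have h1 := norm_one_sub_sq' z w
  have hz' : 0 < Y z := Y_pos hz
  have hw' : 0 < Y w := Y_pos hw
  have h2 : ‖z - w‖ ≤ ‖1 - z * conj w‖ := by
    apply le_of_sq_le_sq _ (norm_nonneg _)
    rw [h1]
    have := mul_pos hz' hw'
    linarith
  unfold K
  have h3 : s ^ 2 ≤ ‖z - w‖ * ‖1 - z * conj w‖ := by
    rw [sq]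
    exact mul_le_mul h (h.trans h2) hs.le (norm_nonneg _)
  exact one_div_le_one_div_of_le (by positivity) h3

/-- the kernel -/
noncomputable def Nk (z w : ℂ) : ℂ := (Y z : ℂ) / ((z - w) * (1 - conj z * w))

lemma Nk_norm {z : ℂ} (hz : z ∈ (ball (0:ℂ) 1)) (w : ℂ) : ‖Nk z w‖ = Y z * K z w := by
  have hY := Y_pos hz
  unfold Nk
  rw [norm_div, norm_mul, Complex.norm_real, Real.norm_eq_abs, abs_of_pos hY, K_eq]
  ring

lemma Nk_meas (z : ℂ) : Measurable (Nk z) := by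
  unfold Nk
  apply Measurable.div measurable_const
  apply Continuous.measurable
  fun_prop

lemma Nk_diff {z w : ℂ} (hz : z ∈ (ball (0:ℂ) 1)) (hw : w ∈ (ball (0:ℂ) 1)) (hne : w ≠ z) : DifferentiableAt ℂ (Nk z) w := by
  unfold Nk
  apply DifferentiableAt.fun_div (by fun_prop) (by fun_prop)
  exact mul_ne_zero (sub_ne_zero.2 hne.symm) (one_sub_ne hz hw)

lemma Nk_contDiffAt {z w : ℂ} (hz : z ∈ (ball (0:ℂ) 1)) (hw : w ∈ (ball (0:ℂ) 1)) (hne : w ≠ z) :
    ContDiffAt ℝ 1 (Nk z) w := by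
  have h : ContDiffAt ℂ 1 (Nk z) w := by
    unfold Nk
    apply ContDiffAt.div contDiffAt_const
    · fun_prop
    · exact mul_ne_zero (sub_ne_zero.2 hne.symm) (one_sub_ne hz hw)
  exact h.restrict_scalars ℝ

lemma Y_lip' {z w : ℂ} (hz : z ∈ (ball (0:ℂ) 1)) (hw : w ∈ (ball (0:ℂ) 1)) : Y z ≤ Y w + 2 * ‖z - w‖ := by
  rw [mem_ball_zero_iff] at hz hw
  unfold Y
  have h1 : ‖w‖ ≤ ‖z‖ + ‖z - w‖ := by
    calc ‖w‖ = ‖z - (z - w)‖ := by congr 1; ring
      _ ≤ ‖z‖ + ‖z - w‖ := norm_sub_le _ _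
  nlinarith [norm_nonneg z, norm_nonneg w, norm_nonneg (z - w)]

lemma Y_le_one (z : ℂ) : Y z ≤ 1 := by
  unfold Y
  nlinarith [sq_nonneg ‖z‖]

variable {p q : ℝ} {κ F : ℂ → ℂ}

lemma lint_S (z₀ : ℂ) (ρ : ℝ) (g : ℂ → ℝ≥0∞) :
    ∫⁻ w in S z₀ ρ, g w = ∫⁻ w in (ball (0:ℂ) 1), (ball z₀ ρ).indicator g w := by
  unfold S
  rw [lintegral_indicator measurableSet_ball, Measure.restrict_restrict measurableSet_ball]

lemma V_int (h : Dat p q κ F) (hG4 : G4) :
    IntegrableOn (fun w => cv (ph p κ F) w / Y w) (ball (0:ℂ) 1) := by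
  have hq := h.hpq.symm.lt
  have hm : Measurable fun w => cv (ph p κ F) w / Y w :=
    (cv_meas h.phm).div (Complex.measurable_ofReal.comp continuous_Y.measurable)
  refine Lq_int hq hm.aestronglyMeasurable ⟨(hm.norm.pow_const q).aestronglyMeasurable, ?_⟩
  unfold HasFiniteIntegral
  refine lt_of_le_of_lt (le_of_eq ?_) (lt_top_iff_ne_top.2 (h.Vq hG4))
  refine setLIntegral_congr_fun measurableSet_ball fun z hz => ?_
  have hY := Y_pos hz
  simp only
  rw [← ofReal_norm (‖cv (ph p κ F) z / Y z‖ ^ q), Real.norm_eq_abs, abs_of_nonneg (by positivity),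
    ← ENNReal.ofReal_rpow_of_nonneg (norm_nonneg _) h.hpq.symm.nonneg, norm_div, Complex.norm_real,
    Real.norm_eq_abs, abs_of_pos hY]
  rfl

theorem vest (h : Dat p q κ F) (hG4 : G4) {z₀ : ℂ} {R : ℝ} (hR : 0 < R)
    (hz₀ : z₀ ∈ (ball (0:ℂ) 1)) (hY₀ : Y z₀ ≤ 2 * R) {z : ℂ} (hz : z ∈ S z₀ (R / 8)) :
    Vf (ph p κ F) z ≤ (∫⁻ w in S z₀ (R / 2), ENNReal.ofReal (K z w) * ‖ph p κ F w‖ₑ) +
      ENNReal.ofReal (768 * MT / R ^ 2) * ∫⁻ w in S z₀ R, Vf (ph p κ F) w := by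
  have hMT := MT_pos
  set φ := ph p κ F with hφ
  set ψ := eta z₀ (R / 4) with hψ
  have hR4 : 0 < R / 4 := by positivity
  have hzD : z ∈ (ball (0:ℂ) 1) := hz.2
  have hzz : ‖z - z₀‖ < R / 8 := by have := hz.1; rwa [mem_ball, dist_eq_norm] at this
  have hYz := Y_pos hzD
  by_cases hi : IntegrableOn (fun w => φ w * Nk z w) (ball (0:ℂ) 1)
  swap
  · have : cv φ z = 0 := by
      unfold cv
      have h0 : ∫ w in (ball (0:ℂ) 1), φ w * ((Y z : ℂ) / ((z - w) * (1 - conj z * w))) = 0 :=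
        integral_undef hi
      rw [h0, mul_zero]
    rw [Vf_eq hzD, this]
    simp
  set Φ : ℂ → ℂ := fun w => (1 - ψ w) * Nk z w with hΦ
  have hψc : Continuous ψ := (eta_contDiff z₀ (R / 4) (n := 1)).continuous
  have hΦm : Measurable Φ := (measurable_const.sub hψc.measurable).mul (Nk_meas z)
  have hfar : ∀ w ∈ (ball (0:ℂ) 1), R / 4 ≤ ‖w - z₀‖ → K z w ≤ 64 / R ^ 2 := by
    intro w hw hwz
    have h1 : R / 8 ≤ ‖z - w‖ := by
      have h2 : ‖w - z₀‖ ≤ ‖z - w‖ + ‖z - z₀‖ := by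
        calc ‖w - z₀‖ = ‖(z - z₀) - (z - w)‖ := by congr 1; ring
          _ ≤ ‖z - z₀‖ + ‖z - w‖ := norm_sub_le _ _
          _ = _ := add_comm _ _
      linarith
    refine (K_le hzD hw (by positivity) h1).trans (le_of_eq ?_)
    field_simp
    norm_num
  have hΦb : ∀ w ∈ (ball (0:ℂ) 1), ‖Φ w‖ ≤ 64 / R ^ 2 := by
    intro w hw
    rcases lt_or_ge ‖w - z₀‖ (R / 4) with hlt | hge
    · simp only [hΦ]
      rw [hψ, eta_one hR4 hlt.le, sub_self, zero_mul, norm_zero]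
      positivity
    · simp only [hΦ]
      rw [norm_mul, Nk_norm hzD]
      calc ‖1 - ψ w‖ * (Y z * K z w) ≤ 1 * (1 * (64 / R ^ 2)) := by
            have := K_nonneg z w
            have := Y_le_one z
            gcongr
            · exact norm_one_sub_eta_le _ _ _
            · exact hfar w hw hge
        _ = _ := by ring
  have hdb : ∀ w ∈ (ball (0:ℂ) 1), dbar Φ w = -(dbar ψ w * Nk z w) := by
    intro w hw
    rcases lt_or_ge ‖w - z₀‖ (R / 4) with hlt | hge
    · have h1 : Φ =ᶠ[𝓝 w] fun _ => 0 := by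
        have : {w : ℂ | ‖w - z₀‖ < R / 4} ∈ 𝓝 w :=
          (isOpen_lt (by fun_prop) continuous_const).mem_nhds hlt
        filter_upwards [this] with v hv
        have hv' : ‖v - z₀‖ < R / 4 := hv
        simp only [hΦ]
        rw [hψ, eta_one hR4 hv'.le, sub_self, zero_mul]
      have h2 : dbar Φ w = 0 := by
        simp only [dbar]
        rw [h1.fderiv_eq]
        simp
      rw [h2, hψ, dbar_eta_in hR4 hlt, zero_mul, neg_zero]
    · have hne : w ≠ z := by
        rintro rfl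
        linarith
      have h1 : DifferentiableAt ℂ (Nk z) w := Nk_diff hzD hw hne
      have h3 : DifferentiableAt ℝ ψ w :=
        (eta_contDiff z₀ (R / 4) (n := 1)).differentiable (by simp) w
      have h2 := dbar_mul_at (F := fun w => 1 - ψ w) (G := Nk z) (w := w)
        (h3.const_sub 1) (h1.restrictScalars ℝ)
      have h4 : dbar (fun w => 1 - ψ w) w = - dbar ψ w := by
        simp only [dbar]
        rw [fderiv_const_sub]
        simp only [neg_apply]
        ring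
      rw [hΦ, h2, h4, dbar_holo h1]
      ring
  have hdbn : ∀ w ∈ (ball (0:ℂ) 1), ‖dbar Φ w‖ ≤ Y z * (256 * MT / R ^ 3) := by
    intro w hw
    rw [hdb w hw, norm_neg, norm_mul, Nk_norm hzD]
    rcases lt_or_ge ‖w - z₀‖ (R / 4) with hlt | hge
    · rw [hψ, dbar_eta_in hR4 hlt, norm_zero, zero_mul]
      positivity
    · calc ‖dbar ψ w‖ * (Y z * K z w) ≤ MT / (R / 4) * (Y z * (64 / R ^ 2)) := by
            have := K_nonneg z w
            gcongr
            · exact norm_dbar_eta_le hR4 w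
            · exact hfar w hw hge
        _ = _ := by field_simp; ring
  have hΦd : ContDiffOn ℝ 1 Φ (ball (0:ℂ) 1) := by
    intro w hw
    rcases lt_or_ge ‖w - z₀‖ (R / 4) with hlt | hge
    · have h1 : Φ =ᶠ[𝓝 w] fun _ => 0 := by
        have : {w : ℂ | ‖w - z₀‖ < R / 4} ∈ 𝓝 w :=
          (isOpen_lt (by fun_prop) continuous_const).mem_nhds hlt
        filter_upwards [this] with v hv
        have hv' : ‖v - z₀‖ < R / 4 := hv
        simp only [hΦ]
        rw [hψ, eta_one hR4 hv'.le, sub_self, zero_mul]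
      exact (contDiffAt_const.congr_of_eventuallyEq h1).contDiffWithinAt
    · have hne : w ≠ z := by
        rintro rfl
        linarith
      have h2 : ContDiffAt ℝ 1 (fun w => 1 - ψ w) w :=
        contDiffAt_const.sub (eta_contDiff z₀ (R / 4) (n := 1)).contDiffAt
      exact (h2.mul (Nk_contDiffAt hzD hw hne)).contDiffWithinAt
  have hφi : IntegrableOn φ (ball (0:ℂ) 1) := h.phi
  have hVi := V_int h hG4
  have hcm : Measurable (cv φ) := cv_meas h.phm
  have h1 : IntegrableOn (fun w => φ w * Φ w) (ball (0:ℂ) 1) := by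
    refine Integrable.mono' (hφi.norm.const_mul (64 / R ^ 2))
      (h.phm.mul hΦm).aestronglyMeasurable ?_
    refine (ae_restrict_iff' measurableSet_ball).2 (Eventually.of_forall fun w hw => ?_)
    rw [norm_mul, mul_comm]
    exact mul_le_mul_of_nonneg_right (hΦb w hw) (norm_nonneg _)
  have hdm : AEStronglyMeasurable (dbar Φ) (volume.restrict (ball (0:ℂ) 1)) := by
    have h2 : AEStronglyMeasurable (fun w => -(dbar ψ w * Nk z w)) (volume.restrict (ball (0:ℂ) 1)) :=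
      (((continuous_dbar (eta_contDiff z₀ (R / 4) (n := 1))).measurable.mul
        (Nk_meas z)).neg).aestronglyMeasurable
    refine h2.congr ?_
    refine (ae_restrict_iff' measurableSet_ball).2 (Eventually.of_forall fun w hw => ?_)
    exact (hdb w hw).symm
  have h2 : IntegrableOn (fun w => cv φ w * dbar Φ w) (ball (0:ℂ) 1) := by
    refine Integrable.mono' (hVi.norm.const_mul (Y z * (256 * MT / R ^ 3)))
      (hcm.aestronglyMeasurable.mul hdm) ?_
    refine (ae_restrict_iff' measurableSet_ball).2 (Eventually.of_forall fun w hw => ?_)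
    have hYw := Y_pos hw
    rw [norm_mul, mul_comm, norm_div, Complex.norm_real, Real.norm_eq_abs, abs_of_pos hYw]
    have h3 : ‖cv φ w‖ ≤ ‖cv φ w‖ / Y w := by
      rw [le_div_iff₀ hYw]
      exact mul_le_of_le_one_right (norm_nonneg _) (Y_le_one w)
    exact mul_le_mul (hdbn w hw) h3 (norm_nonneg _) (by positivity)
  have h3 : IntegrableOn (fun w => cv φ w / Y w * Φ w) (ball (0:ℂ) 1) := by
    refine Integrable.mono' (hVi.norm.const_mul (64 / R ^ 2))
      (hVi.aestronglyMeasurable.mul hΦm.aestronglyMeasurable) ?_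
    refine (ae_restrict_iff' measurableSet_ball).2 (Eventually.of_forall fun w hw => ?_)
    rw [norm_mul, mul_comm]
    exact mul_le_mul_of_nonneg_right (hΦb w hw) (norm_nonneg _)
  have hw2 := weak2 hφi h.orth hΦd h1 h2 h3
  have hi2 : IntegrableOn (fun w => φ w * (ψ w * Nk z w)) (ball (0:ℂ) 1) := by
    refine (hi.sub h1).congr (Eventually.of_forall fun w => ?_)
    simp only [Pi.sub_apply, hΦ]; ring
  have hsplit : ∫ w in (ball (0:ℂ) 1), φ w * Nk z w =
      (∫ w in (ball (0:ℂ) 1), φ w * (ψ w * Nk z w)) - ∫ w in (ball (0:ℂ) 1), cv φ w * dbar Φ w := by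
    rw [sub_eq_add_neg, ← hw2, ← integral_add hi2 h1]
    congr 1; ext w
    simp only [hΦ]; ring
  have hcv : cv φ z = (Real.pi : ℂ)⁻¹ * ((∫ w in (ball (0:ℂ) 1), φ w * (ψ w * Nk z w)) -
      ∫ w in (ball (0:ℂ) 1), cv φ w * dbar Φ w) := by
    rw [← hsplit]; rfl
  have hA : ∫⁻ w in (ball (0:ℂ) 1), ‖φ w * (ψ w * Nk z w)‖ₑ ≤
      ENNReal.ofReal (Y z) * ∫⁻ w in S z₀ (R / 2), ENNReal.ofReal (K z w) * ‖φ w‖ₑ := by
    rw [← lintegral_const_mul' _ _ ENNReal.ofReal_ne_top, lint_S]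
    refine lintegral_mono fun w => ?_
    by_cases hw : w ∈ ball z₀ (R / 2)
    · rw [indicator_of_mem hw]
      have e : φ w * (ψ w * Nk z w) = (ψ w * φ w) * ((Y z : ℂ) / ((z - w) * (1 - conj z * w))) := by
        unfold Nk; ring
      rw [e, ker_enorm hzD]
      gcongr
      rw [enorm_mul]
      have : ‖ψ w‖ₑ ≤ 1 := by
        rw [← ofReal_norm, ← ENNReal.ofReal_one]
        exact ENNReal.ofReal_le_ofReal (norm_eta_le _ _ _)
      calc ‖ψ w‖ₑ * ‖φ w‖ₑ ≤ 1 * ‖φ w‖ₑ := by gcongr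
        _ = _ := one_mul _
    · have hw' : 2 * (R / 4) ≤ ‖w - z₀‖ := by
        rw [mem_ball, dist_eq_norm, not_lt] at hw
        linarith
      rw [indicator_of_notMem hw, hψ, eta_zero hR4 hw', zero_mul, mul_zero]
      simp
  have hB : ∫⁻ w in (ball (0:ℂ) 1), ‖cv φ w * dbar Φ w‖ₑ ≤
      ENNReal.ofReal (Y z) * (ENNReal.ofReal (768 * MT / R ^ 2) * ∫⁻ w in S z₀ R, Vf φ w) := by
    rw [← lintegral_const_mul' _ _ ENNReal.ofReal_ne_top,
      ← lintegral_const_mul' _ _ ENNReal.ofReal_ne_top, lint_S]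
    refine setLIntegral_mono' (measurableSet_ball : MeasurableSet (ball (0:ℂ) 1)) fun w hwD => ?_
    have hYw := Y_pos hwD
    by_cases hw : w ∈ ball z₀ R
    · rw [indicator_of_mem hw]
      unfold Vf
      rw [← ENNReal.ofReal_mul (by positivity), ← ENNReal.ofReal_mul (by positivity), ← ofReal_norm]
      apply ENNReal.ofReal_le_ofReal
      rw [norm_mul]
      rcases lt_or_ge (2 * (R / 4)) ‖w - z₀‖ with hlt | hge
      · rw [hdb w hwD, hψ, dbar_eta_out hR4 hlt, zero_mul, neg_zero, norm_zero, mul_zero]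
        positivity
      · have hYw3 : Y w ≤ 3 * R := by
          have := Y_lip' hwD hz₀
          linarith
        have h5 : ‖cv φ w‖ = Y w * (‖cv φ w‖ / Y w) := by field_simp
        rw [h5]
        calc Y w * (‖cv φ w‖ / Y w) * ‖dbar Φ w‖
            ≤ (3 * R) * (‖cv φ w‖ / Y w) * (Y z * (256 * MT / R ^ 3)) := by
              gcongr
              exact hdbn w hwD
          _ = Y z * (768 * MT / R ^ 2 * (‖cv φ w‖ / Y w)) := by field_simp; ring
          _ = _ := by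
              have h6 : Y w * (‖cv φ w‖ / Y w) / Y w = ‖cv φ w‖ / Y w := by field_simp
              rw [h6]
    · have hw' : 2 * (R / 4) < ‖w - z₀‖ := by
        rw [mem_ball, dist_eq_norm, not_lt] at hw
        linarith
      rw [indicator_of_notMem hw, hdb w hwD, hψ, dbar_eta_out hR4 hw', zero_mul, neg_zero,
        mul_zero]
      simp
  calc Vf φ z = ENNReal.ofReal (Y z)⁻¹ * ‖cv φ z‖ₑ := Vf_eq hzD
    _ ≤ ENNReal.ofReal (Y z)⁻¹ * (1 * ((∫⁻ w in (ball (0:ℂ) 1), ‖φ w * (ψ w * Nk z w)‖ₑ) +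
          ∫⁻ w in (ball (0:ℂ) 1), ‖cv φ w * dbar Φ w‖ₑ)) := by
        rw [hcv, enorm_mul]
        gcongr
        · exact pi_inv_le
        · refine (enorm_sub_le).trans ?_
          gcongr
          · exact enorm_integral_le_lintegral_enorm _
          · exact enorm_integral_le_lintegral_enorm _
    _ ≤ ENNReal.ofReal (Y z)⁻¹ * (1 * (ENNReal.ofReal (Y z) *
          (∫⁻ w in S z₀ (R / 2), ENNReal.ofReal (K z w) * ‖φ w‖ₑ) +
          ENNReal.ofReal (Y z) *
            (ENNReal.ofReal (768 * MT / R ^ 2) * ∫⁻ w in S z₀ R, Vf φ w))) := by gcongr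
    _ = (ENNReal.ofReal (Y z)⁻¹ * ENNReal.ofReal (Y z)) *
          ((∫⁻ w in S z₀ (R / 2), ENNReal.ofReal (K z w) * ‖φ w‖ₑ) +
            ENNReal.ofReal (768 * MT / R ^ 2) * ∫⁻ w in S z₀ R, Vf φ w) := by ring
    _ = _ := by rw [Yinv_mul hzD, one_mul]

lemma vol_S_le (z₀ : ℂ) {ρ : ℝ} (hρ : 0 ≤ ρ) :
    volume (S z₀ ρ) ≤ ENNReal.ofReal (Real.pi * ρ ^ 2) := by
  refine (measure_mono inter_subset_left).trans (le_of_eq ?_)
  rw [Complex.volume_ball, mul_comm, ENNReal.ofReal_mul Real.pi_pos.le, ENNReal.ofReal_pow hρ]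
  congr 1
  rw [← NNReal.coe_real_pi, ENNReal.ofReal_coe_nnreal]

end L2h

open L2h in
theorem m_LE (h1 : LE1) (h3 : G3) (h4 : G4) : LE := by
  intro p q ε hpq hε hε1
  obtain ⟨C₁, hC₁, hL⟩ := h1 p q ε hpq hε hε1
  have hq1 : 1 < q := hpq.symm.lt
  have hq0 : 0 < q := by linarith
  have hMT := MT_pos
  have hpi := Real.pi_pos
  have hεq0 : 0 < ε / q := by positivity
  have hεq1 : ε / q < 1 := by rw [div_lt_one hq0]; linarith
  obtain ⟨C₃, hC₃, hG⟩ := h3 (ε / q) hεq0 hεq1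
  set C₂ : ℝ := 768 * MT with hC₂
  have hC₂0 : 0 < C₂ := by positivity
  refine ⟨C₁ + 2 ^ (q - 1) * (C₁ * C₃ ^ q + C₂ ^ q * Real.pi ^ (q - 1) * 3 ^ ε), by positivity, ?_⟩
  intro κ F h z₀ hz₀ R hR hR2 hY₀ hκ a ha
  set I : ℝ≥0∞ := ∫⁻ w in S z₀ (6 * R), Gf p q κ F w with hI
  have haD : a ∈ (ball (0:ℂ) 1) := ha.2
  have hYa := Y_pos haD
  have hYa3 : Y a ≤ 3 * R := by
    have h5 := Y_lip' haD hz₀
    have h6 : ‖a - z₀‖ < R / 8 := by have := ha.1; rwa [mem_ball, dist_eq_norm] at this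
    linarith
  have hp1 : ‖F a‖ₑ ^ p ≤ ENNReal.ofReal (C₁ * (R / Y a) ^ ε / R ^ 2) * I :=
    hL κ F h z₀ hz₀ R hR hR2 hY₀ hκ a (S_mono z₀ (by linarith) ha)
  have hv := vest h h4 hR hz₀ hY₀ ha
  rw [← hC₂] at hv
  set T1 : ℝ≥0∞ := ∫⁻ w in S z₀ (R / 2), ENNReal.ofReal (K a w) * ‖ph p κ F w‖ₑ with hT1
  set T2 : ℝ≥0∞ := ENNReal.ofReal (C₂ / R ^ 2) * ∫⁻ w in S z₀ R, Vf (ph p κ F) w with hT2
  have hT1q : T1 ^ q ≤ ENNReal.ofReal (C₁ * C₃ ^ q * (R / Y a) ^ ε / R ^ 2) * I := by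
    set L1 : ℝ≥0∞ := ENNReal.ofReal (C₁ * R ^ ε / R ^ 2) * I with hL1
    have hpt : ∀ w ∈ S z₀ (R / 2), ‖ph p κ F w‖ₑ ≤
        L1 ^ (1 / q) * ENNReal.ofReal (Y w ^ (-(ε / q))) := by
      intro w hw
      have hwD : w ∈ (ball (0:ℂ) 1) := hw.2
      have hYw := Y_pos hwD
      have h5 := hL κ F h z₀ hz₀ R hR hR2 hY₀ hκ w hw
      have h6 : ‖ph p κ F w‖ₑ ^ q = ‖F w‖ₑ ^ p := by
        have h7 : κ w = 0 := hκ w (S_mono z₀ (by linarith) hw)
        rw [enorm_rpow_eq hq0.le, enorm_rpow_eq hpq.nonneg]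
        congr 1
        unfold ph
        rw [h7, sub_zero, RCLike.norm_conj, norm_A_rpow hpq]
      calc ‖ph p κ F w‖ₑ = (‖ph p κ F w‖ₑ ^ q) ^ (1 / q) := by
            rw [← ENNReal.rpow_mul, mul_one_div_cancel hq0.ne', ENNReal.rpow_one]
        _ ≤ (ENNReal.ofReal (C₁ * (R / Y w) ^ ε / R ^ 2) * I) ^ (1 / q) := by
            rw [h6]
            exact ENNReal.rpow_le_rpow h5 (by positivity)
        _ = (L1 * ENNReal.ofReal (Y w ^ (-ε))) ^ (1 / q) := by
            congr 1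
            rw [hL1, mul_right_comm, ← ENNReal.ofReal_mul (by positivity)]
            congr 2
            rw [Real.div_rpow hR.le hYw.le, Real.rpow_neg hYw.le]
            field_simp
        _ = L1 ^ (1 / q) * ENNReal.ofReal (Y w ^ (-(ε / q))) := by
            rw [ENNReal.mul_rpow_of_nonneg _ _ (by positivity),
              ENNReal.ofReal_rpow_of_pos (by positivity), ← Real.rpow_mul hYw.le]
            congr 3
            ring
    have hT1' : T1 ≤ L1 ^ (1 / q) * ENNReal.ofReal (C₃ * Y a ^ (-(ε / q))) := by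
      calc T1 ≤ ∫⁻ w in S z₀ (R / 2), L1 ^ (1 / q) * ENNReal.ofReal (K a w * Y w ^ (-(ε / q))) := by
            refine setLIntegral_mono' (S_meas _ _) fun w hw => ?_
            rw [ENNReal.ofReal_mul (K_nonneg _ _)]
            calc ENNReal.ofReal (K a w) * ‖ph p κ F w‖ₑ ≤ ENNReal.ofReal (K a w) *
                  (L1 ^ (1 / q) * ENNReal.ofReal (Y w ^ (-(ε / q)))) := by
                  gcongr
                  exact hpt w hw
              _ = _ := by ring
        _ ≤ ∫⁻ w in (ball (0:ℂ) 1), L1 ^ (1 / q) * ENNReal.ofReal (K a w * Y w ^ (-(ε / q))) :=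
            lintegral_mono_set (S_sub _ _)
        _ = L1 ^ (1 / q) * ∫⁻ w in (ball (0:ℂ) 1), ENNReal.ofReal (K a w * Y w ^ (-(ε / q))) := by
            rw [lintegral_const_mul]
            exact ((K_meas' a).mul (continuous_Y.measurable.pow_const _)).ennreal_ofReal
        _ ≤ _ := by
            gcongr
            exact hG a haD
    calc T1 ^ q ≤ (L1 ^ (1 / q) * ENNReal.ofReal (C₃ * Y a ^ (-(ε / q)))) ^ q :=
          ENNReal.rpow_le_rpow hT1' hq0.le
      _ = L1 * ENNReal.ofReal (C₃ ^ q * Y a ^ (-ε)) := by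
          rw [ENNReal.mul_rpow_of_nonneg _ _ hq0.le, ← ENNReal.rpow_mul, one_div_mul_cancel hq0.ne',
            ENNReal.rpow_one, ENNReal.ofReal_rpow_of_pos (by positivity),
            Real.mul_rpow hC₃.le (by positivity), ← Real.rpow_mul hYa.le]
          congr 4
          field_simp
      _ = _ := by
          rw [hL1, mul_right_comm, ← ENNReal.ofReal_mul (by positivity)]
          congr 2
          rw [Real.div_rpow hR.le hYa.le, Real.rpow_neg hYa.le]
          field_simp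
  have hT2q : T2 ^ q ≤ ENNReal.ofReal (C₂ ^ q * Real.pi ^ (q - 1) * 3 ^ ε * (R / Y a) ^ ε / R ^ 2) *
      I := by
    have hj := jensen_lint (μ := volume.restrict (S z₀ R)) hq1 (Vf_meas h.phm).aemeasurable
    rw [Measure.restrict_apply_univ] at hj
    have hVI : ∫⁻ w in S z₀ R, Vf (ph p κ F) w ^ q ≤ I := by
      calc ∫⁻ w in S z₀ R, Vf (ph p κ F) w ^ q ≤ ∫⁻ w in S z₀ R, Gf p q κ F w :=
            lintegral_mono fun w => le_add_self
        _ ≤ I := lintegral_mono_set (S_mono z₀ (by linarith))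
    calc T2 ^ q = ENNReal.ofReal (C₂ / R ^ 2) ^ q * (∫⁻ w in S z₀ R, Vf (ph p κ F) w) ^ q := by
          rw [hT2, ENNReal.mul_rpow_of_nonneg _ _ hq0.le]
      _ ≤ ENNReal.ofReal (C₂ / R ^ 2) ^ q * (ENNReal.ofReal (Real.pi * R ^ 2) ^ (q - 1) * I) := by
          gcongr
          refine hj.trans ?_
          gcongr
          exact vol_S_le z₀ hR.le
      _ = ENNReal.ofReal (C₂ ^ q * Real.pi ^ (q - 1) / R ^ 2) * I := by
          rw [← mul_assoc, ENNReal.ofReal_rpow_of_pos (by positivity),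
            ENNReal.ofReal_rpow_of_pos (by positivity), ← ENNReal.ofReal_mul (by positivity)]
          congr 2
          rw [Real.div_rpow hC₂0.le (by positivity), Real.mul_rpow hpi.le (by positivity),
            Real.rpow_sub_one (by positivity : (R ^ 2 : ℝ) ≠ 0)]
          have : (R ^ 2) ^ q ≠ 0 := (Real.rpow_pos_of_pos (by positivity) q).ne'
          field_simp
      _ ≤ _ := by
          gcongr ENNReal.ofReal ?_ * I
          have h5 : 1 ≤ 3 ^ ε * (R / Y a) ^ ε := by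
            rw [← Real.mul_rpow (by norm_num) (by positivity)]
            apply Real.one_le_rpow _ hε.le
            rw [mul_div_assoc', le_div_iff₀ hYa]
            linarith
          have h6 : 0 < C₂ ^ q * Real.pi ^ (q - 1) := by positivity
          rw [div_le_div_iff_of_pos_right (by positivity)]
          nlinarith
  have hVq : Vf (ph p κ F) a ^ q ≤ ENNReal.ofReal (2 ^ (q - 1)) *
      (ENNReal.ofReal (C₁ * C₃ ^ q * (R / Y a) ^ ε / R ^ 2) * I +
        ENNReal.ofReal (C₂ ^ q * Real.pi ^ (q - 1) * 3 ^ ε * (R / Y a) ^ ε / R ^ 2) * I) := by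
    calc Vf (ph p κ F) a ^ q ≤ (T1 + T2) ^ q := ENNReal.rpow_le_rpow hv hq0.le
      _ ≤ 2 ^ (q - 1) * (T1 ^ q + T2 ^ q) := ENNReal.rpow_add_le_mul_rpow_add_rpow _ _ hq1.le
      _ ≤ _ := by
          have : (2 : ℝ≥0∞) ^ (q - 1) = ENNReal.ofReal (2 ^ (q - 1)) := by
            rw [← ENNReal.ofReal_rpow_of_pos (by norm_num)]
            norm_num
          rw [this]
          gcongr
  calc Gf p q κ F a = ‖F a‖ₑ ^ p + Vf (ph p κ F) a ^ q := rfl
    _ ≤ ENNReal.ofReal (C₁ * (R / Y a) ^ ε / R ^ 2) * I + ENNReal.ofReal (2 ^ (q - 1)) *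
      (ENNReal.ofReal (C₁ * C₃ ^ q * (R / Y a) ^ ε / R ^ 2) * I +
        ENNReal.ofReal (C₂ ^ q * Real.pi ^ (q - 1) * 3 ^ ε * (R / Y a) ^ ε / R ^ 2) * I) := by
        gcongr
    _ = _ := by
        rw [← add_mul, ← ENNReal.ofReal_add (by positivity) (by positivity), ← mul_assoc,
          ← ENNReal.ofReal_mul (by positivity), ← add_mul,
          ← ENNReal.ofReal_add (by positivity) (by positivity)]
        congr 2
        ring

end Pool.Agent.L0h83.BR
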