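import Pool.Agent.L0h83.BR.Stm
import Pool.Agent.L0h83.BR.E1

/-! Pointwise inequalities `P1`..`P5` for `A p a = |a|^(p-2) a` on `ℂ`. -/

set_option autoImplicit false

namespace Pool.Agent.L0h83.BR

open Complex Metric Set Filter Topology MeasureTheory ComplexConjugate
open scoped ENNReal NNReal

namespace M1

lemma dens_nonneg (p : ℝ) (a b : ℂ) : 0 ≤ dens p a b := by
  unfold dens; positivity

lemma dens_comm (p : ℝ) (a b : ℂ) : dens p a b = dens p b a := by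
  unfold dens; rw [add_comm ‖a‖, norm_sub_rev]

lemma le_T (a b : ℂ) : ‖a - b‖ ≤ ‖a‖ + ‖b‖ := norm_sub_le a b

lemma T_le (a b : ℂ) : ‖a‖ + ‖b‖ ≤ 2 * ‖a‖ + ‖a - b‖ := by
  have h : ‖b‖ ≤ ‖a‖ + ‖a - b‖ := by
    have := norm_sub_norm_le b a
    rw [norm_sub_rev] at this
    linarith
  linarith

lemma big {p δ : ℝ} (hp : 1 < p) (hδ : 0 < δ) {a b : ℂ} (h : δ * (‖a‖ + ‖b‖) ≤ ‖a - b‖) :
    (‖a‖ + ‖b‖) ^ p ≤ δ⁻¹ ^ 2 * dens p a b := by
  set T := ‖a‖ + ‖b‖ with hT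
  have hT0 : 0 ≤ T := by positivity
  rcases eq_or_lt_of_le hT0 with h0 | h0
  · rw [← h0, Real.zero_rpow (by linarith)]
    have := dens_nonneg p a b
    positivity
  · have e : T ^ p = T ^ (p - 2) * T ^ 2 := by
      rw [← Real.rpow_natCast T 2, ← Real.rpow_add h0]
      congr 1
      push_cast; ring
    unfold dens
    rw [e, ← hT]
    have h1 : T ≤ δ⁻¹ * ‖a - b‖ := by
      rw [inv_mul_eq_div, le_div_iff₀ hδ, mul_comm]
      exact h
    have h2 : T ^ 2 ≤ (δ⁻¹ * ‖a - b‖) ^ 2 := pow_le_pow_left₀ hT0 h1 2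
    calc T ^ (p - 2) * T ^ 2 ≤ T ^ (p - 2) * (δ⁻¹ * ‖a - b‖) ^ 2 :=
          mul_le_mul_of_nonneg_left h2 (by positivity)
      _ = _ := by ring

lemma small {p : ℝ} (hp : 1 < p) {a b : ℂ} (h : ‖a - b‖ ≤ 1 / 2 * (‖a‖ + ‖b‖)) :
    (‖a‖ + ‖b‖) ^ p ≤ 4 ^ p * ‖a‖ ^ p := by
  have h1 := T_le a b
  have h2 : ‖a‖ + ‖b‖ ≤ 4 * ‖a‖ := by linarith
  rw [← Real.mul_rpow (by norm_num) (norm_nonneg _)]
  exact Real.rpow_le_rpow (by positivity) h2 (by linarith)

lemma four_le {p : ℝ} (hp : 1 < p) : (4:ℝ) ≤ 4 ^ p := by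
  calc (4:ℝ) = 4 ^ (1:ℝ) := (Real.rpow_one _).symm
    _ ≤ 4 ^ p := Real.rpow_le_rpow_of_exponent_le (by norm_num) hp.le

lemma X_le {p : ℝ} (hp : 1 < p) (a b : ℂ) :
    (‖a‖ + ‖b‖) ^ p ≤ 4 ^ p * (‖a‖ ^ p + dens p a b) := by
  have hd := dens_nonneg p a b
  have h4 := four_le hp
  have ha : 0 ≤ ‖a‖ ^ p := by positivity
  rcases le_total (1 / 2 * (‖a‖ + ‖b‖)) ‖a - b‖ with h | h
  · have h1 := big hp (by norm_num) h
    have h2 : ((1 / 2 : ℝ)⁻¹ ^ 2) = 4 := by norm_num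
    rw [h2] at h1
    nlinarith
  · have h1 := small hp h
    nlinarith

end M1

open M1

theorem m_P5 : P5 := by
  intro p hp
  exact ⟨4 ^ p, by positivity, fun a b => X_le hp a b⟩

theorem m_P4 : P4 := by
  intro p hp η hη
  set δ : ℝ := min (1 / 2) (η ^ (1 / p) / 4) with hδ
  have hp0 : 0 < p := by linarith
  have hδ0 : 0 < δ := by
    apply lt_min (by norm_num)
    positivity
  refine ⟨δ⁻¹ ^ 2, by positivity, fun a b => ?_⟩
  have hd := dens_nonneg p a b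
  rcases le_total (δ * (‖a‖ + ‖b‖)) ‖a - b‖ with h | h
  · have h1 := big hp hδ0 h
    have h2 : ‖a - b‖ ^ p ≤ (‖a‖ + ‖b‖) ^ p :=
      Real.rpow_le_rpow (norm_nonneg _) (le_T a b) hp0.le
    have h3 : 0 ≤ η * ‖a‖ ^ p := by positivity
    linarith
  · have h1 : ‖a - b‖ ≤ 1 / 2 * (‖a‖ + ‖b‖) :=
      h.trans (mul_le_mul_of_nonneg_right (min_le_left _ _) (by positivity))
    have h2 := small hp h1
    have h3 : ‖a - b‖ ^ p ≤ (δ * (‖a‖ + ‖b‖)) ^ p := Real.rpow_le_rpow (norm_nonneg _) h hp0.le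
    rw [Real.mul_rpow hδ0.le (by positivity)] at h3
    have h4 : δ ^ p ≤ η / 4 ^ p := by
      calc δ ^ p ≤ (η ^ (1 / p) / 4) ^ p := Real.rpow_le_rpow hδ0.le (min_le_right _ _) hp0.le
        _ = η / 4 ^ p := by
          rw [Real.div_rpow (by positivity) (by norm_num), ← Real.rpow_mul hη.le,
            one_div_mul_cancel hp0.ne', Real.rpow_one]
    have h5 : δ ^ p * (‖a‖ + ‖b‖) ^ p ≤ η / 4 ^ p * (4 ^ p * ‖a‖ ^ p) :=
      mul_le_mul h4 h2 (by positivity) (by positivity)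
    have h6 : η / 4 ^ p * (4 ^ p * ‖a‖ ^ p) = η * ‖a‖ ^ p := by field_simp
    have h7 : 0 ≤ δ⁻¹ ^ 2 * dens p a b := by positivity
    linarith

theorem m_P3 : P3 := by
  intro p q hpq η hη
  have hp := hpq.lt
  have hp0 := hpq.pos
  have hq0 := hpq.symm.pos
  set ε : ℝ := η ^ (1 / p) / 4 with hε
  have hε0 : 0 < ε := by positivity
  have hεp : ε ^ p * 4 ^ p = η := by
    rw [hε, Real.div_rpow (by positivity) (by norm_num), ← Real.rpow_mul hη.le,
      one_div_mul_cancel hp0.ne', Real.rpow_one]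
    field_simp
  refine ⟨(ε⁻¹) ^ q, by positivity, fun a b k hk => ?_⟩
  have hd := dens_nonneg p a b
  have h1 : k * ‖a - b‖ ≤ (ε * (‖a‖ + ‖b‖)) * (ε⁻¹ * k) := by
    have : (ε * (‖a‖ + ‖b‖)) * (ε⁻¹ * k) = k * (‖a‖ + ‖b‖) := by field_simp
    rw [this]
    exact mul_le_mul_of_nonneg_left (le_T a b) hk
  have h2 := Real.young_inequality_of_nonneg (a := ε * (‖a‖ + ‖b‖)) (b := ε⁻¹ * k)
    (by positivity) (by positivity) hpq
  have h3 : (ε * (‖a‖ + ‖b‖)) ^ p / p ≤ (ε * (‖a‖ + ‖b‖)) ^ p :=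
    div_le_self (by positivity) hp.le
  have h4 : (ε⁻¹ * k) ^ q / q ≤ (ε⁻¹ * k) ^ q := div_le_self (by positivity) hpq.symm.lt.le
  rw [Real.mul_rpow hε0.le (by positivity)] at h3
  rw [Real.mul_rpow (by positivity) hk] at h4
  have h5 := X_le hp a b
  have h6 : ε ^ p * (‖a‖ + ‖b‖) ^ p ≤ ε ^ p * (4 ^ p * (‖a‖ ^ p + dens p a b)) :=
    mul_le_mul_of_nonneg_left h5 (by positivity)
  have h7 : ε ^ p * (4 ^ p * (‖a‖ ^ p + dens p a b)) = η * dens p a b + η * ‖a‖ ^ p := by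
    rw [← mul_assoc, hεp]; ring
  rw [Real.mul_rpow hε0.le (by positivity), Real.mul_rpow (by positivity) hk] at h2
  linarith


namespace M1

/-- the identity for the pairing -/
lemma pair_eq (p : ℝ) (a b : ℂ) :
    (conj (A p a - A p b) * (a - b)).re =
      1 / 2 * (‖a‖ ^ (p - 2) + ‖b‖ ^ (p - 2)) * ‖a - b‖ ^ 2 +
        1 / 2 * (‖a‖ ^ (p - 2) - ‖b‖ ^ (p - 2)) * (‖a‖ ^ 2 - ‖b‖ ^ 2) := by
  unfold A
  set u := ‖a‖ ^ (p - 2)
  set v := ‖b‖ ^ (p - 2)
  rw [← Complex.normSq_eq_norm_sq, ← Complex.normSq_eq_norm_sq, ← Complex.normSq_eq_norm_sq]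
  simp only [Complex.normSq_apply, Complex.mul_re, Complex.sub_re, Complex.sub_im,
    Complex.conj_re, Complex.conj_im, Complex.mul_im, Complex.ofReal_re, Complex.ofReal_im]
  ring

lemma pair_comm (p : ℝ) (a b : ℂ) :
    (conj (A p a - A p b) * (a - b)).re = (conj (A p b - A p a) * (b - a)).re := by
  have : conj (A p a - A p b) * (a - b) = conj (A p b - A p a) * (b - a) := by
    simp only [map_sub]; ring
  rw [this]

lemma P1_ge {p : ℝ} (hp : 2 ≤ p) (a b : ℂ) (h : ‖b‖ ≤ ‖a‖) :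
    1 / 2 * 2 ^ (2 - p) * dens p a b ≤ (conj (A p a - A p b) * (a - b)).re := by
  rw [pair_eq]
  have h1 : ‖b‖ ^ (p - 2) ≤ ‖a‖ ^ (p - 2) := Real.rpow_le_rpow (norm_nonneg _) h (by linarith)
  have h2 : ‖b‖ ^ 2 ≤ ‖a‖ ^ 2 := pow_le_pow_left₀ (norm_nonneg _) h 2
  have h3 : 0 ≤ 1 / 2 * (‖a‖ ^ (p - 2) - ‖b‖ ^ (p - 2)) * (‖a‖ ^ 2 - ‖b‖ ^ 2) := by
    apply mul_nonneg
    · linarith
    · linarith
  have h4 : (‖a‖ + ‖b‖) ^ (p - 2) ≤ 2 ^ (p - 2) * ‖a‖ ^ (p - 2) := by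
    rw [← Real.mul_rpow (by norm_num) (norm_nonneg _)]
    exact Real.rpow_le_rpow (by positivity) (by linarith) (by linarith)
  have h5 : (2:ℝ) ^ (2 - p) * 2 ^ (p - 2) = 1 := by
    rw [← Real.rpow_add (by norm_num)]
    have : 2 - p + (p - 2) = 0 := by ring
    rw [this, Real.rpow_zero]
  have h6 : 2 ^ (2 - p) * (‖a‖ + ‖b‖) ^ (p - 2) ≤ ‖a‖ ^ (p - 2) := by
    calc 2 ^ (2 - p) * (‖a‖ + ‖b‖) ^ (p - 2) ≤ 2 ^ (2 - p) * (2 ^ (p - 2) * ‖a‖ ^ (p - 2)) :=
          mul_le_mul_of_nonneg_left h4 (by positivity)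
      _ = ‖a‖ ^ (p - 2) := by rw [← mul_assoc, h5, one_mul]
  have h7 : 0 ≤ ‖b‖ ^ (p - 2) := by positivity
  unfold dens
  have h8 : 1 / 2 * 2 ^ (2 - p) * ((‖a‖ + ‖b‖) ^ (p - 2) * ‖a - b‖ ^ 2) =
      1 / 2 * (2 ^ (2 - p) * (‖a‖ + ‖b‖) ^ (p - 2)) * ‖a - b‖ ^ 2 := by ring
  rw [h8]
  have h9 : 1 / 2 * (2 ^ (2 - p) * (‖a‖ + ‖b‖) ^ (p - 2)) * ‖a - b‖ ^ 2 ≤
      1 / 2 * (‖a‖ ^ (p - 2) + ‖b‖ ^ (p - 2)) * ‖a - b‖ ^ 2 := by
    apply mul_le_mul_of_nonneg_right _ (by positivity)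
    linarith
  linarith

lemma rpow_tangent {p x y : ℝ} (hp : 1 < p) (hp2 : p < 2) (hx : 0 < x) (hy : 0 ≤ y) :
    y ^ (p - 1) ≤ x ^ (p - 1) + (p - 1) * x ^ (p - 2) * (y - x) := by
  have h1 : (1 + (y / x - 1)) ^ (p - 1) ≤ 1 + (p - 1) * (y / x - 1) :=
    _root_.rpow_one_add_le_one_add_mul_self (by
      have : 0 ≤ y / x := by positivity
      linarith) (by linarith) (by linarith)
  have h2 : 1 + (y / x - 1) = y / x := by ring
  rw [h2, Real.div_rpow hy hx.le, div_le_iff₀ (by positivity)] at h1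
  have h3 : x ^ (p - 1) = x ^ (p - 2) * x := by
    rw [← Real.rpow_add_one hx.ne']
    congr 1; ring
  have h4 : (1 + (p - 1) * (y / x - 1)) * x ^ (p - 1) =
      x ^ (p - 1) + (p - 1) * x ^ (p - 2) * (y - x) := by
    rw [h3]; field_simp
  linarith

lemma P1_lt {p : ℝ} (hp : 1 < p) (hp2 : p < 2) (a b : ℂ) (h : ‖b‖ ≤ ‖a‖) :
    (p - 1) / 2 * dens p a b ≤ (conj (A p a - A p b) * (a - b)).re := by
  rw [pair_eq]
  unfold dens
  set x := ‖a‖
  set y := ‖b‖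
  set d := ‖a - b‖
  have hx0 : 0 ≤ x := norm_nonneg _
  have hy0 : 0 ≤ y := norm_nonneg _
  have hd : x - y ≤ d := norm_sub_norm_le a b
  have hd0 : 0 ≤ d := norm_nonneg _
  rcases eq_or_lt_of_le hx0 with hx | hx
  · -- both vanish
    have hy : y = 0 := le_antisymm (by linarith) hy0
    have hdz : d = 0 := by
      have : d ≤ x + y := norm_sub_le a b
      linarith
    rw [hdz, hy, ← hx]
    simp
  · have hu : 0 < x ^ (p - 2) := by positivity
    have hT : (x + y) ^ (p - 2) ≤ x ^ (p - 2) :=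
      Real.rpow_le_rpow_of_nonpos hx (by linarith) (by linarith)
    have hT0 : 0 < (x + y) ^ (p - 2) := by positivity
    rcases eq_or_lt_of_le hy0 with hy | hy
    · rw [← hy, add_zero, Real.zero_rpow (by linarith)]
      have h1 : 0 ≤ x ^ (p - 2) * d ^ 2 := by positivity
      have h2 : 0 ≤ x ^ (p - 2) * x ^ 2 := by positivity
      nlinarith
    · have hxp : x ^ (p - 1) = x ^ (p - 2) * x := by
        rw [← Real.rpow_add_one hx.ne']; congr 1; ring
      have hyp : y ^ (p - 1) = y ^ (p - 2) * y := by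
        rw [← Real.rpow_add_one hy.ne']; congr 1; ring
      have h1 := rpow_tangent hp hp2 hx hy.le
      rw [hxp, hyp] at h1
      set u := x ^ (p - 2)
      set v := y ^ (p - 2)
      set w := (x + y) ^ (p - 2)
      have hv : 0 < v := by positivity
      have hdd : (x - y) ^ 2 ≤ d ^ 2 := pow_le_pow_left₀ (by linarith) hd 2
      -- reduce to d = x - y
      have k1 : 0 ≤ (1 / 2 * (u + v) - (p - 1) / 2 * w) * (d ^ 2 - (x - y) ^ 2) := by
        apply mul_nonneg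
        · nlinarith
        · linarith
      have k2 : (p - 1) * u * (x - y) * (x - y) ≤ (u * x - v * y) * (x - y) := by
        apply mul_le_mul_of_nonneg_right _ (by linarith)
        linarith
      have k3 : (p - 1) / 2 * w * (x - y) ^ 2 ≤ (p - 1) * u * (x - y) * (x - y) := by
        have : (p - 1) / 2 * w ≤ (p - 1) * u := by nlinarith
        nlinarith [sq_nonneg (x - y)]
      nlinarith

end M1

theorem m_P1 : P1 := by
  intro p hp
  rcases le_or_gt 2 p with h2 | h2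
  · refine ⟨1 / 2 * 2 ^ (2 - p), by positivity, fun a b => ?_⟩
    rcases le_total ‖b‖ ‖a‖ with h | h
    · exact P1_ge h2 a b h
    · rw [dens_comm, M1.pair_comm]
      exact P1_ge h2 b a h
  · refine ⟨(p - 1) / 2, by linarith, fun a b => ?_⟩
    rcases le_total ‖b‖ ‖a‖ with h | h
    · exact P1_lt hp h2 a b h
    · rw [dens_comm, M1.pair_comm]
      exact P1_lt hp h2 b a h

namespace M1

/-- `| |a|^(p-2) - |b|^(p-2) | |b| ≤ p |a|^(p-2) (|a| - |b|)` -/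
lemma diff_le {p x y : ℝ} (hp : 1 < p) (hx : 0 < x) (hy : 0 ≤ y) (h : y ≤ x) :
    |x ^ (p - 2) - y ^ (p - 2)| * y ≤ p * x ^ (p - 2) * (x - y) := by
  have hu : 0 < x ^ (p - 2) := by positivity
  rcases eq_or_lt_of_le hy with hy0 | hy0
  · rw [← hy0, mul_zero]
    have : 0 ≤ p * x ^ (p - 2) * (x - 0) := by
      rw [sub_zero]; positivity
    exact this
  rcases le_or_gt 2 p with h2 | h2
  · have h1 : y ^ (p - 2) ≤ x ^ (p - 2) := Real.rpow_le_rpow hy h (by linarith)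
    rw [abs_of_nonneg (by linarith)]
    -- t = y / x
    have ht0 : 0 < y / x := by positivity
    have ht1 : y / x ≤ 1 := by rw [div_le_one hx]; exact h
    have hv : y ^ (p - 2) = x ^ (p - 2) * (y / x) ^ (p - 2) := by
      rw [← Real.mul_rpow hx.le ht0.le]
      congr 1; field_simp
    have key : 1 - (y / x) ^ (p - 2) ≤ p * (1 - y / x) := by
      rcases le_or_gt 1 (p - 2) with h3 | h3
      · have h4 := one_add_mul_self_le_rpow_one_add (s := y / x - 1) (by linarith) h3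
        have h5 : 1 + (y / x - 1) = y / x := by ring
        rw [h5] at h4
        nlinarith
      · have h4 : (y / x) ^ (1:ℝ) ≤ (y / x) ^ (p - 2) :=
          Real.rpow_le_rpow_of_exponent_ge ht0 ht1 h3.le
        rw [Real.rpow_one] at h4
        nlinarith
    have hfin : (x ^ (p - 2) - y ^ (p - 2)) * y =
        x ^ (p - 2) * (1 - (y / x) ^ (p - 2)) * y := by rw [hv]; ring
    rw [hfin]
    have hz : 0 ≤ 1 - (y / x) ^ (p - 2) := by
      have : (y / x) ^ (p - 2) ≤ 1 := Real.rpow_le_one ht0.le ht1 (by linarith)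
      linarith
    calc x ^ (p - 2) * (1 - (y / x) ^ (p - 2)) * y
        ≤ x ^ (p - 2) * (1 - (y / x) ^ (p - 2)) * x :=
          mul_le_mul_of_nonneg_left h (by positivity)
      _ ≤ x ^ (p - 2) * (p * (1 - y / x)) * x := by
          apply mul_le_mul_of_nonneg_right _ hx.le
          exact mul_le_mul_of_nonneg_left key hu.le
      _ = p * x ^ (p - 2) * (x - y) := by field_simp
  · have h1 : x ^ (p - 2) ≤ y ^ (p - 2) :=
      Real.rpow_le_rpow_of_nonpos hy0 h (by linarith)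
    rw [abs_of_nonpos (by linarith)]
    have h3 : y ^ (p - 1) ≤ x ^ (p - 1) := Real.rpow_le_rpow hy h (by linarith)
    have hxp : x ^ (p - 1) = x ^ (p - 2) * x := by
      rw [← Real.rpow_add_one hx.ne']; congr 1; ring
    have hyp : y ^ (p - 1) = y ^ (p - 2) * y := by
      rw [← Real.rpow_add_one hy0.ne']; congr 1; ring
    rw [hxp, hyp] at h3
    have h4 : 0 ≤ (p - 1) * x ^ (p - 2) * (x - y) := by
      apply mul_nonneg
      · apply mul_nonneg (by linarith) hu.le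
      · linarith
    nlinarith

lemma A_sub_le' {p : ℝ} (hp : 1 < p) (a b : ℂ) (h : ‖b‖ ≤ ‖a‖) :
    ‖A p a - A p b‖ ≤ 2 * (1 + p) * ((‖a‖ + ‖b‖) ^ (p - 2) * ‖a - b‖) := by
  rcases eq_or_ne a 0 with ha | ha
  · have hb : b = 0 := by
      rw [ha, norm_zero] at h
      exact norm_le_zero_iff.1 h
    rw [ha, hb]
    simp
  · have hx : 0 < ‖a‖ := norm_pos_iff.2 ha
    have hu : 0 < ‖a‖ ^ (p - 2) := by positivity
    have h1 := diff_le hp hx (norm_nonneg b) h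
    have e : A p a - A p b = ((‖a‖ ^ (p - 2) : ℝ) : ℂ) * (a - b) +
        ((‖a‖ ^ (p - 2) - ‖b‖ ^ (p - 2) : ℝ) : ℂ) * b := by
      unfold A; push_cast; ring
    have h2 : ‖A p a - A p b‖ ≤ ‖a‖ ^ (p - 2) * ‖a - b‖ +
        |‖a‖ ^ (p - 2) - ‖b‖ ^ (p - 2)| * ‖b‖ := by
      rw [e]
      refine (norm_add_le _ _).trans ?_
      rw [norm_mul, norm_mul, Complex.norm_real, Complex.norm_real, Real.norm_eq_abs,
        Real.norm_eq_abs, abs_of_pos hu]
    have hd : ‖a‖ - ‖b‖ ≤ ‖a - b‖ := norm_sub_norm_le a b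
    have h3 : p * ‖a‖ ^ (p - 2) * (‖a‖ - ‖b‖) ≤ p * ‖a‖ ^ (p - 2) * ‖a - b‖ :=
      mul_le_mul_of_nonneg_left hd (by positivity)
    have h4 : ‖a‖ ^ (p - 2) ≤ 2 * (‖a‖ + ‖b‖) ^ (p - 2) := by
      rcases le_or_gt 2 p with h2 | h2
      · have : ‖a‖ ^ (p - 2) ≤ (‖a‖ + ‖b‖) ^ (p - 2) :=
          Real.rpow_le_rpow (norm_nonneg _) (by linarith [norm_nonneg b]) (by linarith)
        have : 0 ≤ (‖a‖ + ‖b‖) ^ (p - 2) := by positivity
        linarith
      · have k1 : ‖a‖ ^ (p - 2) ≤ ((‖a‖ + ‖b‖) / 2) ^ (p - 2) :=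
          Real.rpow_le_rpow_of_nonpos (by positivity) (by linarith) (by linarith)
        rw [Real.div_rpow (by positivity) (by norm_num)] at k1
        have k2 : (1 / 2 : ℝ) ≤ 2 ^ (p - 2) := by
          calc (1 / 2 : ℝ) = 2 ^ (-1 : ℝ) := by
                rw [Real.rpow_neg_one]; norm_num
            _ ≤ 2 ^ (p - 2) := Real.rpow_le_rpow_of_exponent_le (by norm_num) (by linarith)
        refine k1.trans ?_
        rw [div_le_iff₀ (by positivity)]
        have : 0 ≤ (‖a‖ + ‖b‖) ^ (p - 2) := by positivity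
        nlinarith
    have hdn : 0 ≤ ‖a - b‖ := norm_nonneg _
    calc ‖A p a - A p b‖ ≤ (1 + p) * (‖a‖ ^ (p - 2) * ‖a - b‖) := by linarith
      _ ≤ (1 + p) * (2 * (‖a‖ + ‖b‖) ^ (p - 2) * ‖a - b‖) := by
          apply mul_le_mul_of_nonneg_left _ (by linarith)
          exact mul_le_mul_of_nonneg_right h4 hdn
      _ = _ := by ring

lemma A_sub_le {p : ℝ} (hp : 1 < p) (a b : ℂ) :
    ‖A p a - A p b‖ ≤ 2 * (1 + p) * ((‖a‖ + ‖b‖) ^ (p - 2) * ‖a - b‖) := by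
  rcases le_total ‖b‖ ‖a‖ with h | h
  · exact A_sub_le' hp a b h
  · rw [norm_sub_rev, norm_sub_rev a b, add_comm ‖a‖]
    exact A_sub_le' hp b a h

end M1

theorem m_P2 : P2 := by
  intro p q hpq
  have hp := hpq.lt
  have hp0 := hpq.pos
  have hq0 := hpq.symm.pos
  set c0 : ℝ := (2 * (1 + p)) ^ q with hc0
  have hc0p : 0 < c0 := by positivity
  set C1 : ℝ := 4 ^ p * c0 + 2 ^ q with hC1
  have hC1p : 0 < C1 := by positivity
  refine ⟨2 / q, c0 * C1 ^ (2 / q), by positivity, by positivity, fun η hη hη1 a b => ?_⟩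
  have hd := dens_nonneg p a b
  set T := ‖a‖ + ‖b‖ with hT
  have hT0 : 0 ≤ T := by positivity
  rcases eq_or_lt_of_le hT0 with h0 | h0
  · have ha : a = 0 := norm_le_zero_iff.1 (by linarith [norm_nonneg b])
    have hb : b = 0 := norm_le_zero_iff.1 (by linarith [norm_nonneg a])
    rw [ha, hb, sub_self, norm_zero, Real.zero_rpow hq0.ne']
    have := dens_nonneg p (0:ℂ) 0
    have h3 : (0:ℝ) ≤ (0:ℝ) ^ p := by positivity
    positivity
  set d := ‖a - b‖ with hdd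
  have hdT : d ≤ T := le_T a b
  have hd0 : 0 ≤ d := norm_nonneg _
  -- `‖A a - A b‖ ^ q ≤ c0 T ^ p (d / T) ^ q`
  have h1 : ‖A p a - A p b‖ ^ q ≤ c0 * (T ^ p * (d / T) ^ q) := by
    have k1 := Real.rpow_le_rpow (norm_nonneg _) (A_sub_le hp a b) hq0.le
    rw [Real.mul_rpow (by positivity) (by positivity)] at k1
    refine k1.trans (le_of_eq ?_)
    have k2 : T ^ (p - 2) * d = T ^ (p - 1) * (d / T) := by
      have : T ^ (p - 1) = T ^ (p - 2) * T := by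
        rw [← Real.rpow_add_one h0.ne']; congr 1; ring
      rw [this]; field_simp
    rw [← hT, ← hdd, k2, Real.mul_rpow (x := T ^ (p - 1)) (by positivity) (by positivity),
      ← Real.rpow_mul hT0]
    have k3 : (p - 1) * q = p := by
      have := hpq.mul_eq_add
      linarith
    rw [k3]
  have hr0 : 0 ≤ d / T := by positivity
  have hr1 : d / T ≤ 1 := by rw [div_le_one h0]; exact hdT
  set δ : ℝ := (η / C1) ^ (1 / q) with hδ
  have hδ0 : 0 < δ := by positivity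
  have hδq : δ ^ q = η / C1 := by
    rw [hδ, ← Real.rpow_mul (by positivity), one_div_mul_cancel hq0.ne', Real.rpow_one]
  rcases le_total (δ * T) d with h | h
  · have k1 := big hp hδ0 (a := a) (b := b) h
    rw [← hT] at k1
    have k2 : (d / T) ^ q ≤ 1 := Real.rpow_le_one hr0 hr1 hq0.le
    have k3 : δ⁻¹ ^ 2 = C1 ^ (2 / q) * η ^ (-(2 / q)) := by
      rw [hδ, ← Real.rpow_natCast, ← Real.rpow_neg_one, ← Real.rpow_mul (by positivity),
        ← Real.rpow_mul (by positivity)]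
      have e1 : 1 / q * (-1 * ((2 : ℕ) : ℝ)) = -(2 / q) := by push_cast; ring
      rw [e1, Real.div_rpow hη.le hC1p.le, Real.rpow_neg hC1p.le, div_inv_eq_mul, mul_comm]
    have k4 : T ^ p * (d / T) ^ q ≤ T ^ p := mul_le_of_le_one_right (by positivity) k2
    have k5 : 0 ≤ η * ‖a‖ ^ p := by positivity
    calc ‖A p a - A p b‖ ^ q ≤ c0 * (T ^ p * (d / T) ^ q) := h1
      _ ≤ c0 * (δ⁻¹ ^ 2 * dens p a b) := mul_le_mul_of_nonneg_left (k4.trans k1) hc0p.le
      _ = c0 * C1 ^ (2 / q) * η ^ (-(2 / q)) * dens p a b := by rw [k3]; ring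
      _ ≤ _ := by linarith
  · have hδ2 : δ ≤ 1 / 2 := by
      have e1 : η / C1 ≤ (1 / 2 : ℝ) ^ q := by
        rw [Real.div_rpow (by norm_num) (by norm_num), Real.one_rpow]
        apply div_le_div₀ (by norm_num) hη1 (by positivity)
        have : 0 < (4:ℝ) ^ p * c0 := by positivity
        linarith
      calc δ ≤ ((1 / 2 : ℝ) ^ q) ^ (1 / q) :=
            Real.rpow_le_rpow (by positivity) e1 (by positivity)
        _ = 1 / 2 := by
            rw [← Real.rpow_mul (by norm_num), mul_one_div_cancel hq0.ne', Real.rpow_one]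
    have k1 : ‖a - b‖ ≤ 1 / 2 * (‖a‖ + ‖b‖) := h.trans (mul_le_mul_of_nonneg_right hδ2 hT0)
    have k2 := small hp k1
    rw [← hT] at k2
    have k3 : d / T ≤ δ := by rw [div_le_iff₀ h0]; exact h
    have k4 : (d / T) ^ q ≤ η / C1 := by
      rw [← hδq]
      exact Real.rpow_le_rpow hr0 k3 hq0.le
    have k5 : T ^ p * (d / T) ^ q ≤ 4 ^ p * ‖a‖ ^ p * (η / C1) :=
      mul_le_mul k2 k4 (by positivity) (by positivity)
    have k6 : c0 * (4 ^ p * ‖a‖ ^ p * (η / C1)) ≤ η * ‖a‖ ^ p := by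
      have e1 : c0 * (4 ^ p * ‖a‖ ^ p * (η / C1)) = (4 ^ p * c0 / C1) * (η * ‖a‖ ^ p) := by ring
      rw [e1]
      apply mul_le_of_le_one_left (by positivity)
      rw [div_le_one hC1p]
      have : 0 < (2:ℝ) ^ q := by positivity
      linarith
    have k7 : 0 ≤ c0 * C1 ^ (2 / q) * η ^ (-(2 / q)) * dens p a b := by positivity
    calc ‖A p a - A p b‖ ^ q ≤ c0 * (T ^ p * (d / T) ^ q) := h1
      _ ≤ c0 * (4 ^ p * ‖a‖ ^ p * (η / C1)) := mul_le_mul_of_nonneg_left k5 hc0p.le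
      _ ≤ _ := by linarith

end Pool.Agent.L0h83.BR
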