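import Pool.Agent.L0h83.BR.Stm

/-!
# M2: integrals over the disc
-/

set_option autoImplicit false

namespace Pool.Agent.L0h83.BR

open Complex Metric Set Filter Topology MeasureTheory ComplexConjugate
open scoped ENNReal NNReal

namespace M2_

/-! ### G1 -/

lemma sec_bound (b t : ℝ) (hb : 1 / 2 ≤ b) (ht : 0 < t) :
    volume {y : ℝ | b - t < y ^ 2 ∧ y ^ 2 < b} ≤ ENNReal.ofReal (3 * t) := by
  have hsub : {y : ℝ | b - t < y ^ 2 ∧ y ^ 2 < b} ⊆
      Icc (Real.sqrt (b - t)) (Real.sqrt b) ∪ Icc (-Real.sqrt b) (-Real.sqrt (b - t)) := by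
    rintro y ⟨h1, h2⟩
    have h3 : Real.sqrt (b - t) ≤ |y| := by
      rw [← Real.sqrt_sq_eq_abs]
      exact Real.sqrt_le_sqrt h1.le
    have h4 : |y| ≤ Real.sqrt b := by
      rw [← Real.sqrt_sq_eq_abs]
      exact Real.sqrt_le_sqrt h2.le
    rcases le_total 0 y with hy | hy
    · left
      rw [abs_of_nonneg hy] at h3 h4
      exact ⟨h3, h4⟩
    · right
      rw [abs_of_nonpos hy] at h3 h4
      exact ⟨by linarith, by linarith⟩
  have hs : Real.sqrt b - Real.sqrt (b - t) ≤ 3 / 2 * t := by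
    have hb0 : 0 < Real.sqrt b := Real.sqrt_pos.2 (by linarith)
    have hsb : Real.sqrt b ^ 2 = b := Real.sq_sqrt (by linarith)
    have h2 : 0 ≤ Real.sqrt (b - t) := Real.sqrt_nonneg _
    have h3 : b - t ≤ Real.sqrt (b - t) ^ 2 := by
      rcases le_total 0 (b - t) with h | h
      · rw [Real.sq_sqrt h]
      · exact h.trans (sq_nonneg _)
    have h4 : 2 / 3 ≤ Real.sqrt b := by
      apply Real.le_sqrt_of_sq_le
      linarith
    have h5 : (Real.sqrt b - Real.sqrt (b - t)) * (Real.sqrt b + Real.sqrt (b - t)) ≤ t := by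
      nlinarith
    by_contra hcon
    push Not at hcon
    nlinarith
  calc volume {y : ℝ | b - t < y ^ 2 ∧ y ^ 2 < b}
      ≤ volume (Icc (Real.sqrt (b - t)) (Real.sqrt b) ∪ Icc (-Real.sqrt b) (-Real.sqrt (b - t))) :=
        measure_mono hsub
    _ ≤ volume (Icc (Real.sqrt (b - t)) (Real.sqrt b)) + volume (Icc (-Real.sqrt b) (-Real.sqrt (b - t))) :=
        measure_union_le _ _
    _ = ENNReal.ofReal (Real.sqrt b - Real.sqrt (b - t)) + ENNReal.ofReal (Real.sqrt b - Real.sqrt (b - t)) := by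
        rw [Real.volume_Icc, Real.volume_Icc]
        congr 2
        ring
    _ ≤ ENNReal.ofReal (3 / 2 * t) + ENNReal.ofReal (3 / 2 * t) := by
        gcongr
    _ = ENNReal.ofReal (3 * t) := by
        rw [← ENNReal.ofReal_add (by positivity) (by positivity)]
        congr 1
        ring

/-- the part of the set with `|re w|² ≤ 1/2` -/
def E1 (x0 ρ t : ℝ) : Set (ℝ × ℝ) :=
  {q | q.1 ^ 2 ≤ 1 / 2 ∧ |q.1 - x0| < ρ ∧ 1 - q.1 ^ 2 - t < q.2 ^ 2 ∧ q.2 ^ 2 < 1 - q.1 ^ 2}

lemma E1_meas (x0 ρ t : ℝ) : MeasurableSet (E1 x0 ρ t) := by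
  have a1 : MeasurableSet {q : ℝ × ℝ | q.1 ^ 2 ≤ 1 / 2} := measurableSet_le (by fun_prop) (by fun_prop)
  have a2 : MeasurableSet {q : ℝ × ℝ | |q.1 - x0| < ρ} := measurableSet_lt (by fun_prop) (by fun_prop)
  have a3 : MeasurableSet {q : ℝ × ℝ | 1 - q.1 ^ 2 - t < q.2 ^ 2} := measurableSet_lt (by fun_prop) (by fun_prop)
  have a4 : MeasurableSet {q : ℝ × ℝ | q.2 ^ 2 < 1 - q.1 ^ 2} := measurableSet_lt (by fun_prop) (by fun_prop)
  exact a1.inter (a2.inter (a3.inter a4))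

lemma E1_vol (x0 ρ t : ℝ) (_hρ : 0 < ρ) (ht : 0 < t) :
    volume (E1 x0 ρ t) ≤ ENNReal.ofReal (6 * ρ * t) := by
  rw [Measure.volume_eq_prod, Measure.prod_apply (E1_meas x0 ρ t)]
  have h1 : ∀ x : ℝ, volume (Prod.mk x ⁻¹' (E1 x0 ρ t)) ≤
      (Ioo (x0 - ρ) (x0 + ρ)).indicator (fun _ => ENNReal.ofReal (3 * t)) x := by
    intro x
    by_cases hx : x ∈ Ioo (x0 - ρ) (x0 + ρ)
    · rw [Set.indicator_of_mem hx]
      by_cases hx2 : x ^ 2 ≤ 1 / 2
      · refine le_trans (measure_mono ?_) (sec_bound (1 - x ^ 2) t (by linarith) ht)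
        rintro y ⟨_, _, h3, h4⟩
        exact ⟨h3, h4⟩
      · have : Prod.mk x ⁻¹' (E1 x0 ρ t) = ∅ := by
          ext y
          simp only [mem_preimage, mem_empty_iff_false, iff_false]
          rintro ⟨h, _⟩
          exact hx2 h
        rw [this]
        simp
    · rw [Set.indicator_of_notMem hx]
      have : Prod.mk x ⁻¹' (E1 x0 ρ t) = ∅ := by
        ext y
        simp only [mem_preimage, mem_empty_iff_false, iff_false]
        rintro ⟨_, h, _⟩
        apply hx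
        rw [abs_lt] at h
        simp only at h
        exact ⟨by linarith, by linarith⟩
      rw [this]
      simp
  calc ∫⁻ x, volume (Prod.mk x ⁻¹' (E1 x0 ρ t)) ≤
        ∫⁻ x, (Ioo (x0 - ρ) (x0 + ρ)).indicator (fun _ => ENNReal.ofReal (3 * t)) x := lintegral_mono h1
    _ = ENNReal.ofReal (3 * t) * ENNReal.ofReal (2 * ρ) := by
        rw [lintegral_indicator measurableSet_Ioo, setLIntegral_const, Real.volume_Ioo]
        congr 2
        ring
    _ = ENNReal.ofReal (6 * ρ * t) := by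
        rw [← ENNReal.ofReal_mul (by positivity)]
        congr 1
        ring

end M2_

open M2_ in
theorem m_G1 : G1 := by
  refine ⟨12, by norm_num, fun z ρ t hρ ht => ?_⟩
  set E : Set ℂ := {w : ℂ | w ∈ ball (0:ℂ) 1 ∧ w ∈ ball z ρ ∧ Y w < t} with hE
  have hsub : E ⊆ (Complex.measurableEquivRealProd ⁻¹' (E1 z.re ρ t)) ∪
      (Complex.measurableEquivRealProd ⁻¹' (Prod.swap ⁻¹' (E1 z.im ρ t))) := by
    rintro w ⟨h1, h2, h3⟩
    rw [mem_ball_zero_iff] at h1
    rw [mem_ball, dist_eq_norm] at h2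
    have hn : ‖w‖ ^ 2 = w.re ^ 2 + w.im ^ 2 := by
      rw [← Complex.normSq_eq_norm_sq, Complex.normSq_apply]
      ring
    have h4 : w.re ^ 2 + w.im ^ 2 < 1 := by
      rw [← hn]
      have := norm_nonneg w
      nlinarith
    have h5 : 1 - t < w.re ^ 2 + w.im ^ 2 := by
      unfold Y at h3
      rw [hn] at h3
      linarith
    have h6 : |w.re - z.re| < ρ := lt_of_le_of_lt (by
      have := Complex.abs_re_le_norm (w - z)
      simpa using this) h2
    have h7 : |w.im - z.im| < ρ := lt_of_le_of_lt (by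
      have := Complex.abs_im_le_norm (w - z)
      simpa using this) h2
    by_cases hr : w.re ^ 2 ≤ 1 / 2
    · left
      exact ⟨hr, h6, by simp only [Complex.measurableEquivRealProd_apply]; linarith,
        by simp only [Complex.measurableEquivRealProd_apply]; linarith⟩
    · right
      refine ⟨?_, h7, ?_, ?_⟩
      · simp only [Complex.measurableEquivRealProd_apply, Prod.fst_swap]
        linarith
      · simp only [Complex.measurableEquivRealProd_apply, Prod.fst_swap, Prod.snd_swap]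
        linarith
      · simp only [Complex.measurableEquivRealProd_apply, Prod.fst_swap, Prod.snd_swap]
        linarith
  have hv1 : volume (Complex.measurableEquivRealProd ⁻¹' (E1 z.re ρ t)) = volume (E1 z.re ρ t) :=
    Complex.volume_preserving_equiv_real_prod.measure_preimage (E1_meas _ _ _).nullMeasurableSet
  have hv2 : volume (Complex.measurableEquivRealProd ⁻¹' (Prod.swap ⁻¹' (E1 z.im ρ t))) =
      volume (E1 z.im ρ t) := by
    rw [Complex.volume_preserving_equiv_real_prod.measure_preimage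
      (measurable_swap (E1_meas _ _ _)).nullMeasurableSet]
    have h : MeasurePreserving (Prod.swap : ℝ × ℝ → ℝ × ℝ) volume volume := by
      rw [Measure.volume_eq_prod]
      exact Measure.measurePreserving_swap
    exact h.measure_preimage (E1_meas _ _ _).nullMeasurableSet
  calc volume E ≤ _ := measure_mono hsub
    _ ≤ _ := measure_union_le _ _
    _ ≤ ENNReal.ofReal (6 * ρ * t) + ENNReal.ofReal (6 * ρ * t) := by
        rw [hv1, hv2]
        exact add_le_add (E1_vol _ _ _ hρ ht) (E1_vol _ _ _ hρ ht)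
    _ = ENNReal.ofReal (12 * ρ * t) := by
        rw [← ENNReal.ofReal_add (by positivity) (by positivity)]
        congr 1
        ring

namespace M2_

/-! ### dyadic sums -/

/-- sum of geometric bounds -/
lemma geo {A : ℕ → Set ℂ} {B : Set ℂ} {f : ℂ → ℝ≥0∞} {c r : ℝ} (hc : 0 ≤ c) (hr0 : 0 ≤ r) (hr1 : r < 1)
    (hB : B ⊆ ⋃ k, A k) (h : ∀ k, ∫⁻ w in A k, f w ≤ ENNReal.ofReal (c * r ^ k)) :
    ∫⁻ w in B, f w ≤ ENNReal.ofReal (c / (1 - r)) := by
  calc ∫⁻ w in B, f w ≤ ∫⁻ w in ⋃ k, A k, f w := lintegral_mono_set hB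
    _ ≤ ∑' k, ∫⁻ w in A k, f w := lintegral_iUnion_le _ _
    _ ≤ ∑' k, ENNReal.ofReal (c * r ^ k) := ENNReal.tsum_le_tsum h
    _ = ENNReal.ofReal (∑' k, c * r ^ k) := by
        rw [ENNReal.ofReal_tsum_of_nonneg (fun k => by positivity)
          ((summable_geometric_of_lt_one hr0 hr1).mul_left c)]
    _ = ENNReal.ofReal (c / (1 - r)) := by
        rw [tsum_mul_left, tsum_geometric_of_lt_one hr0 hr1, div_eq_mul_inv]

/-- bound on a set by sup times measure -/
lemma sup_bound {A : Set ℂ} (hA : MeasurableSet A) {f : ℂ → ℝ≥0∞} {M m : ℝ} (hM : 0 ≤ M)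
    (h : ∀ w ∈ A, f w ≤ ENNReal.ofReal M) (hm : volume A ≤ ENNReal.ofReal m) :
    ∫⁻ w in A, f w ≤ ENNReal.ofReal (M * m) := by
  calc ∫⁻ w in A, f w ≤ ∫⁻ _ in A, ENNReal.ofReal M := setLIntegral_mono' hA h
    _ = ENNReal.ofReal M * volume A := setLIntegral_const _ _
    _ ≤ ENNReal.ofReal M * ENNReal.ofReal m := by gcongr
    _ = _ := by rw [ENNReal.ofReal_mul hM]

lemma Y_pos {w : ℂ} (hw : w ∈ ball (0 : ℂ) 1) : 0 < Y w := by
  rw [mem_ball_zero_iff] at hw
  unfold Y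
  have := norm_nonneg w
  nlinarith

lemma Y_le {w : ℂ} : Y w ≤ 1 := by
  unfold Y
  have := norm_nonneg w
  nlinarith

lemma Y_meas : Measurable Y := by
  unfold Y
  fun_prop

/-- dyadic decomposition of `(0, s)` -/
lemma dyad {x s : ℝ} (hx : 0 < x) (hxs : x < s) : ∃ k : ℕ, s * (1 / 2) ^ (k + 1) ≤ x ∧ x < s * (1 / 2) ^ k := by
  have hs : 0 < s := hx.trans hxs
  have h1 : 0 < x / s := by positivity
  have h2 : x / s < 1 := by rw [div_lt_one hs]; exact hxs
  have h3 : ∃ n : ℕ, (1 / 2 : ℝ) ^ n ≤ x / s := by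
    obtain ⟨n, hn⟩ := exists_pow_lt_of_lt_one h1 (show (1 / 2 : ℝ) < 1 by norm_num)
    exact ⟨n, hn.le⟩
  classical
  have hn0 : Nat.find h3 ≠ 0 := by
    intro h
    have := Nat.find_spec h3
    rw [h, pow_zero] at this
    linarith
  obtain ⟨k, hk⟩ := Nat.exists_eq_succ_of_ne_zero hn0
  refine ⟨k, ?_, ?_⟩
  · have := Nat.find_spec h3
    rw [hk, le_div_iff₀ hs] at this
    simpa [mul_comm] using this
  · have := Nat.find_min h3 (m := k) (by omega)
    push Not at this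
    rw [div_lt_iff₀ hs] at this
    linarith

/-- dyadic decomposition of `[s, ∞)` -/
lemma dyadU {x s : ℝ} (hs : 0 < s) (hxs : s ≤ x) : ∃ k : ℕ, s * 2 ^ k ≤ x ∧ x < s * 2 ^ (k + 1) := by
  have h1 : 1 ≤ x / s := by rw [one_le_div hs]; exact hxs
  obtain ⟨k, hk1, hk2⟩ := exists_nat_pow_near h1 (show (1 : ℝ) < 2 by norm_num)
  refine ⟨k, ?_, ?_⟩
  · rw [le_div_iff₀ hs] at hk1
    linarith
  · rw [div_lt_iff₀ hs] at hk2
    linarith

end M2_

open M2_ in
theorem m_G2 : G2 := by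
  obtain ⟨C1, hC1, hG1⟩ := m_G1
  intro ε hε hε1
  set r : ℝ := (1 / 2 : ℝ) ^ (1 - ε) with hr
  have hr0 : 0 < r := by rw [hr]; positivity
  have hr1 : r < 1 := Real.rpow_lt_one (by norm_num) (by norm_num) (by linarith)
  refine ⟨Real.pi + (2 : ℝ) ^ ε * C1 / (1 - r), ?_, fun z ρ hρ => ?_⟩
  · have : 0 < 1 - r := by linarith
    have := Real.pi_pos
    positivity
  have hd : S z ρ ⊆ (S z ρ ∩ {w | ρ ≤ Y w}) ∪ (S z ρ ∩ {w | Y w < ρ}) := by
    intro w hw
    rcases le_or_gt ρ (Y w) with h | h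
    · exact Or.inl ⟨hw, h⟩
    · exact Or.inr ⟨hw, h⟩
  have hSm : MeasurableSet (S z ρ) := measurableSet_ball.inter measurableSet_ball
  -- first part
  have p1 : ∫⁻ w in S z ρ ∩ {w | ρ ≤ Y w}, ENNReal.ofReal ((Y w) ^ (-ε)) ≤
      ENNReal.ofReal (ρ ^ (-ε) * (Real.pi * ρ ^ 2)) := by
    apply sup_bound (hSm.inter (measurableSet_le measurable_const Y_meas)) (by positivity)
    · rintro w ⟨_, hw⟩
      apply ENNReal.ofReal_le_ofReal
      exact Real.rpow_le_rpow_of_nonpos hρ hw (by linarith)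
    · calc volume (S z ρ ∩ {w | ρ ≤ Y w}) ≤ volume (ball z ρ) :=
            measure_mono (inter_subset_left.trans inter_subset_left)
        _ = ENNReal.ofReal (Real.pi * ρ ^ 2) := by
            rw [Complex.volume_ball]
            rw [ENNReal.ofReal_mul Real.pi_pos.le, ← ENNReal.ofReal_pow hρ.le, mul_comm]
            congr 1
            rw [ENNReal.ofReal, Real.toNNReal_of_nonneg Real.pi_pos.le]
            rfl
  -- second part
  have p2 : ∫⁻ w in S z ρ ∩ {w | Y w < ρ}, ENNReal.ofReal ((Y w) ^ (-ε)) ≤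
      ENNReal.ofReal ((2 : ℝ) ^ ε * C1 * ρ ^ (2 - ε) / (1 - r)) := by
    apply geo (A := fun k => {w : ℂ | w ∈ ball (0:ℂ) 1 ∧ w ∈ ball z ρ ∧ Y w < ρ * (1 / 2) ^ k} ∩
      {w | ρ * (1 / 2) ^ (k + 1) ≤ Y w}) (by positivity) hr0.le hr1
    · rintro w ⟨⟨hw1, hw2⟩, hw3⟩
      obtain ⟨k, hk1, hk2⟩ := dyad (Y_pos hw2) hw3
      rw [mem_iUnion]
      exact ⟨k, ⟨hw2, hw1, hk2⟩, hk1⟩
    · intro k
      have hρk : 0 < ρ * (1 / 2 : ℝ) ^ (k + 1) := by positivity
      have hm : MeasurableSet ({w : ℂ | w ∈ ball (0:ℂ) 1 ∧ w ∈ ball z ρ ∧ Y w < ρ * (1 / 2) ^ k} ∩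
          {w | ρ * (1 / 2) ^ (k + 1) ≤ Y w}) :=
        (measurableSet_ball.inter (measurableSet_ball.inter (measurableSet_lt Y_meas measurable_const))).inter
          (measurableSet_le measurable_const Y_meas)
      have h := sup_bound (f := fun w => ENNReal.ofReal ((Y w) ^ (-ε)))
        (M := (ρ * (1 / 2 : ℝ) ^ (k + 1)) ^ (-ε)) (m := C1 * ρ * (ρ * (1 / 2) ^ k)) hm (by positivity)
        (by
          rintro w ⟨_, hw⟩
          apply ENNReal.ofReal_le_ofReal
          exact Real.rpow_le_rpow_of_nonpos hρk hw (by linarith))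
        ((measure_mono inter_subset_left).trans (hG1 z ρ _ hρ (by positivity)))
      refine h.trans (le_of_eq ?_)
      congr 1
      have e1 : (ρ * (1 / 2 : ℝ) ^ (k + 1)) ^ (-ε) = ρ ^ (-ε) * (2 : ℝ) ^ ε * ((2 : ℝ) ^ ε) ^ k := by
        rw [Real.mul_rpow hρ.le (by positivity), mul_assoc]
        congr 1
        rw [one_div, inv_pow, Real.inv_rpow (by positivity), Real.rpow_neg (by positivity), inv_inv,
          ← Real.rpow_natCast, ← Real.rpow_mul (by norm_num), ← Real.rpow_natCast ((2:ℝ) ^ ε),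
          ← Real.rpow_mul (by norm_num), ← Real.rpow_add (by norm_num)]
        congr 1
        push_cast
        ring
      have e2 : r ^ k = (1 / 2 : ℝ) ^ k * ((2 : ℝ) ^ ε) ^ k := by
        rw [← mul_pow, hr, Real.rpow_sub (by norm_num), Real.rpow_one, one_div, Real.inv_rpow (by norm_num),
          div_inv_eq_mul]
      have e3 : ρ ^ (2 - ε) = ρ ^ (-ε) * ρ ^ 2 := by
        rw [show (2 - ε) = -ε + (2 : ℕ) by push_cast; ring, Real.rpow_add hρ, Real.rpow_natCast]
      rw [e1, e2, e3]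
      ring
  calc ∫⁻ w in S z ρ, ENNReal.ofReal ((Y w) ^ (-ε))
      ≤ ∫⁻ w in (S z ρ ∩ {w | ρ ≤ Y w}) ∪ (S z ρ ∩ {w | Y w < ρ}), ENNReal.ofReal ((Y w) ^ (-ε)) :=
        lintegral_mono_set hd
    _ ≤ _ := lintegral_union_le _ _ _
    _ ≤ ENNReal.ofReal (ρ ^ (-ε) * (Real.pi * ρ ^ 2)) +
        ENNReal.ofReal ((2 : ℝ) ^ ε * C1 * ρ ^ (2 - ε) / (1 - r)) := add_le_add p1 p2
    _ = ENNReal.ofReal ((Real.pi + (2 : ℝ) ^ ε * C1 / (1 - r)) * ρ ^ (2 - ε)) := by
        have h1r : 0 < 1 - r := by linarith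
        have := Real.pi_pos
        rw [← ENNReal.ofReal_add (by positivity) (by positivity)]
        congr 1
        have e3 : ρ ^ (2 - ε) = ρ ^ (-ε) * ρ ^ 2 := by
          rw [show (2 - ε) = -ε + (2 : ℕ) by push_cast; ring, Real.rpow_add hρ, Real.rpow_natCast]
        rw [e3]
        ring

namespace M2_

/-! ### the kernel -/

lemma norm_one_sub_sq (z w : ℂ) : ‖1 - z * conj w‖ ^ 2 = ‖z - w‖ ^ 2 + Y z * Y w := by
  unfold Y
  rw [← Complex.normSq_eq_norm_sq, ← Complex.normSq_eq_norm_sq, ← Complex.normSq_eq_norm_sq,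
    ← Complex.normSq_eq_norm_sq]
  simp only [Complex.normSq_apply, Complex.sub_re, Complex.sub_im, Complex.mul_re, Complex.mul_im,
    Complex.one_re, Complex.one_im, Complex.conj_re, Complex.conj_im]
  ring

lemma norm_one_sub_ge {z w : ℂ} (hz : z ∈ ball (0 : ℂ) 1) (hw : w ∈ ball (0 : ℂ) 1) :
    ‖z - w‖ ≤ ‖1 - z * conj w‖ := by
  have h1 := norm_one_sub_sq z w
  have h2 := mul_pos (Y_pos hz) (Y_pos hw)
  nlinarith [norm_nonneg (z - w), norm_nonneg (1 - z * conj w)]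

lemma norm_one_sub_ge' {z w : ℂ} (hz : z ∈ ball (0 : ℂ) 1) (hw : w ∈ ball (0 : ℂ) 1) :
    Y z / 2 ≤ ‖1 - z * conj w‖ := by
  have h1 : 1 - ‖z‖ * ‖w‖ ≤ ‖1 - z * conj w‖ := by
    have := norm_sub_norm_le (1 : ℂ) (z * conj w)
    rw [norm_one, norm_mul, Complex.norm_conj] at this
    exact this
  rw [mem_ball_zero_iff] at hz hw
  unfold Y
  nlinarith [norm_nonneg z, norm_nonneg w]

lemma K_nonneg (z w : ℂ) : 0 ≤ K z w := by
  unfold K
  positivity

lemma K_symm (z w : ℂ) : K z w = K w z := by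
  unfold K
  rw [norm_sub_rev z w]
  congr 2
  rw [← Complex.norm_conj]
  congr 1
  simp [mul_comm]

lemma K_meas : Measurable (fun q : ℂ × ℂ => K q.1 q.2) := by
  unfold K
  have h1 : Measurable fun q : ℂ × ℂ => conj q.2 := Complex.continuous_conj.measurable.comp measurable_snd
  have h2 : Measurable fun q : ℂ × ℂ => ‖q.1 - q.2‖ * ‖1 - q.1 * conj q.2‖ :=
    (measurable_fst.sub measurable_snd).norm.mul ((measurable_const.sub (measurable_fst.mul h1)).norm)
  exact measurable_const.div h2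

lemma K_le_near {z w : ℂ} (hz : z ∈ ball (0 : ℂ) 1) (hw : w ∈ ball (0 : ℂ) 1) {s : ℝ} (hs : 0 < s)
    (h : s ≤ ‖z - w‖) : K z w ≤ 2 / (Y z * s) := by
  have hY := Y_pos hz
  have h1 := norm_one_sub_ge' hz hw
  have h2 : s * (Y z / 2) ≤ ‖z - w‖ * ‖1 - z * conj w‖ := mul_le_mul h h1 (by positivity) (norm_nonneg _)
  have h3 : 0 < s * (Y z / 2) := by positivity
  unfold K
  rw [div_le_div_iff₀ (by linarith) (by positivity), one_mul]
  linarith

lemma K_le_far {z w : ℂ} (hz : z ∈ ball (0 : ℂ) 1) (hw : w ∈ ball (0 : ℂ) 1) {s : ℝ} (hs : 0 < s)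
    (h : s ≤ ‖z - w‖) : K z w ≤ 1 / s ^ 2 := by
  have h1 := norm_one_sub_ge hz hw
  unfold K
  apply div_le_div_of_nonneg_left zero_le_one (by positivity)
  nlinarith

end M2_

open M2_ in
theorem m_G3 : G3 := by
  intro ε hε hε1
  obtain ⟨C2, hC2, hG2⟩ := m_G2 ε hε hε1
  set r : ℝ := (1 / 2 : ℝ) ^ (1 - ε) with hr
  have hr0 : 0 < r := by rw [hr]; positivity
  have hr1 : r < 1 := Real.rpow_lt_one (by norm_num) (by norm_num) (by linarith)
  set u : ℝ := (1 / 2 : ℝ) ^ ε with hu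
  have hu0 : 0 < u := by rw [hu]; positivity
  have hu1 : u < 1 := Real.rpow_lt_one (by norm_num) (by norm_num) hε
  have h1r : 0 < 1 - r := by linarith
  have h1u : 0 < 1 - u := by linarith
  refine ⟨4 * C2 / (1 - r) + 4 * C2 / (1 - u), by positivity, fun z hz => ?_⟩
  have hY := Y_pos hz
  set F : ℂ → ℝ≥0∞ := fun w => ENNReal.ofReal (K z w * (Y w) ^ (-ε)) with hF
  -- bound on a shell
  have shell : ∀ (s M : ℝ), 0 < s → 0 ≤ M → ∀ A : Set ℂ, MeasurableSet A → A ⊆ S z s →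
      (∀ w ∈ A, K z w ≤ M) → ∫⁻ w in A, F w ≤ ENNReal.ofReal (M * (C2 * s ^ (2 - ε))) := by
    intro s M hs hM A hA hAs hK
    calc ∫⁻ w in A, F w ≤ ∫⁻ w in A, ENNReal.ofReal M * ENNReal.ofReal ((Y w) ^ (-ε)) := by
          apply setLIntegral_mono' hA
          intro w hw
          rw [← ENNReal.ofReal_mul hM]
          apply ENNReal.ofReal_le_ofReal
          exact mul_le_mul_of_nonneg_right (hK w hw) (Real.rpow_nonneg (Y_pos (hAs hw).2).le _)
      _ = ENNReal.ofReal M * ∫⁻ w in A, ENNReal.ofReal ((Y w) ^ (-ε)) :=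
          lintegral_const_mul' _ _ ENNReal.ofReal_ne_top
      _ ≤ ENNReal.ofReal M * ∫⁻ w in S z s, ENNReal.ofReal ((Y w) ^ (-ε)) := by
          gcongr
      _ ≤ ENNReal.ofReal M * ENNReal.ofReal (C2 * s ^ (2 - ε)) := by
          gcongr
          exact hG2 z s hs
      _ = _ := by rw [ENNReal.ofReal_mul hM]
  have hmeas : ∀ a b : ℝ, MeasurableSet {w : ℂ | w ∈ ball (0:ℂ) 1 ∧ a ≤ ‖z - w‖ ∧ ‖z - w‖ < b} := by
    intro a b
    have h1 : Measurable fun w : ℂ => ‖z - w‖ := by fun_prop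
    exact measurableSet_ball.inter ((measurableSet_le measurable_const h1).inter
      (measurableSet_lt h1 measurable_const))
  have hmem : ∀ {a b : ℝ}, {w : ℂ | w ∈ ball (0:ℂ) 1 ∧ a ≤ ‖z - w‖ ∧ ‖z - w‖ < b} ⊆ S z b := by
    rintro a b w ⟨h1, _, h2⟩
    refine ⟨?_, h1⟩
    rw [mem_ball, dist_eq_norm, norm_sub_rev]
    exact h2
  have p1 : ∫⁻ w in {w : ℂ | w ∈ ball (0:ℂ) 1 ∧ 0 < ‖z - w‖ ∧ ‖z - w‖ < Y z}, F w ≤
      ENNReal.ofReal (4 * C2 * (Y z) ^ (-ε) / (1 - r)) := by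
    apply geo (A := fun k => {w : ℂ | w ∈ ball (0:ℂ) 1 ∧ Y z * (1 / 2) ^ (k + 1) ≤ ‖z - w‖ ∧
      ‖z - w‖ < Y z * (1 / 2) ^ k}) (by positivity) hr0.le hr1
    · rintro w ⟨h1, h2, h3⟩
      obtain ⟨k, hk1, hk2⟩ := dyad h2 h3
      rw [mem_iUnion]
      exact ⟨k, h1, hk1, hk2⟩
    · intro k
      have hs : 0 < Y z * (1 / 2 : ℝ) ^ k := by positivity
      have hs' : 0 < Y z * (1 / 2 : ℝ) ^ (k + 1) := by positivity
      have h := shell (Y z * (1 / 2) ^ k) (2 / (Y z * (Y z * (1 / 2) ^ (k + 1)))) hs (by positivity) _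
        (hmeas (Y z * (1 / 2) ^ (k + 1)) (Y z * (1 / 2) ^ k)) hmem
        (fun w hw => K_le_near hz hw.1 hs' hw.2.1)
      refine h.trans (le_of_eq ?_)
      congr 1
      have e1 : (Y z * (1 / 2 : ℝ) ^ k) ^ (2 - ε) = (Y z) ^ (-ε) * (Y z) ^ 2 * (r ^ k * (1 / 2 : ℝ) ^ k) := by
        rw [Real.mul_rpow hY.le (by positivity)]
        congr 1
        · rw [show (2 - ε) = -ε + (2 : ℕ) by push_cast; ring, Real.rpow_add hY, Real.rpow_natCast]
        · rw [← mul_pow, hr, ← Real.rpow_natCast, ← Real.rpow_mul (by norm_num), mul_comm (k : ℝ),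
            Real.rpow_mul (by norm_num), Real.rpow_natCast]
          congr 1
          rw [show (2 - ε) = (1 - ε) + 1 by ring, Real.rpow_add (by norm_num), Real.rpow_one]
      rw [e1]
      have hYne := hY.ne'
      have h2k : ((1 / 2 : ℝ) ^ k) ≠ 0 := by positivity
      rw [pow_succ (1 / 2 : ℝ) k]
      field_simp
      ring
  have p2 : ∫⁻ w in {w : ℂ | w ∈ ball (0:ℂ) 1 ∧ Y z ≤ ‖z - w‖}, F w ≤
      ENNReal.ofReal (4 * C2 * (Y z) ^ (-ε) / (1 - u)) := by
    apply geo (A := fun k => {w : ℂ | w ∈ ball (0:ℂ) 1 ∧ Y z * 2 ^ k ≤ ‖z - w‖ ∧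
      ‖z - w‖ < Y z * 2 ^ (k + 1)}) (by positivity) hu0.le hu1
    · rintro w ⟨h1, h3⟩
      obtain ⟨k, hk1, hk2⟩ := dyadU hY h3
      rw [mem_iUnion]
      exact ⟨k, h1, hk1, hk2⟩
    · intro k
      have hs : 0 < Y z * (2 : ℝ) ^ k := by positivity
      have hs' : 0 < Y z * (2 : ℝ) ^ (k + 1) := by positivity
      have h := shell (Y z * 2 ^ (k + 1)) (1 / (Y z * 2 ^ k) ^ 2) hs' (by positivity) _
        (hmeas (Y z * 2 ^ k) (Y z * 2 ^ (k + 1))) hmem
        (fun w hw => K_le_far hz hw.1 hs hw.2.1)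
      refine h.trans (ENNReal.ofReal_le_ofReal ?_)
      have e1 : (Y z * (2 : ℝ) ^ (k + 1)) ^ (2 - ε) = (Y z) ^ (-ε) * (Y z) ^ 2 *
          (((2 : ℝ) ^ (k + 1)) ^ 2 * u ^ (k + 1)) := by
        rw [Real.mul_rpow hY.le (by positivity)]
        congr 1
        · rw [show (2 - ε) = -ε + (2 : ℕ) by push_cast; ring, Real.rpow_add hY, Real.rpow_natCast]
        · rw [show (2 - ε) = (2 : ℕ) + -ε by push_cast; ring, Real.rpow_add (by positivity), Real.rpow_natCast]
          congr 1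
          rw [hu, ← Real.rpow_natCast (2 : ℝ), ← Real.rpow_natCast ((1 / 2 : ℝ) ^ ε), ← Real.rpow_mul (by norm_num),
            ← Real.rpow_mul (by norm_num), one_div, Real.inv_rpow (by norm_num), ← Real.rpow_neg (by norm_num)]
          congr 1
          ring
      rw [e1]
      have hYne := hY.ne'
      have h2k : ((2 : ℝ) ^ k) ≠ 0 := by positivity
      have hY' : (0 : ℝ) < (Y z) ^ (-ε) := by positivity
      have e2 : 1 / (Y z * (2 : ℝ) ^ k) ^ 2 * (C2 * ((Y z) ^ (-ε) * (Y z) ^ 2 *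
          (((2 : ℝ) ^ (k + 1)) ^ 2 * u ^ (k + 1)))) = u * (4 * C2 * (Y z) ^ (-ε) * u ^ k) := by
        rw [pow_succ (2 : ℝ) k, pow_succ u k]
        field_simp
        ring
      rw [e2]
      have : 0 ≤ 4 * C2 * (Y z) ^ (-ε) * u ^ k := by positivity
      nlinarith
  have p0 : ∫⁻ w in ({z} : Set ℂ), F w = 0 := by
    have : volume ({z} : Set ℂ) = 0 := measure_singleton z
    exact setLIntegral_measure_zero _ _ this
  have hsub : ball (0:ℂ) 1 ⊆ ({z} : Set ℂ) ∪ ({w : ℂ | w ∈ ball (0:ℂ) 1 ∧ 0 < ‖z - w‖ ∧ ‖z - w‖ < Y z} ∪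
      {w : ℂ | w ∈ ball (0:ℂ) 1 ∧ Y z ≤ ‖z - w‖}) := by
    intro w hw
    by_cases h0 : w = z
    · exact Or.inl h0
    · right
      have h1 : 0 < ‖z - w‖ := norm_pos_iff.2 (sub_ne_zero.2 (Ne.symm h0))
      rcases lt_or_ge ‖z - w‖ (Y z) with h | h
      · exact Or.inl ⟨hw, h1, h⟩
      · exact Or.inr ⟨hw, h⟩
  calc ∫⁻ w in ball (0:ℂ) 1, F w ≤ _ := lintegral_mono_set hsub
    _ ≤ _ := lintegral_union_le _ _ _
    _ ≤ (∫⁻ w in ({z} : Set ℂ), F w) +
        ((∫⁻ w in {w : ℂ | w ∈ ball (0:ℂ) 1 ∧ 0 < ‖z - w‖ ∧ ‖z - w‖ < Y z}, F w) +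
        (∫⁻ w in {w : ℂ | w ∈ ball (0:ℂ) 1 ∧ Y z ≤ ‖z - w‖}, F w)) := by
        gcongr
        exact lintegral_union_le _ _ _
    _ ≤ 0 + (ENNReal.ofReal (4 * C2 * (Y z) ^ (-ε) / (1 - r)) +
        ENNReal.ofReal (4 * C2 * (Y z) ^ (-ε) / (1 - u))) := by
        rw [p0]
        gcongr
    _ = _ := by
        rw [zero_add, ← ENNReal.ofReal_add (by positivity) (by positivity)]
        congr 1
        ring

open M2_ in
theorem m_G5 : G5 := by
  obtain ⟨C1, hC1, hG1⟩ := m_G1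
  intro β hβ
  set u : ℝ := (1 / 2 : ℝ) ^ (β - 1) with hu
  have hu0 : 0 < u := by rw [hu]; positivity
  have hu1 : u < 1 := Real.rpow_lt_one (by norm_num) (by norm_num) (by linarith)
  have h1u : 0 < 1 - u := by linarith
  refine ⟨(2 : ℝ) ^ β * C1 + 2 * C1 / (1 - u), by positivity, fun a ha ε hε => ?_⟩
  have hY := Y_pos ha
  set F : ℂ → ℝ≥0∞ := fun w => ENNReal.ofReal (‖1 - conj a * w‖ ^ (-β)) with hF
  have hrew : ∀ w : ℂ, ‖1 - conj a * w‖ = ‖1 - a * conj w‖ := by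
    intro w
    rw [← Complex.norm_conj]
    congr 1
    simp
  have hge : ∀ w ∈ ball (0:ℂ) 1, ‖w - a‖ ≤ ‖1 - conj a * w‖ := by
    intro w hw
    rw [hrew, norm_sub_rev]
    exact norm_one_sub_ge ha hw
  have hge' : ∀ w ∈ ball (0:ℂ) 1, Y a / 2 ≤ ‖1 - conj a * w‖ := by
    intro w hw
    rw [hrew]
    exact norm_one_sub_ge' ha hw
  have hm1 : Measurable fun w : ℂ => ‖w - a‖ := by fun_prop
  have p1 : ∫⁻ w in {w : ℂ | w ∈ ball (0:ℂ) 1 ∧ w ∈ ball a (Y a) ∧ Y w < ε}, F w ≤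
      ENNReal.ofReal ((Y a / 2) ^ (-β) * (C1 * Y a * ε)) := by
    apply sup_bound (measurableSet_ball.inter (measurableSet_ball.inter (measurableSet_lt Y_meas measurable_const)))
      (by positivity)
    · rintro w ⟨hw, _⟩
      apply ENNReal.ofReal_le_ofReal
      exact Real.rpow_le_rpow_of_nonpos (by positivity) (hge' w hw) (by linarith)
    · exact hG1 a (Y a) ε hY hε
  have p2 : ∫⁻ w in {w : ℂ | w ∈ ball (0:ℂ) 1 ∧ Y a ≤ ‖w - a‖ ∧ Y w < ε}, F w ≤
      ENNReal.ofReal (2 * C1 * ε * (Y a) ^ (1 - β) / (1 - u)) := by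
    apply geo (A := fun k => {w : ℂ | w ∈ ball (0:ℂ) 1 ∧ w ∈ ball a (Y a * 2 ^ (k + 1)) ∧ Y w < ε} ∩
      {w | Y a * 2 ^ k ≤ ‖w - a‖}) (by positivity) hu0.le hu1
    · rintro w ⟨h1, h3, h4⟩
      obtain ⟨k, hk1, hk2⟩ := dyadU hY h3
      rw [mem_iUnion]
      exact ⟨k, ⟨h1, by rw [mem_ball, dist_eq_norm]; exact hk2, h4⟩, hk1⟩
    · intro k
      have hs : 0 < Y a * (2 : ℝ) ^ k := by positivity
      have hs' : 0 < Y a * (2 : ℝ) ^ (k + 1) := by positivity
      have hm : MeasurableSet ({w : ℂ | w ∈ ball (0:ℂ) 1 ∧ w ∈ ball a (Y a * 2 ^ (k + 1)) ∧ Y w < ε} ∩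
          {w | Y a * 2 ^ k ≤ ‖w - a‖}) :=
        (measurableSet_ball.inter (measurableSet_ball.inter (measurableSet_lt Y_meas measurable_const))).inter
          (measurableSet_le measurable_const hm1)
      have h := sup_bound (f := F) (M := (Y a * (2 : ℝ) ^ k) ^ (-β)) (m := C1 * (Y a * 2 ^ (k + 1)) * ε) hm
        (by positivity)
        (by
          rintro w ⟨hw1, hw2⟩
          apply ENNReal.ofReal_le_ofReal
          exact Real.rpow_le_rpow_of_nonpos hs (le_trans hw2 (hge w hw1.1)) (by linarith))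
        ((measure_mono inter_subset_left).trans (hG1 a _ ε hs' hε))
      refine h.trans (le_of_eq ?_)
      congr 1
      have e1 : (Y a * (2 : ℝ) ^ k) ^ (-β) * (2 : ℝ) ^ k * Y a = (Y a) ^ (1 - β) * u ^ k := by
        rw [Real.mul_rpow hY.le (by positivity)]
        have e2 : ((2 : ℝ) ^ k) ^ (-β) * (2 : ℝ) ^ k = u ^ k := by
          rw [hu, ← Real.rpow_natCast ((1 / 2 : ℝ) ^ (β - 1)), ← Real.rpow_natCast (2 : ℝ), ← Real.rpow_mul (by norm_num),
            ← Real.rpow_mul (by norm_num), ← Real.rpow_add (by norm_num), one_div, Real.inv_rpow (by norm_num),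
            ← Real.rpow_neg (by norm_num)]
          congr 1
          ring
        have e3 : (Y a) ^ (1 - β) = (Y a) ^ (-β) * Y a := by
          rw [show (1 - β) = -β + 1 by ring, Real.rpow_add hY, Real.rpow_one]
        rw [e3, ← e2]
        ring
      rw [pow_succ (2 : ℝ) k]
      linear_combination (2 * C1 * ε) * e1
  have hsub : {w : ℂ | w ∈ ball (0:ℂ) 1 ∧ Y w < ε} ⊆
      {w : ℂ | w ∈ ball (0:ℂ) 1 ∧ w ∈ ball a (Y a) ∧ Y w < ε} ∪
      {w : ℂ | w ∈ ball (0:ℂ) 1 ∧ Y a ≤ ‖w - a‖ ∧ Y w < ε} := by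
    rintro w ⟨hw, h2⟩
    rcases lt_or_ge ‖w - a‖ (Y a) with h | h
    · exact Or.inl ⟨hw, by rw [mem_ball, dist_eq_norm]; exact h, h2⟩
    · exact Or.inr ⟨hw, h, h2⟩
  calc ∫⁻ w in {w : ℂ | w ∈ ball (0:ℂ) 1 ∧ Y w < ε}, F w ≤ _ := lintegral_mono_set hsub
    _ ≤ _ := lintegral_union_le _ _ _
    _ ≤ _ := add_le_add p1 p2
    _ = _ := by
        rw [← ENNReal.ofReal_add (by positivity) (by positivity)]
        congr 1
        have e3 : (Y a) ^ (1 - β) = (Y a) ^ (-β) * Y a := by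
          rw [show (1 - β) = -β + 1 by ring, Real.rpow_add hY, Real.rpow_one]
        have e4 : (Y a / 2) ^ (-β) = (Y a) ^ (-β) * (2 : ℝ) ^ β := by
          rw [Real.div_rpow hY.le (by norm_num), Real.rpow_neg (show (0:ℝ) ≤ 2 by norm_num), div_inv_eq_mul]
        rw [e3, e4]
        ring

open M2_ in
theorem m_G4 : G4 := by
  intro q hq
  have hq0 : 0 < q := by linarith
  set p : ℝ := q / (q - 1) with hp
  have hq1 : 0 < q - 1 := by linarith
  have hp1 : 1 < p := by rw [hp, lt_div_iff₀ hq1]; linarith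
  have hp0 : 0 < p := by linarith
  have hpq : p.HolderConjugate q := by
    refine Real.holderConjugate_iff.2 ⟨hp1, ?_⟩
    rw [hp]
    field_simp
    ring
  obtain ⟨Ca, hCa, ha⟩ := m_G3 (1 / q) (by positivity) (by rw [div_lt_one hq0]; exact hq)
  obtain ⟨Cb, hCb, hb⟩ := m_G3 (1 / p) (by positivity) (by rw [div_lt_one hp0]; exact hp1)
  have hqp : 0 ≤ q / p := by positivity
  refine ⟨Real.toNNReal (Ca ^ (q / p) * Cb), fun f hf => ?_⟩
  -- the weight
  set δ : ℝ := 1 / (p * q) with hδ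
  set D : Set ℂ := ball (0:ℂ) 1 with hD
  have hDm : MeasurableSet D := measurableSet_ball
  let k : ℂ → ℂ → ℝ≥0∞ := fun z w => ENNReal.ofReal (K z w)
  let h : ℂ → ℝ≥0∞ := fun w => ENNReal.ofReal ((Y w) ^ (-δ))
  let h' : ℂ → ℝ≥0∞ := fun w => ENNReal.ofReal ((Y w) ^ δ)
  have hkm : Measurable (fun q : ℂ × ℂ => k q.1 q.2) := K_meas.ennreal_ofReal
  have hkz : ∀ z, Measurable (k z) := fun z => hkm.comp (measurable_const.prodMk measurable_id)
  have hhm : Measurable h := (Y_meas.pow_const _).ennreal_ofReal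
  have hhm' : Measurable h' := (Y_meas.pow_const _).ennreal_ofReal
  have hhh : ∀ w ∈ D, h w * h' w = 1 := by
    intro w hw
    have := Y_pos hw
    change ENNReal.ofReal _ * ENNReal.ofReal _ = 1
    rw [← ENNReal.ofReal_mul (by positivity), ← Real.rpow_add this]
    simp
  have hpow : ∀ (w : ℂ) (e s : ℝ), w ∈ D → 0 ≤ s →
      (ENNReal.ofReal ((Y w) ^ e)) ^ s = ENNReal.ofReal ((Y w) ^ (e * s)) := by
    intro w e s hw hs
    have := Y_pos hw
    rw [ENNReal.ofReal_rpow_of_nonneg (by positivity) hs, ← Real.rpow_mul this.le]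
  -- pointwise bound
  have hpt : ∀ z ∈ D, (∫⁻ w in D, k z w * f w) ^ q ≤
      ENNReal.ofReal (Ca ^ (q / p) * (Y z) ^ (-(1 / p))) * ∫⁻ w in D, k z w * (h' w * f w) ^ q := by
    intro z hz
    have hYz := Y_pos hz
    have e1 : ∫⁻ w in D, k z w * f w = ∫⁻ w in D,
        ((fun w => (k z w) ^ (1 / p) * h w) * (fun w => (k z w) ^ (1 / q) * (h' w * f w))) w := by
      apply setLIntegral_congr_fun hDm
      intro w hw
      have e2 : (k z w) ^ (1 / p) * (k z w) ^ (1 / q) = k z w := by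
        rw [← ENNReal.rpow_add_of_nonneg _ _ (by positivity) (by positivity)]
        have : 1 / p + 1 / q = 1 := by
          have := hpq.inv_add_inv_eq_one
          simpa [one_div] using this
        rw [this, ENNReal.rpow_one]
      simp only [Pi.mul_apply]
      calc k z w * f w = ((k z w) ^ (1 / p) * (k z w) ^ (1 / q)) * (h w * h' w) * f w := by
            rw [e2, hhh w hw, mul_one]
        _ = _ := by ring
    have hold := ENNReal.lintegral_mul_le_Lp_mul_Lq (volume.restrict D) hpq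
      (f := fun w => (k z w) ^ (1 / p) * h w) (g := fun w => (k z w) ^ (1 / q) * (h' w * f w))
      (((hkz z).pow_const _).mul hhm).aemeasurable (((hkz z).pow_const _).mul (hhm'.mul hf)).aemeasurable
    have e3 : ∫⁻ w in D, ((k z w) ^ (1 / p) * h w) ^ p ≤ ENNReal.ofReal (Ca * (Y z) ^ (-(1 / q))) := by
      refine le_trans (le_of_eq ?_) (ha z hz)
      apply setLIntegral_congr_fun hDm
      intro w hw
      have hYw := Y_pos hw
      simp only
      rw [ENNReal.mul_rpow_of_nonneg _ _ hp0.le, ← ENNReal.rpow_mul, one_div_mul_cancel hp0.ne', ENNReal.rpow_one,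
        hpow w _ _ hw hp0.le, ENNReal.ofReal_mul (K_nonneg z w)]
      congr 3
      rw [hδ]
      field_simp
    have e4 : ∫⁻ w in D, ((k z w) ^ (1 / q) * (h' w * f w)) ^ q = ∫⁻ w in D, k z w * (h' w * f w) ^ q := by
      apply setLIntegral_congr_fun hDm
      intro w hw
      simp only
      rw [ENNReal.mul_rpow_of_nonneg _ _ hq0.le, ← ENNReal.rpow_mul, one_div_mul_cancel hq0.ne', ENNReal.rpow_one]
    calc (∫⁻ w in D, k z w * f w) ^ q ≤
          ((∫⁻ w in D, ((k z w) ^ (1 / p) * h w) ^ p) ^ (1 / p) *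
            (∫⁻ w in D, ((k z w) ^ (1 / q) * (h' w * f w)) ^ q) ^ (1 / q)) ^ q := by
          rw [e1]
          exact ENNReal.rpow_le_rpow hold hq0.le
      _ ≤ ((ENNReal.ofReal (Ca * (Y z) ^ (-(1 / q)))) ^ (1 / p) *
            (∫⁻ w in D, k z w * (h' w * f w) ^ q) ^ (1 / q)) ^ q := by
          rw [e4]
          gcongr
      _ = _ := by
          rw [ENNReal.mul_rpow_of_nonneg _ _ hq0.le, ← ENNReal.rpow_mul, ← ENNReal.rpow_mul,
            one_div_mul_cancel hq0.ne', ENNReal.rpow_one,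
            ENNReal.ofReal_rpow_of_nonneg (by positivity) (by positivity)]
          congr 2
          rw [Real.mul_rpow hCa.le (by positivity), ← Real.rpow_mul hYz.le]
          congr 2
          · field_simp
          · field_simp
  -- integrate
  have hmeas2 : Measurable (fun q' : ℂ × ℂ => ENNReal.ofReal ((Y q'.1) ^ (-(1 / p))) *
      (k q'.1 q'.2 * (h' q'.2 * f q'.2) ^ q)) := by
    apply Measurable.mul
    · exact ((Y_meas.comp measurable_fst).pow_const _).ennreal_ofReal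
    · exact hkm.mul (((hhm'.mul hf).comp measurable_snd).pow_const _)
  calc ∫⁻ z in D, (∫⁻ w in D, k z w * f w) ^ q
      ≤ ∫⁻ z in D, ENNReal.ofReal (Ca ^ (q / p)) * ∫⁻ w in D,
          ENNReal.ofReal ((Y z) ^ (-(1 / p))) * (k z w * (h' w * f w) ^ q) := by
        apply setLIntegral_mono' hDm
        intro z hz
        refine (hpt z hz).trans (le_of_eq ?_)
        rw [ENNReal.ofReal_mul (by positivity), mul_assoc]
        congr 1
        exact (lintegral_const_mul' _ _ ENNReal.ofReal_ne_top).symm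
    _ = ENNReal.ofReal (Ca ^ (q / p)) * ∫⁻ z in D, ∫⁻ w in D,
          ENNReal.ofReal ((Y z) ^ (-(1 / p))) * (k z w * (h' w * f w) ^ q) :=
        lintegral_const_mul' _ _ ENNReal.ofReal_ne_top
    _ = ENNReal.ofReal (Ca ^ (q / p)) * ∫⁻ w in D, ∫⁻ z in D,
          ENNReal.ofReal ((Y z) ^ (-(1 / p))) * (k z w * (h' w * f w) ^ q) := by
        congr 1
        exact lintegral_lintegral_swap hmeas2.aemeasurable
    _ ≤ ENNReal.ofReal (Ca ^ (q / p)) * ∫⁻ w in D, ENNReal.ofReal Cb * f w ^ q := by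
        gcongr ENNReal.ofReal (Ca ^ (q / p)) * ?_
        apply setLIntegral_mono' hDm
        intro w hw
        have hYw := Y_pos hw
        have e5 : ∫⁻ z in D, ENNReal.ofReal ((Y z) ^ (-(1 / p))) * (k z w * (h' w * f w) ^ q) =
            (∫⁻ z in D, ENNReal.ofReal (K w z * (Y z) ^ (-(1 / p)))) * (h' w * f w) ^ q := by
          rw [← lintegral_mul_const]
          · apply setLIntegral_congr_fun hDm
            intro z hz
            simp only
            rw [ENNReal.ofReal_mul (K_nonneg w z), K_symm w z]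
            ring
          · exact ((K_meas.comp (measurable_const.prodMk measurable_id)).mul (Y_meas.pow_const _)).ennreal_ofReal
        rw [e5]
        calc _ ≤ ENNReal.ofReal (Cb * (Y w) ^ (-(1 / p))) * (h' w * f w) ^ q := by
              gcongr
              exact hb w hw
          _ = ENNReal.ofReal Cb * f w ^ q := by
              rw [ENNReal.mul_rpow_of_nonneg _ _ hq0.le, hpow w _ _ hw hq0.le, ENNReal.ofReal_mul hCb.le]
              have e6 : ENNReal.ofReal ((Y w) ^ (-(1 / p))) * ENNReal.ofReal ((Y w) ^ (δ * q)) = 1 := by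
                rw [← ENNReal.ofReal_mul (by positivity), ← Real.rpow_add hYw]
                have : -(1 / p) + δ * q = 0 := by
                  rw [hδ]
                  field_simp
                  ring
                rw [this, Real.rpow_zero, ENNReal.ofReal_one]
              calc _ = ENNReal.ofReal Cb * (ENNReal.ofReal ((Y w) ^ (-(1 / p))) *
                    ENNReal.ofReal ((Y w) ^ (δ * q))) * f w ^ q := by ring
                _ = _ := by rw [e6, mul_one]
    _ = ENNReal.ofReal (Ca ^ (q / p)) * (ENNReal.ofReal Cb * ∫⁻ w in D, f w ^ q) := by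
        congr 1
        exact lintegral_const_mul' _ _ ENNReal.ofReal_ne_top
    _ = _ := by
        rw [← mul_assoc, ← ENNReal.ofReal_mul (by positivity)]
        rfl

end Pool.Agent.L0h83.BR
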