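import Pool.Agent.L0h83.BR.Stm2
import Pool.Agent.H402R2.SubMean
import Pool.Agent.H801R2.CX.Montel

/-!
# N1: existence of minimisers
-/

set_option autoImplicit false

namespace Pool.Agent.L0h83.BR

open Complex Metric Set Filter Topology MeasureTheory ComplexConjugate
open scoped ENNReal NNReal

namespace N1_

/-- the functional -/
noncomputable def J (p : ℝ) (κ f : ℂ → ℂ) : ℝ :=
  1 / p * (∫ z in ball (0:ℂ) 1, ‖f z‖ ^ p) - (∫ z in ball (0:ℂ) 1, conj (κ z) * f z).re

/-- admissible functions -/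
def Adm (p : ℝ) (f : ℂ → ℂ) : Prop :=
  DifferentiableOn ℂ f (ball 0 1) ∧ IntegrableOn (fun z => ‖f z‖ ^ p) (ball (0:ℂ) 1)

lemma young {p q : ℝ} (hpq : p.HolderConjugate q) (M x : ℝ) (hM : 0 ≤ M) (hx : 0 ≤ x) :
    M * x ≤ x ^ p / (2 * p) + (M * 2 ^ (1 / p)) ^ q / q := by
  have hp := hpq.pos
  have h1 := Real.young_inequality_of_nonneg (a := x * (1 / 2) ^ (1 / p)) (b := M * 2 ^ (1 / p)) (by positivity)
    (by positivity) hpq
  have h2 : x * (1 / 2) ^ (1 / p) * (M * 2 ^ (1 / p)) = M * x := by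
    have h3 : ((1 / 2 : ℝ)) ^ (1 / p) * 2 ^ (1 / p) = 1 := by
      rw [← Real.mul_rpow (by norm_num) (by norm_num)]
      norm_num
    linear_combination (M * x) * h3
  have h4 : (x * (1 / 2 : ℝ) ^ (1 / p)) ^ p = x ^ p / 2 := by
    rw [Real.mul_rpow hx (by positivity), ← Real.rpow_mul (by norm_num), one_div_mul_cancel hp.ne', Real.rpow_one]
    ring
  rw [h2, h4] at h1
  have h5 : x ^ p / 2 / p = x ^ p / (2 * p) := by rw [div_div]
  rw [h5] at h1
  exact h1

lemma vol_disc : (volume.restrict (ball (0:ℂ) 1)).real univ = Real.pi := by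
  rw [Measure.real, Measure.restrict_apply_univ, Complex.volume_ball]
  simp

lemma kint {p q : ℝ} (hpq : p.HolderConjugate q) {κ : ℂ → ℂ} {M : ℝ} (hκ : Measurable κ) (hM : ∀ z, ‖κ z‖ ≤ M) :
    Integrable (fun z => ‖conj (κ z)‖ ^ q) (volume.restrict (ball (0:ℂ) 1)) := by
  have : IsFiniteMeasure (volume.restrict (ball (0:ℂ) 1)) := ⟨by
    rw [Measure.restrict_apply_univ]
    exact measure_ball_lt_top⟩
  have hM0 : 0 ≤ M := (norm_nonneg _).trans (hM 0)
  apply Integrable.mono' (g := fun _ => M ^ q) (integrable_const _)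
  · have h1 : Measurable fun z => ‖conj (κ z)‖ := (Complex.continuous_conj.measurable.comp hκ).norm
    exact (h1.pow_const q).aestronglyMeasurable
  · refine Eventually.of_forall fun z => ?_
    rw [Real.norm_eq_abs, abs_of_nonneg (by positivity), RCLike.norm_conj]
    exact Real.rpow_le_rpow (norm_nonneg _) (hM z) hpq.symm.pos.le

lemma kf_int {p q : ℝ} (hpq : p.HolderConjugate q) {κ : ℂ → ℂ} {M : ℝ} (hκ : Measurable κ) (hM : ∀ z, ‖κ z‖ ≤ M)
    {f : ℂ → ℂ} (hf : Adm p f) : Integrable (fun z => conj (κ z) * f z) (volume.restrict (ball (0:ℂ) 1)) :=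
  int_young hpq (meas_an hf.1) (Complex.continuous_conj.measurable.comp hκ).aestronglyMeasurable hf.2
    (kint hpq hκ hM)

lemma J_ge {p q : ℝ} (hpq : p.HolderConjugate q) {κ : ℂ → ℂ} {M : ℝ} (hκ : Measurable κ) (hM : ∀ z, ‖κ z‖ ≤ M)
    {f : ℂ → ℂ} (hf : Adm p f) :
    1 / (2 * p) * (∫ z in ball (0:ℂ) 1, ‖f z‖ ^ p) - (M * 2 ^ (1 / p)) ^ q / q * Real.pi ≤ J p κ f := by
  have hM0 : 0 ≤ M := (norm_nonneg _).trans (hM 0)
  have hp := hpq.pos
  have : IsFiniteMeasure (volume.restrict (ball (0:ℂ) 1)) := ⟨by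
    rw [Measure.restrict_apply_univ]
    exact measure_ball_lt_top⟩
  have h1 : (∫ z in ball (0:ℂ) 1, conj (κ z) * f z).re ≤
      ∫ z in ball (0:ℂ) 1, (‖f z‖ ^ p / (2 * p) + (M * 2 ^ (1 / p)) ^ q / q) := by
    calc (∫ z in ball (0:ℂ) 1, conj (κ z) * f z).re ≤ ‖∫ z in ball (0:ℂ) 1, conj (κ z) * f z‖ :=
          Complex.re_le_norm _
      _ ≤ ∫ z in ball (0:ℂ) 1, ‖conj (κ z) * f z‖ := norm_integral_le_integral_norm _
      _ ≤ _ := by
          apply integral_mono (kf_int hpq hκ hM hf).norm ((hf.2.div_const _).add (integrable_const _))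
          intro z
          simp only [norm_mul, RCLike.norm_conj]
          calc ‖κ z‖ * ‖f z‖ ≤ M * ‖f z‖ := by
                gcongr
                exact hM z
            _ ≤ _ := young hpq M _ hM0 (norm_nonneg _)
  rw [integral_add (hf.2.div_const _) (integrable_const _), integral_const, vol_disc, integral_div,
    smul_eq_mul] at h1
  unfold J
  have h2 : 1 / p * (∫ z in ball (0:ℂ) 1, ‖f z‖ ^ p) = 1 / (2 * p) * (∫ z in ball (0:ℂ) 1, ‖f z‖ ^ p) +
      (∫ z in ball (0:ℂ) 1, ‖f z‖ ^ p) / (2 * p) := by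
    field_simp
    ring
  rw [h2]
  linarith

/-- local bound -/
lemma loc {p : ℝ} (hp : 0 < p) {f : ℂ → ℂ} (hf : Adm p f) {B r : ℝ}
    (hB : ∫ z in ball (0:ℂ) 1, ‖f z‖ ^ p ≤ B) (hr : r < 1) {z : ℂ} (hz : ‖z‖ ≤ r) :
    ‖f z‖ ≤ (B / (Real.pi * (1 - r) ^ 2)) ^ (1 / p) := by
  have hr1 : 0 < 1 - r := by linarith
  have hsub : ball z (1 - r) ⊆ ball (0:ℂ) 1 := by
    intro w hw
    rw [mem_ball, dist_eq_norm] at hw
    rw [mem_ball_zero_iff]
    have : ‖w‖ ≤ ‖w - z‖ + ‖z‖ := by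
      have := norm_add_le (w - z) z
      simpa using this
    linarith
  have h1 := Pool.Agent.H402R2.SubMean.rpow_mul_le_lintegral (g := f) (w := z) (ρ := 1 - r) (p := p) hr1 hp
    (hf.1.mono hsub)
  have h2 : ∫⁻ w in ball z (1 - r), ‖f w‖ₑ ^ p ≤ ENNReal.ofReal B := by
    calc ∫⁻ w in ball z (1 - r), ‖f w‖ₑ ^ p ≤ ∫⁻ w in ball (0:ℂ) 1, ‖f w‖ₑ ^ p := lintegral_mono_set hsub
      _ = ∫⁻ w in ball (0:ℂ) 1, ENNReal.ofReal (‖f w‖ ^ p) := by
          congr 1
          funext w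
          rw [← ofReal_norm, ENNReal.ofReal_rpow_of_nonneg (norm_nonneg _) hp.le]
      _ = ENNReal.ofReal (∫ w in ball (0:ℂ) 1, ‖f w‖ ^ p) := by
          rw [ofReal_integral_eq_lintegral_ofReal hf.2 (Eventually.of_forall fun w => by positivity)]
      _ ≤ _ := ENNReal.ofReal_le_ofReal hB
  have hB0 : 0 ≤ B := le_trans (integral_nonneg fun w => by positivity) hB
  have h3 := h1.trans h2
  rw [ENNReal.ofReal_le_ofReal_iff hB0] at h3
  have hpi := Real.pi_pos
  rw [← Real.rpow_le_rpow_iff (norm_nonneg _) (by positivity) hp, ← Real.rpow_mul (by positivity),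
    one_div_mul_cancel hp.ne', Real.rpow_one, le_div_iff₀ (by positivity)]
  exact h3

end N1_

open N1_ in
theorem m_N1 : N1 := by
  intro p q hpq κ M r₀ hκ hM hr₀ hκ0
  have hp := hpq.pos
  have hpi := Real.pi_pos
  have hM0 : 0 ≤ M := (norm_nonneg _).trans (hM 0)
  have hfin : IsFiniteMeasure (volume.restrict (ball (0:ℂ) 1)) := ⟨by
    rw [Measure.restrict_apply_univ]
    exact measure_ball_lt_top⟩
  set C₀ : ℝ := (M * 2 ^ (1 / p)) ^ q / q * Real.pi with hC₀
  -- minimising sequence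
  set T : Set ℝ := J p κ '' {f | Adm p f} with hT
  have hTne : T.Nonempty := ⟨J p κ 0, 0, ⟨differentiableOn_const 0, by
    have : (fun z : ℂ => ‖(0 : ℂ → ℂ) z‖ ^ p) = fun _ => 0 := by
      funext z
      simp [Real.zero_rpow hp.ne']
    rw [this]
    exact integrableOn_zero⟩, rfl⟩
  have hTb : BddBelow T := by
    refine ⟨-C₀, ?_⟩
    rintro _ ⟨f, hf, rfl⟩
    have h1 := J_ge hpq hκ hM hf
    have h2 : 0 ≤ ∫ z in ball (0:ℂ) 1, ‖f z‖ ^ p := integral_nonneg fun w => by positivity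
    have h3 : 0 ≤ 1 / (2 * p) * (∫ z in ball (0:ℂ) 1, ‖f z‖ ^ p) := by positivity
    linarith
  set m : ℝ := sInf T with hm
  obtain ⟨u, hu1, hu2, hu3⟩ := exists_seq_tendsto_sInf hTne hTb
  choose f hf hfu using hu3
  have hmle : ∀ g, Adm p g → m ≤ J p κ g := fun g hg => csInf_le hTb ⟨g, hg, rfl⟩
  set B : ℝ := 2 * p * (u 0 + C₀) with hB
  have hfB : ∀ n, ∫ z in ball (0:ℂ) 1, ‖f n z‖ ^ p ≤ B := by
    intro n
    have h1 := J_ge hpq hκ hM (hf n)
    have h2 : u n ≤ u 0 := hu1 (Nat.zero_le n)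
    rw [hfu n, ← hC₀] at h1
    have h3 : 1 / (2 * p) * (∫ z in ball (0:ℂ) 1, ‖f n z‖ ^ p) ≤ u 0 + C₀ := by linarith
    rw [hB]
    rw [one_div, inv_mul_le_iff₀ (by positivity)] at h3
    exact h3
  have hloc : ∀ n r, r < 1 → ∀ z : ℂ, ‖z‖ ≤ r → ‖f n z‖ ≤ (B / (Real.pi * (1 - r) ^ 2)) ^ (1 / p) :=
    fun n r hr z hz => loc hp (hf n) (hfB n) hr hz
  -- ultralimit
  let l : Ultrafilter ℕ := Filter.hyperfilter ℕ
  have hlim : ∀ z : ℂ, ∃ x : ℂ, z ∈ ball (0:ℂ) 1 → Tendsto (fun n => f n z) l (𝓝 x) := by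
    intro z
    by_cases hz : z ∈ ball (0:ℂ) 1
    · have hz' : ‖z‖ < 1 := by rwa [mem_ball_zero_iff] at hz
      obtain ⟨x, _, hx⟩ := (isCompact_closedBall (0:ℂ) ((B / (Real.pi * (1 - ‖z‖) ^ 2)) ^ (1 / p))).ultrafilter_le_nhds
        (l.map (fun n => f n z)) (by
          rw [le_principal_iff, Ultrafilter.mem_coe, Ultrafilter.mem_map]
          refine Filter.univ_mem' fun n => ?_
          change f n z ∈ closedBall (0:ℂ) _
          rw [mem_closedBall_zero_iff]
          exact hloc n ‖z‖ hz' z le_rfl)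
      exact ⟨x, fun _ => hx⟩
    · exact ⟨0, fun h => absurd h hz⟩
  choose F₀ hF₀ using hlim
  have htlu : ∀ r : ℝ, r < 1 → TendstoLocallyUniformlyOn f F₀ l (ball 0 r) := by
    intro r hr
    apply Pool.Agent.H801R2.CX.tlu_pt isOpen_ball (M := (B / (Real.pi * (1 - r) ^ 2)) ^ (1 / p))
    · intro n
      exact (hf n).1.mono (ball_subset_ball hr.le)
    · intro n z hz
      rw [mem_ball_zero_iff] at hz
      exact hloc n r hr z hz.le
    · intro z hz
      exact hF₀ z (ball_subset_ball hr.le hz)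
  have hdiff : DifferentiableOn ℂ F₀ (ball 0 1) := by
    intro z hz
    rw [mem_ball_zero_iff] at hz
    obtain ⟨r, hr1, hr2⟩ := exists_between hz
    have h1 : DifferentiableOn ℂ F₀ (ball 0 r) :=
      (htlu r hr2).differentiableOn (Eventually.of_forall fun n => (hf n).1.mono (ball_subset_ball hr2.le))
        isOpen_ball
    exact ((h1 z (mem_ball_zero_iff.2 hr1)).differentiableAt (isOpen_ball.mem_nhds (mem_ball_zero_iff.2 hr1))).differentiableWithinAt
  -- extraction of a sequence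
  have hext : ∀ j : ℕ, ∃ n : ℕ, (∀ z : ℂ, ‖z‖ ≤ 1 - 1 / ((j : ℝ) + 2) → dist (F₀ z) (f n z) < 1 / ((j : ℝ) + 1)) ∧
      u n < m + 1 / ((j : ℝ) + 1) := by
    intro j
    have hj : (0:ℝ) < 1 / ((j : ℝ) + 1) := by positivity
    have hj2 : (0:ℝ) < 1 / ((j : ℝ) + 2) := by positivity
    obtain ⟨r, hr1, hr2⟩ := exists_between (show 1 - 1 / ((j : ℝ) + 2) < 1 by linarith)
    have h1 := (tendstoLocallyUniformlyOn_iff_forall_isCompact isOpen_ball).1 (htlu r hr2)
      (closedBall 0 (1 - 1 / ((j : ℝ) + 2))) (closedBall_subset_ball hr1) (isCompact_closedBall _ _)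
    have h2 := (Metric.tendstoUniformlyOn_iff.1 h1) _ hj
    have h3 : ∀ᶠ n in (l : Filter ℕ), u n < m + 1 / ((j : ℝ) + 1) := by
      have h4 : ∀ᶠ n in atTop, u n < m + 1 / ((j : ℝ) + 1) := hu2.eventually (gt_mem_nhds (by linarith))
      exact (Nat.hyperfilter_le_atTop) h4
    obtain ⟨n, hn1, hn2⟩ := (h2.and h3).exists
    exact ⟨n, fun z hz => hn1 z (mem_closedBall_zero_iff.2 hz), hn2⟩
  choose ν hν1 hν2 using hext
  set g : ℕ → ℂ → ℂ := fun j => f (ν j) with hg
  have hgA : ∀ j, Adm p (g j) := fun j => hf _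
  have hone : Tendsto (fun j : ℕ => 1 / ((j : ℝ) + 1)) atTop (𝓝 0) := tendsto_one_div_add_atTop_nhds_zero_nat
  have hpt : ∀ z ∈ ball (0:ℂ) 1, Tendsto (fun j => g j z) atTop (𝓝 (F₀ z)) := by
    intro z hz
    rw [mem_ball_zero_iff] at hz
    rw [tendsto_iff_dist_tendsto_zero]
    have hev : ∀ᶠ j : ℕ in atTop, ‖z‖ ≤ 1 - 1 / ((j : ℝ) + 2) := by
      have h1 : Tendsto (fun j : ℕ => 1 - 1 / ((j : ℝ) + 2)) atTop (𝓝 (1 - 0)) := by
        apply Tendsto.const_sub
        have h2 := hone.comp (tendsto_add_atTop_nat 1)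
        refine h2.congr fun j => ?_
        simp only [Function.comp_apply]
        push_cast
        congr 1
        ring
      rw [sub_zero] at h1
      filter_upwards [h1.eventually (lt_mem_nhds hz)] with j hj
      exact hj.le
    apply squeeze_zero' (Eventually.of_forall fun j => dist_nonneg) _ hone
    filter_upwards [hev] with j hj
    rw [dist_comm]
    exact (hν1 j z hj).le
  have hJg : Tendsto (fun j => J p κ (g j)) atTop (𝓝 m) := by
    have h1 : Tendsto (fun j : ℕ => m + 1 / ((j : ℝ) + 1)) atTop (𝓝 m) := by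
      have := hone.const_add m
      rwa [add_zero] at this
    refine tendsto_of_tendsto_of_tendsto_of_le_of_le tendsto_const_nhds h1 (fun j => hmle _ (hgA j)) fun j => ?_
    have := hν2 j
    rw [← hfu (ν j)] at this
    exact this.le
  -- the linear term
  have hr₀' : max r₀ 0 < 1 := max_lt hr₀ one_pos
  have hlin : Tendsto (fun j => ∫ z in ball (0:ℂ) 1, conj (κ z) * g j z) atTop
      (𝓝 (∫ z in ball (0:ℂ) 1, conj (κ z) * F₀ z)) := by
    apply tendsto_integral_of_dominated_convergence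
      (fun _ => M * (B / (Real.pi * (1 - max r₀ 0) ^ 2)) ^ (1 / p))
    · intro j
      exact (kf_int hpq hκ hM (hgA j)).aestronglyMeasurable
    · exact integrable_const _
    · intro j
      refine Eventually.of_forall fun z => ?_
      by_cases hz : ‖z‖ ≤ max r₀ 0
      · rw [norm_mul, RCLike.norm_conj]
        exact mul_le_mul (hM z) (hloc _ _ hr₀' z hz) (norm_nonneg _) hM0
      · have hz2 : r₀ < ‖z‖ := lt_of_le_of_lt (le_max_left _ _) (not_le.1 hz)
        rw [hκ0 z hz2]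
        simp only [map_zero, zero_mul, norm_zero]
        have h3 : 0 ≤ (B / (Real.pi * (1 - max r₀ 0) ^ 2)) ^ (1 / p) :=
          (norm_nonneg _).trans (hloc 0 _ hr₀' 0 (by rw [norm_zero]; exact le_max_right _ _))
        positivity
    · filter_upwards [ae_restrict_mem measurableSet_ball] with z hz
      exact (hpt z hz).const_mul _
  set L : ℂ := ∫ z in ball (0:ℂ) 1, conj (κ z) * F₀ z with hL
  have ha : Tendsto (fun j => ∫ z in ball (0:ℂ) 1, ‖g j z‖ ^ p) atTop (𝓝 (p * (m + L.re))) := by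
    have h1 : ∀ j, ∫ z in ball (0:ℂ) 1, ‖g j z‖ ^ p =
        p * (J p κ (g j) + (∫ z in ball (0:ℂ) 1, conj (κ z) * g j z).re) := by
      intro j
      unfold J
      field_simp
      ring
    simp only [h1]
    exact (hJg.add ((Complex.continuous_re.tendsto _).comp hlin)).const_mul p
  have ha0 : 0 ≤ p * (m + L.re) := ge_of_tendsto' ha fun j => integral_nonneg fun w => by positivity
  -- Fatou
  have hfatou : ∫⁻ z in ball (0:ℂ) 1, ENNReal.ofReal (‖F₀ z‖ ^ p) ≤ ENNReal.ofReal (p * (m + L.re)) := by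
    have e1 : ∫⁻ z in ball (0:ℂ) 1, ENNReal.ofReal (‖F₀ z‖ ^ p) =
        ∫⁻ z in ball (0:ℂ) 1, liminf (fun j => ENNReal.ofReal (‖g j z‖ ^ p)) atTop := by
      apply setLIntegral_congr_fun measurableSet_ball
      intro z hz
      have h1 : Tendsto (fun j => ENNReal.ofReal (‖g j z‖ ^ p)) atTop (𝓝 (ENNReal.ofReal (‖F₀ z‖ ^ p))) :=
        (ENNReal.continuous_ofReal.tendsto _).comp (((hpt z hz).norm).rpow_const (Or.inr hp.le))
      exact h1.liminf_eq.symm
    rw [e1]
    refine (lintegral_liminf_le' fun j => ?_).trans (le_of_eq ?_)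
    · exact (((meas_an (hgA j).1).norm.aemeasurable).pow_const p).ennreal_ofReal
    · have h2 : ∀ j, ∫⁻ z in ball (0:ℂ) 1, ENNReal.ofReal (‖g j z‖ ^ p) =
          ENNReal.ofReal (∫ z in ball (0:ℂ) 1, ‖g j z‖ ^ p) := fun j =>
        (ofReal_integral_eq_lintegral_ofReal (hgA j).2 (Eventually.of_forall fun w => by positivity)).symm
      simp only [h2]
      exact ((ENNReal.continuous_ofReal.tendsto _).comp ha).liminf_eq
  have hF₀A : Adm p F₀ := by
    refine ⟨hdiff, ?_⟩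
    refine ⟨(((meas_an hdiff).norm.aemeasurable).pow_const p).aestronglyMeasurable, ?_⟩
    rw [hasFiniteIntegral_iff_ofReal (Eventually.of_forall fun w => by positivity)]
    exact lt_of_le_of_lt hfatou ENNReal.ofReal_lt_top
  have hle : ∫ z in ball (0:ℂ) 1, ‖F₀ z‖ ^ p ≤ p * (m + L.re) := by
    rw [← ofReal_integral_eq_lintegral_ofReal hF₀A.2 (Eventually.of_forall fun w => by positivity)] at hfatou
    exact (ENNReal.ofReal_le_ofReal_iff ha0).1 hfatou
  have hJF : J p κ F₀ ≤ m := by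
    unfold J
    rw [← hL]
    have h1 : 1 / p * (∫ z in ball (0:ℂ) 1, ‖F₀ z‖ ^ p) ≤ 1 / p * (p * (m + L.re)) :=
      mul_le_mul_of_nonneg_left hle (by positivity)
    have h2 : 1 / p * (p * (m + L.re)) = m + L.re := by field_simp
    linarith
  -- measurable version
  classical
  refine ⟨(ball (0:ℂ) 1).piecewise F₀ 0, ?_, ?_⟩
  · exact ContinuousOn.measurable_piecewise hdiff.continuousOn continuousOn_const measurableSet_ball
  · have heq : ∀ z ∈ ball (0:ℂ) 1, (ball (0:ℂ) 1).piecewise F₀ 0 z = F₀ z := fun z hz =>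
      Set.piecewise_eq_of_mem _ _ _ hz
    refine ⟨hdiff.congr heq, ?_, ?_⟩
    · exact (integrableOn_congr_fun (fun z hz => by simp only [heq z hz]) measurableSet_ball).2 hF₀A.2
    · intro f' hf'1 hf'2
      have h1 := hmle f' ⟨hf'1, hf'2⟩
      have e1 : ∫ z in ball (0:ℂ) 1, ‖(ball (0:ℂ) 1).piecewise F₀ 0 z‖ ^ p = ∫ z in ball (0:ℂ) 1, ‖F₀ z‖ ^ p :=
        setIntegral_congr_fun measurableSet_ball fun z hz => by simp only [heq z hz]
      have e2 : ∫ z in ball (0:ℂ) 1, conj (κ z) * (ball (0:ℂ) 1).piecewise F₀ 0 z =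
          ∫ z in ball (0:ℂ) 1, conj (κ z) * F₀ z :=
        setIntegral_congr_fun measurableSet_ball fun z hz => by simp only [heq z hz]
      rw [e1, e2]
      exact (show J p κ F₀ ≤ J p κ f' from hJF.trans h1)

end Pool.Agent.L0h83.BR
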