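import Pool.Agent.L0h83.BR.Stm2
import Pool.Agent.L0h83.BR.M2
import Pool.Agent.H402R2.SubMean

/-!
# N2: submean properties
-/

set_option autoImplicit false

namespace Pool.Agent.L0h83.BR

open Complex Metric Set Filter Topology MeasureTheory ComplexConjugate
open scoped ENNReal NNReal

namespace N2_

lemma norm_add_le_of {z w : ℂ} (hz : z ∈ ball (0 : ℂ) 1) {s : ℝ} (hs : s ≤ Y z / 4) (hw : ‖w - z‖ < s) :
    w ∈ ball (0 : ℂ) 1 := by
  rw [mem_ball_zero_iff] at hz ⊢
  have h1 : ‖w‖ ≤ ‖z‖ + ‖w - z‖ := by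
    have := norm_add_le z (w - z)
    simpa using this
  unfold Y at hs
  nlinarith [norm_nonneg z]

/-- submean property in the form used here -/
lemma sub1 {p : ℝ} (hp : 1 < p) {F : ℂ → ℂ} (hF : DifferentiableOn ℂ F (ball 0 1)) {z ζ : ℂ}
    (hz : z ∈ ball (0 : ℂ) 1) {s : ℝ} (hs : 0 < s) (hζ : ‖ζ - z‖ + s ≤ Y z / 4) :
    ENNReal.ofReal (‖F ζ‖ ^ p * (Real.pi * s ^ 2)) ≤
      ∫⁻ w in ball z (Y z / 4), ENNReal.ofReal (‖F w‖ ^ p) := by
  have hsub : ball ζ s ⊆ ball z (Y z / 4) := by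
    intro w hw
    rw [mem_ball, dist_eq_norm] at hw ⊢
    have : ‖w - z‖ ≤ ‖w - ζ‖ + ‖ζ - z‖ := by
      have := norm_add_le (w - ζ) (ζ - z)
      simpa using this
    linarith
  have hsub2 : ball z (Y z / 4) ⊆ ball (0 : ℂ) 1 := by
    intro w hw
    rw [mem_ball, dist_eq_norm] at hw
    exact norm_add_le_of hz le_rfl hw
  have h1 := Pool.Agent.H402R2.SubMean.rpow_mul_le_lintegral (g := F) (w := ζ) (ρ := s) (p := p) hs
    (by linarith) (hF.mono (hsub.trans hsub2))
  refine h1.trans ?_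
  refine (lintegral_mono_set hsub).trans (le_of_eq ?_)
  congr 1
  funext w
  rw [← ofReal_norm, ENNReal.ofReal_rpow_of_nonneg (norm_nonneg _) (by linarith)]

end N2_

open N2_ M2_ in
theorem m_N2a : N2a := by
  intro p hp
  have hpi := Real.pi_pos
  refine ⟨16 / Real.pi + (8 : ℝ) ^ p * (64 / Real.pi), by positivity, fun F hF z hz => ?_⟩
  have hY := Y_pos hz
  set I : ℝ≥0∞ := ∫⁻ w in ball z (Y z / 4), ENNReal.ofReal (‖F w‖ ^ p) with hI
  by_cases hIt : I = ⊤
  · rw [hIt, ENNReal.mul_top (by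
      rw [Ne, ENNReal.ofReal_eq_zero, not_le]
      positivity)]
    exact le_top
  have hI0 : 0 ≤ I.toReal := ENNReal.toReal_nonneg
  have key : ∀ (ζ : ℂ) (s : ℝ), 0 < s → ‖ζ - z‖ + s ≤ Y z / 4 → ‖F ζ‖ ^ p * (Real.pi * s ^ 2) ≤ I.toReal := by
    intro ζ s hs h
    have h1 := sub1 hp hF hz hs h
    rw [← hI] at h1
    exact (ENNReal.ofReal_le_iff_le_toReal hIt).1 h1
  -- value
  have hv : ‖F z‖ ^ p * (Y z) ^ 2 ≤ 16 / Real.pi * I.toReal := by
    have h1 := key z (Y z / 4) (by positivity) (by simp)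
    rw [div_mul_eq_mul_div, le_div_iff₀ hpi]
    nlinarith
  -- derivative
  set M : ℝ := (64 / (Real.pi * (Y z) ^ 2) * I.toReal) ^ (1 / p) with hM
  have hp0 : 0 < p := by linarith
  have hM0 : 0 ≤ M := by rw [hM]; positivity
  have hMp : M ^ p = 64 / (Real.pi * (Y z) ^ 2) * I.toReal := by
    rw [hM, ← Real.rpow_mul (by positivity), one_div_mul_cancel hp0.ne', Real.rpow_one]
  have hsph : ∀ ζ ∈ sphere z (Y z / 8), ‖F ζ‖ ≤ M := by
    intro ζ hζ
    rw [mem_sphere, dist_eq_norm] at hζ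
    have h1 := key ζ (Y z / 8) (by positivity) (by rw [hζ]; linarith)
    rw [← Real.rpow_le_rpow_iff (norm_nonneg _) hM0 hp0, hMp]
    rw [div_mul_eq_mul_div, le_div_iff₀ (by positivity)]
    nlinarith
  have hd : ‖deriv F z‖ ≤ M / (Y z / 8) := by
    apply Complex.norm_deriv_le_of_forall_mem_sphere_norm_le (by positivity) _ hsph
    apply DifferentiableOn.diffContOnCl
    apply hF.mono
    rw [closure_ball _ (by positivity)]
    intro w hw
    rw [mem_closedBall, dist_eq_norm] at hw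
    exact norm_add_le_of hz le_rfl (lt_of_le_of_lt hw (by linarith))
  have hd2 : (Y z * ‖deriv F z‖) ^ p ≤ (8 : ℝ) ^ p * (64 / (Real.pi * (Y z) ^ 2) * I.toReal) := by
    rw [← hMp, ← Real.mul_rpow (by norm_num) hM0]
    apply Real.rpow_le_rpow (by positivity) _ hp0.le
    calc Y z * ‖deriv F z‖ ≤ Y z * (M / (Y z / 8)) := by gcongr
      _ = 8 * M := by field_simp
  have hd3 : (Y z * ‖deriv F z‖) ^ p * (Y z) ^ 2 ≤ (8 : ℝ) ^ p * (64 / Real.pi) * I.toReal := by
    calc (Y z * ‖deriv F z‖) ^ p * (Y z) ^ 2 ≤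
          ((8 : ℝ) ^ p * (64 / (Real.pi * (Y z) ^ 2) * I.toReal)) * (Y z) ^ 2 :=
          mul_le_mul_of_nonneg_right hd2 (by positivity)
      _ = _ := by field_simp
  rw [← ENNReal.ofReal_toReal hIt, ← ENNReal.ofReal_mul (by positivity)]
  apply ENNReal.ofReal_le_ofReal
  linarith

open N2_ M2_ in
theorem m_N2b : N2b := by
  intro p hp
  obtain ⟨C, hC, hN⟩ := m_N2a p hp
  have hpi := Real.pi_pos
  refine ⟨C * (9 / 16 * Real.pi), by positivity, fun F hF z₀ hz₀ ρ hρ => ?_⟩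
  have hY0 := Y_pos hz₀
  have hρ0 : 0 < ρ := by linarith
  -- a measurable version of `|F|^p`
  classical
  let g : ℂ → ℝ≥0∞ := (ball (0:ℂ) 1).piecewise (fun w => ENNReal.ofReal (‖F w‖ ^ p)) (fun _ => 0)
  have hgm : Measurable g := by
    apply ContinuousOn.measurable_piecewise _ continuousOn_const measurableSet_ball
    exact ENNReal.continuous_ofReal.comp_continuousOn
      (hF.continuousOn.norm.rpow_const fun _ _ => Or.inr (by linarith))
  have hg : ∀ w ∈ ball (0:ℂ) 1, g w = ENNReal.ofReal (‖F w‖ ^ p) := fun w hw =>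
    Set.piecewise_eq_of_mem _ _ _ hw
  have hSm : ∀ s : ℝ, MeasurableSet (S z₀ s) := fun s => measurableSet_ball.inter measurableSet_ball
  -- the relation
  let R : Set (ℂ × ℂ) := {q | ‖q.2 - q.1‖ < Y q.1 / 4}
  have hRm : MeasurableSet R := by
    apply measurableSet_lt
    · exact (measurable_snd.sub measurable_fst).norm
    · exact (Y_meas.comp measurable_fst).div_const 4
  let k : ℂ × ℂ → ℝ≥0∞ := fun q => ENNReal.ofReal ((Y q.1 ^ 2)⁻¹) * (R.indicator (fun _ => 1) q * g q.2)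
  have hkm : Measurable k := by
    apply Measurable.mul
    · exact (((Y_meas.comp measurable_fst).pow_const 2).inv).ennreal_ofReal
    · exact (measurable_const.indicator hRm).mul (hgm.comp measurable_snd)
  have Ylip : ∀ a b : ℂ, a ∈ ball (0:ℂ) 1 → b ∈ ball (0:ℂ) 1 → Y a ≤ Y b + 2 * ‖a - b‖ := by
    intro a b ha hb
    rw [mem_ball_zero_iff] at ha hb
    unfold Y
    have h1 : ‖b‖ ≤ ‖a‖ + ‖a - b‖ := by
      have := norm_sub_le a (a - b)
      simpa using this
    have h2 := norm_nonneg a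
    have h3 := norm_nonneg b
    have h4 := norm_nonneg (a - b)
    nlinarith
  -- pointwise bound
  have hpt : ∀ z ∈ S z₀ ρ, ENNReal.ofReal ((Y z * ‖deriv F z‖) ^ p) ≤
      ENNReal.ofReal C * ∫⁻ w in S z₀ (2 * ρ), k (z, w) := by
    rintro z ⟨hz1, hz2⟩
    have hYz := Y_pos hz2
    rw [mem_ball, dist_eq_norm] at hz1
    have hYρ : Y z ≤ 3 * ρ := by
      have := Ylip z z₀ hz2 hz₀
      linarith
    have hsub : ball z (Y z / 4) ⊆ S z₀ (2 * ρ) := by
      intro w hw
      rw [mem_ball, dist_eq_norm] at hw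
      refine ⟨?_, norm_add_le_of hz2 le_rfl hw⟩
      rw [mem_ball, dist_eq_norm]
      have : ‖w - z₀‖ ≤ ‖w - z‖ + ‖z - z₀‖ := by
        have := norm_add_le (w - z) (z - z₀)
        simpa using this
      linarith
    have h1 := hN F hF z hz2
    have h2 : ENNReal.ofReal ((Y z * ‖deriv F z‖) ^ p * (Y z) ^ 2) ≤
        ENNReal.ofReal C * ∫⁻ w in ball z (Y z / 4), ENNReal.ofReal (‖F w‖ ^ p) := by
      refine le_trans (ENNReal.ofReal_le_ofReal ?_) h1
      have : 0 ≤ ‖F z‖ ^ p * (Y z) ^ 2 := by positivity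
      linarith
    have h3 : ∫⁻ w in S z₀ (2 * ρ), k (z, w) ≥ ENNReal.ofReal ((Y z ^ 2)⁻¹) *
        ∫⁻ w in ball z (Y z / 4), ENNReal.ofReal (‖F w‖ ^ p) := by
      calc ENNReal.ofReal ((Y z ^ 2)⁻¹) * ∫⁻ w in ball z (Y z / 4), ENNReal.ofReal (‖F w‖ ^ p)
          = ∫⁻ w in ball z (Y z / 4), ENNReal.ofReal ((Y z ^ 2)⁻¹) * ENNReal.ofReal (‖F w‖ ^ p) :=
            (lintegral_const_mul' _ _ ENNReal.ofReal_ne_top).symm
        _ = ∫⁻ w in ball z (Y z / 4), k (z, w) := by
            apply setLIntegral_congr_fun measurableSet_ball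
            intro w hw
            have hw' : (z, w) ∈ R := by
              rw [mem_ball, dist_eq_norm] at hw
              exact hw
            simp only [k]
            rw [Set.indicator_of_mem hw', one_mul, hg w (hsub hw).2]
        _ ≤ _ := lintegral_mono_set hsub
    calc ENNReal.ofReal ((Y z * ‖deriv F z‖) ^ p)
        = ENNReal.ofReal ((Y z ^ 2)⁻¹) * ENNReal.ofReal ((Y z * ‖deriv F z‖) ^ p * (Y z) ^ 2) := by
          rw [← ENNReal.ofReal_mul (by positivity)]
          congr 1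
          field_simp
      _ ≤ ENNReal.ofReal ((Y z ^ 2)⁻¹) * (ENNReal.ofReal C *
            ∫⁻ w in ball z (Y z / 4), ENNReal.ofReal (‖F w‖ ^ p)) := by gcongr
      _ = ENNReal.ofReal C * (ENNReal.ofReal ((Y z ^ 2)⁻¹) *
            ∫⁻ w in ball z (Y z / 4), ENNReal.ofReal (‖F w‖ ^ p)) := by ring
      _ ≤ _ := by gcongr
  -- inner integral
  have hin : ∀ w ∈ S z₀ (2 * ρ), ∫⁻ z in S z₀ ρ, k (z, w) ≤
      ENNReal.ofReal (9 / 16 * Real.pi) * ENNReal.ofReal (‖F w‖ ^ p) := by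
    rintro w ⟨_, hw⟩
    have hYw := Y_pos hw
    have e1 : ∀ z ∈ S z₀ ρ, k (z, w) ≤ (ball w (Y w / 2)).indicator
        (fun _ => ENNReal.ofReal (9 / 4 * (Y w ^ 2)⁻¹) * ENNReal.ofReal (‖F w‖ ^ p)) z := by
      rintro z ⟨_, hz⟩
      have hYz := Y_pos hz
      simp only [k]
      by_cases hzw : (z, w) ∈ R
      · have h1 : ‖w - z‖ < Y z / 4 := hzw
        have h2 := Ylip z w hz hw
        rw [norm_sub_rev] at h2
        have h3 : Y z ≤ 2 * Y w := by linarith
        have h4 := Ylip w z hw hz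
        have h5 : 2 / 3 * Y w ≤ Y z := by linarith
        have hmem : z ∈ ball w (Y w / 2) := by
          rw [mem_ball, dist_eq_norm, norm_sub_rev]
          linarith
        rw [Set.indicator_of_mem hzw, Set.indicator_of_mem hmem, one_mul, hg w hw]
        gcongr
        rw [← inv_inv (9 / 4 : ℝ), ← mul_inv]
        apply inv_anti₀ (by positivity)
        nlinarith
      · rw [Set.indicator_of_notMem hzw, zero_mul, mul_zero]
        exact bot_le
    calc ∫⁻ z in S z₀ ρ, k (z, w) ≤ ∫⁻ z in S z₀ ρ, (ball w (Y w / 2)).indicator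
          (fun _ => ENNReal.ofReal (9 / 4 * (Y w ^ 2)⁻¹) * ENNReal.ofReal (‖F w‖ ^ p)) z :=
          setLIntegral_mono' (hSm ρ) e1
      _ ≤ ∫⁻ z, (ball w (Y w / 2)).indicator
          (fun _ => ENNReal.ofReal (9 / 4 * (Y w ^ 2)⁻¹) * ENNReal.ofReal (‖F w‖ ^ p)) z :=
          setLIntegral_le_lintegral _ _
      _ = ENNReal.ofReal (9 / 4 * (Y w ^ 2)⁻¹) * ENNReal.ofReal (‖F w‖ ^ p) *
            ENNReal.ofReal (Real.pi * (Y w / 2) ^ 2) := by
          rw [lintegral_indicator measurableSet_ball, setLIntegral_const]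
          congr 1
          rw [Complex.volume_ball]
          rw [ENNReal.ofReal_mul Real.pi_pos.le, ← ENNReal.ofReal_pow (by positivity), mul_comm]
          congr 1
          rw [ENNReal.ofReal, Real.toNNReal_of_nonneg Real.pi_pos.le]
          rfl
      _ = _ := by
          rw [mul_right_comm, ← ENNReal.ofReal_mul (by positivity)]
          congr 2
          field_simp
          ring
  calc ∫⁻ z in S z₀ ρ, ENNReal.ofReal ((Y z * ‖deriv F z‖) ^ p)
      ≤ ∫⁻ z in S z₀ ρ, ENNReal.ofReal C * ∫⁻ w in S z₀ (2 * ρ), k (z, w) :=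
        setLIntegral_mono' (hSm ρ) hpt
    _ = ENNReal.ofReal C * ∫⁻ z in S z₀ ρ, ∫⁻ w in S z₀ (2 * ρ), k (z, w) :=
        lintegral_const_mul' _ _ ENNReal.ofReal_ne_top
    _ = ENNReal.ofReal C * ∫⁻ w in S z₀ (2 * ρ), ∫⁻ z in S z₀ ρ, k (z, w) := by
        congr 1
        exact lintegral_lintegral_swap (f := fun z w => k (z, w)) hkm.aemeasurable
    _ ≤ ENNReal.ofReal C * ∫⁻ w in S z₀ (2 * ρ), ENNReal.ofReal (9 / 16 * Real.pi) *
          ENNReal.ofReal (‖F w‖ ^ p) := by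
        gcongr ENNReal.ofReal C * ?_
        exact setLIntegral_mono' (hSm _) hin
    _ = _ := by
        rw [lintegral_const_mul' _ _ ENNReal.ofReal_ne_top, ← mul_assoc, ← ENNReal.ofReal_mul hC.le]

end Pool.Agent.L0h83.BR
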