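import Pool.Agent.L0h83.BR.Stm3

/-! Cut-offs and weights for the Rellich identity. -/

set_option autoImplicit false

namespace Pool.Agent.L0h83.BR

open Complex Metric Set Filter Topology MeasureTheory ComplexConjugate
open scoped ENNReal NNReal
open Pool.Agent.H761R2.SV

/-! the smooth step -/

lemma dst_zero_ge {t : ℝ} (h : 1 ≤ t) : deriv Real.smoothTransition t = 0 := by
  rcases eq_or_lt_of_le h with h | h
  · have : IsLocalMax Real.smoothTransition t := by
      refine Eventually.of_forall fun s => ?_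
      rw [← h, Real.smoothTransition.one]
      exact Real.smoothTransition.le_one s
    exact this.deriv_eq_zero
  · exact dst_zero_of_gt h

lemma dst_zero_le {t : ℝ} (h : t ≤ 0) : deriv Real.smoothTransition t = 0 := by
  rcases eq_or_lt_of_le h with h | h
  · have : IsLocalMin Real.smoothTransition t := by
      refine Eventually.of_forall fun s => ?_
      rw [h, Real.smoothTransition.zero]
      exact Real.smoothTransition.nonneg s
    exact this.deriv_eq_zero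
  · exact dst_zero_of_lt h

lemma ddst_zero_ge {t : ℝ} (h : 1 ≤ t) : deriv (deriv Real.smoothTransition) t = 0 := by
  have : IsLocalMin (deriv Real.smoothTransition) t := by
    refine Eventually.of_forall fun s => ?_
    rw [dst_zero_ge h]
    exact dst_nonneg s
  exact this.deriv_eq_zero

lemma ddst_zero_le {t : ℝ} (h : t ≤ 0) : deriv (deriv Real.smoothTransition) t = 0 := by
  have : IsLocalMin (deriv Real.smoothTransition) t := by
    refine Eventually.of_forall fun s => ?_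
    rw [dst_zero_le h]
    exact dst_nonneg s
  exact this.deriv_eq_zero

lemma dst_contDiff : ContDiff ℝ 2 (deriv Real.smoothTransition) := by
  have h : ContDiff ℝ (2 + 1) Real.smoothTransition := Real.smoothTransition.contDiff (n := 3)
  exact h.deriv' 

lemma ddst_bdd : ∃ M : ℝ, 0 < M ∧ ∀ t, |deriv (deriv Real.smoothTransition) t| ≤ M := by
  have hc : Continuous (deriv (deriv Real.smoothTransition)) :=
    dst_contDiff.continuous_deriv (by norm_num)
  obtain ⟨M, hM⟩ := isCompact_Icc.exists_bound_of_continuousOn (s := Icc (0:ℝ) 1)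
    (f := deriv (deriv Real.smoothTransition)) hc.continuousOn
  refine ⟨|M| + 1, by positivity, fun t => ?_⟩
  rcases lt_or_ge t 0 with h | h
  · rw [ddst_zero_le h.le, abs_zero]; positivity
  rcases lt_or_ge 1 t with h' | h'
  · rw [ddst_zero_ge h'.le, abs_zero]; positivity
  have := hM t ⟨h, h'⟩
  rw [Real.norm_eq_abs] at this
  have h3 := le_abs_self M
  linarith

noncomputable def MT2 : ℝ := ddst_bdd.choose

lemma MT2_pos : 0 < MT2 := ddst_bdd.choose_spec.1

lemma ddst_le (t : ℝ) : |deriv (deriv Real.smoothTransition) t| ≤ MT2 := ddst_bdd.choose_spec.2 t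

/-! the profile and its derivatives -/

noncomputable def e1R (R t : ℝ) : ℝ := -(deriv Real.smoothTransition ((t / R ^ 2 - 1) / 3) / (3 * R ^ 2))

noncomputable def e2R (R t : ℝ) : ℝ :=
  -(deriv (deriv Real.smoothTransition) ((t / R ^ 2 - 1) / 3) / (3 * R ^ 2) ^ 2)

lemma inner_deriv (R t : ℝ) (hR : 0 < R) :
    HasDerivAt (fun t : ℝ => (t / R ^ 2 - 1) / 3) (1 / (3 * R ^ 2)) t := by
  have h := (((hasDerivAt_id t).div_const (R ^ 2)).sub_const 1).div_const 3
  refine h.congr_deriv ?_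
  field_simp

lemma etaR_deriv {R : ℝ} (hR : 0 < R) (t : ℝ) : HasDerivAt (etaR R) (e1R R t) t := by
  have h2 : DifferentiableAt ℝ Real.smoothTransition ((t / R ^ 2 - 1) / 3) :=
    (Real.smoothTransition.contDiff (n := 1)).differentiable (by simp) _
  have h3 := (h2.hasDerivAt.comp t (inner_deriv R t hR)).const_sub 1
  refine h3.congr_deriv ?_
  unfold e1R; ring

lemma e1R_deriv {R : ℝ} (hR : 0 < R) (t : ℝ) : HasDerivAt (e1R R) (e2R R t) t := by
  have h2 : DifferentiableAt ℝ (deriv Real.smoothTransition) ((t / R ^ 2 - 1) / 3) :=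
    dst_contDiff.differentiable (by norm_num) _
  have h3 := ((h2.hasDerivAt.comp t (inner_deriv R t hR)).div_const (3 * R ^ 2)).neg
  refine h3.congr_deriv ?_
  unfold e2R; field_simp

noncomputable def e1 (z₀ : ℂ) (R : ℝ) (z : ℂ) : ℂ := ((e1R R (‖z - z₀‖ ^ 2) : ℝ) : ℂ)

noncomputable def e2 (z₀ : ℂ) (R : ℝ) (z : ℂ) : ℂ := ((e2R R (‖z - z₀‖ ^ 2) : ℝ) : ℂ)

variable {z₀ : ℂ} {R : ℝ}

lemma dbar_eta (hR : 0 < R) (z : ℂ) : dbar (eta z₀ R) z = e1 z₀ R z * (z - z₀) := by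
  have h := dbar_rad (z := z) (z₀ := z₀) (etaR_deriv hR (‖z - z₀‖ ^ 2))
  exact h

lemma dz_eta (hR : 0 < R) (z : ℂ) : dz (eta z₀ R) z = e1 z₀ R z * conj (z - z₀) := by
  have h := dz_rad (z := z) (z₀ := z₀) (etaR_deriv hR (‖z - z₀‖ ^ 2))
  exact h

lemma dbar_e1 (hR : 0 < R) (z : ℂ) : dbar (e1 z₀ R) z = e2 z₀ R z * (z - z₀) := by
  have h := dbar_rad (z := z) (z₀ := z₀) (e1R_deriv hR (‖z - z₀‖ ^ 2))
  exact h

lemma eta_contDiff (z₀ : ℂ) (R : ℝ) : ContDiff ℝ 2 (eta z₀ R) := by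
  unfold eta etaR
  apply Complex.ofRealCLM.contDiff.comp
  apply ContDiff.sub contDiff_const
  apply (Real.smoothTransition.contDiff (n := 2)).comp
  exact ((((contDiff_id.sub contDiff_const).norm_sq ℝ).div_const _).sub contDiff_const).div_const _

lemma e1_contDiff (z₀ : ℂ) (R : ℝ) : ContDiff ℝ 2 (e1 z₀ R) := by
  unfold e1 e1R
  apply Complex.ofRealCLM.contDiff.comp
  apply ContDiff.neg
  apply ContDiff.div_const
  apply dst_contDiff.comp
  exact ((((contDiff_id.sub contDiff_const).norm_sq ℝ).div_const _).sub contDiff_const).div_const _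

lemma prof_ge (hR : 0 < R) {z : ℂ} (h : 2 * R ≤ ‖z - z₀‖) : 1 ≤ (‖z - z₀‖ ^ 2 / R ^ 2 - 1) / 3 := by
  rw [le_div_iff₀ (by norm_num), le_sub_iff_add_le, le_div_iff₀ (by positivity)]
  nlinarith

lemma prof_le (hR : 0 < R) {z : ℂ} (h : ‖z - z₀‖ ≤ R) : (‖z - z₀‖ ^ 2 / R ^ 2 - 1) / 3 ≤ 0 := by
  rw [div_le_iff₀ (by norm_num), zero_mul, sub_nonpos, div_le_iff₀ (by positivity)]
  nlinarith [norm_nonneg (z - z₀)]

lemma eta_zero (hR : 0 < R) {z : ℂ} (h : 2 * R ≤ ‖z - z₀‖) : eta z₀ R z = 0 := by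
  unfold eta etaR
  rw [Real.smoothTransition.one_of_one_le (prof_ge hR h)]
  simp

lemma eta_one (hR : 0 < R) {z : ℂ} (h : ‖z - z₀‖ ≤ R) : eta z₀ R z = 1 := by
  unfold eta etaR
  rw [Real.smoothTransition.zero_of_nonpos (prof_le hR h)]
  simp

lemma etaR_nonneg (R t : ℝ) : 0 ≤ etaR R t := by
  unfold etaR
  have := Real.smoothTransition.le_one ((t / R ^ 2 - 1) / 3)
  linarith

lemma etaR_le_one (R t : ℝ) : etaR R t ≤ 1 := by
  unfold etaR
  have := Real.smoothTransition.nonneg ((t / R ^ 2 - 1) / 3)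
  linarith

lemma norm_eta_le (z₀ : ℂ) (R : ℝ) (z : ℂ) : ‖eta z₀ R z‖ ≤ 1 := by
  unfold eta
  rw [Complex.norm_real, Real.norm_eq_abs, abs_of_nonneg (etaR_nonneg _ _)]
  exact etaR_le_one _ _

lemma e1_zero_ge (hR : 0 < R) {z : ℂ} (h : 2 * R ≤ ‖z - z₀‖) : e1 z₀ R z = 0 := by
  unfold e1 e1R
  rw [dst_zero_ge (prof_ge hR h)]
  simp

lemma e1_zero_le (hR : 0 < R) {z : ℂ} (h : ‖z - z₀‖ ≤ R) : e1 z₀ R z = 0 := by
  unfold e1 e1R
  rw [dst_zero_le (prof_le hR h)]
  simp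

lemma e2_zero_ge (hR : 0 < R) {z : ℂ} (h : 2 * R ≤ ‖z - z₀‖) : e2 z₀ R z = 0 := by
  unfold e2 e2R
  rw [ddst_zero_ge (prof_ge hR h)]
  simp

lemma e2_zero_le (hR : 0 < R) {z : ℂ} (h : ‖z - z₀‖ ≤ R) : e2 z₀ R z = 0 := by
  unfold e2 e2R
  rw [ddst_zero_le (prof_le hR h)]
  simp

lemma norm_e1_le (hR : 0 < R) (z : ℂ) : ‖e1 z₀ R z‖ ≤ MT / (3 * R ^ 2) := by
  unfold e1 e1R
  rw [Complex.norm_real, norm_neg, Real.norm_eq_abs, abs_of_nonneg (div_nonneg (dst_nonneg _)
    (by positivity))]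
  exact div_le_div_of_nonneg_right (dst_le _) (by positivity)

lemma norm_e2_le (hR : 0 < R) (z : ℂ) : ‖e2 z₀ R z‖ ≤ MT2 / (3 * R ^ 2) ^ 2 := by
  unfold e2 e2R
  rw [Complex.norm_real, norm_neg, Real.norm_eq_abs, abs_div,
    abs_of_nonneg (show (0:ℝ) ≤ (3 * R ^ 2) ^ 2 by positivity)]
  exact div_le_div_of_nonneg_right (ddst_le _) (by positivity)

/-- `dbar` of `conj (z - z₀)` -/
lemma hasFDerivAt_conj (z₀ z : ℂ) :
    HasFDerivAt (fun w : ℂ => conj (w - z₀)) (Complex.conjCLE : ℂ →L[ℝ] ℂ) z := by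
  have h0 : HasFDerivAt (fun w : ℂ => w - z₀) (ContinuousLinearMap.id ℝ ℂ) z :=
    (hasFDerivAt_id z).sub_const z₀
  have h1 := (Complex.conjCLE : ℂ →L[ℝ] ℂ).hasFDerivAt (x := z - z₀)
  have h2 := h1.comp z h0
  rw [ContinuousLinearMap.comp_id] at h2
  exact h2

lemma dbar_conj (z₀ z : ℂ) : dbar (fun w : ℂ => conj (w - z₀)) z = 1 := by
  simp only [dbar]
  rw [(hasFDerivAt_conj z₀ z).fderiv]
  simp only [ContinuousLinearEquiv.coe_coe, Complex.conjCLE_apply, map_one, Complex.conj_I]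
  have := I_mul_I
  linear_combination (-1/2 : ℂ) * this

lemma conj_contDiff (z₀ : ℂ) {n : ℕ∞} : ContDiff ℝ n (fun w : ℂ => conj (w - z₀)) :=
  (Complex.conjCLE : ℂ →L[ℝ] ℂ).contDiff.comp (contDiff_id.sub contDiff_const)

/-! the weight -/

lemma re_pos {a z : ℂ} (ha : a ∈ (ball (0:ℂ) 1)) (hz : z ∈ (ball (0:ℂ) 1)) : 0 < (1 - conj a * z).re := by
  have h1 : ‖a‖ < 1 := by simpa using ha
  have h2 : ‖z‖ < 1 := by simpa using hz
  have h3 : (conj a * z).re ≤ ‖a‖ * ‖z‖ := by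
    refine (Complex.re_le_norm _).trans ?_
    rw [norm_mul, RCLike.norm_conj]
  have h4 : ‖a‖ * ‖z‖ < 1 := by
    have := norm_nonneg a
    have := norm_nonneg z
    nlinarith
  rw [Complex.sub_re, Complex.one_re]
  linarith

/-- derivative of the weight -/
noncomputable def hw' (α : ℝ) (a z : ℂ) : ℂ :=
  α * conj a * (1 - conj a * z) ^ (-(α : ℂ) - 1)

lemma hw_deriv {α : ℝ} {a z : ℂ} (ha : a ∈ (ball (0:ℂ) 1)) (hz : z ∈ (ball (0:ℂ) 1)) :
    HasDerivAt (hw α a) (hw' α a z) z := by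
  have h1 : HasDerivAt (fun z : ℂ => 1 - conj a * z) (-(conj a)) z := by
    have := ((hasDerivAt_id z).const_mul (conj a)).const_sub 1
    simpa using this
  have h2 : (1 - conj a * z) ∈ slitPlane := Or.inl (re_pos ha hz)
  have h3 := h1.cpow_const (c := -(α : ℂ)) h2
  refine h3.congr_deriv ?_
  unfold hw'; ring

lemma hw_an {α : ℝ} {a : ℂ} (ha : a ∈ (ball (0:ℂ) 1)) : DifferentiableOn ℂ (hw α a) (ball (0:ℂ) 1) := fun _ hz =>
  (hw_deriv ha hz).differentiableAt.differentiableWithinAt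

lemma hw'_an {α : ℝ} {a : ℂ} (ha : a ∈ (ball (0:ℂ) 1)) : DifferentiableOn ℂ (hw' α a) (ball (0:ℂ) 1) := by
  intro z hz
  have h1 : HasDerivAt (fun z : ℂ => 1 - conj a * z) (-(conj a)) z := by
    have := ((hasDerivAt_id z).const_mul (conj a)).const_sub 1
    simpa using this
  have h2 : (1 - conj a * z) ∈ slitPlane := Or.inl (re_pos ha hz)
  have h3 := (h1.cpow_const (c := -(α : ℂ) - 1) h2).const_mul (α * conj a)
  exact h3.differentiableAt.differentiableWithinAt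

lemma norm_hw (α : ℝ) (a z : ℂ) : ‖hw α a z‖ = ‖1 - conj a * z‖ ^ (-α) := by
  unfold hw
  rw [← Complex.ofReal_neg, Complex.norm_cpow_real]

lemma norm_hw'_le {α : ℝ} (hα : 0 < α) (hα1 : α < 1) {a : ℂ} (ha : a ∈ (ball (0:ℂ) 1)) (z : ℂ) :
    ‖hw' α a z‖ ≤ ‖1 - conj a * z‖ ^ (-α - 1) := by
  have h1 : ‖a‖ < 1 := by simpa using ha
  unfold hw'
  rw [norm_mul, norm_mul, RCLike.norm_conj, Complex.norm_real, Real.norm_eq_abs, abs_of_pos hα]
  have h2 : (-(α : ℂ) - 1) = ((-α - 1 : ℝ) : ℂ) := by push_cast; ring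
  rw [h2, Complex.norm_cpow_real]
  have h3 : α * ‖a‖ ≤ 1 := by
    have := norm_nonneg a
    nlinarith
  exact mul_le_of_le_one_left (by positivity) h3

lemma norm_one_sub_sq (a z : ℂ) : ‖1 - conj a * z‖ ^ 2 = ‖a - z‖ ^ 2 + Y a * Y z := by
  unfold Y
  rw [← Complex.normSq_eq_norm_sq, ← Complex.normSq_eq_norm_sq, ← Complex.normSq_eq_norm_sq,
    ← Complex.normSq_eq_norm_sq]
  simp only [Complex.normSq_apply, Complex.sub_re, Complex.sub_im, Complex.one_re, Complex.one_im,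
    Complex.mul_re, Complex.mul_im, Complex.conj_re, Complex.conj_im]
  ring

lemma norm_sub_le_one_sub {a z : ℂ} (ha : a ∈ (ball (0:ℂ) 1)) (hz : z ∈ (ball (0:ℂ) 1)) : ‖a - z‖ ≤ ‖1 - conj a * z‖ := by
  have h := norm_one_sub_sq a z
  have h1 := Y_pos ha
  have h2 := Y_pos hz
  have h3 : 0 < Y a * Y z := mul_pos h1 h2
  have := norm_nonneg (a - z)
  have := norm_nonneg (1 - conj a * z)
  nlinarith

lemma Y_le_add {z₀ z : ℂ} (h0 : z₀ ∈ (ball (0:ℂ) 1)) (hz : z ∈ (ball (0:ℂ) 1)) : Y z ≤ Y z₀ + 2 * ‖z - z₀‖ := by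
  have h1 : ‖z₀‖ < 1 := by simpa using h0
  have h2 : ‖z‖ < 1 := by simpa using hz
  have h3 : ‖z₀‖ ≤ ‖z‖ + ‖z - z₀‖ := by
    calc ‖z₀‖ = ‖z - (z - z₀)‖ := by congr 1; ring
      _ ≤ _ := norm_sub_le _ _
  unfold Y
  have := norm_nonneg z
  have := norm_nonneg z₀
  have h4 := norm_nonneg (z - z₀)
  nlinarith

/-- the derivative of `|F|^p` -/
lemma dz_norm_rpow {p : ℝ} (hp : 1 < p) {F : ℂ → ℂ} {z : ℂ} (h : DifferentiableAt ℂ F z) :
    dz (fun w => ((‖F w‖ ^ p : ℝ) : ℂ)) z = (p / 2) * (conj (A p (F z)) * deriv F z) := by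
  have h1 : HasFDerivAt F ((fderiv ℂ F z).restrictScalars ℝ) z := h.hasFDerivAt.restrictScalars ℝ
  have h2 := (hasFDerivAt_norm_rpow (F z) hp).comp z h1
  have h3 := (Complex.ofRealCLM.hasFDerivAt (x := ‖F z‖ ^ p)).comp z h2
  simp only [dz]
  have e : (fun w => ((‖F w‖ ^ p : ℝ) : ℂ)) = (Complex.ofRealCLM : ℝ → ℂ) ∘ ((fun x : ℂ => ‖x‖ ^ p) ∘ F) := rfl
  rw [e, h3.fderiv]
  simp only [ContinuousLinearMap.comp_apply, smul_apply, innerSL_apply_apply,
    Complex.ofRealCLM_apply, Complex.inner, smul_eq_mul, ContinuousLinearMap.coe_restrictScalars']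
  have e1 : fderiv ℂ F z 1 = deriv F z := by rw [fderiv_apply_one_eq_deriv]
  have e2 : fderiv ℂ F z I = deriv F z * I := by
    rw [show fderiv ℂ F z I = fderiv ℂ F z (I • (1:ℂ)) by simp, map_smul,
      fderiv_apply_one_eq_deriv, smul_eq_mul, mul_comm]
  rw [e1, e2]
  unfold A
  rw [map_mul, Complex.conj_ofReal]
  apply Complex.ext
  · simp
    ring
  · simp
    ring

/-- the integral of `∂G/∂z` vanishes -/
lemma int_dz {G : ℂ → ℂ} (hG : ContDiff ℝ 1 G) (hc : HasCompactSupport G) : ∫ z, dz G z = 0 := by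
  have hd : Continuous (fderiv ℝ G) := hG.continuous_fderiv (by simp)
  have hdc : HasCompactSupport (fderiv ℝ G) := hc.fderiv ℝ
  have h1 : ∀ v : ℂ, Integrable (fun x => fderiv ℝ G x v) := by
    intro v
    apply Continuous.integrable_of_hasCompactSupport (hd.clm_apply continuous_const)
    apply hdc.mono
    intro x hx
    rw [Function.mem_support] at hx ⊢
    intro h
    apply hx
    rw [h]; simp
  have h2 : ∀ v : ℂ, ∫ x, fderiv ℝ G x v = 0 := by
    intro v
    have := integral_mul_fderiv_eq_neg_fderiv_mul_of_integrable (μ := (volume : Measure ℂ))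
      (f := fun _ : ℂ => (1:ℂ)) (g := G) (v := v) (by simp) (by simpa using h1 v)
      (by simpa using hG.continuous.integrable_of_hasCompactSupport hc)
      (fun x _ => differentiableAt_const _)
      (fun x _ => (hG.differentiable (by simp)) x)
    simpa using this
  unfold dz
  rw [integral_div, integral_sub (h1 1) ((h1 I).const_mul I), integral_const_mul, h2, h2]
  simp

/-- convergence of truncated integrals -/
lemma chi_lim {J : ℂ → ℂ} (hJ : IntegrableOn J (ball (0:ℂ) 1)) :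
    Tendsto (fun ε : ℝ => ∫ w in (ball (0:ℂ) 1), chi ε w * J w) (𝓝[>] 0) (𝓝 (∫ w in (ball (0:ℂ) 1), J w)) := by
  have hYev : ∀ z ∈ (ball (0:ℂ) 1), ∀ᶠ ε : ℝ in 𝓝[>] 0, 0 < ε ∧ 2 * ε < Y z := by
    intro z hz
    have hY := Y_pos hz
    have : ∀ᶠ ε : ℝ in 𝓝 0, 2 * ε < Y z := by
      have hc : ContinuousAt (fun ε : ℝ => 2 * ε) 0 := by fun_prop
      exact hc.eventually_lt continuousAt_const (by simpa using hY)
    filter_upwards [self_mem_nhdsWithin, mem_nhdsWithin_of_mem_nhds this] with ε h1 h2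
    exact ⟨h1, h2⟩
  apply tendsto_integral_filter_of_dominated_convergence (fun w => ‖J w‖)
  · refine Eventually.of_forall fun ε => ?_
    exact ((chi_contDiff ε (n := 1)).continuous.aestronglyMeasurable
      (μ := volume.restrict (ball (0:ℂ) 1))).mul hJ.aestronglyMeasurable
  · refine Eventually.of_forall fun ε => Eventually.of_forall fun w => ?_
    rw [norm_mul]
    exact mul_le_of_le_one_left (norm_nonneg _) (norm_chi_le ε w)
  · exact hJ.norm
  · refine (ae_restrict_iff' measurableSet_ball).2 (Eventually.of_forall fun w hw => ?_)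
    refine tendsto_const_nhds.congr' ?_
    filter_upwards [hYev w hw] with ε hε
    rw [chi_eq_one hε.1 hε.2.le, one_mul]

end Pool.Agent.L0h83.BR
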