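import Pool.Agent.L0h83.BR.R0
import Pool.Agent.L0h83.BR.N2
import Pool.Agent.L0h83.BR.M1
import Pool.Agent.L0h83.BR.M2

/-! The Rellich identity. -/

set_option autoImplicit false

namespace Pool.Agent.L0h83.BR

open Complex Metric Set Filter Topology MeasureTheory ComplexConjugate
open scoped ENNReal NNReal
open Pool.Agent.H761R2.SV

/-- `L^r` on the disc -/
structure LP (r : ℝ) (f : ℂ → ℂ) : Prop where
  m : AEStronglyMeasurable f (volume.restrict (ball (0:ℂ) 1))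
  i : IntegrableOn (fun z => ‖f z‖ ^ r) (ball (0:ℂ) 1)

lemma LP.add {r : ℝ} (hr : 0 ≤ r) {f g : ℂ → ℂ} (hf : LP r f) (hg : LP r g) :
    LP r (fun z => f z + g z) :=
  ⟨hf.m.add hg.m, by
    have := int_add' hr hf.m hg.m hf.i hg.i 1
    refine this.congr (Eventually.of_forall fun z => ?_)
    simp⟩

lemma LP.bmul {r : ℝ} (hr : 0 ≤ r) {b f : ℂ → ℂ} {M : ℝ}
    (hb : AEStronglyMeasurable b (volume.restrict (ball (0:ℂ) 1))) (hM : ∀ z ∈ (ball (0:ℂ) 1), ‖b z‖ ≤ M) (hf : LP r f) :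
    LP r (fun z => b z * f z) := by
  refine ⟨hb.mul hf.m, ?_⟩
  refine Integrable.mono' (hf.i.const_mul (M ^ r))
    ((hb.mul hf.m).norm.aemeasurable.pow_const r).aestronglyMeasurable ?_
  refine (ae_restrict_iff' measurableSet_ball).2 (Eventually.of_forall fun z hz => ?_)
  have hM0 : 0 ≤ M := (norm_nonneg _).trans (hM z hz)
  rw [Real.norm_eq_abs, abs_of_nonneg (by positivity), norm_mul,
    Real.mul_rpow (norm_nonneg _) (norm_nonneg _)]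
  gcongr
  exact hM z hz

lemma LP.mul {p q : ℝ} (hpq : p.HolderConjugate q) {f g : ℂ → ℂ} (hf : LP q f) (hg : LP p g) :
    IntegrableOn (fun z => f z * g z) (ball (0:ℂ) 1) := int_young hpq hg.m hf.m hg.i hf.i

variable {p q α : ℝ} {κ F : ℂ → ℂ} {z₀ a : ℂ} {R : ℝ}

lemma Dat.LF (h : Dat p q κ F) : LP p F := ⟨meas_an h.sol.an, h.sol.int⟩

lemma Dat.Lph (h : Dat p q κ F) : LP q (ph p κ F) := ⟨h.phm.aestronglyMeasurable, h.phq⟩

lemma Dat.LD (h : Dat p q κ F) (τ : ℝ) : LP p (Dq F τ) := by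
  have h1 : LP p (fun z => F (rot τ z) - F z) :=
    ⟨(meas_an (rot_an h.sol.an τ)).sub (meas_an h.sol.an),
      int_sub' h.hpq.nonneg (meas_an (rot_an h.sol.an τ)) (meas_an h.sol.an)
        (integrable_rot τ h.sol.int) h.sol.int⟩
  have h2 := LP.bmul (b := fun _ => (I * τ)⁻¹) (M := ‖(I * τ)⁻¹‖) h.hpq.nonneg
    aestronglyMeasurable_const (fun _ _ => le_rfl) h1
  have e : Dq F τ = fun z => (I * τ)⁻¹ * (F (rot τ z) - F z) := by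
    funext z; unfold Dq; rw [div_eq_inv_mul]
  rw [e]; exact h2

lemma Dat.LV (h : Dat p q κ F) (hG4 : G4) : LP q (fun z => cv (ph p κ F) z / Y z) := by
  have hm : Measurable (fun z => cv (ph p κ F) z / (Y z : ℂ)) :=
    (cv_meas h.phm).div (Complex.measurable_ofReal.comp continuous_Y.measurable)
  refine ⟨hm.aestronglyMeasurable, ⟨(hm.norm.pow_const q).aestronglyMeasurable, ?_⟩⟩
  unfold HasFiniteIntegral
  have e : ∫⁻ z in (ball (0:ℂ) 1), ‖‖cv (ph p κ F) z / (Y z : ℂ)‖ ^ q‖ₑ = ∫⁻ z in (ball (0:ℂ) 1), Vf (ph p κ F) z ^ q := by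
    apply setLIntegral_congr_fun measurableSet_ball
    intro z hz
    have hY := Y_pos hz
    simp only
    unfold Vf
    rw [← ofReal_norm (‖cv (ph p κ F) z / (Y z : ℂ)‖ ^ q), Real.norm_eq_abs,
      abs_of_nonneg (by positivity), ENNReal.ofReal_rpow_of_nonneg (by positivity)
      h.hpq.symm.nonneg, norm_div, Complex.norm_real, Real.norm_eq_abs, abs_of_pos hY]
  rw [e]
  exact lt_top_iff_ne_top.2 (h.Vq hG4)

lemma Dat.Lv (h : Dat p q κ F) (hG4 : G4) : LP q (cv (ph p κ F)) := by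
  have h1 := LP.bmul (b := fun z => (Y z : ℂ)) (M := 1) h.hpq.symm.nonneg
    (Complex.continuous_ofReal.comp continuous_Y).aestronglyMeasurable ?_ (h.LV hG4)
  · refine ⟨(cv_meas h.phm).aestronglyMeasurable, h1.i.congr ?_⟩
    refine (ae_restrict_iff' measurableSet_ball).2 (Eventually.of_forall fun z hz => ?_)
    have hY : (Y z : ℂ) ≠ 0 := by exact_mod_cast (Y_pos hz).ne'
    simp only
    rw [mul_div_cancel₀ _ hY]
  · intro z hz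
    have := Y_pos hz
    rw [Complex.norm_real, Real.norm_eq_abs, abs_of_pos this]
    unfold Y
    nlinarith [sq_nonneg ‖z‖]

/-! bounds of the weight -/

lemma low_bd {z : ℂ} (hz : z ∈ (ball (0:ℂ) 1)) : 1 - ‖a‖ ≤ ‖1 - conj a * z‖ := by
  have h1 : ‖z‖ < 1 := by simpa using hz
  have h3 := norm_sub_norm_le (1:ℂ) (conj a * z)
  rw [norm_one, norm_mul, RCLike.norm_conj] at h3
  have := norm_nonneg a
  have h4 : ‖a‖ * ‖z‖ ≤ ‖a‖ := mul_le_of_le_one_right this h1.le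
  linarith

lemma one_sub_pos (ha : a ∈ (ball (0:ℂ) 1)) : 0 < 1 - ‖a‖ := by
  have h1 : ‖a‖ < 1 := by simpa using ha
  linarith

lemma hw_bd (hα : 0 < α) (ha : a ∈ (ball (0:ℂ) 1)) {z : ℂ} (hz : z ∈ (ball (0:ℂ) 1)) :
    ‖hw α a z‖ ≤ (1 - ‖a‖) ^ (-α) := by
  rw [norm_hw]
  exact Real.rpow_le_rpow_of_nonpos (one_sub_pos ha) (low_bd hz) (by linarith)

lemma hw'_bd (hα : 0 < α) (hα1 : α < 1) (ha : a ∈ (ball (0:ℂ) 1)) {z : ℂ} (hz : z ∈ (ball (0:ℂ) 1)) :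
    ‖hw' α a z‖ ≤ (1 - ‖a‖) ^ (-α - 1) := by
  refine (norm_hw'_le hα hα1 ha z).trans ?_
  exact Real.rpow_le_rpow_of_nonpos (one_sub_pos ha) (low_bd hz) (by linarith)

lemma sub_bd (h0 : z₀ ∈ (ball (0:ℂ) 1)) {z : ℂ} (hz : z ∈ (ball (0:ℂ) 1)) : ‖z - z₀‖ ≤ 2 := by
  have h1 : ‖z‖ < 1 := by simpa using hz
  have h2 : ‖z₀‖ < 1 := by simpa using h0
  have := norm_sub_le z z₀
  linarith

/-! the test function -/

noncomputable def Bf (z₀ : ℂ) (R α : ℝ) (a w : ℂ) : ℂ :=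
  eta z₀ R w * hw α a w + w * (e1 z₀ R w * conj (w - z₀)) * hw α a w + w * eta z₀ R w * hw' α a w

noncomputable def Ef (z₀ : ℂ) (R α : ℝ) (a w : ℂ) : ℂ :=
  (e1 z₀ R w * (w - z₀) + w * (e2 z₀ R w * (w - z₀) * conj (w - z₀) + e1 z₀ R w)) * hw α a w +
    w * (e1 z₀ R w * (w - z₀)) * hw' α a w

noncomputable def Xf (z₀ : ℂ) (R α : ℝ) (a w : ℂ) : ℂ := w * (eta z₀ R w * hw α a w)

noncomputable def Pf (p : ℝ) (F : ℂ → ℂ) (z₀ : ℂ) (R α : ℝ) (a : ℂ) (τ : ℝ) (w : ℂ) : ℂ :=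
  Bf z₀ R α a w * F w + (p / 2) * (eta z₀ R w * hw α a w) * Dq F τ w

lemma rd {f : ℂ → ℂ} (hf : DifferentiableOn ℂ f (ball (0:ℂ) 1)) {z : ℂ} (hz : z ∈ (ball (0:ℂ) 1)) :
    DifferentiableAt ℂ f z := hf.differentiableAt (isOpen_ball.mem_nhds hz)

lemma rdr {f : ℂ → ℂ} (hf : DifferentiableOn ℂ f (ball (0:ℂ) 1)) {z : ℂ} (hz : z ∈ (ball (0:ℂ) 1)) :
    DifferentiableAt ℝ f z := (rd hf hz).restrictScalars ℝ

lemma an_c1 {f : ℂ → ℂ} (hf : DifferentiableOn ℂ f (ball (0:ℂ) 1)) : ContDiffOn ℝ 1 f (ball (0:ℂ) 1) :=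
  (hf.contDiffOn isOpen_ball (n := 1)).restrict_scalars ℝ

lemma eta_da (z₀ : ℂ) (R : ℝ) (z : ℂ) : DifferentiableAt ℝ (eta z₀ R) z :=
  (eta_contDiff z₀ R).differentiable (by norm_num) z

lemma e1_da (z₀ : ℂ) (R : ℝ) (z : ℂ) : DifferentiableAt ℝ (e1 z₀ R) z :=
  (e1_contDiff z₀ R).differentiable (by norm_num) z

lemma Bf_c1 (ha : a ∈ (ball (0:ℂ) 1)) : ContDiffOn ℝ 1 (Bf z₀ R α a) (ball (0:ℂ) 1) := by
  have h1 : ContDiffOn ℝ 1 (eta z₀ R) (ball (0:ℂ) 1) := ((eta_contDiff z₀ R).of_le (by norm_num)).contDiffOn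
  have h2 : ContDiffOn ℝ 1 (e1 z₀ R) (ball (0:ℂ) 1) := ((e1_contDiff z₀ R).of_le (by norm_num)).contDiffOn
  have h3 : ContDiffOn ℝ 1 (fun w : ℂ => conj (w - z₀)) (ball (0:ℂ) 1) := (conj_contDiff z₀ (n := 1)).contDiffOn
  have h4 : ContDiffOn ℝ 1 (fun w : ℂ => w) (ball (0:ℂ) 1) := contDiffOn_id
  have h5 := an_c1 (hw_an (α := α) ha)
  have h6 := an_c1 (hw'_an (α := α) ha)
  exact ((h1.mul h5).add ((h4.mul (h2.mul h3)).mul h5)).add ((h4.mul h1).mul h6)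

lemma Xf_c1 (ha : a ∈ (ball (0:ℂ) 1)) : ContDiffOn ℝ 1 (Xf z₀ R α a) (ball (0:ℂ) 1) := by
  have h1 : ContDiffOn ℝ 1 (eta z₀ R) (ball (0:ℂ) 1) := ((eta_contDiff z₀ R).of_le (by norm_num)).contDiffOn
  have h4 : ContDiffOn ℝ 1 (fun w : ℂ => w) (ball (0:ℂ) 1) := contDiffOn_id
  exact h4.mul (h1.mul (an_c1 (hw_an (α := α) ha)))

lemma Pf_c1 (ha : a ∈ (ball (0:ℂ) 1)) (hF : DifferentiableOn ℂ F (ball (0:ℂ) 1)) (τ : ℝ) :
    ContDiffOn ℝ 1 (Pf p F z₀ R α a τ) (ball (0:ℂ) 1) := by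
  have h1 : ContDiffOn ℝ 1 (eta z₀ R) (ball (0:ℂ) 1) := ((eta_contDiff z₀ R).of_le (by norm_num)).contDiffOn
  have h5 := an_c1 (hw_an (α := α) ha)
  exact ((Bf_c1 ha).mul (an_c1 hF)).add
    ((contDiffOn_const.mul (h1.mul h5)).mul (an_c1 (Dq_an hF τ)))

lemma dz_id (z : ℂ) : dz (fun w : ℂ => w) z = 1 := by
  rw [dz_holo differentiableAt_fun_id]
  exact deriv_id z

lemma dbar_id (z : ℂ) : dbar (fun w : ℂ => w) z = 0 := dbar_holo differentiableAt_fun_id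

lemma dz_Xf (hR : 0 < R) (ha : a ∈ (ball (0:ℂ) 1)) {w : ℂ} (hw0 : w ∈ (ball (0:ℂ) 1)) :
    dz (Xf z₀ R α a) w = Bf z₀ R α a w := by
  have h1 := eta_da z₀ R w
  have h2 := rdr (hw_an (α := α) ha) hw0
  unfold Xf Bf
  rw [dz_mul_at differentiableAt_fun_id (h1.fun_mul h2), dz_id, dz_mul_at h1 h2, dz_eta hR,
    dz_holo (rd (hw_an (α := α) ha) hw0), (hw_deriv ha hw0).deriv]
  ring

lemma dbar_Bf (hR : 0 < R) (ha : a ∈ (ball (0:ℂ) 1)) {w : ℂ} (hw0 : w ∈ (ball (0:ℂ) 1)) :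
    dbar (Bf z₀ R α a) w = Ef z₀ R α a w := by
  have h1 := eta_da z₀ R w
  have h1' := e1_da z₀ R w
  have h2 := rdr (hw_an (α := α) ha) hw0
  have h3 := rdr (hw'_an (α := α) ha) hw0
  have h4 : DifferentiableAt ℝ (fun w : ℂ => conj (w - z₀)) w :=
    (hasFDerivAt_conj z₀ w).differentiableAt
  have h5 : DifferentiableAt ℝ (fun w : ℂ => w) w := differentiableAt_fun_id
  unfold Bf Ef
  rw [dbar_add_at ((h1.fun_mul h2).fun_add ((h5.fun_mul (h1'.fun_mul h4)).fun_mul h2)) ((h5.fun_mul h1).fun_mul h3),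
    dbar_add_at (h1.fun_mul h2) ((h5.fun_mul (h1'.fun_mul h4)).fun_mul h2),
    dbar_mul_at h1 h2, dbar_mul_at (h5.fun_mul (h1'.fun_mul h4)) h2, dbar_mul_at h5 (h1'.fun_mul h4),
    dbar_mul_at h1' h4, dbar_mul_at (h5.fun_mul h1) h3, dbar_mul_at h5 h1,
    dbar_id, dbar_eta hR, dbar_e1 hR, dbar_conj,
    dbar_holo (rd (hw_an (α := α) ha) hw0), dbar_holo (rd (hw'_an (α := α) ha) hw0)]
  ring

lemma dbar_Pf (hR : 0 < R) (ha : a ∈ (ball (0:ℂ) 1)) (hF : DifferentiableOn ℂ F (ball (0:ℂ) 1)) (τ : ℝ) {w : ℂ}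
    (hw0 : w ∈ (ball (0:ℂ) 1)) :
    dbar (Pf p F z₀ R α a τ) w = Ef z₀ R α a w * F w +
      (p / 2) * (e1 z₀ R w * (w - z₀) * hw α a w) * Dq F τ w := by
  have h0 : DifferentiableAt ℝ (Bf z₀ R α a) w :=
    ((Bf_c1 ha).contDiffAt (isOpen_ball.mem_nhds hw0)).differentiableAt (by simp)
  have h1 := eta_da z₀ R w
  have h2 := rdr (hw_an (α := α) ha) hw0
  have h3 := rdr hF hw0
  have h4 := rdr (Dq_an hF τ) hw0
  have h5 : DifferentiableAt ℝ (fun _ : ℂ => ((p : ℂ) / 2)) w := differentiableAt_const _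
  unfold Pf
  rw [dbar_add_at (h0.fun_mul h3) ((h5.fun_mul (h1.fun_mul h2)).fun_mul h4), dbar_mul_at h0 h3, dbar_Bf hR ha hw0,
    dbar_mul_at (h5.fun_mul (h1.fun_mul h2)) h4, dbar_mul_at h5 (h1.fun_mul h2), dbar_mul_at h1 h2,
    dbar_holo (rd hF hw0), dbar_holo (rd (Dq_an hF τ) hw0), dbar_holo (rd (hw_an (α := α) ha) hw0),
    dbar_holo (differentiableAt_const _), dbar_eta hR]
  ring

/-! vanishing and bounds of the coefficients -/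

lemma Bf_zero (hR : 0 < R) {w : ℂ} (h : 2 * R ≤ ‖w - z₀‖) : Bf z₀ R α a w = 0 := by
  unfold Bf
  rw [eta_zero hR h, e1_zero_ge hR h]
  ring

lemma Ef_zero_ge (hR : 0 < R) {w : ℂ} (h : 2 * R ≤ ‖w - z₀‖) : Ef z₀ R α a w = 0 := by
  unfold Ef
  rw [e1_zero_ge hR h, e2_zero_ge hR h]
  ring

lemma Ef_zero_le (hR : 0 < R) {w : ℂ} (h : ‖w - z₀‖ ≤ R) : Ef z₀ R α a w = 0 := by
  unfold Ef
  rw [e1_zero_le hR h, e2_zero_le hR h]
  ring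

lemma wt_low (ha : a ∈ S z₀ (R / 2)) {w : ℂ} (hw0 : w ∈ (ball (0:ℂ) 1)) (h : R ≤ ‖w - z₀‖) :
    R / 2 ≤ ‖1 - conj a * w‖ := by
  have h1 := norm_sub_le_one_sub ha.2 hw0
  have h2 : ‖a - z₀‖ < R / 2 := by
    have := ha.1
    rwa [mem_ball, dist_eq_norm] at this
  have h3 : ‖w - z₀‖ ≤ ‖a - w‖ + ‖a - z₀‖ := by
    calc ‖w - z₀‖ = ‖(a - z₀) - (a - w)‖ := by congr 1; ring
      _ ≤ ‖a - z₀‖ + ‖a - w‖ := norm_sub_le _ _
      _ = _ := add_comm _ _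
  linarith

lemma hw_R (hR : 0 < R) (hα : 0 < α) (hα1 : α < 1) (ha : a ∈ S z₀ (R / 2)) {w : ℂ} (hw0 : w ∈ (ball (0:ℂ) 1))
    (h : R ≤ ‖w - z₀‖) : ‖hw α a w‖ ≤ 2 * R ^ (-α) := by
  rw [norm_hw]
  have h1 : ‖1 - conj a * w‖ ^ (-α) ≤ (R / 2) ^ (-α) :=
    Real.rpow_le_rpow_of_nonpos (by positivity) (wt_low ha hw0 h) (by linarith)
  refine h1.trans ?_
  rw [Real.div_rpow hR.le (by norm_num), Real.rpow_neg (by norm_num : (0:ℝ) ≤ 2), div_inv_eq_mul,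
    mul_comm]
  apply mul_le_mul_of_nonneg_right _ (by positivity)
  calc (2:ℝ) ^ α ≤ 2 ^ (1:ℝ) := Real.rpow_le_rpow_of_exponent_le (by norm_num) hα1.le
    _ = 2 := Real.rpow_one 2

lemma hw'_R (hR : 0 < R) (hα : 0 < α) (hα1 : α < 1) (ha : a ∈ S z₀ (R / 2)) {w : ℂ} (hw0 : w ∈ (ball (0:ℂ) 1))
    (h : R ≤ ‖w - z₀‖) : ‖hw' α a w‖ ≤ 4 * R ^ (-α - 1) := by
  refine (norm_hw'_le hα hα1 ha.2 w).trans ?_
  have h1 : ‖1 - conj a * w‖ ^ (-α - 1) ≤ (R / 2) ^ (-α - 1) :=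
    Real.rpow_le_rpow_of_nonpos (by positivity) (wt_low ha hw0 h) (by linarith)
  refine h1.trans ?_
  rw [show -α - 1 = -(α + 1) by ring, Real.div_rpow hR.le (by norm_num),
    Real.rpow_neg (by norm_num : (0:ℝ) ≤ 2), div_inv_eq_mul, mul_comm]
  apply mul_le_mul_of_nonneg_right _ (by positivity)
  calc (2:ℝ) ^ (α + 1) ≤ 2 ^ (2:ℝ) :=
        Real.rpow_le_rpow_of_exponent_le (by norm_num) (by linarith)
    _ = 4 := by norm_num

/-- the constant -/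
noncomputable def CE : ℝ := 10 * (MT + MT2)

lemma CE_pos : 0 < CE := by
  have := MT_pos; have := MT2_pos; unfold CE; positivity

lemma pw2 (hR : 0 < R) (α : ℝ) : R ^ (-α) / R ^ 2 = R ^ (-2 - α) := by
  rw [show -2 - α = -α - 2 by ring, Real.rpow_sub hR]
  norm_num

lemma pw1 (hR : 0 < R) (α : ℝ) : R ^ (-α) / R = R ^ (-1 - α) := by
  rw [show -1 - α = -α - 1 by ring, Real.rpow_sub hR, Real.rpow_one]

lemma e1h_R (hR : 0 < R) (hα : 0 < α) (hα1 : α < 1) (ha : a ∈ S z₀ (R / 2)) {w : ℂ} (hw0 : w ∈ (ball (0:ℂ) 1)) :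
    ‖e1 z₀ R w * (w - z₀) * hw α a w‖ ≤ CE * R ^ (-1 - α) := by
  have hM := MT_pos
  have hM2 := MT2_pos
  have hCE := CE_pos
  rcases le_or_gt (2 * R) ‖w - z₀‖ with h | h
  · rw [e1_zero_ge hR h]; simp; positivity
  rcases le_or_gt ‖w - z₀‖ R with h' | h'
  · rw [e1_zero_le hR h']; simp; positivity
  rw [norm_mul, norm_mul]
  calc ‖e1 z₀ R w‖ * ‖w - z₀‖ * ‖hw α a w‖ ≤ MT / (3 * R ^ 2) * (2 * R) * (2 * R ^ (-α)) := by
        gcongr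
        · exact norm_e1_le hR w
        · exact hw_R hR hα hα1 ha hw0 h'.le
    _ = 4 / 3 * MT * (R ^ (-α) / R) := by field_simp; ring
    _ = 4 / 3 * MT * R ^ (-1 - α) := by rw [pw1 hR]
    _ ≤ CE * R ^ (-1 - α) := by
        gcongr
        unfold CE; linarith

lemma Ef_R (hR : 0 < R) (hR2 : R ≤ 2) (hα : 0 < α) (hα1 : α < 1) (ha : a ∈ S z₀ (R / 2)) {w : ℂ}
    (hw0 : w ∈ (ball (0:ℂ) 1)) : ‖Ef z₀ R α a w‖ ≤ CE * R ^ (-2 - α) := by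
  have hM := MT_pos
  have hM2 := MT2_pos
  have hCE := CE_pos
  rcases le_or_gt (2 * R) ‖w - z₀‖ with h | h
  · rw [Ef_zero_ge hR h]; simp; positivity
  rcases le_or_gt ‖w - z₀‖ R with h' | h'
  · rw [Ef_zero_le hR h']; simp; positivity
  have hw1 : ‖w‖ ≤ 1 := by
    have : ‖w‖ < 1 := by simpa using hw0
    exact this.le
  have b1 := norm_e1_le (z₀ := z₀) hR w
  have b2 := norm_e2_le (z₀ := z₀) hR w
  have b3 := hw_R hR hα hα1 ha hw0 h'.le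
  have b4 := hw'_R hR hα hα1 ha hw0 h'.le
  have c1 : ‖e1 z₀ R w * (w - z₀)‖ ≤ MT / (3 * R ^ 2) * (2 * R) := by
    rw [norm_mul]; gcongr
  have c2 : ‖e2 z₀ R w * (w - z₀) * conj (w - z₀)‖ ≤ MT2 / (3 * R ^ 2) ^ 2 * (2 * R) * (2 * R) := by
    rw [norm_mul, norm_mul, RCLike.norm_conj]; gcongr
  have c3 : ‖w * (e2 z₀ R w * (w - z₀) * conj (w - z₀) + e1 z₀ R w)‖ ≤
      MT2 / (3 * R ^ 2) ^ 2 * (2 * R) * (2 * R) + MT / (3 * R ^ 2) := by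
    rw [norm_mul]
    refine (mul_le_of_le_one_left (norm_nonneg _) hw1).trans ((norm_add_le _ _).trans ?_)
    gcongr
  have c4 : ‖w * (e1 z₀ R w * (w - z₀))‖ ≤ MT / (3 * R ^ 2) * (2 * R) := by
    rw [norm_mul]
    exact (mul_le_of_le_one_left (norm_nonneg _) hw1).trans c1
  unfold Ef
  calc ‖(e1 z₀ R w * (w - z₀) + w * (e2 z₀ R w * (w - z₀) * conj (w - z₀) + e1 z₀ R w)) *
        hw α a w + w * (e1 z₀ R w * (w - z₀)) * hw' α a w‖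
      ≤ (‖e1 z₀ R w * (w - z₀)‖ + ‖w * (e2 z₀ R w * (w - z₀) * conj (w - z₀) + e1 z₀ R w)‖) *
        ‖hw α a w‖ + ‖w * (e1 z₀ R w * (w - z₀))‖ * ‖hw' α a w‖ := by
        refine (norm_add_le _ _).trans ?_
        rw [norm_mul, norm_mul (w * (e1 z₀ R w * (w - z₀)))]
        gcongr
        exact norm_add_le _ _
    _ ≤ (MT / (3 * R ^ 2) * (2 * R) + (MT2 / (3 * R ^ 2) ^ 2 * (2 * R) * (2 * R) +
        MT / (3 * R ^ 2))) * (2 * R ^ (-α)) + MT / (3 * R ^ 2) * (2 * R) * (4 * R ^ (-α - 1)) := by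
        gcongr
    _ = (4 / 3 * MT * R + 8 / 9 * MT2 + 2 / 3 * MT + 8 / 3 * MT) * (R ^ (-α) / R ^ 2) := by
        rw [Real.rpow_sub_one hR.ne']
        field_simp
        ring
    _ ≤ (4 / 3 * MT * 2 + 8 / 9 * MT2 + 2 / 3 * MT + 8 / 3 * MT) * (R ^ (-α) / R ^ 2) := by
        gcongr
    _ = (6 * MT + 8 / 9 * MT2) * R ^ (-2 - α) := by rw [pw2 hR]; ring
    _ ≤ CE * R ^ (-2 - α) := by
        gcongr
        unfold CE; linarith

lemma Bf_bd (hR : 0 < R) (h0 : z₀ ∈ (ball (0:ℂ) 1)) (hα : 0 < α) (hα1 : α < 1) (ha : a ∈ (ball (0:ℂ) 1)) :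
    ∃ M : ℝ, ∀ w ∈ (ball (0:ℂ) 1), ‖Bf z₀ R α a w‖ ≤ M := by
  have hM := MT_pos
  refine ⟨(1 - ‖a‖) ^ (-α) + MT / (3 * R ^ 2) * 2 * (1 - ‖a‖) ^ (-α) + (1 - ‖a‖) ^ (-α - 1),
    fun w hw0 => ?_⟩
  have hw1 : ‖w‖ ≤ 1 := by
    have : ‖w‖ < 1 := by simpa using hw0
    exact this.le
  have b1 := norm_e1_le (z₀ := z₀) hR w
  have b3 := hw_bd hα ha hw0
  have b4 := hw'_bd hα hα1 ha hw0
  have b5 := norm_eta_le z₀ R w
  have b6 := sub_bd h0 hw0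
  have hp := one_sub_pos ha
  unfold Bf
  refine (norm_add₃_le).trans ?_
  have c1 : ‖eta z₀ R w * hw α a w‖ ≤ (1 - ‖a‖) ^ (-α) := by
    rw [norm_mul]
    exact (mul_le_of_le_one_left (norm_nonneg _) b5).trans b3
  have c2 : ‖w * (e1 z₀ R w * conj (w - z₀)) * hw α a w‖ ≤
      MT / (3 * R ^ 2) * 2 * (1 - ‖a‖) ^ (-α) := by
    rw [norm_mul, norm_mul, norm_mul, RCLike.norm_conj]
    have : ‖w‖ * (‖e1 z₀ R w‖ * ‖w - z₀‖) ≤ MT / (3 * R ^ 2) * 2 := by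
      refine (mul_le_of_le_one_left (by positivity) hw1).trans ?_
      gcongr
    gcongr
  have c3 : ‖w * eta z₀ R w * hw' α a w‖ ≤ (1 - ‖a‖) ^ (-α - 1) := by
    rw [norm_mul, norm_mul]
    have : ‖w‖ * ‖eta z₀ R w‖ ≤ 1 := mul_le_one₀ hw1 (norm_nonneg _) b5
    exact (mul_le_of_le_one_left (norm_nonneg _) this).trans b4
  linarith

end Pool.Agent.L0h83.BR
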