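import Pool.Agent.L0h83.BR.R1

/-! The Rellich identity: proof. -/

set_option autoImplicit false

namespace Pool.Agent.L0h83.BR

open Complex Metric Set Filter Topology MeasureTheory ComplexConjugate
open scoped ENNReal NNReal
open Pool.Agent.H761R2.SV

variable {p q α : ℝ} {κ F : ℂ → ℂ} {z₀ a : ℂ} {R : ℝ}

/-- the limit density -/
noncomputable def Jf (p : ℝ) (F : ℂ → ℂ) (z₀ : ℂ) (R α : ℝ) (a w : ℂ) : ℂ :=
  conj (A p (F w)) * (Bf z₀ R α a w * F w) +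
    (p / 2) * (eta z₀ R w * hw α a w) * (conj (A p (F w)) * (w * deriv F w))

lemma Dat.LA (h : Dat p q κ F) : LP q (fun w => conj (A p (F w))) := by
  obtain ⟨hAm, hAi⟩ := int_A (μ := volume.restrict (ball (0:ℂ) 1)) h.hpq (meas_an h.sol.an) h.sol.int
  refine ⟨Complex.continuous_conj.comp_aestronglyMeasurable hAm, ?_⟩
  simp only [RCLike.norm_conj]
  exact hAi

lemma Dat.energyR (h : Dat p q κ F) : ∃ C : ℝ, 0 ≤ C ∧ ∀ τ : ℝ,
    ∫ z in (ball (0:ℂ) 1), dens p (F z) (F (rot τ z)) ≤ C * τ ^ 2 := by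
  obtain ⟨M, hM⟩ := h.bd
  obtain ⟨r₀, hr, h0⟩ := h.sp
  exact BR.energy h.hpq m_P1 h.sol h.km hM hr h0

lemma eh_meas (z₀ : ℂ) (R : ℝ) (ha : a ∈ (ball (0:ℂ) 1)) :
    AEStronglyMeasurable (fun w => (p / 2 : ℂ) * (eta z₀ R w * hw α a w))
      (volume.restrict (ball (0:ℂ) 1)) :=
  ((eta_contDiff z₀ R).continuous.aestronglyMeasurable.mul (meas_an (hw_an (α := α) ha))).const_mul _

lemma eh_bd (z₀ : ℂ) (R : ℝ) (hp : 0 ≤ p) (hα : 0 < α) (ha : a ∈ (ball (0:ℂ) 1)) : ∀ w ∈ (ball (0:ℂ) 1),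
    ‖(p / 2 : ℂ) * (eta z₀ R w * hw α a w)‖ ≤ p / 2 * (1 - ‖a‖) ^ (-α) := by
  intro w hw0
  have h1 := norm_eta_le z₀ R w
  have h2 := hw_bd hα ha hw0
  rw [norm_mul, norm_mul]
  have h3 : ‖(p / 2 : ℂ)‖ = p / 2 := by
    rw [norm_div, Complex.norm_real, Real.norm_eq_abs, abs_of_nonneg hp]
    simp
  rw [h3]
  gcongr
  exact (mul_le_of_le_one_left (norm_nonneg _) h1).trans h2

lemma Bf_meas (ha : a ∈ (ball (0:ℂ) 1)) : AEStronglyMeasurable (Bf z₀ R α a) (volume.restrict (ball (0:ℂ) 1)) :=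
  (Bf_c1 ha).continuousOn.aestronglyMeasurable measurableSet_ball

lemma Dat.LB (h : Dat p q κ F) (hR : 0 < R) (h0 : z₀ ∈ (ball (0:ℂ) 1)) (hα : 0 < α) (hα1 : α < 1)
    (ha : a ∈ (ball (0:ℂ) 1)) : LP p (fun w => Bf z₀ R α a w * F w) := by
  obtain ⟨M, hM⟩ := Bf_bd hR h0 hα hα1 ha
  exact LP.bmul h.hpq.nonneg (Bf_meas ha) hM h.LF

lemma bint {b f : ℂ → ℂ} {M : ℝ} (hb : AEStronglyMeasurable b (volume.restrict (ball (0:ℂ) 1)))
    (hM : ∀ z ∈ (ball (0:ℂ) 1), ‖b z‖ ≤ M) (hf : IntegrableOn f (ball (0:ℂ) 1)) : IntegrableOn (fun z => b z * f z) (ball (0:ℂ) 1) := by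
  refine Integrable.mono' (hf.norm.const_mul M) (hb.mul hf.aestronglyMeasurable) ?_
  refine (ae_restrict_iff' measurableSet_ball).2 (Eventually.of_forall fun z hz => ?_)
  rw [norm_mul]
  gcongr
  exact hM z hz

lemma seqR (hR : 0 < R) : (∀ n : ℕ, 0 < R / ((n : ℝ) + 1)) ∧ (∀ n : ℕ, R / ((n : ℝ) + 1) ≤ R) ∧
    Tendsto (fun n : ℕ => R / ((n : ℝ) + 1)) atTop (𝓝 0) := by
  refine ⟨fun n => by positivity, fun n => div_le_self hR.le (by
    have : (0:ℝ) ≤ n := Nat.cast_nonneg n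
    linarith), ?_⟩
  have := tendsto_one_div_add_atTop_nhds_zero_nat (𝕜 := ℝ)
  have h2 := this.const_mul R
  rw [mul_zero] at h2
  refine h2.congr fun n => ?_
  ring

lemma Dat.Jint (h : Dat p q κ F) (hR : 0 < R) (h0 : z₀ ∈ (ball (0:ℂ) 1)) (hα : 0 < α) (hα1 : α < 1)
    (ha : a ∈ (ball (0:ℂ) 1)) : IntegrableOn (Jf p F z₀ R α a) (ball (0:ℂ) 1) := by
  obtain ⟨C, hC, hE⟩ := h.energyR
  obtain ⟨s1, s2, s3⟩ := seqR hR
  have h1 := (lim_D h.hpq h.sol.an h.sol.int hC hE s1 s3).1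
  have h2 := LP.mul h.hpq h.LA (h.LB hR h0 hα hα1 ha)
  have h3 := bint (eh_meas z₀ R ha) (eh_bd z₀ R h.hpq.nonneg hα ha) h1
  exact h2.add h3

/-- the boundary side of the identity -/
lemma Dat.bdry (h : Dat p q κ F) (hR : 0 < R) (h0 : z₀ ∈ (ball (0:ℂ) 1)) (hα : 0 < α) (hα1 : α < 1)
    (ha : a ∈ (ball (0:ℂ) 1)) :
    Tendsto (fun ε : ℝ => ∫ z in (ball (0:ℂ) 1),
        ((ell ε z * ‖z‖ ^ 2 * ‖F z‖ ^ p : ℝ) : ℂ) * (eta z₀ R z * hw α a z)) (𝓝[>] 0)
      (𝓝 (∫ w in (ball (0:ℂ) 1), Jf p F z₀ R α a w)) := by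
  have hJ := h.Jint hR h0 hα hα1 ha
  have hp := h.hpq.lt
  refine (chi_lim hJ).congr' ?_
  filter_upwards [self_mem_nhdsWithin] with ε (hε : 0 < ε)
  have hN : ContDiffOn ℝ 1 (fun w => ((‖F w‖ ^ p : ℝ) : ℂ)) (ball (0:ℂ) 1) := by
    have h1 : ContDiffOn ℝ 1 (fun w => ‖F w‖ ^ p) (ball (0:ℂ) 1) :=
      (contDiff_norm_rpow hp).comp_contDiffOn (an_c1 h.sol.an)
    exact Complex.ofRealCLM.contDiff.comp_contDiffOn h1
  have hΨ : ContDiffOn ℝ 1 (fun w => Xf z₀ R α a w * ((‖F w‖ ^ p : ℝ) : ℂ)) (ball (0:ℂ) 1) :=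
    (Xf_c1 ha).mul hN
  set G : ℂ → ℂ := fun z => chi ε z * (Xf z₀ R α a z * ((‖F z‖ ^ p : ℝ) : ℂ)) with hG
  have hGc : ContDiff ℝ 1 G := cut_contDiff hε hΨ
  have hGs : HasCompactSupport G := cut_compact hε _
  have hGt : tsupport G ⊆ (ball (0:ℂ) 1) := (cut_support hε _).trans (Yset_sub hε)
  have hdz0 : ∀ z ∉ (ball (0:ℂ) 1), dz G z = 0 := by
    intro z hz
    have h1 : z ∉ tsupport G := fun hh => hz (hGt hh)
    have h2 : fderiv ℝ G z = 0 := by
      have : z ∉ tsupport (fderiv ℝ G) := fun hh => h1 (tsupport_fderiv_subset ℝ hh)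
      exact image_eq_zero_of_notMem_tsupport this
    simp [dz, h2]
  have hdzc : Continuous (dz G) := by
    have hd : Continuous (fderiv ℝ G) := hGc.continuous_fderiv (by simp)
    unfold dz
    exact ((hd.clm_apply continuous_const).sub
      (continuous_const.mul (hd.clm_apply continuous_const))).div_const _
  have hdzs : HasCompactSupport (dz G) := by
    have h1 : HasCompactSupport (fderiv ℝ G) := hGs.fderiv ℝ
    apply HasCompactSupport.of_support_subset_isCompact h1.isCompact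
    intro w hw
    by_contra hn
    have : fderiv ℝ G w = 0 := image_eq_zero_of_notMem_tsupport hn
    exact hw (by simp [dz, this])
  have hdzi : IntegrableOn (dz G) (ball (0:ℂ) 1) := (hdzc.integrable_of_hasCompactSupport hdzs).integrableOn
  have hint0 : ∫ z in (ball (0:ℂ) 1), dz G z = 0 := by
    rw [setIntegral_eq_integral_of_forall_compl_eq_zero hdz0]
    exact int_dz hGc hGs
  have hcJ : IntegrableOn (fun z => chi ε z * Jf p F z₀ R α a z) (ball (0:ℂ) 1) :=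
    bint (M := 1) (chi_contDiff ε (n := 1)).continuous.aestronglyMeasurable
      (fun z _ => norm_chi_le ε z) hJ
  have hpt : ∀ z ∈ (ball (0:ℂ) 1), ((ell ε z * ‖z‖ ^ 2 * ‖F z‖ ^ p : ℝ) : ℂ) * (eta z₀ R z * hw α a z) =
      chi ε z * Jf p F z₀ R α a z - dz G z := by
    intro z hz
    have hX : DifferentiableAt ℝ (Xf z₀ R α a) z :=
      ((Xf_c1 ha).contDiffAt (isOpen_ball.mem_nhds hz)).differentiableAt (by simp)
    have hNd : DifferentiableAt ℝ (fun w => ((‖F w‖ ^ p : ℝ) : ℂ)) z :=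
      (hN.contDiffAt (isOpen_ball.mem_nhds hz)).differentiableAt (by simp)
    have hc : DifferentiableAt ℝ (chi ε) z := (chi_contDiff ε (n := 1)).differentiable (by simp) z
    have e1 : dz G z = -(ell ε z : ℂ) * conj z * (Xf z₀ R α a z * ((‖F z‖ ^ p : ℝ) : ℂ)) +
        chi ε z * (Bf z₀ R α a z * ((‖F z‖ ^ p : ℝ) : ℂ) + Xf z₀ R α a z *
          ((p / 2) * (conj (A p (F z)) * deriv F z))) := by
      rw [hG, dz_mul_at hc (hX.fun_mul hNd), dz_mul_at hX hNd, dz_chi, dz_Xf hR ha hz,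
        dz_norm_rpow hp (rd h.sol.an hz)]
    have e2 : conj z * z = ((‖z‖ ^ 2 : ℝ) : ℂ) := by
      rw [mul_comm, Complex.mul_conj, Complex.normSq_eq_norm_sq]
    have e3 := A_mul_conj hp (F z)
    rw [e1]
    unfold Jf Xf
    rw [show ((ell ε z * ‖z‖ ^ 2 * ‖F z‖ ^ p : ℝ) : ℂ) = (ell ε z : ℂ) * ((‖z‖ ^ 2 : ℝ) : ℂ) *
      ((‖F z‖ ^ p : ℝ) : ℂ) by push_cast; ring, ← e2, ← e3]
    ring
  rw [setIntegral_congr_fun measurableSet_ball hpt, integral_sub hcJ hdzi, hint0, sub_zero]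

/-- `L¹` convergence against bounded functions -/
lemma bd_lim {b f : ℂ → ℂ} {g : ℕ → ℂ → ℂ} {M : ℝ}
    (hb : AEStronglyMeasurable b (volume.restrict (ball (0:ℂ) 1))) (hM : ∀ z ∈ (ball (0:ℂ) 1), ‖b z‖ ≤ M)
    (hf : IntegrableOn f (ball (0:ℂ) 1)) (hg : ∀ n, IntegrableOn (g n) (ball (0:ℂ) 1))
    (hl : Tendsto (fun n => eLpNorm (g n - f) 1 (volume.restrict (ball (0:ℂ) 1))) atTop (𝓝 0)) :
    Tendsto (fun n => ∫ z in (ball (0:ℂ) 1), b z * g n z) atTop (𝓝 (∫ z in (ball (0:ℂ) 1), b z * f z)) := by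
  apply tendsto_integral_of_L1 _ (bint hb hM hf).aestronglyMeasurable
    (Eventually.of_forall fun n => bint hb hM (hg n))
  have h1 : Tendsto (fun n => ENNReal.ofReal M * eLpNorm (g n - f) 1 (volume.restrict (ball (0:ℂ) 1)))
      atTop (𝓝 0) := by
    have := ENNReal.Tendsto.const_mul hl (Or.inr ENNReal.ofReal_ne_top) (a := ENNReal.ofReal M)
    rwa [mul_zero] at this
  refine tendsto_of_tendsto_of_tendsto_of_le_of_le tendsto_const_nhds h1 (fun _ => bot_le) ?_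
  intro n
  simp only
  rw [eLpNorm_one_eq_lintegral_enorm, ← lintegral_const_mul'' _
    ((hg n).aestronglyMeasurable.sub hf.aestronglyMeasurable).enorm]
  apply setLIntegral_mono_ae' measurableSet_ball
  refine Eventually.of_forall fun z hz => ?_
  rw [← mul_sub, enorm_mul, Pi.sub_apply]
  gcongr
  rw [← ofReal_norm]
  exact ENNReal.ofReal_le_ofReal (hM z hz)

/-- the interior side -/
lemma Dat.inner (h : Dat p q κ F) (hR : 0 < R) (h0 : z₀ ∈ (ball (0:ℂ) 1)) (hα : 0 < α) (hα1 : α < 1)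
    (ha : a ∈ (ball (0:ℂ) 1)) (hκ : ∀ z ∈ S z₀ (2 * R), κ z = 0) :
    Tendsto (fun n : ℕ => ∫ w in (ball (0:ℂ) 1), ph p κ F w * Pf p F z₀ R α a (R / ((n : ℝ) + 1)) w) atTop
      (𝓝 (∫ w in (ball (0:ℂ) 1), Jf p F z₀ R α a w)) := by
  obtain ⟨C, hC, hE⟩ := h.energyR
  obtain ⟨s1, s2, s3⟩ := seqR hR
  obtain ⟨h1, h1'⟩ := lim_D h.hpq h.sol.an h.sol.int hC hE s1 s3
  have h2 := LP.mul h.hpq h.LA (h.LB hR h0 hα hα1 ha)
  have h3 := bint (eh_meas z₀ R ha) (eh_bd z₀ R h.hpq.nonneg hα ha) h1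
  have h4 : ∀ n : ℕ, IntegrableOn (fun w => conj (A p (F w)) * Dq F (R / ((n : ℝ) + 1)) w) (ball (0:ℂ) 1) :=
    fun n => LP.mul h.hpq h.LA (h.LD _)
  have h5 := bd_lim (eh_meas z₀ R ha) (eh_bd z₀ R h.hpq.nonneg hα ha) h1 h4 h1'
  have h6 : ∫ w in (ball (0:ℂ) 1), Jf p F z₀ R α a w = (∫ w in (ball (0:ℂ) 1), conj (A p (F w)) * (Bf z₀ R α a w * F w)) +
      ∫ w in (ball (0:ℂ) 1), (p / 2 : ℂ) * (eta z₀ R w * hw α a w) * (conj (A p (F w)) * (w * deriv F w)) := by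
    rw [← integral_add h2 h3]; rfl
  rw [h6]
  refine (h5.const_add (∫ w in (ball (0:ℂ) 1), conj (A p (F w)) * (Bf z₀ R α a w * F w))).congr fun n => ?_
  rw [← integral_add h2 (bint (eh_meas z₀ R ha) (eh_bd z₀ R h.hpq.nonneg hα ha) (h4 n))]
  apply setIntegral_congr_fun measurableSet_ball
  intro w hw0
  simp only
  rcases le_or_gt (2 * R) ‖w - z₀‖ with h' | h'
  · unfold Pf
    rw [Bf_zero hR h', eta_zero hR h']; ring
  · have : κ w = 0 := hκ w ⟨by rw [mem_ball, dist_eq_norm]; exact h', hw0⟩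
    unfold ph Pf
    rw [this, sub_zero]
    ring

lemma Ef_meas (z₀ : ℂ) (R : ℝ) (ha : a ∈ (ball (0:ℂ) 1)) :
    AEStronglyMeasurable (Ef z₀ R α a) (volume.restrict (ball (0:ℂ) 1)) := by
  have c0 : Continuous (e2 z₀ R) := by
    have hc : Continuous (deriv (deriv Real.smoothTransition)) :=
      dst_contDiff.continuous_deriv (by norm_num)
    unfold e2 e2R
    apply Complex.continuous_ofReal.comp
    apply Continuous.neg
    apply Continuous.div_const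
    apply hc.comp
    fun_prop
  have c1 := (e1_contDiff z₀ R).continuous
  have c2 : Continuous fun w : ℂ => conj (w - z₀) := (conj_contDiff z₀ (n := 1)).continuous
  have c3 : Continuous fun w : ℂ => (e1 z₀ R w * (w - z₀) + w * (e2 z₀ R w * (w - z₀) *
    conj (w - z₀) + e1 z₀ R w)) := by fun_prop
  have c4 : Continuous fun w : ℂ => w * (e1 z₀ R w * (w - z₀)) := by fun_prop
  have m1 := meas_an (hw_an (α := α) ha)
  have m2 := meas_an (hw'_an (α := α) ha)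
  exact (c3.aestronglyMeasurable.mul m1).add (c4.aestronglyMeasurable.mul m2)

lemma eb_meas (z₀ : ℂ) (R : ℝ) (ha : a ∈ (ball (0:ℂ) 1)) :
    AEStronglyMeasurable (fun w => (p / 2 : ℂ) * (e1 z₀ R w * (w - z₀) * hw α a w))
      (volume.restrict (ball (0:ℂ) 1)) := by
  have c1 := (e1_contDiff z₀ R).continuous
  have c4 : Continuous fun w : ℂ => e1 z₀ R w * (w - z₀) := by fun_prop
  exact (c4.aestronglyMeasurable.mul (meas_an (hw_an (α := α) ha))).const_mul _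

lemma Dat.LPf (h : Dat p q κ F) (hR : 0 < R) (h0 : z₀ ∈ (ball (0:ℂ) 1)) (hα : 0 < α) (hα1 : α < 1)
    (ha : a ∈ (ball (0:ℂ) 1)) (τ : ℝ) : LP p (Pf p F z₀ R α a τ) :=
  LP.add h.hpq.nonneg (h.LB hR h0 hα hα1 ha)
    (LP.bmul h.hpq.nonneg (eh_meas z₀ R ha) (eh_bd z₀ R h.hpq.nonneg hα ha) (h.LD τ))

lemma norm_p2 (hp : 0 ≤ p) : ‖(p / 2 : ℂ)‖ = p / 2 := by
  rw [norm_div, Complex.norm_real, Real.norm_eq_abs, abs_of_nonneg hp]
  simp

lemma Dat.LdP (h : Dat p q κ F) (hR : 0 < R) (hR2 : R ≤ 2) (hα : 0 < α)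
    (hα1 : α < 1) (ha : a ∈ S z₀ (R / 2)) (τ : ℝ) : LP p (dbar (Pf p F z₀ R α a τ)) := by
  have h1 : LP p (fun w => Ef z₀ R α a w * F w +
      (p / 2) * (e1 z₀ R w * (w - z₀) * hw α a w) * Dq F τ w) := by
    apply LP.add h.hpq.nonneg
    · exact LP.bmul h.hpq.nonneg (Ef_meas z₀ R ha.2)
        (fun w hw0 => Ef_R hR hR2 hα hα1 ha hw0) h.LF
    · refine LP.bmul (M := p / 2 * (CE * R ^ (-1 - α))) h.hpq.nonneg (eb_meas z₀ R ha.2)
        (fun w hw0 => ?_) (h.LD τ)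
      rw [norm_mul, norm_p2 h.hpq.nonneg]
      have := e1h_R hR hα hα1 ha hw0
      have := h.hpq.nonneg
      gcongr
  have h2 : ∀ w ∈ (ball (0:ℂ) 1), (fun w => Ef z₀ R α a w * F w +
      (p / 2) * (e1 z₀ R w * (w - z₀) * hw α a w) * Dq F τ w) w = dbar (Pf p F z₀ R α a τ) w :=
    fun w hw0 => (dbar_Pf hR ha.2 h.sol.an τ hw0).symm
  have h3 : (fun w => Ef z₀ R α a w * F w +
      (p / 2) * (e1 z₀ R w * (w - z₀) * hw α a w) * Dq F τ w) =ᵐ[volume.restrict (ball (0:ℂ) 1)]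
      dbar (Pf p F z₀ R α a τ) :=
    (ae_restrict_iff' measurableSet_ball).2 (Eventually.of_forall h2)
  exact ⟨h1.m.congr h3, h1.i.congr (h3.mono fun w hw => by simp only; rw [← hw])⟩

/-- the weak equation for the test function -/
lemma Dat.weakP (h : Dat p q κ F) (h0 : z₀ ∈ (ball (0:ℂ) 1)) (hR : 0 < R) (hR2 : R ≤ 2) (hα : 0 < α)
    (hα1 : α < 1) (ha : a ∈ S z₀ (R / 2)) (τ : ℝ) :
    ∫ w in (ball (0:ℂ) 1), ph p κ F w * Pf p F z₀ R α a τ w =
      - ∫ w in (ball (0:ℂ) 1), cv (ph p κ F) w * dbar (Pf p F z₀ R α a τ) w := by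
  apply weak2 h.phi h.orth (Pf_c1 ha.2 h.sol.an τ)
  · exact LP.mul h.hpq h.Lph (h.LPf hR h0 hα hα1 ha.2 τ)
  · exact LP.mul h.hpq (h.Lv m_G4) (h.LdP hR hR2 hα hα1 ha τ)
  · exact LP.mul h.hpq (h.LV m_G4) (h.LPf hR h0 hα hα1 ha.2 τ)

/-- pointwise bound of the interior density -/
lemma Dat.ptw (h : Dat p q κ F) (h0 : z₀ ∈ (ball (0:ℂ) 1)) (hR : 0 < R) (hR2 : R ≤ 2) (hY0 : Y z₀ ≤ 2 * R)
    (hα : 0 < α) (hα1 : α < 1) (ha : a ∈ S z₀ (R / 2)) {τ : ℝ} {w : ℂ} (hw0 : w ∈ (ball (0:ℂ) 1)) :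
    ‖cv (ph p κ F) w * dbar (Pf p F z₀ R α a τ) w‖ₑ ≤ (S z₀ (2 * R)).indicator
      (fun w => ENNReal.ofReal (CE * (6 + p) * R ^ (-1 - α)) *
        (2 * Vf (ph p κ F) w ^ q + ‖F w‖ₑ ^ p +
          ENNReal.ofReal ((Y w * ‖Dq F τ w‖) ^ p))) w := by
  have hCE := CE_pos
  have hp0 := h.hpq.pos
  have hq0 := h.hpq.symm.pos
  rw [dbar_Pf hR ha.2 h.sol.an τ hw0]
  rcases le_or_gt (2 * R) ‖w - z₀‖ with h' | h'
  · rw [Ef_zero_ge hR h', e1_zero_ge hR h']
    simp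
  have hwS : w ∈ S z₀ (2 * R) := ⟨by rw [mem_ball, dist_eq_norm]; exact h', hw0⟩
  rw [indicator_of_mem hwS]
  have hY := Y_pos hw0
  have hY6 : Y w ≤ 6 * R := by
    have := Y_le_add h0 hw0
    linarith
  set V : ℝ := ‖cv (ph p κ F) w‖ / Y w with hV
  have hV0 : 0 ≤ V := by positivity
  have hVe : ‖cv (ph p κ F) w‖ = V * Y w := by rw [hV]; field_simp
  have b1 := Ef_R hR hR2 hα hα1 ha hw0
  have b2 := e1h_R hR hα hα1 ha hw0
  set f := ‖F w‖ with hf
  set d := Y w * ‖Dq F τ w‖ with hd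
  have hf0 : 0 ≤ f := norm_nonneg _
  have hd0 : 0 ≤ d := by positivity
  have hreal : ‖cv (ph p κ F) w * (Ef z₀ R α a w * F w +
      (p / 2) * (e1 z₀ R w * (w - z₀) * hw α a w) * Dq F τ w)‖ ≤
      CE * (6 + p) * R ^ (-1 - α) * (2 * V ^ q + f ^ p + d ^ p) := by
    rw [norm_mul, hVe]
    have c1 : ‖Ef z₀ R α a w * F w + (p / 2) * (e1 z₀ R w * (w - z₀) * hw α a w) * Dq F τ w‖ ≤
        CE * R ^ (-2 - α) * f + p / 2 * (CE * R ^ (-1 - α)) * ‖Dq F τ w‖ := by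
      refine (norm_add_le _ _).trans ?_
      rw [norm_mul, norm_mul, norm_mul (p / 2 : ℂ), norm_p2 hp0.le]
      gcongr
    have c2 : V * f ≤ V ^ q + f ^ p := by
      have h1 := Real.young_inequality_of_nonneg hV0 hf0 h.hpq.symm
      have h2 : V ^ q / q ≤ V ^ q := div_le_self (by positivity) h.hpq.symm.lt.le
      have h3 : f ^ p / p ≤ f ^ p := div_le_self (by positivity) h.hpq.lt.le
      linarith
    have c3 : V * d ≤ V ^ q + d ^ p := by
      have h1 := Real.young_inequality_of_nonneg hV0 hd0 h.hpq.symm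
      have h2 : V ^ q / q ≤ V ^ q := div_le_self (by positivity) h.hpq.symm.lt.le
      have h3 : d ^ p / p ≤ d ^ p := div_le_self (by positivity) h.hpq.lt.le
      linarith
    have c4 : R * R ^ (-2 - α) = R ^ (-1 - α) := by
      rw [show -1 - α = -2 - α + 1 by ring, Real.rpow_add_one hR.ne']
      ring
    calc V * Y w * ‖Ef z₀ R α a w * F w + (p / 2) * (e1 z₀ R w * (w - z₀) * hw α a w) *
          Dq F τ w‖ ≤ V * Y w * (CE * R ^ (-2 - α) * f + p / 2 * (CE * R ^ (-1 - α)) *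
            ‖Dq F τ w‖) := by gcongr
      _ = CE * R ^ (-2 - α) * (V * f) * Y w + p / 2 * (CE * R ^ (-1 - α)) * (V * d) := by
          rw [hd]; ring
      _ ≤ CE * R ^ (-2 - α) * (V * f) * (6 * R) + p / 2 * (CE * R ^ (-1 - α)) * (V * d) := by
          gcongr
      _ = CE * (R * R ^ (-2 - α)) * (6 * (V * f)) + p / 2 * (CE * R ^ (-1 - α)) * (V * d) := by
          ring
      _ = CE * R ^ (-1 - α) * (6 * (V * f) + p / 2 * (V * d)) := by rw [c4]; ring
      _ ≤ CE * R ^ (-1 - α) * ((6 + p) * (2 * V ^ q + f ^ p + d ^ p)) := by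
          gcongr
          have e1 : 0 ≤ V ^ q := by positivity
          have e2 : 0 ≤ f ^ p := by positivity
          have e3 : 0 ≤ d ^ p := by positivity
          nlinarith
      _ = _ := by ring
  rw [← ofReal_norm]
  refine (ENNReal.ofReal_le_ofReal hreal).trans (le_of_eq ?_)
  rw [ENNReal.ofReal_mul (by positivity), ENNReal.ofReal_add (by positivity) (by positivity),
    ENNReal.ofReal_add (by positivity) (by positivity), ENNReal.ofReal_mul (p := 2) (by norm_num),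
    enorm_rpow_eq hp0.le, ← hf]
  unfold Vf
  rw [ENNReal.ofReal_rpow_of_nonneg hV0 hq0.le, ENNReal.ofReal_ofNat]

theorem m_R1 : R1 := by
  intro p q α hpq hα hα1
  obtain ⟨C₀, hC₀, hN⟩ := m_N2b p hpq.lt
  have hCE := CE_pos
  have hp0 := hpq.pos
  refine ⟨CE * (6 + p) * (2 + C₀), by positivity, ?_⟩
  intro κ F h z₀ h0 R hR hR2 hY0 hκ a ha
  refine ⟨∫ w in (ball (0:ℂ) 1), Jf p F z₀ R α a w, h.bdry hR h0 hα hα1 ha.2, ?_⟩
  have h1 := h.inner hR h0 hα hα1 ha.2 hκ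
  obtain ⟨s1, s2, s3⟩ := seqR hR
  rw [ofReal_norm]
  refine le_of_tendsto ((continuous_enorm.tendsto _).comp h1) (Eventually.of_forall fun n => ?_)
  simp only [Function.comp_apply]
  set τ := R / ((n : ℝ) + 1) with hτ
  have hτ0 : 0 < τ := s1 n
  have hτR : τ ≤ R := s2 n
  rw [h.weakP h0 hR hR2 hα hα1 ha τ, enorm_neg]
  refine (enorm_integral_le_lintegral_enorm _).trans ?_
  have hDm : Measurable (Dq F τ) := by
    unfold Dq
    exact ((h.Fm.comp (emb_rot τ).measurable).sub h.Fm).div_const _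
  calc ∫⁻ w in (ball (0:ℂ) 1), ‖cv (ph p κ F) w * dbar (Pf p F z₀ R α a τ) w‖ₑ
      ≤ ∫⁻ w in (ball (0:ℂ) 1), (S z₀ (2 * R)).indicator
        (fun w => ENNReal.ofReal (CE * (6 + p) * R ^ (-1 - α)) *
          (2 * Vf (ph p κ F) w ^ q + ‖F w‖ₑ ^ p +
            ENNReal.ofReal ((Y w * ‖Dq F τ w‖) ^ p))) w := by
        apply setLIntegral_mono_ae' measurableSet_ball
        exact Eventually.of_forall fun w hw0 => h.ptw h0 hR hR2 hY0 hα hα1 ha hw0
    _ = ∫⁻ w in S z₀ (2 * R), ENNReal.ofReal (CE * (6 + p) * R ^ (-1 - α)) *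
          (2 * Vf (ph p κ F) w ^ q + ‖F w‖ₑ ^ p +
            ENNReal.ofReal ((Y w * ‖Dq F τ w‖) ^ p)) := by
        rw [lintegral_indicator (S_meas _ _), Measure.restrict_restrict (S_meas _ _),
          inter_eq_left.2 (S_sub _ _)]
    _ = ENNReal.ofReal (CE * (6 + p) * R ^ (-1 - α)) *
          ((∫⁻ w in S z₀ (2 * R), (2 * Vf (ph p κ F) w ^ q + ‖F w‖ₑ ^ p)) +
            ∫⁻ w in S z₀ (2 * R), ENNReal.ofReal ((Y w * ‖Dq F τ w‖) ^ p)) := by
        have m1 : Measurable fun w => 2 * Vf (ph p κ F) w ^ q + ‖F w‖ₑ ^ p :=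
          (((Vf_meas h.phm).pow_const q).const_mul 2).add (h.Fm.enorm.pow_const p)
        have m2 : Measurable fun w => ENNReal.ofReal ((Y w * ‖Dq F τ w‖) ^ p) :=
          ((continuous_Y.measurable.mul hDm.norm).pow_const p).ennreal_ofReal
        have m3 : Measurable fun w => 2 * Vf (ph p κ F) w ^ q + ‖F w‖ₑ ^ p +
          ENNReal.ofReal ((Y w * ‖Dq F τ w‖) ^ p) := m1.add m2
        rw [lintegral_const_mul _ m3, lintegral_add_left m1]
    _ ≤ ENNReal.ofReal (CE * (6 + p) * R ^ (-1 - α)) *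
          (2 * (∫⁻ w in S z₀ (6 * R), Gf p q κ F w) +
            ENNReal.ofReal C₀ * ∫⁻ w in S z₀ (6 * R), Gf p q κ F w) := by
        gcongr ENNReal.ofReal _ * (?_ + ?_)
        · calc ∫⁻ w in S z₀ (2 * R), (2 * Vf (ph p κ F) w ^ q + ‖F w‖ₑ ^ p)
              ≤ ∫⁻ w in S z₀ (2 * R), 2 * Gf p q κ F w := by
                apply lintegral_mono
                intro w
                simp only [Gf]
                rw [mul_add, add_comm]
                gcongr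
                exact le_mul_of_one_le_left bot_le (by norm_num)
            _ = 2 * ∫⁻ w in S z₀ (2 * R), Gf p q κ F w := lintegral_const_mul _ h.Gm
            _ ≤ _ := by
                gcongr
                exact S_mono _ (by linarith)
        · calc ∫⁻ w in S z₀ (2 * R), ENNReal.ofReal ((Y w * ‖Dq F τ w‖) ^ p)
              ≤ ∫⁻ w in S z₀ (2 * R + τ), ENNReal.ofReal ((Y w * ‖deriv F w‖) ^ p) :=
                Dq_Lp hpq.lt h.sol.an hτ0
            _ ≤ ∫⁻ w in S z₀ (3 * R), ENNReal.ofReal ((Y w * ‖deriv F w‖) ^ p) :=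
                lintegral_mono_set (S_mono _ (by linarith))
            _ ≤ ENNReal.ofReal C₀ * ∫⁻ w in S z₀ (2 * (3 * R)), ENNReal.ofReal (‖F w‖ ^ p) :=
                hN F h.sol.an z₀ h0 (3 * R) (by linarith)
            _ ≤ _ := by
                rw [show 2 * (3 * R) = 6 * R by ring]
                gcongr ENNReal.ofReal C₀ * ?_
                apply lintegral_mono
                intro w
                simp only [Gf]
                rw [enorm_rpow_eq hp0.le]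
                exact le_self_add
    _ = _ := by
        rw [← add_mul, ← mul_assoc]
        congr 1
        rw [show (2:ℝ≥0∞) = ENNReal.ofReal 2 by norm_num, ← ENNReal.ofReal_add (by norm_num) hC₀.le,
          ← ENNReal.ofReal_mul (by positivity)]
        congr 1; ring

end Pool.Agent.L0h83.BR
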