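import Pool.Agent.L0h83.BR.Defs

set_option autoImplicit false

namespace Pool.Agent.L0h83.BR

open Complex Metric Set Filter Topology MeasureTheory ComplexConjugate
open scoped ENNReal NNReal

/-! ### M1 (pointwise inequalities), file `L0h83/BR/M1.lean` -/

def P1 : Prop := ∀ p : ℝ, 1 < p → ∃ c : ℝ, 0 < c ∧ ∀ a b : ℂ,
  c * dens p a b ≤ (conj (A p a - A p b) * (a - b)).re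

def P2 : Prop := ∀ p q : ℝ, p.HolderConjugate q → ∃ m C : ℝ, 0 < m ∧ 0 < C ∧
  ∀ η : ℝ, 0 < η → η ≤ 1 → ∀ a b : ℂ,
    ‖A p a - A p b‖ ^ q ≤ C * η ^ (-m) * dens p a b + η * ‖a‖ ^ p

def P3 : Prop := ∀ p q : ℝ, p.HolderConjugate q → ∀ η : ℝ, 0 < η → ∃ C : ℝ, 0 < C ∧
  ∀ (a b : ℂ) (k : ℝ), 0 ≤ k → k * ‖a - b‖ ≤ η * dens p a b + C * k ^ q + η * ‖a‖ ^ p

def P4 : Prop := ∀ p : ℝ, 1 < p → ∀ η : ℝ, 0 < η → ∃ C : ℝ, 0 < C ∧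
  ∀ a b : ℂ, ‖a - b‖ ^ p ≤ C * dens p a b + η * ‖a‖ ^ p

def P5 : Prop := ∀ p : ℝ, 1 < p → ∃ C : ℝ, 0 < C ∧
  ∀ a b : ℂ, (‖a‖ + ‖b‖) ^ p ≤ C * (‖a‖ ^ p + dens p a b)

/-! ### M2 (integrals over the disc), file `L0h83/BR/M2.lean` -/

def G1 : Prop := ∃ C : ℝ, 0 < C ∧ ∀ (z : ℂ) (ρ t : ℝ), 0 < ρ → 0 < t →
  volume {w : ℂ | w ∈ ball (0:ℂ) 1 ∧ w ∈ ball z ρ ∧ Y w < t} ≤ ENNReal.ofReal (C * ρ * t)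

def G2 : Prop := ∀ ε : ℝ, 0 < ε → ε < 1 → ∃ C : ℝ, 0 < C ∧ ∀ (z : ℂ) (ρ : ℝ), 0 < ρ →
  ∫⁻ w in S z ρ, ENNReal.ofReal ((Y w) ^ (-ε)) ≤ ENNReal.ofReal (C * ρ ^ (2 - ε))

def G3 : Prop := ∀ ε : ℝ, 0 < ε → ε < 1 → ∃ C : ℝ, 0 < C ∧ ∀ z ∈ ball (0:ℂ) 1,
  ∫⁻ w in ball (0:ℂ) 1, ENNReal.ofReal (K z w * (Y w) ^ (-ε)) ≤
    ENNReal.ofReal (C * (Y z) ^ (-ε))

def G4 : Prop := ∀ q : ℝ, 1 < q → ∃ C : ℝ≥0, ∀ f : ℂ → ℝ≥0∞, Measurable f →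
  ∫⁻ z in ball (0:ℂ) 1, (∫⁻ w in ball (0:ℂ) 1, ENNReal.ofReal (K z w) * f w) ^ q ≤
    C * ∫⁻ w in ball (0:ℂ) 1, f w ^ q

def G5 : Prop := ∀ β : ℝ, 1 < β → ∃ C : ℝ, 0 < C ∧ ∀ a ∈ ball (0:ℂ) 1, ∀ ε : ℝ, 0 < ε →
  ∫⁻ w in {w : ℂ | w ∈ ball (0:ℂ) 1 ∧ Y w < ε}, ENNReal.ofReal (‖1 - conj a * w‖ ^ (-β)) ≤
    ENNReal.ofReal (C * ε * (Y a) ^ (1 - β))

/-! ### M3 (good-lambda), file `L0h83/BR/M3.lean` (may use `G1`, `G2` as hypotheses) -/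

/-- the hypothesis (decomposition of `G` in a box) -/
def Dec (ε c CH γ η : ℝ) (G f : ℂ → ℝ≥0∞) : Prop :=
  ∀ z₀ ∈ ball (0:ℂ) 1, ∀ R : ℝ, Y z₀ ≤ R → R ≤ 2 → ∀ lam : ℝ, 0 < lam →
    (∀ ρ ∈ Icc R 2, ∫⁻ w in S z₀ ρ, G w ≤ ENNReal.ofReal (lam * ρ ^ 2)) →
    (∀ ρ ∈ Icc R 2, ∫⁻ w in S z₀ ρ, f w ≤ ENNReal.ofReal (γ * lam * ρ ^ 2)) →
    ∃ G₂ D' : ℂ → ℝ≥0∞, Measurable G₂ ∧ Measurable D' ∧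
      (∀ z ∈ S z₀ (c * R), G z ≤ ENNReal.ofReal CH * (G₂ z + D' z)) ∧
      (∀ z ∈ S z₀ (c * R), G₂ z ≤ ENNReal.ofReal (CH * lam * (R / Y z) ^ ε)) ∧
      ∫⁻ w in S z₀ (c * R), D' w ≤ ENNReal.ofReal (η * lam * R ^ 2)

def M3 : Prop := ∀ s ε c CH C1 : ℝ, 1 < s → 0 < ε → ε * (s + 1) ≤ 1 → 0 < c → c ≤ 1 → 0 < CH →
  0 < C1 → ∃ η : ℝ, 0 < η ∧ ∀ γ : ℝ, 0 < γ → ∃ C : ℝ≥0, ∀ G f W : ℂ → ℝ≥0∞,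
    Measurable G → Measurable f → Measurable W → ∫⁻ z in ball (0:ℂ) 1, G z ≠ ⊤ →
    Dec ε c CH γ η G f →
    (∀ z ∈ ball (0:ℂ) 1, W z * ENNReal.ofReal ((Y z) ^ 2) ≤
      ENNReal.ofReal C1 * ∫⁻ w in S z (Y z), G w) →
    ∫⁻ z in ball (0:ℂ) 1, W z ^ s ≤
      C * (∫⁻ z in ball (0:ℂ) 1, f z ^ s + (∫⁻ z in ball (0:ℂ) 1, G z) ^ s)

end Pool.Agent.L0h83.BR
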