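import Pool.Agent.L0h83.BR.E1
import Pool.Agent.L0h83.BR.Stm

set_option autoImplicit false

namespace Pool.Agent.L0h83.BR

open Complex Metric Set Filter Topology MeasureTheory ComplexConjugate
open scoped ENNReal NNReal

/-! ### N1 (existence), file `L0h83/BR/N1.lean`. Direct method: minimising sequence is bounded in `A^p`
(Young), hence locally bounded (submean property), Montel (for instance
`Pool.Agent.H801R2.CX.Montel` `tlu_pt` with an ultrafilter, or `Pool.Agent.H978R3.Montel`), Fatou for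
`∫|f|^p`, and `∫ f κ̄` converges because `κ` is bounded and vanishes for `|z| > r₀`.
The result `Sol` follows from `Mini.sol` of `E1.lean`. -/

def N1 : Prop := ∀ (p q : ℝ), p.HolderConjugate q → ∀ (κ : ℂ → ℂ) (M r₀ : ℝ), Measurable κ →
  (∀ z, ‖κ z‖ ≤ M) → r₀ < 1 → (∀ z, r₀ < ‖z‖ → κ z = 0) → ∃ F : ℂ → ℂ, Measurable F ∧ Mini p κ F

/-! ### N2 (submean properties), file `L0h83/BR/N2.lean` -/

/-- pointwise: `|F z|^p` and `(Y z |F' z|)^p` are at most `C Y(z)^(-2) ∫_{B(z, Y z/4)} |F|^p`.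
(inside the disc, since `1 - |z| ≥ Y z / 2`.) -/
def N2a : Prop := ∀ p : ℝ, 1 < p → ∃ C : ℝ, 0 < C ∧ ∀ F : ℂ → ℂ,
  DifferentiableOn ℂ F (ball 0 1) → ∀ z ∈ ball (0:ℂ) 1,
    ENNReal.ofReal ((‖F z‖ ^ p + (Y z * ‖deriv F z‖) ^ p) * (Y z) ^ 2) ≤
      ENNReal.ofReal C * ∫⁻ w in ball z (Y z / 4), ENNReal.ofReal (‖F w‖ ^ p)

/-- integrated (Tonelli) -/
def N2b : Prop := ∀ p : ℝ, 1 < p → ∃ C : ℝ, 0 < C ∧ ∀ F : ℂ → ℂ,
  DifferentiableOn ℂ F (ball 0 1) → ∀ z₀ ∈ ball (0:ℂ) 1, ∀ ρ : ℝ, Y z₀ ≤ ρ →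
    ∫⁻ z in S z₀ ρ, ENNReal.ofReal ((Y z * ‖deriv F z‖) ^ p) ≤
      ENNReal.ofReal C * ∫⁻ w in S z₀ (2 * ρ), ENNReal.ofReal (‖F w‖ ^ p)

/-! ### N3 (from the extremal problem to `Mini`), file `L0h83/BR/N3.lean`. -/

/-- area measure on the unit disc, normalised to have total mass one -/
noncomputable def σ : Measure ℂ := ENNReal.ofReal (1 / Real.pi) • volume.restrict (ball (0:ℂ) 1)

/-- the Bergman space `A^r` -/
def InBergman (r : ℝ) (f : ℂ → ℂ) : Prop :=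
  DifferentiableOn ℂ f (ball 0 1) ∧ Integrable (fun z => ‖f z‖ ^ r) σ

noncomputable def bergmanNorm (r : ℝ) (f : ℂ → ℂ) : ℝ := (∫ z, ‖f z‖ ^ r ∂σ) ^ (1 / r)

noncomputable def functional (k f : ℂ → ℂ) : ℂ := ∫ z, f z * conj (k z) ∂σ

/-- `F` is the extremal function for `k` -/
def IsExtremal (p : ℝ) (k F : ℂ → ℂ) : Prop :=
  InBergman p F ∧ bergmanNorm p F = 1 ∧
    ∀ g, InBergman p g → bergmanNorm p g = 1 → (functional k g).re ≤ (functional k F).re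

/-- with `m = Re φ(F) > 0`, `F` minimises `(1/p)∫|f|^p - Re ∫ f conj(k/m)`; `m > 0` because `k ≠ 0`
(test with `z^n`). -/
def N3 : Prop := ∀ (p q : ℝ), p.HolderConjugate q → ∀ k F : ℂ → ℂ, InBergman q k →
  (∃ z ∈ ball (0:ℂ) 1, k z ≠ 0) → IsExtremal p k F →
    ∃ m : ℝ, 0 < m ∧ Mini p (fun z => k z / (m : ℂ)) F

end Pool.Agent.L0h83.BR
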