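import Pool.Agent.L0h83.BR.V3
import Pool.Agent.L0h83.BR.Stm2

/-! The analytic modules of the argument. `Dat`, `Gf`, `Vf`, `ph`, `KP` are in `V3.lean`. -/

set_option autoImplicit false

namespace Pool.Agent.L0h83.BR

open Complex Metric Set Filter Topology MeasureTheory ComplexConjugate
open scoped ENNReal NNReal

/-- profile of the cut-off: `1` for `t ≤ R²`, `0` for `t ≥ 4R²` -/
noncomputable def etaR (R t : ℝ) : ℝ := 1 - Real.smoothTransition ((t / R ^ 2 - 1) / 3)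

/-- the cut-off: `1` on `B(z₀, R)`, `0` off `B(z₀, 2R)` -/
noncomputable def eta (z₀ : ℂ) (R : ℝ) (z : ℂ) : ℂ := ((etaR R (‖z - z₀‖ ^ 2) : ℝ) : ℂ)

/-- the weight `(1 - ā z)^(-α)` -/
noncomputable def hw (α : ℝ) (a z : ℂ) : ℂ := (1 - conj a * z) ^ (-(α : ℂ))

/-- R1 (Rellich identity), file `R1.lean` -/
def R1 : Prop := ∀ p q α : ℝ, p.HolderConjugate q → 0 < α → α < 1 → ∃ C : ℝ, 0 < C ∧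
  ∀ κ F : ℂ → ℂ, Dat p q κ F → ∀ z₀ ∈ ball (0:ℂ) 1, ∀ R : ℝ, 0 < R → R ≤ 2 → Y z₀ ≤ 2 * R →
    (∀ z ∈ S z₀ (2 * R), κ z = 0) → ∀ a ∈ S z₀ (R / 2), ∃ L : ℂ,
      Tendsto (fun ε : ℝ => ∫ z in ball (0:ℂ) 1,
        ((ell ε z * ‖z‖ ^ 2 * ‖F z‖ ^ p : ℝ) : ℂ) * (eta z₀ R z * hw α a z)) (𝓝[>] 0) (𝓝 L) ∧
      ENNReal.ofReal ‖L‖ ≤
        ENNReal.ofReal (C * R ^ (-1 - α)) * ∫⁻ w in S z₀ (6 * R), Gf p q κ F w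

/-- LE1 (first local estimate), file `L1.lean`: from `R1` and `G5` -/
def LE1 : Prop := ∀ p q ε : ℝ, p.HolderConjugate q → 0 < ε → ε < 1 → ∃ C : ℝ, 0 < C ∧
  ∀ κ F : ℂ → ℂ, Dat p q κ F → ∀ z₀ ∈ ball (0:ℂ) 1, ∀ R : ℝ, 0 < R → R ≤ 2 → Y z₀ ≤ 2 * R →
    (∀ z ∈ S z₀ (2 * R), κ z = 0) → ∀ a ∈ S z₀ (R / 2),
      ‖F a‖ₑ ^ p ≤ ENNReal.ofReal (C * (R / Y a) ^ ε / R ^ 2) * ∫⁻ w in S z₀ (6 * R), Gf p q κ F w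

/-- LE (full local estimate), file `L2.lean`: from `LE1` and `G3` -/
def LE : Prop := ∀ p q ε : ℝ, p.HolderConjugate q → 0 < ε → ε < 1 → ∃ C : ℝ, 0 < C ∧
  ∀ κ F : ℂ → ℂ, Dat p q κ F → ∀ z₀ ∈ ball (0:ℂ) 1, ∀ R : ℝ, 0 < R → R ≤ 2 → Y z₀ ≤ 2 * R →
    (∀ z ∈ S z₀ (2 * R), κ z = 0) → ∀ a ∈ S z₀ (R / 8),
      Gf p q κ F a ≤ ENNReal.ofReal (C * (R / Y a) ^ ε / R ^ 2) * ∫⁻ w in S z₀ (6 * R), Gf p q κ F w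

/-- CMP (comparison), file `C1.lean`: from `P1`, `P3` -/
def CMP : Prop := ∀ p q : ℝ, p.HolderConjugate q → ∀ η : ℝ, 0 < η → ∃ C : ℝ, 0 < C ∧
  ∀ κ κ₂ F F₂ : ℂ → ℂ, Dat p q κ F → Dat p q κ₂ F₂ → ∀ (z₀ : ℂ) (R : ℝ),
    (∀ z ∈ ball (0:ℂ) 1, z ∉ S z₀ R → κ₂ z = κ z) → (∀ z ∈ S z₀ R, κ₂ z = 0) →
    ∫⁻ z in ball (0:ℂ) 1, ENNReal.ofReal (dens p (F z) (F₂ z)) ≤
      ENNReal.ofReal C * (∫⁻ z in S z₀ R, ‖κ z‖ₑ ^ q) +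
        ENNReal.ofReal η * (∫⁻ z in S z₀ R, ‖F z‖ₑ ^ p)

/-- DecT (decomposition in every box), file `C2.lean`: from `LE`, `CMP`, `P2`, `G4`, `N1` -/
def DecT : Prop := ∀ p q ε : ℝ, p.HolderConjugate q → 0 < ε → ε < 1 → ∃ c CH : ℝ, 0 < c ∧ c ≤ 1 ∧
  0 < CH ∧ ∀ η : ℝ, 0 < η → ∃ γ : ℝ, 0 < γ ∧ ∀ κ F : ℂ → ℂ, Dat p q κ F →
    Dec ε c CH γ η (Gf p q κ F) (fun z => ‖κ z‖ₑ ^ q)

/-- F1 (uniform estimate), file `F1.lean`: from `DecT`, `m_M3_strong`, `N2a`, `G4` -/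
def UE : Prop := ∀ p q s : ℝ, p.HolderConjugate q → 1 < s → ∃ C : ℝ≥0,
  ∀ κ F : ℂ → ℂ, Dat p q κ F → ∫⁻ z in ball (0:ℂ) 1, ‖F z‖ₑ ^ (p * s) ≤
    C * ((∫⁻ z in ball (0:ℂ) 1, ‖κ z‖ₑ ^ (q * s)) + (∫⁻ z in ball (0:ℂ) 1, ‖κ z‖ₑ ^ q) ^ s)

/-- F2 (removal of the regularisation), file `F2.lean`: from `UE`, `N1`, `N2a`, `P1`, `P4` -/
def GE : Prop := ∀ p q s : ℝ, p.HolderConjugate q → 1 < s → ∀ κ F : ℂ → ℂ,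
  DifferentiableOn ℂ κ (ball 0 1) → ∫⁻ z in ball (0:ℂ) 1, ‖κ z‖ₑ ^ (q * s) ≠ ⊤ → Mini p κ F →
    ∫⁻ z in ball (0:ℂ) 1, ‖F z‖ₑ ^ (p * s) ≠ ⊤

/-- the main theorem, file `F3.lean`: from `GE` and `N3` -/
def Main : Prop := ∀ p q q₁ : ℝ, p.HolderConjugate q → 1 < q₁ → ∀ k F : ℂ → ℂ,
  InBergman q k → (∃ z ∈ ball (0:ℂ) 1, k z ≠ 0) → IsExtremal p k F → InBergman q₁ k →
    InBergman ((p - 1) * q₁) F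

end Pool.Agent.L0h83.BR
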