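import Pool.Agent.L0h83.BR.E1
import Pool.Agent.L0h83.BR.Stm

/-! Rotations and the energy estimate. -/

set_option autoImplicit false

namespace Pool.Agent.L0h83.BR

open Complex Metric Set Filter Topology MeasureTheory ComplexConjugate
open scoped ENNReal NNReal

/-- the rotation -/
noncomputable def rot (τ : ℝ) (z : ℂ) : ℂ := Complex.exp (τ * I) * z

lemma rot_eq (τ : ℝ) : rot τ = rotation (Circle.exp τ) := by
  funext z
  rw [rotation_apply, Circle.coe_exp]
  rfl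

lemma norm_rot (τ : ℝ) (z : ℂ) : ‖rot τ z‖ = ‖z‖ := by
  unfold rot
  rw [norm_mul, Complex.norm_exp_ofReal_mul_I, one_mul]

lemma rot_mem {τ : ℝ} {z : ℂ} : rot τ z ∈ (ball (0:ℂ) 1) ↔ z ∈ (ball (0:ℂ) 1) := by
  rw [mem_ball_zero_iff, mem_ball_zero_iff, norm_rot]

lemma rot_rot (τ s : ℝ) (z : ℂ) : rot τ (rot s z) = rot (τ + s) z := by
  unfold rot
  rw [← mul_assoc, ← Complex.exp_add]
  congr 2
  push_cast; ring

lemma rot_zero (z : ℂ) : rot 0 z = z := by simp [rot]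

lemma rot_neg_rot (τ : ℝ) (z : ℂ) : rot (-τ) (rot τ z) = z := by
  rw [rot_rot]; simp [rot_zero]

lemma mp_rot (τ : ℝ) : MeasurePreserving (rot τ) volume volume := by
  rw [rot_eq]
  exact (rotation (Circle.exp τ)).measurePreserving

lemma mp_rot_D (τ : ℝ) : MeasurePreserving (rot τ) (volume.restrict (ball (0:ℂ) 1)) (volume.restrict (ball (0:ℂ) 1)) := by
  have h := (mp_rot τ).restrict_preimage (s := (ball (0:ℂ) 1)) measurableSet_ball
  have e : rot τ ⁻¹' (ball (0:ℂ) 1) = (ball (0:ℂ) 1) := by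
    ext z; exact rot_mem
  rwa [e] at h

lemma emb_rot (τ : ℝ) : MeasurableEmbedding (rot τ) := by
  rw [rot_eq]
  exact (rotation (Circle.exp τ)).toHomeomorph.measurableEmbedding

lemma int_rot (τ : ℝ) (f : ℂ → ℂ) : ∫ z in (ball (0:ℂ) 1), f (rot τ z) = ∫ z in (ball (0:ℂ) 1), f z :=
  (mp_rot_D τ).integral_comp (emb_rot τ) f

lemma integrable_rot (τ : ℝ) {E : Type*} [NormedAddCommGroup E] {f : ℂ → E}
    (h : IntegrableOn f (ball (0:ℂ) 1)) : IntegrableOn (fun z => f (rot τ z)) (ball (0:ℂ) 1) :=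
  ((mp_rot_D τ).integrable_comp_emb (emb_rot τ)).2 h

lemma Y_rot (τ : ℝ) (z : ℂ) : Y (rot τ z) = Y z := by
  unfold Y; rw [norm_rot]

lemma rot_an {F : ℂ → ℂ} (hF : DifferentiableOn ℂ F (ball (0:ℂ) 1)) (τ : ℝ) :
    DifferentiableOn ℂ (fun z => F (rot τ z)) (ball (0:ℂ) 1) := by
  apply hF.comp (t := (ball (0:ℂ) 1))
  · unfold rot; fun_prop
  · intro z hz; exact rot_mem.2 hz

lemma norm_rot_sub (τ : ℝ) (z : ℂ) (hz : ‖z‖ ≤ 1) : ‖rot τ z - z‖ ≤ |τ| := by
  have h : rot τ z - z = (Complex.exp (τ * I) - 1) * z := by unfold rot; ring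
  rw [h, norm_mul]
  have h1 : ‖Complex.exp (τ * I) - 1‖ ≤ |τ| := by
    have := Real.norm_exp_I_mul_ofReal_sub_one_le (x := τ)
    rw [mul_comm]
    rw [Real.norm_eq_abs] at this
    exact this
  calc ‖Complex.exp (τ * I) - 1‖ * ‖z‖ ≤ |τ| * 1 :=
        mul_le_mul h1 hz (norm_nonneg _) (abs_nonneg _)
    _ = |τ| := mul_one _

/-- derivative along the rotation -/
lemma hasDerivAt_rot {F : ℂ → ℂ} (hF : DifferentiableOn ℂ F (ball (0:ℂ) 1)) {z : ℂ} (hz : z ∈ (ball (0:ℂ) 1)) (s : ℝ) :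
    HasDerivAt (fun s : ℝ => F (rot s z)) (I * (rot s z * deriv F (rot s z))) s := by
  have h1 : HasDerivAt (fun s : ℝ => rot s z) (I * rot s z) s := by
    unfold rot
    have h2 : HasDerivAt (fun s : ℝ => (s : ℂ) * I) I s := by
      simpa using (Complex.ofRealCLM.hasDerivAt (x := s)).mul_const I
    have h3 := h2.cexp.mul_const z
    refine h3.congr_deriv ?_
    ring
  have h4 : HasDerivAt F (deriv F (rot s z)) (rot s z) :=
    (hF.differentiableAt (isOpen_ball.mem_nhds (rot_mem.2 hz))).hasDerivAt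
  have h5 := h4.comp_of_eq s h1 rfl
  refine h5.congr_deriv ?_
  ring

/-- second differences of an analytic function along the rotation -/
lemma second_diff {F : ℂ → ℂ} (hF : DifferentiableOn ℂ F (ball (0:ℂ) 1)) {r₀ : ℝ} (hr : r₀ < 1) :
    ∃ C : ℝ, 0 ≤ C ∧ ∀ z : ℂ, ‖z‖ ≤ r₀ → ∀ τ : ℝ,
      ‖F (rot τ z) + F (rot (-τ) z) - 2 * F z‖ ≤ C * τ ^ 2 := by
  set G : ℂ → ℂ := fun z => I * (z * deriv F z) with hG
  have hGd : DifferentiableOn ℂ G (ball (0:ℂ) 1) := (differentiableOn_id.mul (hF.deriv isOpen_ball)).const_mul _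
  have hc : ContinuousOn (deriv G) (closedBall 0 r₀) :=
    (hGd.deriv isOpen_ball).continuousOn.mono (closedBall_subset_ball hr)
  obtain ⟨M, hM⟩ := (isCompact_closedBall (0:ℂ) r₀).exists_bound_of_continuousOn hc
  refine ⟨2 * |M|, by positivity, fun z hz τ => ?_⟩
  have hz1 : z ∈ (ball (0:ℂ) 1) := by rw [mem_ball_zero_iff]; linarith
  have hr0 : 0 ≤ r₀ := (norm_nonneg _).trans hz
  -- the derivative is Lipschitz
  have hL : ∀ s t : ℝ, ‖G (rot s z) - G (rot t z)‖ ≤ |M| * |s - t| := by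
    intro s t
    have h1 : ∀ x ∈ (univ : Set ℝ), HasDerivWithinAt (fun s : ℝ => G (rot s z))
        (I * (rot x z * deriv G (rot x z))) univ x := fun x _ =>
      (hasDerivAt_rot hGd hz1 x).hasDerivWithinAt
    have h2 : ∀ x ∈ (univ : Set ℝ), ‖I * (rot x z * deriv G (rot x z))‖ ≤ |M| := by
      intro x _
      rw [norm_mul, Complex.norm_I, one_mul, norm_mul, norm_rot]
      have h3 := hM (rot x z) (by rw [mem_closedBall_zero_iff, norm_rot]; exact hz)
      calc ‖z‖ * ‖deriv G (rot x z)‖ ≤ 1 * |M| :=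
            mul_le_mul (by linarith) (h3.trans (le_abs_self M)) (norm_nonneg _) zero_le_one
        _ = |M| := one_mul _
    have := convex_univ.norm_image_sub_le_of_norm_hasDerivWithin_le h1 h2 (mem_univ t) (mem_univ s)
    rwa [Real.norm_eq_abs] at this
  have h4 : ∀ x ∈ (univ : Set ℝ), HasDerivWithinAt
      (fun s : ℝ => F (rot s z) + F (rot (-s) z)) (G (rot x z) - G (rot (-x) z)) univ x := by
    intro x _
    have a1 := hasDerivAt_rot hF hz1 x
    have a2 : HasDerivAt (fun s : ℝ => F (rot (-s) z))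
        ((-1 : ℝ) • (I * (rot (-x) z * deriv F (rot (-x) z)))) x :=
      HasDerivAt.scomp x (hasDerivAt_rot hF hz1 (-x)) (hasDerivAt_neg x)
    have a3 := a1.add a2
    refine (HasDerivAt.congr_deriv a3 ?_).hasDerivWithinAt
    simp only [hG, neg_smul, one_smul]
    ring
  have h5 : ∀ x ∈ Icc (-|τ|) |τ|, ‖G (rot x z) - G (rot (-x) z)‖ ≤ 2 * |M| * |τ| := by
    intro x hx
    refine (hL x (-x)).trans ?_
    have : |x - -x| ≤ 2 * |τ| := by
      rw [sub_neg_eq_add, ← two_mul, abs_mul, abs_two]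
      have := abs_le.2 hx
      linarith
    calc |M| * |x - -x| ≤ |M| * (2 * |τ|) := mul_le_mul_of_nonneg_left this (abs_nonneg _)
      _ = _ := by ring
  have h6 := (convex_Icc (-|τ|) |τ|).norm_image_sub_le_of_norm_hasDerivWithin_le
    (f := fun s : ℝ => F (rot s z) + F (rot (-s) z)) (x := 0) (y := τ)
    (fun x hx => (h4 x (mem_univ x)).mono (subset_univ _)) h5
    ⟨by simp, by simp⟩ ⟨neg_abs_le τ, le_abs_self τ⟩
  simp only [neg_zero, rot_zero, sub_zero, Real.norm_eq_abs] at h6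
  calc ‖F (rot τ z) + F (rot (-τ) z) - 2 * F z‖ =
        ‖F (rot τ z) + F (rot (-τ) z) - (F z + F z)‖ := by rw [two_mul]
    _ ≤ 2 * |M| * |τ| * |τ| := h6
    _ = 2 * |M| * τ ^ 2 := by rw [mul_assoc, ← sq, sq_abs]

end Pool.Agent.L0h83.BR
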