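import Pool.Agent.L0h83.BR.T1

/-! The energy estimate along rotations. -/

set_option autoImplicit false

namespace Pool.Agent.L0h83.BR

open Complex Metric Set Filter Topology MeasureTheory ComplexConjugate
open scoped ENNReal NNReal

lemma dens_nonneg (p : ℝ) (a b : ℂ) : 0 ≤ dens p a b := by
  unfold dens; positivity

lemma dens_comm (p : ℝ) (a b : ℂ) : dens p a b = dens p b a := by
  unfold dens; rw [add_comm, norm_sub_rev]

lemma dens_le {p : ℝ} (hp : 1 < p) (a b : ℂ) : dens p a b ≤ (‖a‖ + ‖b‖) ^ p := by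
  unfold dens
  rcases eq_or_lt_of_le (show 0 ≤ ‖a‖ + ‖b‖ by positivity) with h0 | h0
  · have h1 : ‖a - b‖ = 0 := le_antisymm ((norm_sub_le a b).trans_eq h0.symm) (norm_nonneg _)
    have h2 : (0:ℝ) ^ p = 0 := Real.zero_rpow (by linarith)
    rw [h1, ← h0, h2]
    simp
  · have h1 : ‖a - b‖ ^ 2 ≤ (‖a‖ + ‖b‖) ^ 2 := by
      have := norm_sub_le a b
      gcongr
    calc (‖a‖ + ‖b‖) ^ (p - 2) * ‖a - b‖ ^ 2 ≤ (‖a‖ + ‖b‖) ^ (p - 2) * (‖a‖ + ‖b‖) ^ 2 :=
          mul_le_mul_of_nonneg_left h1 (by positivity)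
      _ = _ := by
          rw [← Real.rpow_natCast (‖a‖ + ‖b‖) 2, ← Real.rpow_add h0]
          congr 1; push_cast; ring

lemma dens_le' {p : ℝ} (hp : 1 < p) (a b : ℂ) : dens p a b ≤ 2 ^ p * (‖a‖ ^ p + ‖b‖ ^ p) :=
  (dens_le hp a b).trans (add_rpow_le (norm_nonneg _) (norm_nonneg _) (by linarith))

lemma dens_meas (p : ℝ) : Measurable fun x : ℂ × ℂ => dens p x.1 x.2 := by
  unfold dens; fun_prop

lemma dens_aesm {p : ℝ} {μ : Measure ℂ} {F G : ℂ → ℂ} (hF : AEStronglyMeasurable F μ)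
    (hG : AEStronglyMeasurable G μ) :
    AEStronglyMeasurable (fun z => dens p (F z) (G z)) μ :=
  ((dens_meas p).comp_aemeasurable (hF.aemeasurable.prodMk hG.aemeasurable)).aestronglyMeasurable

lemma dens_int {p : ℝ} (hp : 1 < p) {μ : Measure ℂ} {F G : ℂ → ℂ}
    (hFm : AEStronglyMeasurable F μ) (hGm : AEStronglyMeasurable G μ)
    (hF : Integrable (fun z => ‖F z‖ ^ p) μ) (hG : Integrable (fun z => ‖G z‖ ^ p) μ) :
    Integrable (fun z => dens p (F z) (G z)) μ := by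
  refine Integrable.mono' ((hF.add hG).const_mul (2 ^ p)) (dens_aesm hFm hGm) ?_
  refine Eventually.of_forall fun z => ?_
  rw [Real.norm_eq_abs, abs_of_nonneg (dens_nonneg _ _ _)]
  exact dens_le' hp _ _

lemma int_sub' {p : ℝ} (hp : 0 ≤ p) {μ : Measure ℂ} {F h : ℂ → ℂ}
    (hFm : AEStronglyMeasurable F μ) (hhm : AEStronglyMeasurable h μ)
    (hF : Integrable (fun z => ‖F z‖ ^ p) μ) (hh : Integrable (fun z => ‖h z‖ ^ p) μ) :
    Integrable (fun z => ‖F z - h z‖ ^ p) μ := by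
  have := int_add' hp hFm hhm hF hh (-1)
  refine this.congr (Eventually.of_forall fun z => ?_)
  simp only; congr 2; ring

/-- `conj (A F) h` is integrable -/
lemma int_Ah {p q : ℝ} (hpq : p.HolderConjugate q) {μ : Measure ℂ} {F h : ℂ → ℂ}
    (hFm : AEStronglyMeasurable F μ) (hhm : AEStronglyMeasurable h μ)
    (hF : Integrable (fun z => ‖F z‖ ^ p) μ) (hh : Integrable (fun z => ‖h z‖ ^ p) μ) :
    Integrable (fun z => conj (A p (F z)) * h z) μ := by
  obtain ⟨hAm, hAi⟩ := int_A (μ := μ) hpq hFm hF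
  have hcAm : AEStronglyMeasurable (fun z => conj (A p (F z))) μ :=
    Complex.continuous_conj.comp_aestronglyMeasurable hAm
  have hcA : Integrable (fun z => ‖conj (A p (F z))‖ ^ q) μ := by
    simpa only [RCLike.norm_conj] using hAi
  exact int_young hpq hhm hcAm hh hcA

lemma int_kh {p q : ℝ} (hpq : p.HolderConjugate q) {μ : Measure ℂ} {k h : ℂ → ℂ}
    (hkm : AEStronglyMeasurable k μ) (hhm : AEStronglyMeasurable h μ)
    (hk : Integrable (fun z => ‖k z‖ ^ q) μ) (hh : Integrable (fun z => ‖h z‖ ^ p) μ) :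
    Integrable (fun z => conj (k z) * h z) μ := by
  have hcAm : AEStronglyMeasurable (fun z => conj (k z)) μ :=
    Complex.continuous_conj.comp_aestronglyMeasurable hkm
  have hcA : Integrable (fun z => ‖conj (k z)‖ ^ q) μ := by
    simpa only [RCLike.norm_conj] using hk
  exact int_young hpq hhm hcAm hh hcA

/-- the Euler-Lagrange equation, separated -/
lemma Sol.el' {p q : ℝ} (hpq : p.HolderConjugate q) {κ F h : ℂ → ℂ} (hF : Sol p κ F)
    (hkm : AEStronglyMeasurable κ (volume.restrict (ball (0:ℂ) 1)))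
    (hk : IntegrableOn (fun z => ‖κ z‖ ^ q) (ball (0:ℂ) 1)) (hh : DifferentiableOn ℂ h (ball (0:ℂ) 1))
    (hhi : IntegrableOn (fun z => ‖h z‖ ^ p) (ball (0:ℂ) 1)) :
    ∫ z in (ball (0:ℂ) 1), conj (A p (F z)) * h z = ∫ z in (ball (0:ℂ) 1), conj (κ z) * h z := by
  have h1 := hF.el h hh hhi
  have i1 := int_Ah hpq (meas_an hF.an) (meas_an hh) hF.int hhi
  have i2 := int_kh hpq hkm (meas_an hh) hk hhi
  have : ∫ z in (ball (0:ℂ) 1), conj (A p (F z) - κ z) * h z =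
      (∫ z in (ball (0:ℂ) 1), conj (A p (F z)) * h z) - ∫ z in (ball (0:ℂ) 1), conj (κ z) * h z := by
    rw [← integral_sub i1 i2]
    congr 1; ext z; rw [map_sub]; ring
  rw [this] at h1
  exact sub_eq_zero.1 h1

lemma bdd_int {κ : ℂ → ℂ} {M q : ℝ} (hq : 0 ≤ q) (hκm : Measurable κ) (hM : ∀ z, ‖κ z‖ ≤ M) :
    IntegrableOn (fun z => ‖κ z‖ ^ q) (ball (0:ℂ) 1) := by
  have hfin : volume (ball (0:ℂ) 1) ≠ ⊤ := measure_ball_lt_top.ne
  have hc : IntegrableOn (fun _ : ℂ => M ^ q) (ball (0:ℂ) 1) := integrableOn_const hfin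
  refine Integrable.mono' hc (by fun_prop) (Eventually.of_forall fun z => ?_)
  rw [Real.norm_eq_abs, abs_of_nonneg (by positivity)]
  exact Real.rpow_le_rpow (norm_nonneg _) (hM z) hq

/-- energy estimate -/
theorem energy {p q : ℝ} (hpq : p.HolderConjugate q) (hP1 : P1) {κ F : ℂ → ℂ} {M r₀ : ℝ}
    (hF : Sol p κ F) (hκm : Measurable κ) (hM : ∀ z, ‖κ z‖ ≤ M) (hr : r₀ < 1)
    (h0 : ∀ z, r₀ < ‖z‖ → κ z = 0) :
    ∃ C : ℝ, 0 ≤ C ∧ ∀ τ : ℝ, ∫ z in (ball (0:ℂ) 1), dens p (F z) (F (rot τ z)) ≤ C * τ ^ 2 := by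
  have hp := hpq.lt
  have hp0 : 0 ≤ p := by linarith
  obtain ⟨c, hc, hP⟩ := hP1 p hp
  obtain ⟨C, hC, hC2⟩ := second_diff hF.an hr
  have hM0 : 0 ≤ M := (norm_nonneg _).trans (hM 0)
  refine ⟨c⁻¹ * (M * C * Real.pi), by positivity, fun τ => ?_⟩
  set Ft : ℂ → ℂ := fun z => F (rot τ z) with hFt
  set Fm : ℂ → ℂ := fun z => F (rot (-τ) z) with hFm
  have hFta := rot_an hF.an τ
  have hFma := rot_an hF.an (-τ)
  have hFti : IntegrableOn (fun z => ‖Ft z‖ ^ p) (ball (0:ℂ) 1) := integrable_rot τ hF.int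
  have hFmi : IntegrableOn (fun z => ‖Fm z‖ ^ p) (ball (0:ℂ) 1) := integrable_rot (-τ) hF.int
  have m1 := meas_an hF.an
  have m2 := meas_an hFta
  have m3 := meas_an hFma
  have hκi : IntegrableOn (fun z => ‖κ z‖ ^ q) (ball (0:ℂ) 1) :=
    bdd_int hpq.symm.nonneg hκm hM
  have hκm' : AEStronglyMeasurable κ (volume.restrict (ball (0:ℂ) 1)) := hκm.aestronglyMeasurable
  have a1 : ∫ z in (ball (0:ℂ) 1), conj (A p (F z)) * (Ft z - F z) = ∫ z in (ball (0:ℂ) 1), conj (κ z) * (Ft z - F z) :=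
    hF.el' hpq hκm' hκi (hFta.sub hF.an) (int_sub' hp0 m2 m1 hFti hF.int)
  have a2 : ∫ z in (ball (0:ℂ) 1), conj (A p (F z)) * (F z - Fm z) = ∫ z in (ball (0:ℂ) 1), conj (κ z) * (F z - Fm z) :=
    hF.el' hpq hκm' hκi (hF.an.sub hFma) (int_sub' hp0 m1 m3 hF.int hFmi)
  have a3 : ∫ z in (ball (0:ℂ) 1), conj (A p (Ft z)) * (Ft z - F z) =
      ∫ z in (ball (0:ℂ) 1), conj (A p (F z)) * (F z - Fm z) := by
    rw [← int_rot τ (fun z => conj (A p (F z)) * (F z - Fm z))]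
    apply integral_congr_ae
    refine Eventually.of_forall fun z => ?_
    simp only [hFt, hFm]
    rw [rot_neg_rot]
  have j1 : IntegrableOn (fun z => conj (A p (Ft z)) * (Ft z - F z)) (ball (0:ℂ) 1) :=
    int_Ah hpq m2 (m2.sub m1) hFti (int_sub' hp0 m2 m1 hFti hF.int)
  have j2 : IntegrableOn (fun z => conj (A p (F z)) * (Ft z - F z)) (ball (0:ℂ) 1) :=
    int_Ah hpq m1 (m2.sub m1) hF.int (int_sub' hp0 m2 m1 hFti hF.int)
  have j3 : IntegrableOn (fun z => conj (κ z) * (F z - Fm z)) (ball (0:ℂ) 1) :=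
    int_kh hpq hκm' (m1.sub m3) hκi (int_sub' hp0 m1 m3 hF.int hFmi)
  have j4 : IntegrableOn (fun z => conj (κ z) * (Ft z - F z)) (ball (0:ℂ) 1) :=
    int_kh hpq hκm' (m2.sub m1) hκi (int_sub' hp0 m2 m1 hFti hF.int)
  have e1 : ∫ z in (ball (0:ℂ) 1), conj (A p (Ft z) - A p (F z)) * (Ft z - F z) =
      ∫ z in (ball (0:ℂ) 1), conj (κ z) * (2 * F z - Fm z - Ft z) := by
    have b1 : ∫ z in (ball (0:ℂ) 1), conj (A p (Ft z) - A p (F z)) * (Ft z - F z) =
        (∫ z in (ball (0:ℂ) 1), conj (A p (Ft z)) * (Ft z - F z)) -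
          ∫ z in (ball (0:ℂ) 1), conj (A p (F z)) * (Ft z - F z) := by
      rw [← integral_sub j1 j2]
      congr 1; ext z; rw [map_sub]; ring
    have b2 : ∫ z in (ball (0:ℂ) 1), conj (κ z) * (2 * F z - Fm z - Ft z) =
        (∫ z in (ball (0:ℂ) 1), conj (κ z) * (F z - Fm z)) -
          ∫ z in (ball (0:ℂ) 1), conj (κ z) * (Ft z - F z) := by
      rw [← integral_sub j3 j4]
      congr 1; ext z; ring
    rw [b1, b2, a1, a3, a2]
  have i0 : IntegrableOn (fun z => conj (A p (Ft z) - A p (F z)) * (Ft z - F z)) (ball (0:ℂ) 1) := by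
    refine (j1.sub j2).congr (Eventually.of_forall fun z => ?_)
    simp only [Pi.sub_apply, map_sub]; ring
  have e2 : c * ∫ z in (ball (0:ℂ) 1), dens p (F z) (Ft z) ≤
      (∫ z in (ball (0:ℂ) 1), conj (A p (Ft z) - A p (F z)) * (Ft z - F z)).re := by
    rw [← integral_const_mul]
    have : (∫ z in (ball (0:ℂ) 1), conj (A p (Ft z) - A p (F z)) * (Ft z - F z)).re =
        ∫ z in (ball (0:ℂ) 1), (conj (A p (Ft z) - A p (F z)) * (Ft z - F z)).re := (integral_re i0).symm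
    rw [this]
    apply integral_mono ((dens_int hp m1 m2 hF.int hFti).const_mul c) i0.re
    intro z
    have := hP (Ft z) (F z)
    rw [dens_comm] at this
    exact this
  have e3 : ‖∫ z in (ball (0:ℂ) 1), conj (κ z) * (2 * F z - Fm z - Ft z)‖ ≤
      (M * (C * τ ^ 2)) * volume.real (ball (0:ℂ) 1) := by
    apply norm_setIntegral_le_of_norm_le_const measure_ball_lt_top
    intro z _
    rw [norm_mul, RCLike.norm_conj]
    rcases le_or_gt ‖z‖ r₀ with h | h
    · apply mul_le_mul (hM z) _ (norm_nonneg _) hM0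
      have := hC2 z h τ
      rw [← norm_neg]
      refine le_of_eq_of_le (congrArg norm ?_) this
      change -(2 * F z - F (rot (-τ) z) - F (rot τ z)) = _
      ring
    · rw [h0 z h, norm_zero, zero_mul]
      positivity
  have e4 : volume.real (ball (0:ℂ) 1) = Real.pi := by
    rw [Measure.real, Complex.volume_ball]
    simp
  have e5 := (Complex.re_le_norm _).trans e3
  rw [← e1, e4] at e5
  have e6 := e2.trans e5
  have e7 : ∫ z in (ball (0:ℂ) 1), dens p (F z) (Ft z) ≤ c⁻¹ * (M * (C * τ ^ 2) * Real.pi) := by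
    rw [← div_eq_inv_mul, le_div_iff₀ hc, mul_comm]
    exact e6
  calc ∫ z in (ball (0:ℂ) 1), dens p (F z) (Ft z) ≤ c⁻¹ * (M * (C * τ ^ 2) * Real.pi) := e7
    _ = _ := by ring

end Pool.Agent.L0h83.BR
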