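import Pool.Agent.L0h83.BR.T2

/-! Difference quotients along rotations: convergence in `L¹` against `conj (A F)`. -/

set_option autoImplicit false

namespace Pool.Agent.L0h83.BR

open Complex Metric Set Filter Topology MeasureTheory ComplexConjugate
open scoped ENNReal NNReal

/-- difference quotient along the rotation -/
noncomputable def Dq (F : ℂ → ℂ) (τ : ℝ) (z : ℂ) : ℂ := (F (rot τ z) - F z) / (I * τ)

lemma dq_lim {F : ℂ → ℂ} (hF : DifferentiableOn ℂ F (ball (0:ℂ) 1)) {z : ℂ} (hz : z ∈ (ball (0:ℂ) 1)) :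
    Tendsto (fun τ => Dq F τ z) (𝓝[≠] 0) (𝓝 (z * deriv F z)) := by
  have h1 := hasDerivAt_rot hF hz 0
  rw [rot_zero, hasDerivAt_iff_tendsto_slope] at h1
  have h2 := h1.const_mul (I⁻¹)
  have e : I⁻¹ * (I * (z * deriv F z)) = z * deriv F z := by
    rw [← mul_assoc, inv_mul_cancel₀ Complex.I_ne_zero, one_mul]
  rw [e] at h2
  refine h2.congr' (Eventually.of_forall fun τ => ?_)
  simp only [slope, vsub_eq_sub, rot_zero, sub_zero]
  unfold Dq
  rw [Complex.real_smul, Complex.ofReal_inv, div_eq_mul_inv, mul_inv]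
  ring

lemma norm_Dq (F : ℂ → ℂ) {τ : ℝ} (hτ : 0 < τ) (z : ℂ) :
    ‖Dq F τ z‖ = ‖F (rot τ z) - F z‖ / τ := by
  unfold Dq
  rw [norm_div, norm_mul, Complex.norm_I, one_mul, Complex.norm_real, Real.norm_eq_abs,
    abs_of_pos hτ]

lemma Dq_an {F : ℂ → ℂ} (hF : DifferentiableOn ℂ F (ball (0:ℂ) 1)) (τ : ℝ) :
    DifferentiableOn ℂ (Dq F τ) (ball (0:ℂ) 1) := ((rot_an hF τ).sub hF).div_const _

lemma key_ptw {p : ℝ} (hp : 1 < p) (a b : ℂ) {θ t : ℝ} (hθ : 0 < θ) (ht : 0 < t) :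
    ‖a‖ ^ (p - 1) * (‖b - a‖ / t) ≤
      θ⁻¹ * 2 ^ p * (‖a‖ ^ p + ‖b‖ ^ p) + θ / t ^ 2 * dens p a b := by
  rcases eq_or_lt_of_le (show 0 ≤ ‖a‖ + ‖b‖ by positivity) with h0 | h0
  · have ha : ‖a‖ = 0 := by
      have := norm_nonneg a
      have := norm_nonneg b
      linarith
    rw [ha, Real.zero_rpow (by linarith : p - 1 ≠ 0), zero_mul]
    have := dens_nonneg p a b
    positivity
  · set s := ‖a‖ + ‖b‖ with hs
    set d := ‖b - a‖ / t with hd
    have hd0 : 0 ≤ d := by positivity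
    have h1 : ‖a‖ ^ (p - 1) ≤ s ^ (p - 2) * s := by
      rw [← Real.rpow_add_one h0.ne', show p - 2 + 1 = p - 1 by ring]
      apply Real.rpow_le_rpow (norm_nonneg _) _ (by linarith)
      have := norm_nonneg b
      linarith
    have h2 : s * d ≤ θ⁻¹ * s ^ 2 + θ * d ^ 2 := by
      have h3 : θ * (s * d) ≤ s ^ 2 + θ ^ 2 * d ^ 2 := by
        nlinarith [sq_nonneg (s - θ * d), mul_nonneg (mul_nonneg hθ.le h0.le) hd0]
      have h4 : s * d = θ⁻¹ * (θ * (s * d)) := by field_simp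
      rw [h4]
      calc θ⁻¹ * (θ * (s * d)) ≤ θ⁻¹ * (s ^ 2 + θ ^ 2 * d ^ 2) :=
            mul_le_mul_of_nonneg_left h3 (by positivity)
        _ = _ := by field_simp
    have h5 : s ^ (p - 2) * s ^ 2 = s ^ p := by
      rw [← Real.rpow_natCast s 2, ← Real.rpow_add h0]
      congr 1; push_cast; ring
    have h6 : s ^ p ≤ 2 ^ p * (‖a‖ ^ p + ‖b‖ ^ p) :=
      add_rpow_le (norm_nonneg _) (norm_nonneg _) (by linarith)
    have h7 : s ^ (p - 2) * d ^ 2 = dens p a b / t ^ 2 := by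
      rw [hd, div_pow]
      unfold dens
      rw [norm_sub_rev b a]
      ring
    calc ‖a‖ ^ (p - 1) * d ≤ s ^ (p - 2) * s * d := mul_le_mul_of_nonneg_right h1 hd0
      _ = s ^ (p - 2) * (s * d) := by ring
      _ ≤ s ^ (p - 2) * (θ⁻¹ * s ^ 2 + θ * d ^ 2) := mul_le_mul_of_nonneg_left h2 (by positivity)
      _ = θ⁻¹ * (s ^ (p - 2) * s ^ 2) + θ * (s ^ (p - 2) * d ^ 2) := by ring
      _ = θ⁻¹ * s ^ p + θ * (dens p a b / t ^ 2) := by rw [h5, h7]
      _ ≤ θ⁻¹ * (2 ^ p * (‖a‖ ^ p + ‖b‖ ^ p)) + θ * (dens p a b / t ^ 2) := by gcongr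
      _ = _ := by ring

/-- set version -/
lemma set_bound {p : ℝ} (hp : 1 < p) {F : ℂ → ℂ} (hF : DifferentiableOn ℂ F (ball (0:ℂ) 1))
    (hFi : IntegrableOn (fun z => ‖F z‖ ^ p) (ball (0:ℂ) 1)) {C : ℝ}
    (hE : ∀ τ : ℝ, ∫ z in (ball (0:ℂ) 1), dens p (F z) (F (rot τ z)) ≤ C * τ ^ 2) {θ τ : ℝ} (hθ : 0 < θ)
    (hτ : 0 < τ) {s : Set ℂ} (hs : MeasurableSet s) :
    ∫⁻ z in s, ‖conj (A p (F z)) * Dq F τ z‖ₑ ∂(volume.restrict (ball (0:ℂ) 1)) ≤
      ENNReal.ofReal (θ⁻¹ * 2 ^ p) *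
        (∫⁻ z in s, ENNReal.ofReal (‖F z‖ ^ p) ∂(volume.restrict (ball (0:ℂ) 1)) +
        ∫⁻ z in rot (-τ) ⁻¹' s, ENNReal.ofReal (‖F z‖ ^ p) ∂(volume.restrict (ball (0:ℂ) 1))) +
      ENNReal.ofReal (θ * C) := by
  have hr : ∫⁻ z in rot (-τ) ⁻¹' s, ENNReal.ofReal (‖F z‖ ^ p) ∂(volume.restrict (ball (0:ℂ) 1)) =
      ∫⁻ z in s, ENNReal.ofReal (‖F (rot τ z)‖ ^ p) ∂(volume.restrict (ball (0:ℂ) 1)) := by
    rw [← (mp_rot_D τ).setLIntegral_comp_preimage_emb (emb_rot τ)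
      (fun z => ENNReal.ofReal (‖F z‖ ^ p)) (rot (-τ) ⁻¹' s)]
    congr 2
    rw [← preimage_comp]
    have : (rot (-τ) ∘ rot τ) = id := by
      funext z; exact rot_neg_rot τ z
    rw [this, preimage_id]
  rw [hr]
  have m1 := meas_an hF
  have m2 := meas_an (rot_an hF τ)
  have am1 : AEMeasurable (fun z => ENNReal.ofReal (‖F z‖ ^ p)) (volume.restrict (ball (0:ℂ) 1)) :=
    (m1.norm.aemeasurable.pow_const p).ennreal_ofReal
  have am2 : AEMeasurable (fun z => ENNReal.ofReal (‖F (rot τ z)‖ ^ p)) (volume.restrict (ball (0:ℂ) 1)) :=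
    (m2.norm.aemeasurable.pow_const p).ennreal_ofReal
  have am12 : AEMeasurable (fun z => ENNReal.ofReal (‖F z‖ ^ p) +
      ENNReal.ofReal (‖F (rot τ z)‖ ^ p)) (volume.restrict (ball (0:ℂ) 1)) := am1.add am2
  have am3 : AEMeasurable (fun z => ENNReal.ofReal (θ / τ ^ 2 * dens p (F z) (F (rot τ z))))
      (volume.restrict (ball (0:ℂ) 1)) := ((dens_aesm m1 m2).aemeasurable.const_mul _).ennreal_ofReal
  calc ∫⁻ z in s, ‖conj (A p (F z)) * Dq F τ z‖ₑ ∂(volume.restrict (ball (0:ℂ) 1))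
      ≤ ∫⁻ z in s, (ENNReal.ofReal (θ⁻¹ * 2 ^ p) * (ENNReal.ofReal (‖F z‖ ^ p) +
          ENNReal.ofReal (‖F (rot τ z)‖ ^ p)) +
          ENNReal.ofReal (θ / τ ^ 2 * dens p (F z) (F (rot τ z)))) ∂(volume.restrict (ball (0:ℂ) 1)) := by
        apply lintegral_mono
        intro z
        beta_reduce
        rw [← ENNReal.ofReal_add (by positivity) (by positivity),
          ← ENNReal.ofReal_mul (by positivity), ← ENNReal.ofReal_add (by positivity)
          (mul_nonneg (by positivity) (dens_nonneg _ _ _)), ← ofReal_norm]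
        apply ENNReal.ofReal_le_ofReal
        rw [norm_mul, RCLike.norm_conj, norm_A hp, norm_Dq F hτ]
        exact key_ptw hp (F z) (F (rot τ z)) hθ hτ
    _ = ENNReal.ofReal (θ⁻¹ * 2 ^ p) *
        (∫⁻ z in s, ENNReal.ofReal (‖F z‖ ^ p) ∂(volume.restrict (ball (0:ℂ) 1)) +
        ∫⁻ z in s, ENNReal.ofReal (‖F (rot τ z)‖ ^ p) ∂(volume.restrict (ball (0:ℂ) 1))) +
        ∫⁻ z in s, ENNReal.ofReal (θ / τ ^ 2 * dens p (F z) (F (rot τ z)))
          ∂(volume.restrict (ball (0:ℂ) 1)) := by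
        rw [lintegral_add_left' ((am12.const_mul _).mono_measure Measure.restrict_le_self),
          lintegral_const_mul'' _ (am12.mono_measure Measure.restrict_le_self),
          lintegral_add_left' (am1.mono_measure Measure.restrict_le_self)]
    _ ≤ _ := by
        gcongr
        calc ∫⁻ z in s, ENNReal.ofReal (θ / τ ^ 2 * dens p (F z) (F (rot τ z)))
            ∂(volume.restrict (ball (0:ℂ) 1)) ≤ ∫⁻ z in (ball (0:ℂ) 1), ENNReal.ofReal
              (θ / τ ^ 2 * dens p (F z) (F (rot τ z))) :=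
              lintegral_mono' Measure.restrict_le_self le_rfl
          _ = ENNReal.ofReal (∫ z in (ball (0:ℂ) 1), θ / τ ^ 2 * dens p (F z) (F (rot τ z))) := by
              rw [ofReal_integral_eq_lintegral_ofReal]
              · exact (dens_int hp m1 m2 hFi (integrable_rot τ hFi)).const_mul _
              · exact Eventually.of_forall fun z => mul_nonneg (by positivity) (dens_nonneg _ _ _)
          _ ≤ _ := by
              apply ENNReal.ofReal_le_ofReal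
              rw [integral_const_mul]
              calc θ / τ ^ 2 * ∫ z in (ball (0:ℂ) 1), dens p (F z) (F (rot τ z)) ≤ θ / τ ^ 2 * (C * τ ^ 2) :=
                    mul_le_mul_of_nonneg_left (hE τ) (by positivity)
                _ = θ * C := by field_simp

theorem lim_D {p q : ℝ} (hpq : p.HolderConjugate q) {F : ℂ → ℂ} (hF : DifferentiableOn ℂ F (ball (0:ℂ) 1))
    (hFi : IntegrableOn (fun z => ‖F z‖ ^ p) (ball (0:ℂ) 1)) {C : ℝ} (hC : 0 ≤ C)
    (hE : ∀ τ : ℝ, ∫ z in (ball (0:ℂ) 1), dens p (F z) (F (rot τ z)) ≤ C * τ ^ 2)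
    {τ : ℕ → ℝ} (hτ0 : ∀ n, 0 < τ n) (hτ : Tendsto τ atTop (𝓝 0)) :
    IntegrableOn (fun z => conj (A p (F z)) * (z * deriv F z)) (ball (0:ℂ) 1) ∧
      Tendsto (fun n => eLpNorm ((fun z => conj (A p (F z)) * Dq F (τ n) z) -
        (fun z => conj (A p (F z)) * (z * deriv F z))) 1 (volume.restrict (ball (0:ℂ) 1))) atTop (𝓝 0) := by
  have hp := hpq.lt
  set μ : Measure ℂ := volume.restrict (ball (0:ℂ) 1) with hμ
  have : IsFiniteMeasure μ := ⟨by rw [hμ, Measure.restrict_apply_univ]; exact measure_ball_lt_top⟩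
  obtain ⟨hAm, -⟩ := int_A (μ := μ) hpq (meas_an hF) hFi
  have hcAm : AEStronglyMeasurable (fun z => conj (A p (F z))) μ :=
    Complex.continuous_conj.comp_aestronglyMeasurable hAm
  have hm : ∀ n, AEStronglyMeasurable (fun z => conj (A p (F z)) * Dq F (τ n) z) μ := fun n =>
    hcAm.mul (meas_an (Dq_an hF _))
  have hH : ∫⁻ z, ENNReal.ofReal (‖F z‖ ^ p) ∂μ ≠ ⊤ := by
    rw [← ofReal_integral_eq_lintegral_ofReal hFi
      (Eventually.of_forall fun z => by positivity)]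
    exact ENNReal.ofReal_ne_top
  have hlim : ∀ᵐ z ∂μ, Tendsto (fun n => conj (A p (F z)) * Dq F (τ n) z) atTop
      (𝓝 (conj (A p (F z)) * (z * deriv F z))) := by
    refine (ae_restrict_iff' measurableSet_ball).2 (Eventually.of_forall fun z hz => ?_)
    have h1 : Tendsto τ atTop (𝓝[≠] 0) :=
      tendsto_nhdsWithin_iff.2 ⟨hτ, Eventually.of_forall fun n => (hτ0 n).ne'⟩
    exact ((dq_lim hF hz).comp h1).const_mul _
  have hui : UnifIntegrable (fun n => fun z => conj (A p (F z)) * Dq F (τ n) z) 1 μ := by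
    intro ε hε
    -- choose θ with θ C ≤ ε / 2
    set θ : ℝ := ε / (2 * (C + 1)) with hθ
    have hθ0 : 0 < θ := by positivity
    have hθC : θ * C ≤ ε / 2 := by
      rw [hθ, div_mul_eq_mul_div, div_le_div_iff₀ (by positivity) (by norm_num)]
      nlinarith
    set K₀ : ℝ := θ⁻¹ * 2 ^ p with hK
    have hK0 : 0 < K₀ := by positivity
    have he : ENNReal.ofReal (ε / (4 * K₀)) ≠ 0 := by
      rw [Ne, ENNReal.ofReal_eq_zero, not_le]; positivity
    obtain ⟨δ, hδ0, hδ⟩ := exists_pos_setLIntegral_lt_of_measure_lt hH he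
    obtain ⟨δ', hδ'0, hδ'⟩ : ∃ δ' : ℝ, 0 < δ' ∧ ENNReal.ofReal δ' < δ := by
      obtain ⟨x, hx0, hx⟩ := ENNReal.lt_iff_exists_real_btwn.1 hδ0
      refine ⟨x, ?_, hx.2⟩
      have := hx.1
      rwa [ENNReal.ofReal_pos] at this
    refine ⟨δ', hδ'0, fun n s hs hμs => ?_⟩
    have hsl : μ s < δ := hμs.trans_lt hδ'
    have h1 := hδ s hsl
    have h2 := hδ (rot (-τ n) ⁻¹' s) (by
      rw [(mp_rot_D (-τ n)).measure_preimage hs.nullMeasurableSet]
      exact hsl)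
    rw [eLpNorm_indicator_eq_eLpNorm_restrict hs, eLpNorm_one_eq_lintegral_enorm]
    refine (set_bound hp hF hFi hE hθ0 (hτ0 n) hs).trans ?_
    calc ENNReal.ofReal K₀ * (∫⁻ z in s, ENNReal.ofReal (‖F z‖ ^ p) ∂μ +
          ∫⁻ z in rot (-τ n) ⁻¹' s, ENNReal.ofReal (‖F z‖ ^ p) ∂μ) + ENNReal.ofReal (θ * C)
        ≤ ENNReal.ofReal K₀ * (ENNReal.ofReal (ε / (4 * K₀)) + ENNReal.ofReal (ε / (4 * K₀))) +
          ENNReal.ofReal (θ * C) := by gcongr
      _ = ENNReal.ofReal (ε / 2 + θ * C) := by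
          rw [← ENNReal.ofReal_add (by positivity) (by positivity),
            ← ENNReal.ofReal_mul hK0.le, ENNReal.ofReal_add (by positivity) (by positivity)]
          congr 2
          field_simp
          ring
      _ ≤ ENNReal.ofReal ε := ENNReal.ofReal_le_ofReal (by linarith)
  have hbd : ∃ C' : ℝ≥0, ∀ n, eLpNorm (fun z => conj (A p (F z)) * Dq F (τ n) z) 1 μ ≤ C' := by
    set B : ℝ≥0∞ := ENNReal.ofReal ((1:ℝ)⁻¹ * 2 ^ p) * (∫⁻ z, ENNReal.ofReal (‖F z‖ ^ p) ∂μ +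
      ∫⁻ z, ENNReal.ofReal (‖F z‖ ^ p) ∂μ) + ENNReal.ofReal (1 * C) with hB
    have hBt : B ≠ ⊤ := by
      apply ENNReal.add_ne_top.2
      exact ⟨ENNReal.mul_ne_top ENNReal.ofReal_ne_top (ENNReal.add_ne_top.2 ⟨hH, hH⟩),
        ENNReal.ofReal_ne_top⟩
    refine ⟨B.toNNReal, fun n => ?_⟩
    rw [ENNReal.coe_toNNReal hBt, eLpNorm_one_eq_lintegral_enorm]
    have := set_bound hp hF hFi hE one_pos (hτ0 n) MeasurableSet.univ
    rw [preimage_univ] at this
    simpa only [Measure.restrict_univ] using this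
  have hU : UniformIntegrable (fun n => fun z => conj (A p (F z)) * Dq F (τ n) z) 1 μ :=
    ⟨hm, hui, hbd⟩
  have hmem := hU.memLp_of_ae_tendsto hlim
  exact ⟨memLp_one_iff_integrable.1 hmem,
    tendsto_Lp_finite_of_tendsto_ae le_rfl ENNReal.one_ne_top hm hmem hui hlim⟩

end Pool.Agent.L0h83.BR
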