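import Pool.Agent.L0h83.BR.Defs
import Pool.Agent.H761R2.SV.Pomp

/-! The potential `v` and the weak equation `∂v/∂z̄ = φ`. -/

set_option autoImplicit false

namespace Pool.Agent.L0h83.BR

open Complex Metric Set Filter Topology MeasureTheory ComplexConjugate
open scoped ENNReal NNReal
open Pool.Agent.H761R2.SV

/-- `φ` annihilates the bounded analytic functions -/
def Orth (φ : ℂ → ℂ) : Prop := ∀ h : ℂ → ℂ, DifferentiableOn ℂ h (ball (0:ℂ) 1) →
  (∃ M : ℝ, ∀ z ∈ (ball (0:ℂ) 1), ‖h z‖ ≤ M) → ∫ w in (ball (0:ℂ) 1), φ w * h w = 0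

/-- the potential of `φ` -/
noncomputable def cv (φ : ℂ → ℂ) (z : ℂ) : ℂ :=
  (Real.pi : ℂ)⁻¹ * ∫ w in (ball (0:ℂ) 1), φ w * ((Y z : ℂ) / ((z - w) * (1 - conj z * w)))

lemma Y_pos {z : ℂ} (hz : z ∈ (ball (0:ℂ) 1)) : 0 < Y z := by
  have h : ‖z‖ < 1 := by simpa using hz
  have h0 := norm_nonneg z
  unfold Y
  nlinarith

lemma one_sub_ne {z w : ℂ} (hz : z ∈ (ball (0:ℂ) 1)) (hw : w ∈ (ball (0:ℂ) 1)) : 1 - conj z * w ≠ 0 := by
  have h1 : ‖z‖ < 1 := by simpa using hz
  have h2 : ‖w‖ < 1 := by simpa using hw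
  intro h
  have h3 : conj z * w = 1 := (sub_eq_zero.1 h).symm
  have h4 : ‖z‖ * ‖w‖ = 1 := by
    rw [← RCLike.norm_conj z, ← norm_mul, h3, norm_one]
  have := norm_nonneg z
  have := norm_nonneg w
  nlinarith

lemma ker_split {z w : ℂ} (hz : z ∈ (ball (0:ℂ) 1)) (hw : w ∈ (ball (0:ℂ) 1)) (hne : z ≠ w) :
    ((Y z : ℂ) / ((z - w) * (1 - conj z * w))) = (z - w)⁻¹ - conj z / (1 - conj z * w) := by
  have h1 := one_sub_ne hz hw
  have h2 : z - w ≠ 0 := sub_ne_zero.2 hne
  have h3 : (Y z : ℂ) = 1 - conj z * z := by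
    unfold Y
    push_cast
    rw [mul_comm, Complex.mul_conj, Complex.normSq_eq_norm_sq]
    push_cast; ring
  rw [h3]
  field_simp
  ring

/-- the truncated Cauchy kernel -/
noncomputable def gk (x : ℂ) : ℂ := (ball (0:ℂ) 2).indicator (fun x => x⁻¹) x

lemma gk_int : Integrable gk := by
  have h1 := integrableOn_norm_inv 2
  unfold gk
  rw [integrable_indicator_iff measurableSet_ball]
  refine Integrable.mono' h1 (by fun_prop : Measurable fun z : ℂ => z⁻¹).aestronglyMeasurable ?_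
  refine Eventually.of_forall fun w => ?_
  rw [norm_inv]

lemma gk_eq {z w : ℂ} (hz : z ∈ (ball (0:ℂ) 1)) (hw : w ∈ (ball (0:ℂ) 1)) : gk (z - w) = (z - w)⁻¹ := by
  unfold gk
  rw [indicator_of_mem]
  rw [mem_ball_zero_iff] at *
  calc ‖z - w‖ ≤ ‖z‖ + ‖w‖ := norm_sub_le _ _
    _ < 2 := by linarith

variable {φ : ℂ → ℂ}

lemma prod_int (hφ : IntegrableOn φ (ball (0:ℂ) 1)) :
    Integrable (fun p : ℂ × ℂ => (ball (0:ℂ) 1).indicator φ p.2 * gk (p.1 - p.2))
      ((volume : Measure ℂ).prod volume) :=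
  ((integrable_indicator_iff measurableSet_ball).2 hφ).convolution_integrand
    (ContinuousLinearMap.mul ℂ ℂ) gk_int

/-- for almost every `z` the Cauchy integral converges -/
lemma ae_int (hφ : IntegrableOn φ (ball (0:ℂ) 1)) :
    ∀ᵐ z : ℂ, z ∈ (ball (0:ℂ) 1) → IntegrableOn (fun w => φ w * (z - w)⁻¹) (ball (0:ℂ) 1) := by
  filter_upwards [(prod_int hφ).prod_right_ae] with z hz hzD
  have h1 : (fun w => (ball (0:ℂ) 1).indicator φ w * gk (z - w)) =
      (ball (0:ℂ) 1).indicator (fun w => φ w * (z - w)⁻¹) := by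
    funext w
    by_cases hw : w ∈ (ball (0:ℂ) 1)
    · rw [indicator_of_mem hw, indicator_of_mem hw, gk_eq hzD hw]
    · rw [indicator_of_notMem hw, indicator_of_notMem hw, zero_mul]
  rw [← integrable_indicator_iff measurableSet_ball, ← h1]
  exact hz

lemma cv_eq (hφ : IntegrableOn φ (ball (0:ℂ) 1)) (ho : Orth φ) {z : ℂ} (hz : z ∈ (ball (0:ℂ) 1))
    (hi : IntegrableOn (fun w => φ w * (z - w)⁻¹) (ball (0:ℂ) 1)) :
    cv φ z = (Real.pi : ℂ)⁻¹ * ∫ w in (ball (0:ℂ) 1), φ w * (z - w)⁻¹ := by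
  have hz1 : ‖z‖ < 1 := by simpa using hz
  have hb : ∀ w ∈ (ball (0:ℂ) 1), ‖conj z / (1 - conj z * w)‖ ≤ 1 / (1 - ‖z‖) := by
    intro w hw
    have hw1 : ‖w‖ < 1 := by simpa using hw
    rw [norm_div, RCLike.norm_conj]
    have h2 : 1 - ‖z‖ ≤ ‖1 - conj z * w‖ := by
      have h3 := norm_sub_norm_le (1:ℂ) (conj z * w)
      rw [norm_one, norm_mul, RCLike.norm_conj] at h3
      have := norm_nonneg z
      have h4 : ‖z‖ * ‖w‖ ≤ ‖z‖ := mul_le_of_le_one_right this hw1.le
      linarith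
    exact div_le_div₀ (by norm_num) hz1.le (by linarith) h2
  have hd : DifferentiableOn ℂ (fun w => conj z / (1 - conj z * w)) (ball (0:ℂ) 1) := by
    intro w hw
    have h5 : DifferentiableAt ℂ (fun w : ℂ => 1 - conj z * w) w := by fun_prop
    exact ((differentiableAt_const (conj z)).fun_div h5 (one_sub_ne hz hw)).differentiableWithinAt
  have h1 := ho _ hd ⟨_, hb⟩
  have hi2 : IntegrableOn (fun w => φ w * (conj z / (1 - conj z * w))) (ball (0:ℂ) 1) := by
    refine Integrable.mono' (hφ.norm.const_mul (1 / (1 - ‖z‖))) ?_ ?_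
    · exact hφ.aestronglyMeasurable.mul
        (hd.continuousOn.aestronglyMeasurable measurableSet_ball)
    · refine (ae_restrict_iff' measurableSet_ball).2 (Eventually.of_forall fun w hw => ?_)
      rw [norm_mul, mul_comm]
      exact mul_le_mul_of_nonneg_right (hb w hw) (norm_nonneg _)
  unfold cv
  congr 1
  have h2 : ∫ w in (ball (0:ℂ) 1), φ w * ((Y z : ℂ) / ((z - w) * (1 - conj z * w))) =
      ∫ w in (ball (0:ℂ) 1), (φ w * (z - w)⁻¹ - φ w * (conj z / (1 - conj z * w))) := by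
    apply integral_congr_ae
    have h3 : ∀ᵐ w ∂(volume.restrict (ball (0:ℂ) 1)), w ≠ z := Measure.ae_ne _ z
    filter_upwards [h3, ae_restrict_mem measurableSet_ball] with w hw hwD
    rw [ker_split hz hwD (Ne.symm hw)]
    ring
  rw [h2, integral_sub hi hi2, h1, sub_zero]

/-- the weak equation with compactly supported test functions -/
theorem weak (hφ : IntegrableOn φ (ball (0:ℂ) 1)) (ho : Orth φ) {Φ : ℂ → ℂ} (hΦ : ContDiff ℝ 1 Φ)
    (hc : HasCompactSupport Φ) (hs : tsupport Φ ⊆ (ball (0:ℂ) 1)) :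
    ∫ w in (ball (0:ℂ) 1), φ w * Φ w = - ∫ z in (ball (0:ℂ) 1), cv φ z * dbar Φ z := by
  have hdc : Continuous (dbar Φ) := continuous_dbar hΦ
  have hd0 : ∀ z ∉ (ball (0:ℂ) 1), dbar Φ z = 0 := by
    intro z hz
    have h1 : z ∉ tsupport Φ := fun h => hz (hs h)
    have h2 : fderiv ℝ Φ z = 0 := by
      have : z ∉ tsupport (fderiv ℝ Φ) := fun h => h1 (tsupport_fderiv_subset ℝ h)
      exact image_eq_zero_of_notMem_tsupport this
    simp [dbar, h2]
  have hdcs : HasCompactSupport (dbar Φ) := by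
    have h1 : HasCompactSupport (fderiv ℝ Φ) := hc.fderiv ℝ
    apply HasCompactSupport.of_support_subset_isCompact h1.isCompact
    intro w hw
    by_contra hn
    have : fderiv ℝ Φ w = 0 := image_eq_zero_of_notMem_tsupport hn
    exact hw (by simp [dbar, this])
  obtain ⟨M, hM⟩ := hdcs.exists_bound_of_continuous hdc
  have hint := prod_int hφ
  have hint2 : Integrable (fun p : ℂ × ℂ => dbar Φ p.1 *
      ((ball (0:ℂ) 1).indicator φ p.2 * gk (p.1 - p.2))) ((volume : Measure ℂ).prod volume) := by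
    refine Integrable.bdd_mul (c := M) hint ?_ ?_
    · exact (hdc.comp continuous_fst).aestronglyMeasurable
    · exact Eventually.of_forall fun p => hM p.1
  have hswap := integral_integral_swap (f := fun z w => dbar Φ z *
      ((ball (0:ℂ) 1).indicator φ w * gk (z - w))) hint2
  -- left side of the swap
  have hL : ∫ z, ∫ w, dbar Φ z * ((ball (0:ℂ) 1).indicator φ w * gk (z - w)) =
      Real.pi * ∫ z in (ball (0:ℂ) 1), cv φ z * dbar Φ z := by
    rw [← integral_const_mul, ← integral_indicator measurableSet_ball]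
    apply integral_congr_ae
    filter_upwards [ae_int hφ] with z hz
    by_cases hzD : z ∈ (ball (0:ℂ) 1)
    · rw [indicator_of_mem hzD, cv_eq hφ ho hzD (hz hzD), integral_const_mul]
      have h1 : ∫ w, (ball (0:ℂ) 1).indicator φ w * gk (z - w) = ∫ w in (ball (0:ℂ) 1), φ w * (z - w)⁻¹ := by
        rw [← integral_indicator measurableSet_ball]
        congr 1
        funext w
        by_cases hw : w ∈ (ball (0:ℂ) 1)
        · rw [indicator_of_mem hw, indicator_of_mem hw, gk_eq hzD hw]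
        · rw [indicator_of_notMem hw, indicator_of_notMem hw, zero_mul]
      rw [h1]
      have hpi : (Real.pi : ℂ) ≠ 0 := by exact_mod_cast Real.pi_ne_zero
      field_simp
    · rw [indicator_of_notMem hzD, hd0 z hzD]
      simp
  have hR : ∫ w, ∫ z, dbar Φ z * ((ball (0:ℂ) 1).indicator φ w * gk (z - w)) =
      - (Real.pi * ∫ w in (ball (0:ℂ) 1), φ w * Φ w) := by
    rw [← integral_const_mul, ← integral_neg, ← integral_indicator measurableSet_ball]
    congr 1
    funext w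
    by_cases hw : w ∈ (ball (0:ℂ) 1)
    · rw [indicator_of_mem hw, indicator_of_mem hw]
      have h1 : ∀ z, dbar Φ z * (φ w * gk (z - w)) = -φ w * (dbar Φ z * (w - z)⁻¹) := by
        intro z
        by_cases hz : z ∈ (ball (0:ℂ) 1)
        · rw [gk_eq hz hw, ← neg_sub w z, inv_neg]; ring
        · rw [hd0 z hz]; ring
      simp_rw [h1]
      rw [integral_const_mul, pompeiu_compact hΦ hc w]
      ring
    · rw [indicator_of_notMem hw, indicator_of_notMem hw]
      simp
  rw [hL, hR] at hswap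
  have hpi : (Real.pi : ℂ) ≠ 0 := by exact_mod_cast Real.pi_ne_zero
  have h3 : (Real.pi : ℂ) * (∫ w in (ball (0:ℂ) 1), φ w * Φ w) =
      Real.pi * (- ∫ z in (ball (0:ℂ) 1), cv φ z * dbar Φ z) := by
    linear_combination hswap
  exact mul_left_cancel₀ hpi h3

end Pool.Agent.L0h83.BR
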