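import Pool.Agent.L0h83.BR.T4

/-! The function `V = |v| / Y`. -/

set_option autoImplicit false

namespace Pool.Agent.L0h83.BR

open Complex Metric Set Filter Topology MeasureTheory ComplexConjugate
open scoped ENNReal NNReal

/-- `V` -/
noncomputable def Vf (φ : ℂ → ℂ) (z : ℂ) : ℝ≥0∞ := ENNReal.ofReal (‖cv φ z‖ / Y z)

/-- the positive potential -/
noncomputable def KP (f : ℂ → ℝ≥0∞) (z : ℂ) : ℝ≥0∞ :=
  ∫⁻ w in (ball (0:ℂ) 1), ENNReal.ofReal (K z w) * f w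

lemma cv_meas {φ : ℂ → ℂ} (hφ : Measurable φ) : Measurable (cv φ) := by
  unfold cv
  have h : Measurable fun x : ℂ × ℂ =>
      φ x.2 * ((Y x.1 : ℂ) / ((x.1 - x.2) * (1 - conj x.1 * x.2))) := by
    have h1 : Measurable fun x : ℂ × ℂ => φ x.2 := hφ.comp measurable_snd
    have h2 : Measurable fun x : ℂ × ℂ => (Y x.1 : ℂ) :=
      Complex.measurable_ofReal.comp (continuous_Y.measurable.comp measurable_fst)
    have h3 : Measurable fun x : ℂ × ℂ => (x.1 - x.2) * (1 - conj x.1 * x.2) := by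
      apply Continuous.measurable
      have : Continuous fun x : ℂ × ℂ => conj x.1 := Complex.continuous_conj.comp continuous_fst
      fun_prop
    exact h1.mul (h2.div h3)
  have h4 := (h.stronglyMeasurable.integral_prod_right' (ν := volume.restrict (ball (0:ℂ) 1)))
  exact h4.measurable.const_mul _

lemma Vf_meas {φ : ℂ → ℂ} (hφ : Measurable φ) : Measurable (Vf φ) :=
  ((cv_meas hφ).norm.div continuous_Y.measurable).ennreal_ofReal

lemma K_meas : Measurable fun x : ℂ × ℂ => K x.1 x.2 := by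
  unfold K
  have : Continuous fun x : ℂ × ℂ => conj x.2 := Complex.continuous_conj.comp continuous_snd
  have h : Continuous fun x : ℂ × ℂ => ‖x.1 - x.2‖ * ‖1 - x.1 * conj x.2‖ := by fun_prop
  exact measurable_const.div h.measurable

lemma K_meas' (z : ℂ) : Measurable (K z) := K_meas.comp measurable_prodMk_left

lemma K_nonneg (z w : ℂ) : 0 ≤ K z w := by unfold K; positivity

lemma K_eq (z w : ℂ) : K z w = 1 / (‖z - w‖ * ‖1 - conj z * w‖) := by
  unfold K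
  have : ‖1 - z * conj w‖ = ‖1 - conj z * w‖ := by
    rw [← RCLike.norm_conj]
    simp
  rw [this]

lemma KP_meas {f : ℂ → ℝ≥0∞} (hf : Measurable f) : Measurable (KP f) := by
  unfold KP
  apply Measurable.lintegral_prod_right' (f := fun x : ℂ × ℂ => ENNReal.ofReal (K x.1 x.2) * f x.2)
  exact K_meas.ennreal_ofReal.mul (hf.comp measurable_snd)

lemma KP_mono {f g : ℂ → ℝ≥0∞} (h : ∀ w ∈ (ball (0:ℂ) 1), f w ≤ g w) (z : ℂ) : KP f z ≤ KP g z := by
  apply setLIntegral_mono' measurableSet_ball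
  intro w hw
  gcongr
  exact h w hw

lemma KP_add {f g : ℂ → ℝ≥0∞} (hf : Measurable f) (z : ℂ) :
    KP (fun w => f w + g w) z = KP f z + KP g z := by
  unfold KP
  have h : Measurable fun w => ENNReal.ofReal (K z w) * f w := (K_meas' z).ennreal_ofReal.mul hf
  rw [← lintegral_add_left h]
  congr 1; ext w; ring

lemma ker_enorm {z : ℂ} (hz : z ∈ (ball (0:ℂ) 1)) (x w : ℂ) :
    ‖x * ((Y z : ℂ) / ((z - w) * (1 - conj z * w)))‖ₑ =
      ENNReal.ofReal (Y z) * (ENNReal.ofReal (K z w) * ‖x‖ₑ) := by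
  have hY := Y_pos hz
  rw [← ofReal_norm, ← ofReal_norm, ← ENNReal.ofReal_mul (K_nonneg _ _),
    ← ENNReal.ofReal_mul hY.le]
  congr 1
  rw [norm_mul, norm_div, norm_mul, Complex.norm_real, Real.norm_eq_abs, abs_of_pos hY, K_eq]
  ring

lemma Vf_eq {φ : ℂ → ℂ} {z : ℂ} (hz : z ∈ (ball (0:ℂ) 1)) :
    Vf φ z = ENNReal.ofReal (Y z)⁻¹ * ‖cv φ z‖ₑ := by
  unfold Vf
  rw [div_eq_inv_mul, ENNReal.ofReal_mul (by have := Y_pos hz; positivity), ofReal_norm]

lemma pi_inv_le : ‖((Real.pi : ℂ)⁻¹)‖ₑ ≤ 1 := by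
  rw [← ofReal_norm, ← ENNReal.ofReal_one]
  apply ENNReal.ofReal_le_ofReal
  rw [norm_inv, Complex.norm_real, Real.norm_eq_abs, abs_of_pos Real.pi_pos]
  exact inv_le_one_of_one_le₀ (by linarith [Real.pi_gt_three])

lemma Yinv_mul {z : ℂ} (hz : z ∈ (ball (0:ℂ) 1)) : ENNReal.ofReal (Y z)⁻¹ * ENNReal.ofReal (Y z) = 1 := by
  have hY := Y_pos hz
  rw [← ENNReal.ofReal_mul (by positivity), inv_mul_cancel₀ hY.ne', ENNReal.ofReal_one]

/-- `V ≤ K|φ|` -/
lemma Vf_le {φ : ℂ → ℂ} (hφ : Measurable φ) {z : ℂ} (hz : z ∈ (ball (0:ℂ) 1)) :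
    Vf φ z ≤ KP (fun w => ‖φ w‖ₑ) z := by
  rw [Vf_eq hz]
  unfold cv
  rw [enorm_mul]
  calc ENNReal.ofReal (Y z)⁻¹ * (‖((Real.pi : ℂ)⁻¹)‖ₑ *
        ‖∫ w in (ball (0:ℂ) 1), φ w * ((Y z : ℂ) / ((z - w) * (1 - conj z * w)))‖ₑ)
      ≤ ENNReal.ofReal (Y z)⁻¹ * (1 *
        ∫⁻ w in (ball (0:ℂ) 1), ‖φ w * ((Y z : ℂ) / ((z - w) * (1 - conj z * w)))‖ₑ) := by
        gcongr
        · exact pi_inv_le
        · exact enorm_integral_le_lintegral_enorm _
    _ = ENNReal.ofReal (Y z)⁻¹ * (ENNReal.ofReal (Y z) * KP (fun w => ‖φ w‖ₑ) z) := by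
        rw [one_mul]
        simp_rw [ker_enorm hz]
        rw [lintegral_const_mul]
        · rfl
        · exact (K_meas' z).ennreal_ofReal.mul hφ.enorm
    _ = _ := by rw [← mul_assoc, Yinv_mul hz, one_mul]

/-- the difference of two potentials -/
lemma Vf_sub {φ ψ : ℂ → ℂ} (hφ : Measurable φ) (hψ : Measurable ψ) {z : ℂ} (hz : z ∈ (ball (0:ℂ) 1)) :
    Vf φ z ≤ Vf ψ z + KP (fun w => ‖φ w - ψ w‖ₑ) z := by
  have hkm : Measurable fun w : ℂ => ((Y z : ℂ) / ((z - w) * (1 - conj z * w))) := by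
    apply Measurable.div measurable_const
    apply Continuous.measurable
    fun_prop
  by_cases hfin : KP (fun w => ‖φ w - ψ w‖ₑ) z = ⊤
  · rw [hfin, add_top]; exact le_top
  have hd : IntegrableOn (fun w => (φ w - ψ w) *
      ((Y z : ℂ) / ((z - w) * (1 - conj z * w)))) (ball (0:ℂ) 1) := by
    refine ⟨((hφ.sub hψ).mul hkm).aestronglyMeasurable, ?_⟩
    unfold HasFiniteIntegral
    simp_rw [ker_enorm hz]
    rw [lintegral_const_mul]
    · exact ENNReal.mul_lt_top ENNReal.ofReal_lt_top (lt_top_iff_ne_top.2 hfin)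
    · exact (K_meas' z).ennreal_ofReal.mul (hφ.sub hψ).enorm
  by_cases hi : IntegrableOn (fun w => φ w * ((Y z : ℂ) / ((z - w) * (1 - conj z * w)))) (ball (0:ℂ) 1)
  · have hi2 : IntegrableOn (fun w => ψ w * ((Y z : ℂ) / ((z - w) * (1 - conj z * w)))) (ball (0:ℂ) 1) := by
      refine (hi.sub hd).congr (Eventually.of_forall fun w => ?_)
      simp only [Pi.sub_apply]; ring
    have e : cv φ z = cv ψ z + cv (fun w => φ w - ψ w) z := by
      unfold cv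
      rw [← mul_add, ← integral_add hi2 hd]
      congr 2; ext w; ring
    have h1 := Vf_le (hφ.sub hψ) hz
    calc Vf φ z ≤ Vf ψ z + Vf (fun w => φ w - ψ w) z := by
          rw [Vf_eq hz, Vf_eq hz, Vf_eq hz, ← mul_add, e]
          gcongr
          exact enorm_add_le _ _
      _ ≤ _ := by gcongr; exact h1
  · have : cv φ z = 0 := by
      unfold cv
      rw [integral_undef hi, mul_zero]
    rw [Vf_eq hz, this]
    simp

/-- the data of the problem -/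
structure Dat (p q : ℝ) (κ F : ℂ → ℂ) : Prop where
  hpq : p.HolderConjugate q
  sol : Sol p κ F
  Fm : Measurable F
  km : Measurable κ
  bd : ∃ M : ℝ, ∀ z, ‖κ z‖ ≤ M
  sp : ∃ r₀ : ℝ, r₀ < 1 ∧ ∀ z, r₀ < ‖z‖ → κ z = 0

/-- `conj (A F - κ)` -/
noncomputable def ph (p : ℝ) (κ F : ℂ → ℂ) (w : ℂ) : ℂ := conj (A p (F w) - κ w)

lemma A_meas (p : ℝ) : Measurable (A p) := by
  unfold A
  exact (Complex.measurable_ofReal.comp (measurable_norm.pow_const _)).mul measurable_id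

variable {p q : ℝ} {κ F : ℂ → ℂ}

lemma Dat.phm (h : Dat p q κ F) : Measurable (ph p κ F) := by
  unfold ph
  exact Complex.continuous_conj.measurable.comp (((A_meas p).comp h.Fm).sub h.km)

lemma Dat.ki (h : Dat p q κ F) : IntegrableOn (fun z => ‖κ z‖ ^ q) (ball (0:ℂ) 1) := by
  obtain ⟨M, hM⟩ := h.bd
  exact bdd_int h.hpq.symm.nonneg h.km hM

lemma Dat.phq (h : Dat p q κ F) : IntegrableOn (fun z => ‖ph p κ F z‖ ^ q) (ball (0:ℂ) 1) := by
  obtain ⟨hAm, hAi⟩ := int_A (μ := volume.restrict (ball (0:ℂ) 1)) h.hpq (meas_an h.sol.an) h.sol.int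
  have := int_sub' (μ := volume.restrict (ball (0:ℂ) 1)) h.hpq.symm.nonneg hAm
    h.km.aestronglyMeasurable hAi h.ki
  refine this.congr (Eventually.of_forall fun z => ?_)
  simp only [ph, RCLike.norm_conj]

lemma Dat.phq' (h : Dat p q κ F) : ∫⁻ w in (ball (0:ℂ) 1), ‖ph p κ F w‖ₑ ^ q ≠ ⊤ := by
  have h1 := h.phq.hasFiniteIntegral
  unfold HasFiniteIntegral at h1
  have : ∫⁻ w in (ball (0:ℂ) 1), ‖ph p κ F w‖ₑ ^ q = ∫⁻ w in (ball (0:ℂ) 1), ‖‖ph p κ F w‖ ^ q‖ₑ := by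
    congr 1; ext w
    rw [← ofReal_norm (‖ph p κ F w‖ ^ q), Real.norm_eq_abs, abs_of_nonneg (by positivity),
      ← ENNReal.ofReal_rpow_of_nonneg (norm_nonneg _) h.hpq.symm.nonneg, ofReal_norm]
  rw [this]
  exact h1.ne

lemma Lq_int {f : ℂ → ℂ} {r : ℝ} (hr : 1 < r) (hf : AEStronglyMeasurable f (volume.restrict (ball (0:ℂ) 1)))
    (h : IntegrableOn (fun z => ‖f z‖ ^ r) (ball (0:ℂ) 1)) : IntegrableOn f (ball (0:ℂ) 1) := by
  have hc : IntegrableOn (fun _ : ℂ => (1:ℝ)) (ball (0:ℂ) 1) := integrableOn_const measure_ball_lt_top.ne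
  refine Integrable.mono' (hc.add h) hf (Eventually.of_forall fun z => ?_)
  simp only [Pi.add_apply]
  rcases le_or_gt ‖f z‖ 1 with h1 | h1
  · have : 0 ≤ ‖f z‖ ^ r := by positivity
    linarith
  · have : ‖f z‖ ≤ ‖f z‖ ^ r := Real.self_le_rpow_of_one_le h1.le hr.le
    linarith

lemma Dat.phi (h : Dat p q κ F) : IntegrableOn (ph p κ F) (ball (0:ℂ) 1) :=
  Lq_int h.hpq.symm.lt h.phm.aestronglyMeasurable h.phq

lemma Dat.orth (h : Dat p q κ F) : Orth (ph p κ F) := by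
  intro g hg ⟨M, hM⟩
  have hgi : IntegrableOn (fun z => ‖g z‖ ^ p) (ball (0:ℂ) 1) := by
    have hc : IntegrableOn (fun _ : ℂ => M ^ p) (ball (0:ℂ) 1) := integrableOn_const measure_ball_lt_top.ne
    refine Integrable.mono' hc ((meas_an hg).norm.aemeasurable.pow_const p).aestronglyMeasurable ?_
    refine (ae_restrict_iff' measurableSet_ball).2 (Eventually.of_forall fun z hz => ?_)
    rw [Real.norm_eq_abs, abs_of_nonneg (by positivity)]
    exact Real.rpow_le_rpow (norm_nonneg _) (hM z hz) h.hpq.nonneg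
  exact h.sol.el g hg hgi

/-- `V ∈ L^q` -/
lemma Dat.Vq (h : Dat p q κ F) (hG4 : G4) : ∫⁻ z in (ball (0:ℂ) 1), Vf (ph p κ F) z ^ q ≠ ⊤ := by
  obtain ⟨C, hC⟩ := hG4 q h.hpq.symm.lt
  have h1 := hC (fun w => ‖ph p κ F w‖ₑ) h.phm.enorm
  refine ne_top_of_le_ne_top (ENNReal.mul_ne_top ENNReal.coe_ne_top h.phq') (le_trans ?_ h1)
  apply setLIntegral_mono' measurableSet_ball
  intro z hz
  exact ENNReal.rpow_le_rpow (Vf_le h.phm hz) h.hpq.symm.nonneg

/-- the total function -/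
noncomputable def Gf (p q : ℝ) (κ F : ℂ → ℂ) (z : ℂ) : ℝ≥0∞ :=
  ‖F z‖ₑ ^ p + Vf (ph p κ F) z ^ q

lemma Dat.Gm (h : Dat p q κ F) : Measurable (Gf p q κ F) :=
  (h.Fm.enorm.pow_const p).add ((Vf_meas h.phm).pow_const q)

lemma enorm_rpow_eq {r : ℝ} (hr : 0 ≤ r) (x : ℂ) : ‖x‖ₑ ^ r = ENNReal.ofReal (‖x‖ ^ r) := by
  rw [← ENNReal.ofReal_rpow_of_nonneg (norm_nonneg _) hr, ofReal_norm]

lemma Dat.Fp (h : Dat p q κ F) : ∫⁻ z in (ball (0:ℂ) 1), ‖F z‖ₑ ^ p ≠ ⊤ := by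
  simp_rw [enorm_rpow_eq h.hpq.nonneg]
  rw [← ofReal_integral_eq_lintegral_ofReal h.sol.int
      (Eventually.of_forall fun z => by positivity)]
  exact ENNReal.ofReal_ne_top

lemma Dat.Gfin (h : Dat p q κ F) (hG4 : G4) : ∫⁻ z in (ball (0:ℂ) 1), Gf p q κ F z ≠ ⊤ := by
  unfold Gf
  rw [lintegral_add_left (h.Fm.enorm.pow_const p)]
  exact ENNReal.add_ne_top.2 ⟨h.Fp, h.Vq hG4⟩

end Pool.Agent.L0h83.BR
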